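import Pool.Agent.H.MP_43e44c_ag.LargeMain

/-!
The bound for the number of half systems with a nonzero relation for a transitive group with a
system of blocks.
-/

set_option autoImplicit false

open Finset

namespace Pool.MP43e44c

theorem card_half {Ω : Type*} [Fintype Ω] {τ : Ω → Ω} (hτ : ∀ ω, τ (τ ω) = ω) (S : Ω → Prop)
    (hS : ∀ ω, S ω ↔ ¬ S (τ ω)) : Fintype.card Ω = 2 * Nat.card {ω : Ω // S ω} := by
  classical
  rw [Nat.card_eq_fintype_card]
  have h1 : Fintype.card {ω : Ω // ¬ S ω} = Fintype.card {ω : Ω // S ω} := by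
    refine Fintype.card_congr
      { toFun := fun ω => ⟨τ ω.1, by
          by_contra h; exact ω.2 ((hS ω.1).2 h)⟩
        invFun := fun ω => ⟨τ ω.1, (hS ω.1).1 ω.2⟩
        left_inv := fun ω => Subtype.ext (hτ ω.1)
        right_inv := fun ω => Subtype.ext (hτ ω.1) }
  have h2 := Fintype.card_subtype_compl (fun ω : Ω => S ω)
  have h3 := Fintype.card_subtype_le (fun ω : Ω => S ω)
  rw [h1] at h2
  omega

/-- The number of half systems. -/
theorem card_half_systems_le {X : Type*} [Fintype X] [DecidableEq X] {c : X → X}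
    (hcc : ∀ x, c (c x) = x) (hne : ∀ x, c x ≠ x) {N : ℕ} (hX : Nat.card X = 2 * N)
    (B : Set (Finset X)) (hB : ∀ Φ ∈ B, ∀ x, x ∈ Φ ↔ c x ∉ Φ) : B.ncard ≤ 2 ^ N := by
  classical
  obtain ⟨S, hS⟩ := exists_half c hcc hne
  let R : Finset X := univ.filter fun x => S x
  have hR : ∀ x, x ∈ R ↔ S x := fun x => by simp [R]
  have hRcard : R.card = N := by
    have h1 := card_half hcc S hS
    have h2 : Nat.card {x : X // S x} = R.card := by
      rw [Nat.card_eq_fintype_card, Fintype.card_subtype]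
    rw [h2, ← Nat.card_eq_fintype_card, hX] at h1
    omega
  have h1 : B.ncard ≤ ((R.powerset : Finset (Finset X)) : Set (Finset X)).ncard := by
    refine Set.ncard_le_ncard_of_injOn (fun Φ => Φ ∩ R) ?_ ?_ (Set.toFinite _)
    · intro Φ _
      rw [mem_coe, mem_powerset]
      exact inter_subset_right
    · intro Φ hΦ Φ' hΦ' h2
      have h2' : Φ ∩ R = Φ' ∩ R := h2
      have h3 : ∀ x, S x → (x ∈ Φ ↔ x ∈ Φ') := by
        intro x hx
        have h4 : x ∈ Φ ∩ R ↔ x ∈ Φ' ∩ R := by rw [h2']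
        simpa [hR, hx] using h4
      ext x
      by_cases hx : S x
      · exact h3 x hx
      · have hcx : S (c x) := by
          by_contra h4; exact hx ((hS x).2 h4)
        rw [hB Φ hΦ x, hB Φ' hΦ' x]
        exact not_congr (h3 _ hcx)
  rwa [Set.ncard_coe_finset, card_powerset, hRcard] at h1

section Tower

variable {G X J : Type*} [Group G] [Finite G] [MulAction G X] [MulAction.IsPretransitive G X]
  [Fintype X] [MulAction G J]

open Classical in
theorem tower_count {ℓ k m r : ℕ} [hℓ : Fact ℓ.Prime] (hodd : ℓ ≠ 2) (hk : k ≠ 0)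
    {c : X → X} (hcc : ∀ x, c (c x) = x) (hcg : ∀ (g : G) x, g • c x = c (g • x))
    (hne : ∀ x, c x ≠ x) (β : X → J) (hβ : ∀ (g : G) x, β (g • x) = g • β x)
    (hβs : Function.Surjective β) (hβc : ∀ x, β (c x) = β x) (hJ : Nat.card J = r)
    (hX : Nat.card X = 2 * (r * (m * ℓ ^ k))) :
    {Φ : Finset X | (∀ x, x ∈ Φ ↔ c x ∉ Φ) ∧ ∃ f ∈ lat G c Φ, f ≠ 0}.ncard ^ 2 * (4 * ℓ)
      ≤ r ^ 2 * (2 * m) ^ (m + 1) * 4 ^ (r * (m * ℓ ^ k)) := by
  have htriv := card_half_systems_le hcc hne hX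
    {Φ : Finset X | (∀ x, x ∈ Φ ↔ c x ∉ Φ) ∧ ∃ f ∈ lat G c Φ, f ≠ 0} (fun Φ hΦ => hΦ.1)
  have hℓk : 0 < ℓ ^ k := pow_pos hℓ.out.pos _
  rcases isEmpty_or_nonempty X with hemp | ⟨⟨x₀⟩⟩
  · -- no elements
    have h1 : {Φ : Finset X | (∀ x, x ∈ Φ ↔ c x ∉ Φ) ∧ ∃ f ∈ lat G c Φ, f ≠ 0} = ∅ := by
      rw [Set.eq_empty_iff_forall_notMem]
      rintro Φ ⟨-, f, -, hf⟩
      apply hf
      funext x
      exact hemp.elim x
    rw [h1]; simp
  have hneX : Nonempty X := ⟨x₀⟩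
  have hXpos := Nat.card_pos (α := X)
  have hrm : 0 < r ∧ 0 < m := by
    rw [hX] at hXpos
    constructor
    · rcases Nat.eq_zero_or_pos r with rfl | h
      · simp at hXpos
      · exact h
    · rcases Nat.eq_zero_or_pos m with rfl | h
      · simp at hXpos
      · exact h
  obtain ⟨hrpos, hmpos⟩ := hrm
  have hm4 : 4 ≤ (2 * m) ^ (m + 1) := by
    calc 4 = 2 ^ 2 := by norm_num
      _ ≤ (2 * m) ^ 2 := Nat.pow_le_pow_left (by omega) 2
      _ ≤ (2 * m) ^ (m + 1) := Nat.pow_le_pow_right (by omega) (by omega)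
  rcases Nat.lt_or_ge r ℓ with hrℓ | hrℓ
  swap
  · -- the trivial case
    have h1 : ({Φ : Finset X | (∀ x, x ∈ Φ ↔ c x ∉ Φ) ∧ ∃ f ∈ lat G c Φ, f ≠ 0}.ncard) ^ 2
        ≤ 4 ^ (r * (m * ℓ ^ k)) := by
      refine (Nat.pow_le_pow_left htriv 2).trans (le_of_eq ?_)
      rw [← pow_mul, mul_comm _ 2, pow_mul]; norm_num
    have h2 : 4 * ℓ ≤ r ^ 2 * (2 * m) ^ (m + 1) := by
      calc 4 * ℓ = ℓ * 4 := mul_comm _ _
        _ ≤ r ^ 2 * (2 * m) ^ (m + 1) := by
            refine Nat.mul_le_mul ?_ hm4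
            calc ℓ ≤ r := hrℓ
              _ = r ^ 1 := (pow_one r).symm
              _ ≤ r ^ 2 := Nat.pow_le_pow_right hrpos (by omega)
    calc _ ≤ 4 ^ (r * (m * ℓ ^ k)) * (r ^ 2 * (2 * m) ^ (m + 1)) := Nat.mul_le_mul h1 h2
      _ = _ := by ring
  have hXF : Fintype.card X = 2 * (r * (m * ℓ ^ k)) := by rw [← hX, Nat.card_eq_fintype_card]
  have hfinJ : Finite J := Finite.of_surjective β hβs
  have : Fintype J := Fintype.ofFinite J
  -- the Sylow subgroup acts trivially on the blocks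
  let P : Sylow ℓ G := default
  have hPJ : ∀ σ ∈ (P : Subgroup G), ∀ τ : J, σ • τ = τ := by
    intro σ hσ τ
    obtain ⟨j, hj⟩ := P.isPGroup'.card_orbit τ
    have h1 : (MulAction.orbit P τ).ncard ≤ r := by
      rw [← hJ, ← Set.ncard_univ]
      exact Set.ncard_le_ncard (Set.subset_univ _) (Set.toFinite _)
    have h2 : (MulAction.orbit P τ).ncard = ℓ ^ j := by
      rw [← hj]; rfl
    have hj0 : j = 0 := by
      by_contra hj0
      have h3 : ℓ ^ 1 ≤ ℓ ^ j := Nat.pow_le_pow_right hℓ.out.pos (by omega)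
      rw [pow_one] at h3
      omega
    rw [hj0, pow_zero, Set.ncard_eq_one] at h2
    obtain ⟨a, ha⟩ := h2
    have h4 : τ ∈ MulAction.orbit P τ := MulAction.mem_orbit_self τ
    have h5 : σ • τ ∈ MulAction.orbit P τ := ⟨⟨σ, hσ⟩, rfl⟩
    rw [ha, Set.mem_singleton_iff] at h4 h5
    rw [h5, h4]
  let M₀ : Subgroup G := (MulAction.toPermHom G J).ker
  have hM₀ : ∀ g, g ∈ M₀ ↔ ∀ τ : J, g • τ = τ := by
    intro g
    rw [MonoidHom.mem_ker]
    constructor
    · intro h τ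
      have := congrArg (fun e : Equiv.Perm J => e τ) h
      exact this
    · intro h
      ext τ
      exact h τ
  have hPM₀ : (P : Subgroup G) ≤ M₀ := fun σ hσ => (hM₀ σ).2 (hPJ σ hσ)
  have hfrat := Sylow.normalizer_sup_eq_top' (N := M₀) P hPM₀
  set τ₀ : J := β x₀ with hτ₀
  have hn : ∀ τ : J, ∃ n ∈ Subgroup.normalizer (P : Set G), n • τ₀ = τ := by
    intro τ
    obtain ⟨y, rfl⟩ := hβs τ
    obtain ⟨g, hg⟩ := MulAction.exists_smul_eq G x₀ y
    have h1 : g ∈ (((Subgroup.normalizer (P : Set G)) ⊔ M₀ : Subgroup G) : Set G) := by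
      rw [hfrat]; exact Subgroup.mem_top g
    rw [Subgroup.mul_normal] at h1
    obtain ⟨a, ha, b, hb, hab⟩ := h1
    refine ⟨a, ha, ?_⟩
    have h2 : b • τ₀ = τ₀ := (hM₀ b).1 hb τ₀
    rw [← h2, ← mul_smul]
    show (a * b) • τ₀ = β y
    have h3 : a * b = g := hab
    rw [h3, hτ₀, ← hβ, hg]
  choose n hnP hnτ using hn
  have hninv : ∀ x, β ((n (β x))⁻¹ • x) = τ₀ := by
    intro x
    rw [hβ, inv_smul_eq_iff, hnτ]
  -- orbits of the Sylow subgroup
  let Ω := MulAction.orbitRel.Quotient P X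
  let mk : X → Ω := Quotient.mk (MulAction.orbitRel P X)
  have hmk : ∀ x y, mk x = mk y ↔ x ∈ MulAction.orbit P y := fun x y => Quotient.eq
  have hoo : ∀ σ : P, Odd (orderOf (σ : G)) := by
    intro σ
    obtain ⟨j, hj⟩ := P.isPGroup'.exists_orderOf_eq_pow σ
    have h1 : orderOf (σ : G) = ℓ ^ j := by
      rw [← hj]; exact Subgroup.orderOf_coe σ
    rw [h1]
    exact (hℓ.out.odd_of_ne_two hodd).pow
  have hmkβ : ∀ x y, mk x = mk y → β x = β y := by
    intro x y hxy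
    rw [hmk] at hxy
    obtain ⟨σ, hσ⟩ := hxy
    have h1 : (σ : G) • y = x := hσ
    rw [← h1, hβ]
    exact hPJ _ σ.2 _
  have hmkc : ∀ x y, mk x = mk y → mk (c x) = mk (c y) := by
    intro x y hxy
    rw [hmk] at hxy ⊢
    obtain ⟨σ, hσ⟩ := hxy
    refine ⟨σ, ?_⟩
    have h1 : (σ : G) • y = x := hσ
    show (σ : G) • c y = c x
    rw [hcg, h1]
  have hmkn : ∀ (g : G), g ∈ Subgroup.normalizer (P : Set G) → ∀ x y, mk x = mk y →
      mk (g • x) = mk (g • y) := by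
    intro g hg x y hxy
    rw [hmk] at hxy ⊢
    obtain ⟨σ, hσ⟩ := hxy
    have h1 : (σ : G) • y = x := hσ
    refine ⟨⟨g * σ * g⁻¹, (Subgroup.mem_normalizer_iff.1 hg σ).1 σ.2⟩, ?_⟩
    show (g * (σ : G) * g⁻¹) • g • y = g • x
    rw [← h1, ← mul_smul, ← mul_smul, inv_mul_cancel_right]
  have hOsize : ∀ ω : Ω, ℓ ^ k ≤ (univ.filter fun x => mk x = ω).card := by
    rintro ⟨x⟩
    have h1 : ((univ.filter fun y => mk y = mk x : Finset X) : Set X) = MulAction.orbit P x := by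
      ext y
      rw [coe_filter]
      simp only [mem_univ, true_and, Set.mem_ofPred_eq]
      exact hmk y x
    show ℓ ^ k ≤ (univ.filter fun y => mk y = mk x).card
    rw [← Set.ncard_coe_finset, h1]
    refine Nat.le_of_dvd ((Set.ncard_pos).2 (MulAction.nonempty_orbit x)) ?_
    refine dvd_card_orbit P x ?_
    rw [hX]
    exact Dvd.intro_left (2 * (r * m)) (by ring)
  have hmkne : ∀ x, mk (c x) ≠ mk x := by
    intro x h1
    rw [hmk] at h1
    obtain ⟨σ, hσ⟩ := h1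
    exact not_smul_eq_conj hcc hcg hne (hoo σ) x hσ
  have hfinΩ : Finite Ω := Finite.of_surjective mk Quotient.exists_rep
  have : Fintype Ω := Fintype.ofFinite Ω
  let τΩ : Ω → Ω := Quotient.map c (fun x y hxy => by
    have h1 : mk (c x) = mk (c y) := hmkc x y (Quotient.sound hxy)
    exact Quotient.exact h1)
  have hτΩ : ∀ ω, τΩ (τΩ ω) = ω := by
    rintro ⟨x⟩
    show mk (c (c x)) = mk x
    rw [hcc]
  -- the block over `τ₀`
  let X₀ := {x : X // β x = τ₀}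
  let G₀ : Subgroup G := MulAction.stabilizer G τ₀
  let act : MulAction G₀ X₀ :=
    { smul := fun g x => ⟨(g : G) • x.1, by
        rw [hβ, x.2]; exact g.2⟩
      one_smul := fun x => Subtype.ext (one_smul G x.1)
      mul_smul := fun g h x => Subtype.ext (mul_smul (g : G) (h : G) x.1) }
  have hact : ∀ (g : G₀) (x : X₀), ((g • x : X₀) : X) = (g : G) • (x : X) := fun _ _ => rfl
  have htrans : MulAction.IsPretransitive G₀ X₀ := ⟨by
    intro x y
    obtain ⟨g, hg⟩ := MulAction.exists_smul_eq G x.1 y.1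
    refine ⟨⟨g, ?_⟩, Subtype.ext hg⟩
    show g • τ₀ = τ₀
    calc g • τ₀ = g • β x.1 := by rw [x.2]
      _ = β (g • x.1) := (hβ _ _).symm
      _ = τ₀ := by rw [hg, y.2]⟩
  have hX₀card : Fintype.card X₀ = 2 * (m * ℓ ^ k) := by
    have h1 : ∀ τ : J, (univ.filter fun x => β x = τ).card = Fintype.card X₀ := by
      intro τ
      rw [← Fintype.card_subtype]
      refine Fintype.card_congr
        { toFun := fun x => ⟨(n τ)⁻¹ • x.1, by
            have := hninv x.1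
            rwa [x.2] at this⟩
          invFun := fun x => ⟨n τ • x.1, by rw [hβ, x.2, hnτ]⟩
          left_inv := fun x => Subtype.ext (smul_inv_smul _ _)
          right_inv := fun x => Subtype.ext (inv_smul_smul _ _) }
    have h2 : Fintype.card X = Fintype.card J * Fintype.card X₀ := by
      rw [← card_univ (α := X), card_eq_sum_card_fiberwise (f := β) (t := univ)
        (fun _ _ => mem_coe.2 (mem_univ _)), sum_congr rfl fun τ _ => h1 τ, sum_const, card_univ,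
        smul_eq_mul]
    rw [hXF, ← Nat.card_eq_fintype_card (α := J), hJ] at h2
    have h3 : r * (2 * (m * ℓ ^ k)) = r * Fintype.card X₀ := by rw [← h2]; ring
    exact (Nat.eq_of_mul_eq_mul_left hrpos h3).symm
  let Ω₀ := {ω : Ω // ∃ x, β x = τ₀ ∧ mk x = ω}
  let mk₀ : X₀ → Ω₀ := fun x => ⟨mk x.1, x.1, x.2, rfl⟩
  have hmk₀ : ∀ x y : X₀, mk₀ x = mk₀ y ↔ mk x.1 = mk y.1 := fun x y => Subtype.ext_iff
  have hmk₀s : Function.Surjective mk₀ := by
    rintro ⟨ω, x, hx, rfl⟩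
    exact ⟨⟨x, hx⟩, rfl⟩
  let τ' : Ω₀ → Ω₀ := fun ω => ⟨τΩ ω.1, by
    obtain ⟨ω, x, hx, rfl⟩ := ω
    exact ⟨c x, by rw [hβc, hx], rfl⟩⟩
  have hτ'mk : ∀ x : X₀, ∀ h : β (c x.1) = τ₀, τ' (mk₀ x) = mk₀ ⟨c x.1, h⟩ := fun x h =>
    Subtype.ext rfl
  have hτ' : ∀ ω, τ' (τ' ω) = ω := fun ω => Subtype.ext (hτΩ ω.1)
  have hτ'ne : ∀ ω, τ' ω ≠ ω := by
    rintro ⟨ω, x, hx, rfl⟩ h
    exact hmkne x (Subtype.ext_iff.1 h)
  obtain ⟨S₀, hS₀⟩ := exists_half τ' hτ' hτ'ne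
  let ι₀ := {ω : Ω₀ // S₀ ω}
  let O₀ : ι₀ → Finset X₀ := fun i => univ.filter fun x => mk₀ x = i.1
  have hO₀mem : ∀ i x, x ∈ O₀ i ↔ mk₀ x = i.1 := fun i x => by simp [O₀]
  have hO₀size : ∀ ω : Ω₀, ℓ ^ k ≤ (univ.filter fun x => mk₀ x = ω).card := by
    rintro ⟨ω, x, hx, rfl⟩
    refine (hOsize (mk x)).trans ?_
    refine card_le_card_of_injOn (fun y => if h : β y = τ₀ then (⟨y, h⟩ : X₀) else ⟨x₀, rfl⟩) ?_ ?_
    · intro y hy
      have hy' : mk y = mk x := (mem_filter.1 (mem_coe.1 hy)).2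
      have h1 : β y = τ₀ := by rw [hmkβ y x hy', hx]
      show (if h : β y = τ₀ then (⟨y, h⟩ : X₀) else ⟨x₀, rfl⟩) ∈ _
      rw [dif_pos h1, coe_filter]
      exact ⟨mem_univ _, Subtype.ext hy'⟩
    · intro y hy y' hy' h2
      have h1 : β y = τ₀ := by rw [hmkβ y x (mem_filter.1 (mem_coe.1 hy)).2, hx]
      have h1' : β y' = τ₀ := by rw [hmkβ y' x (mem_filter.1 (mem_coe.1 hy')).2, hx]
      have h3 : (if h : β y = τ₀ then (⟨y, h⟩ : X₀) else ⟨x₀, rfl⟩)
        = (if h : β y' = τ₀ then (⟨y', h⟩ : X₀) else ⟨x₀, rfl⟩) := h2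
      rw [dif_pos h1, dif_pos h1'] at h3
      exact Subtype.ext_iff.1 h3
  have hO₀ : ∀ i, Fintype.card X₀ ≤ 2 * m * (O₀ i).card := by
    intro i
    rw [hX₀card, ← mul_assoc]
    exact Nat.mul_le_mul_left _ (hO₀size i.1)
  have hO₀0 : ∀ i, 0 < (O₀ i).card := fun i => lt_of_lt_of_le hℓk (hO₀size i.1)
  have hι₀ : Fintype.card ι₀ ≤ m := by
    have h0 : Fintype.card Ω₀ = 2 * Fintype.card ι₀ := by
      rw [← Nat.card_eq_fintype_card (α := ι₀)]
      exact card_half hτ' S₀ hS₀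
    have h1 : Fintype.card Ω₀ * ℓ ^ k ≤ Fintype.card X₀ := by
      rw [← card_univ (α := X₀), card_eq_sum_card_fiberwise (f := mk₀) (t := univ)
        (fun _ _ => mem_coe.2 (mem_univ _)), ← smul_eq_mul, ← card_univ (α := Ω₀), ← sum_const]
      exact sum_le_sum fun ω _ => hO₀size ω
    rw [h0, hX₀card, ← mul_assoc] at h1
    have h2 := Nat.le_of_mul_le_mul_right h1 hℓk
    omega
  -- the common part
  obtain ⟨g₀, hg₀⟩ := exists_common (G := G₀) O₀ hO₀ hO₀0 univ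
  simp only [mem_univ, true_imp_iff] at hg₀
  set C₀ := univ.filter (fun x : X₀ => ∀ i, (g₀ i)⁻¹ • x ∈ O₀ i) with hC₀
  have hCℓ : ℓ ≤ C₀.card * (2 * m) ^ (m - 1) := by
    have h1 : 2 * (m * ℓ ^ k) ≤ C₀.card * (2 * m) ^ m := by
      rw [← hX₀card]
      refine hg₀.trans (Nat.mul_le_mul_left _ ?_)
      rw [card_univ]
      exact Nat.pow_le_pow_right (by omega) hι₀
    have h2 : (2 * m) ^ m = (2 * m) ^ (m - 1) * (2 * m) := by
      rw [← pow_succ]; congr 1; omega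
    have h3 : ℓ ^ k * (2 * m) ≤ C₀.card * (2 * m) ^ (m - 1) * (2 * m) := by
      rw [h2] at h1
      calc ℓ ^ k * (2 * m) = 2 * (m * ℓ ^ k) := by ring
        _ ≤ _ := h1
        _ = _ := by ring
    have h4 := Nat.le_of_mul_le_mul_right h3 (by omega)
    refine le_trans ?_ h4
    calc ℓ = ℓ ^ 1 := (pow_one _).symm
      _ ≤ ℓ ^ k := Nat.pow_le_pow_right hℓ.out.pos (by omega)
  -- transport to the block over `τ₀`
  let T : X → Ω₀ := fun x => mk₀ ⟨(n (β x))⁻¹ • x, hninv x⟩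
  have hT : ∀ x y, mk x = mk y → T x = T y := by
    intro x y hxy
    rw [hmk₀]
    show mk ((n (β x))⁻¹ • x) = mk ((n (β y))⁻¹ • y)
    rw [hmkβ x y hxy]
    exact hmkn _ (Subgroup.inv_mem _ (hnP _)) x y hxy
  have hTc : ∀ x, T (c x) = τ' (T x) := by
    intro x
    refine Subtype.ext ?_
    show mk ((n (β (c x)))⁻¹ • c x) = mk (c ((n (β x))⁻¹ • x))
    rw [hβc, hcg]
  let TΩ : Ω → Ω₀ := Quotient.lift T (fun x y hxy => hT x y (Quotient.sound hxy))
  have hTΩ : ∀ x, TΩ (mk x) = T x := fun _ => rfl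
  have hS : ∀ ω, S₀ (TΩ ω) ↔ ¬ S₀ (TΩ (τΩ ω)) := by
    rintro ⟨x⟩
    show S₀ (T x) ↔ ¬ S₀ (T (c x))
    rw [hTc]
    exact hS₀ (T x)
  let ι := {ω : Ω // S₀ (TΩ ω)}
  let O : ι → Finset X := fun i => univ.filter fun x => mk x = i.1
  have hOmem : ∀ i x, x ∈ O i ↔ mk x = i.1 := fun i x => by simp [O]
  have hΩ : Fintype.card Ω = 2 * Fintype.card ι := by
    rw [← Nat.card_eq_fintype_card (α := ι)]
    exact card_half hτΩ (fun ω => S₀ (TΩ ω)) hS
  have hι : Fintype.card ι ≤ r * m := by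
    have h1 : Fintype.card Ω * ℓ ^ k ≤ Fintype.card X := by
      rw [← card_univ (α := X), card_eq_sum_card_fiberwise (f := mk) (t := univ)
        (fun _ _ => mem_coe.2 (mem_univ _)), ← smul_eq_mul, ← card_univ (α := Ω), ← sum_const]
      exact sum_le_sum fun ω _ => hOsize ω
    rw [hΩ, hXF] at h1
    have h2 : 2 * Fintype.card ι * ℓ ^ k ≤ 2 * (r * m) * ℓ ^ k := by
      calc _ ≤ 2 * (r * (m * ℓ ^ k)) := h1
        _ = _ := by ring
    have h3 := Nat.le_of_mul_le_mul_right h2 hℓk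
    omega
  have hιne : Nonempty ι := by
    rw [← Fintype.card_pos_iff]
    have h1 : 0 < Fintype.card Ω := Fintype.card_pos_iff.2 ⟨mk x₀⟩
    omega
  let x' : ι → X := fun i => (Quotient.exists_rep i.1).choose
  have hx' : ∀ i, mk (x' i) = i.1 := fun i => (Quotient.exists_rep i.1).choose_spec
  let h : ι → G := fun i => (g₀ ⟨TΩ i.1, i.2⟩ : G) * (n (β (x' i)))⁻¹
  let C : Finset X := C₀.map (Function.Embedding.subtype _)
  have hCcard : C.card = C₀.card := card_map _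
  have hfin := large_core (ℓ := ℓ) hodd hcc hcg (P : Subgroup G) P.isPGroup' O ?_ ?_ ?_ ?_ ?_ h C
    ?_ (N := r * (m * ℓ ^ k)) (M := r * m) (D := (2 * m) ^ (m - 1)) hX hι
    (by rw [hCcard]; exact hCℓ) (Nat.one_le_pow _ _ (by omega))
  · have h4 : (2 * m) ^ (m + 1) = 4 * m ^ 2 * (2 * m) ^ (m - 1) := by
      have : m + 1 = (m - 1) + 2 := by omega
      rw [this, pow_add]; ring
    refine hfin.trans (le_of_eq ?_)
    rw [h4]; ring
  · intro i x hx y hy
    rw [hOmem] at hx hy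
    exact (hmk y x).1 (hy.trans hx.symm)
  · intro i
    exact ⟨x' i, (hOmem _ _).2 (hx' i)⟩
  · intro i j x hx hx'
    rw [hOmem] at hx hx'
    exact Subtype.ext (hx.symm.trans hx')
  · intro i j x hx hcx
    rw [hOmem] at hx hcx
    have h1 : τΩ i.1 = j.1 := by rw [← hx, ← hcx]; rfl
    exact (hS i.1).1 i.2 (by rw [h1]; exact j.2)
  · intro x
    by_cases h1 : S₀ (TΩ (mk x))
    · exact Or.inl ⟨⟨mk x, h1⟩, (hOmem _ _).2 rfl⟩
    · right
      have h2 : S₀ (TΩ (mk (c x))) := by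
        by_contra h3
        exact h1 ((hS (mk x)).2 h3)
      exact ⟨⟨mk (c x), h2⟩, (hOmem _ _).2 rfl⟩
  · intro x hx i
    obtain ⟨y, hy, rfl⟩ := mem_map.1 hx
    have h0 : TΩ i.1 = T (x' i) := by rw [← hTΩ, hx' i]
    have h1 := (hmk₀ _ _).1
      (((hO₀mem _ _).1 ((mem_filter.1 hy).2 ⟨TΩ i.1, i.2⟩)).trans h0)
    rw [hOmem, ← hx' i]
    have h2 : (h i)⁻¹ • (y : X) = n (β (x' i)) • ((g₀ ⟨TΩ i.1, i.2⟩ : G)⁻¹ • (y : X)) := by
      show ((g₀ ⟨TΩ i.1, i.2⟩ : G) * (n (β (x' i)))⁻¹)⁻¹ • (y : X) = _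
      rw [mul_inv_rev, inv_inv, mul_smul]
    show mk ((h i)⁻¹ • (y : X)) = mk (x' i)
    rw [h2]
    have h3 := hmkn _ (hnP (β (x' i))) _ _ h1
    rw [smul_inv_smul] at h3
    rw [← h3]
    rfl

end Tower

end Pool.MP43e44c
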