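import Pool.Agent.H.MP_43e44c_ag.Grp

/-!
Elementary estimates: the maximal probability, the totient function, a convergent sum.
-/

set_option autoImplicit false

open Finset

namespace Pool.MP43e44c

theorem maxProb_nonneg (k : ℕ) : 0 ≤ maxProb k := by unfold maxProb; positivity

theorem centralBinom_sq_le_two (j : ℕ) : (Nat.centralBinom j) ^ 2 * (2 * j + 1) ≤ 16 ^ j := by
  induction j with
  | zero => simp
  | succ n ih =>
    have h1 := Nat.succ_mul_centralBinom_succ n
    have h2 : (n + 1) ^ 2 * (Nat.centralBinom (n + 1) ^ 2 * (2 * (n + 1) + 1))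
        ≤ (n + 1) ^ 2 * 16 ^ (n + 1) := by
      calc (n + 1) ^ 2 * (Nat.centralBinom (n + 1) ^ 2 * (2 * (n + 1) + 1))
          = ((n + 1) * Nat.centralBinom (n + 1)) ^ 2 * (2 * (n + 1) + 1) := by ring
        _ = (2 * (2 * n + 1) * Nat.centralBinom n) ^ 2 * (2 * (n + 1) + 1) := by rw [h1]
        _ = (4 * (2 * n + 1) * (2 * n + 3)) * (Nat.centralBinom n ^ 2 * (2 * n + 1)) := by ring
        _ ≤ (4 * (2 * n + 1) * (2 * n + 3)) * 16 ^ n := Nat.mul_le_mul_left _ ih
        _ ≤ (16 * (n + 1) ^ 2) * 16 ^ n := Nat.mul_le_mul_right _ (by nlinarith)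
        _ = (n + 1) ^ 2 * 16 ^ (n + 1) := by ring
    exact Nat.le_of_mul_le_mul_left h2 (by positivity)

theorem choose_sq_le (k : ℕ) : (k.choose (k / 2)) ^ 2 * (k + 1) ≤ 4 ^ k := by
  rcases Nat.even_or_odd' k with ⟨j, rfl | rfl⟩
  · have h1 := centralBinom_sq_le_two j
    have h2 : 2 * j / 2 = j := by omega
    rw [h2, ← Nat.centralBinom_eq_two_mul_choose]
    calc _ ≤ 16 ^ j := h1
      _ = 4 ^ (2 * j) := by rw [pow_mul]; norm_num
  · have h1 := centralBinom_sq_le_two (j + 1)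
    have h2 : (2 * j + 1) / 2 = j := by omega
    rw [h2]
    have h3 : Nat.centralBinom (j + 1) = 2 * (2 * j + 1).choose j := by
      rw [Nat.centralBinom_eq_two_mul_choose, show 2 * (j + 1) = (2 * j + 1) + 1 by ring,
        Nat.choose_succ_succ]
      have : (2 * j + 1).choose (j + 1) = (2 * j + 1).choose j := by
        apply Nat.choose_symm_of_eq_add; ring
      rw [this]; ring
    rw [h3] at h1
    have h4 : (16 : ℕ) ^ (j + 1) = 4 * 4 ^ (2 * j + 1) := by
      rw [pow_succ, pow_succ, pow_mul]; norm_num; ring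
    rw [h4] at h1
    have h5 : 4 * ((2 * j + 1).choose j ^ 2 * (2 * j + 1 + 1)) ≤ 4 * 4 ^ (2 * j + 1) := by
      refine le_trans ?_ h1
      nlinarith [Nat.zero_le ((2 * j + 1).choose j ^ 2)]
    exact Nat.le_of_mul_le_mul_left h5 (by norm_num)

theorem maxProb_sq_le (k : ℕ) : maxProb k ^ 2 ≤ 1 / (k + 1) := by
  have h := choose_sq_le k
  have h' : ((k.choose (k / 2) : ℝ)) ^ 2 * (k + 1) ≤ 4 ^ k := by exact_mod_cast h
  have h4 : (4 : ℝ) ^ k = (2 ^ k) ^ 2 := by rw [← pow_mul, mul_comm k 2, pow_mul]; norm_num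
  rw [maxProb, div_pow, div_le_div_iff₀ (by positivity) (by positivity), one_mul, ← h4]
  exact h'

theorem maxProb_le (k : ℕ) : maxProb k ≤ 1 / √(k + 1) := by
  have h := maxProb_sq_le k
  have h1 : (1 / √((k : ℝ) + 1)) ^ 2 = 1 / (k + 1) := by
    rw [div_pow, Real.sq_sqrt (by positivity), one_pow]
  rw [← h1] at h
  exact (pow_le_pow_iff_left₀ (maxProb_nonneg k) (by positivity) two_ne_zero).1 h

theorem maxProb_le' {k : ℕ} (hk : 1 ≤ k) : maxProb k ≤ 1 / √2 := by
  refine (maxProb_le k).trans ?_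
  apply one_div_le_one_div_of_le (by positivity)
  apply Real.sqrt_le_sqrt
  have : (1 : ℝ) ≤ k := by exact_mod_cast hk
  linarith

/-- First estimate for the terms of the union bound. -/
theorem term_le_one {m k D e : ℕ} (hD : D = m * k) (hm : 0 < m) (hk : 0 < k) (he : 1 ≤ e) :
    maxProb k ^ e ≤ (1 / √D) * (√2 * m * (1 / √2) ^ e) := by
  obtain ⟨e, rfl⟩ := Nat.exists_eq_add_of_le' he
  have h1 : (1 / √2 : ℝ) ^ (e + 1) * √2 = (1 / √2) ^ e := by
    rw [pow_succ]; field_simp
  have h2 : maxProb k ≤ m * (1 / √D) := by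
    refine (maxProb_le k).trans ?_
    have hm' : (1 : ℝ) ≤ m := by exact_mod_cast hm
    have hk' : (0 : ℝ) < k := by exact_mod_cast hk
    rw [hD]; push_cast
    rw [Real.sqrt_mul (by positivity)]
    have h3 : √(k : ℝ) ≤ √((k : ℝ) + 1) := Real.sqrt_le_sqrt (by linarith)
    have h4 : √(m : ℝ) ≤ m := by
      rw [Real.sqrt_le_left (by positivity)]; nlinarith
    have h5 : 0 < √(m : ℝ) := Real.sqrt_pos.2 (by linarith)
    have h6 : 0 < √(k : ℝ) := Real.sqrt_pos.2 hk'
    rw [mul_one_div, div_le_div_iff₀ (by linarith) (by positivity), one_mul]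
    exact mul_le_mul h4 h3 h6.le (by linarith)
  calc maxProb k ^ (e + 1) = maxProb k ^ e * maxProb k := pow_succ _ _
    _ ≤ (1 / √2) ^ e * (m * (1 / √D)) := by
        apply mul_le_mul (pow_le_pow_left₀ (maxProb_nonneg k) (maxProb_le' hk) e) h2
          (maxProb_nonneg k) (by positivity)
    _ = _ := by rw [← h1]; ring

/-- Second estimate for the terms of the union bound. -/
theorem term_le_two {m k D e : ℕ} (hD : D = m * k) (hm : 0 < m) (hk : 0 < k) (he : 2 ≤ e) :
    maxProb k ^ e ≤ (1 / D) * (2 * m * (1 / √2) ^ e) := by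
  obtain ⟨e, rfl⟩ := Nat.exists_eq_add_of_le' he
  have h1 : (1 / √2 : ℝ) ^ (e + 2) * 2 = (1 / √2) ^ e := by
    rw [pow_add, div_pow 1 (√2) 2, Real.sq_sqrt (by norm_num)]; ring
  have h2 : maxProb k ^ 2 ≤ m * (1 / D) := by
    refine (maxProb_sq_le k).trans ?_
    have hm' : (0 : ℝ) < m := by exact_mod_cast hm
    have hk' : (0 : ℝ) < k := by exact_mod_cast hk
    rw [hD]; push_cast
    rw [mul_one_div, div_le_div_iff₀ (by linarith) (by positivity), one_mul]
    nlinarith
  calc maxProb k ^ (e + 2) = maxProb k ^ e * maxProb k ^ 2 := pow_add _ _ _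
    _ ≤ (1 / √2) ^ e * (m * (1 / D)) := by
        apply mul_le_mul (pow_le_pow_left₀ (maxProb_nonneg k) (maxProb_le' hk) e) h2
          (by positivity) (by positivity)
    _ = _ := by rw [← h1]; ring

theorem totient_sq_aux (m : ℕ) : (Odd m → m ≤ Nat.totient m ^ 2) ∧ m ≤ 2 * Nat.totient m ^ 2 := by
  induction m using Nat.recOnPosPrimePosCoprime with
  | prime_pow p n hp hn =>
    rw [Nat.totient_prime_pow hp hn]
    obtain ⟨n, rfl⟩ := Nat.exists_eq_succ_of_ne_zero hn.ne'
    simp only [Nat.succ_eq_add_one, Nat.add_sub_cancel]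
    rcases hp.eq_two_or_odd' with rfl | hodd
    · refine ⟨fun h => ?_, ?_⟩
      · exfalso
        rw [Nat.odd_pow_iff (by omega)] at h
        exact absurd h (by decide)
      · have h1 : 1 ≤ 2 ^ n := Nat.one_le_two_pow
        rw [pow_succ]
        nlinarith
    · obtain ⟨j, rfl⟩ := hodd
      have hj : 1 ≤ j := by
        rcases Nat.eq_zero_or_pos j with rfl | h
        · exact absurd hp (by decide)
        · exact h
      have key : (2 * j + 1) ^ (n + 1) ≤ ((2 * j + 1) ^ n * (2 * j + 1 - 1)) ^ 2 := by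
        have h1 : 1 ≤ (2 * j + 1) ^ n := Nat.one_le_pow _ _ (by omega)
        have h2 : 2 * j + 1 - 1 = 2 * j := by omega
        rw [h2, pow_succ, mul_pow]
        have h3 : (2 * j + 1) ^ n ≤ ((2 * j + 1) ^ n) ^ 2 := by nlinarith
        have h4 : 2 * j + 1 ≤ (2 * j) ^ 2 := by nlinarith
        exact Nat.mul_le_mul h3 h4
      exact ⟨fun _ => key, key.trans (by omega)⟩
  | zero => simp
  | one => simp
  | coprime a b ha hb hab iha ihb =>
    rw [Nat.totient_mul hab]
    refine ⟨fun h => ?_, ?_⟩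
    · rw [Nat.odd_mul] at h
      have h1 := iha.1 h.1
      have h2 := ihb.1 h.2
      rw [mul_pow]
      exact Nat.mul_le_mul h1 h2
    · rw [mul_pow]
      rcases Nat.even_or_odd a with hae | hao
      · have hbo : Odd b := by
          by_contra hbe
          rw [Nat.not_odd_iff_even] at hbe
          exact (Nat.not_coprime_of_dvd_of_dvd (d := 2) (by norm_num) hae.two_dvd hbe.two_dvd) hab
        have h1 := iha.2
        have h2 := ihb.1 hbo
        calc a * b ≤ (2 * Nat.totient a ^ 2) * (Nat.totient b ^ 2) := Nat.mul_le_mul h1 h2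
          _ = _ := by ring
      · have h1 := iha.1 hao
        have h2 := ihb.2
        calc a * b ≤ (Nat.totient a ^ 2) * (2 * Nat.totient b ^ 2) := Nat.mul_le_mul h1 h2
          _ = _ := by ring

theorem le_totient_sq (m : ℕ) : m ≤ 2 * Nat.totient m ^ 2 := (totient_sq_aux m).2

theorem exists_bound (j : ℕ) :
    ∃ C : ℝ, 0 ≤ C ∧ ∀ m : ℕ, (m : ℝ) ^ j * (1 / √2) ^ Nat.totient m ≤ C := by
  have h2 : (1 : ℝ) < √2 := Real.lt_sqrt_of_sq_lt (by norm_num)
  have hlt : (1 / √2 : ℝ) < 1 := by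
    rw [div_lt_one (by positivity)]; exact h2
  have ht := tendsto_pow_const_mul_const_pow_of_lt_one (2 * j) (r := 1 / √2) (by positivity) hlt
  obtain ⟨B, hB⟩ := ht.bddAbove_range
  refine ⟨2 ^ j * max B 0, by positivity, fun m => ?_⟩
  have h3 : (m : ℝ) ≤ 2 * (Nat.totient m : ℝ) ^ 2 := by exact_mod_cast le_totient_sq m
  have h4 := hB ⟨Nat.totient m, rfl⟩
  simp only at h4
  calc (m : ℝ) ^ j * (1 / √2) ^ Nat.totient m
      ≤ (2 * (Nat.totient m : ℝ) ^ 2) ^ j * (1 / √2) ^ Nat.totient m :=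
        mul_le_mul_of_nonneg_right (pow_le_pow_left₀ (by positivity) h3 j) (by positivity)
    _ = 2 ^ j * ((Nat.totient m : ℝ) ^ (2 * j) * (1 / √2) ^ Nat.totient m) := by
        rw [mul_pow, ← pow_mul]; ring
    _ ≤ 2 ^ j * max B 0 := mul_le_mul_of_nonneg_left (h4.trans (le_max_left _ _)) (by positivity)

theorem exists_sum_bound (j : ℕ) :
    ∃ C : ℝ, 0 ≤ C ∧ ∀ T : Finset ℕ, ∑ m ∈ T, (m : ℝ) ^ j * (1 / √2) ^ Nat.totient m ≤ C := by
  obtain ⟨C, hC0, hC⟩ := exists_bound (j + 2)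
  have hs : Summable fun n : ℕ => 1 / (n : ℝ) ^ 2 := Real.summable_one_div_nat_pow.2 (by norm_num)
  refine ⟨1 + C * ∑' n : ℕ, 1 / (n : ℝ) ^ 2, ?_, fun T => ?_⟩
  · have : (0 : ℝ) ≤ ∑' n : ℕ, 1 / (n : ℝ) ^ 2 := tsum_nonneg fun n => by positivity
    positivity
  have h1 : ∀ m ∈ T, (m : ℝ) ^ j * (1 / √2) ^ Nat.totient m
      ≤ (if m = 0 then 1 else 0) + C * (1 / (m : ℝ) ^ 2) := by
    intro m _
    by_cases hm : m = 0
    · subst hm
      rcases Nat.eq_zero_or_pos j with rfl | hj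
      · simp
      · simp [hj.ne']
    · have hm' : (0 : ℝ) < m := by exact_mod_cast Nat.pos_of_ne_zero hm
      rw [if_neg hm, zero_add, mul_one_div, le_div_iff₀ (by positivity)]
      calc (m : ℝ) ^ j * (1 / √2) ^ Nat.totient m * (m : ℝ) ^ 2
          = (m : ℝ) ^ (j + 2) * (1 / √2) ^ Nat.totient m := by rw [pow_add]; ring
        _ ≤ C := hC m
  refine (sum_le_sum h1).trans ?_
  rw [sum_add_distrib, ← mul_sum]
  refine add_le_add ?_ (mul_le_mul_of_nonneg_left (hs.sum_le_tsum _ fun n _ => by positivity) hC0)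
  rw [sum_ite_eq' T 0]
  split_ifs <;> norm_num

/-- The number of subgroups with cyclic quotient of order `m`. -/
theorem card_quot_le {G : Type*} [CommGroup G] [Finite G] {r : ℕ} (s : Fin r → G)
    (hs : Subgroup.closure (Set.range s) = ⊤) {m : ℕ} (hm : 0 < m) (T : Finset (Subgroup G))
    (hT : ∀ N ∈ T, IsCyclic (G ⧸ N) ∧ N.index = m) : T.card ≤ m ^ r := by
  classical
  haveI : NeZero m := ⟨hm.ne'⟩
  have hex : ∀ N : Subgroup G, ∃ f : G →* rootsOfUnity m ℂ, N ∈ T → f.ker = N := by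
    intro N
    by_cases hN : N ∈ T
    · obtain ⟨h1, h2⟩ := hT N hN
      haveI := h1
      have h3 : Nat.card (G ⧸ N) = Nat.card (rootsOfUnity m ℂ) := by
        rw [← Subgroup.index_eq_card, h2, Complex.card_rootsOfUnity]
      let e := mulEquivOfCyclicCardEq h3
      refine ⟨e.toMonoidHom.comp (QuotientGroup.mk' N), fun _ => ?_⟩
      ext g
      rw [MonoidHom.mem_ker, MonoidHom.comp_apply]
      constructor
      · intro h
        have : e (QuotientGroup.mk' N g) = 1 := h
        rw [map_eq_one_iff e e.injective] at this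
        simpa using this
      · intro h
        have : QuotientGroup.mk' N g = 1 := by simpa using h
        rw [this]; exact map_one _
    · exact ⟨1, fun h => absurd h hN⟩
  choose f hf using hex
  letI : Fintype (rootsOfUnity m ℂ) := Fintype.ofFinite _
  have h1 : T.card ≤ (univ : Finset (Fin r → rootsOfUnity m ℂ)).card := by
    refine card_le_card_of_injOn (fun N i => f N (s i)) (fun _ _ => mem_coe.2 (mem_univ _)) ?_
    intro N hN N' hN' h
    have h2 : f N = f N' := by
      refine MonoidHom.eq_of_eqOn_dense hs ?_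
      rintro _ ⟨i, rfl⟩
      exact congrFun h i
    rw [← hf N hN, h2, hf N' hN']
  refine h1.trans (le_of_eq ?_)
  rw [card_univ, Fintype.card_fun, Fintype.card_fin, ← Nat.card_eq_fintype_card,
    Complex.card_rootsOfUnity]

/-- Summation over a finite family with a multiplicity bound. -/
theorem sum_fiber_le {ι : Type*} (S : Finset ι) (d : ι → ℕ) (r : ℕ)
    (hcard : ∀ m, (S.filter fun F => d F = m).card ≤ m ^ r) (a : ι → ℝ) (B : ℕ → ℝ)
    (hB : ∀ m, 0 ≤ B m) (ha : ∀ F ∈ S, a F ≤ B (d F)) :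
    ∑ F ∈ S, a F ≤ ∑ m ∈ S.image d, (m : ℝ) ^ r * B m := by
  classical
  calc ∑ F ∈ S, a F ≤ ∑ F ∈ S, B (d F) := sum_le_sum ha
    _ = ∑ m ∈ S.image d, ∑ F ∈ S.filter fun F => d F = m, B (d F) := by
        rw [sum_fiberwise_of_maps_to (fun F hF => mem_image_of_mem d hF)]
    _ ≤ _ := by
        refine sum_le_sum fun m _ => ?_
        rw [sum_congr rfl (g := fun _ => B m) (fun F hF => by rw [(mem_filter.1 hF).2]),
          sum_const, nsmul_eq_mul]
        exact mul_le_mul_of_nonneg_right (by exact_mod_cast hcard m) (hB m)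

end Pool.MP43e44c
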