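import Pool.Agent.H.MP_43e44c_ag.Fix

/-!
The lattice of odd functions orthogonal to all translates of a half system, and the sign of the
permutations of a set with a free involution.
-/

set_option autoImplicit false

open Finset

namespace Pool.MP43e44c

section Lattice

variable {G X : Type*} [Group G] [MulAction G X] [Fintype X]

/-- The sign function of a half system. -/
noncomputable def sg (Φ : Finset X) (x : X) : ℤ := by
  classical
  exact if x ∈ Φ then 1 else -1

theorem sg_mem {Φ : Finset X} {x : X} (h : x ∈ Φ) : sg Φ x = 1 := if_pos h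

theorem sg_notMem {Φ : Finset X} {x : X} (h : x ∉ Φ) : sg Φ x = -1 := if_neg h

theorem sg_conj {c : X → X} {Φ : Finset X} (hΦ : ∀ x, x ∈ Φ ↔ c x ∉ Φ) (x : X) :
    sg Φ (c x) = - sg Φ x := by
  by_cases h : x ∈ Φ
  · rw [sg_mem h, sg_notMem ((hΦ x).1 h)]
  · have h' : c x ∈ Φ := by
      by_contra h2; exact h ((hΦ x).2 h2)
    rw [sg_notMem h, sg_mem h', neg_neg]

variable (G) in
/-- Odd functions orthogonal to all translates of the sign function. -/
def lat (c : X → X) (Φ : Finset X) : AddSubgroup (X → ℤ) where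
  carrier := {f | (∀ x, f (c x) = - f x) ∧ ∀ g : G, ∑ x, f x * sg Φ (g • x) = 0}
  zero_mem' := ⟨fun x => by simp, fun g => by simp⟩
  add_mem' := by
    rintro f f' ⟨h1, h2⟩ ⟨h1', h2'⟩
    refine ⟨fun x => ?_, fun g => ?_⟩
    · rw [Pi.add_apply, Pi.add_apply, h1, h1']; ring
    · simp only [Pi.add_apply, add_mul, sum_add_distrib, h2, h2', add_zero]
  neg_mem' := by
    rintro f ⟨h1, h2⟩
    refine ⟨fun x => ?_, fun g => ?_⟩
    · rw [Pi.neg_apply, Pi.neg_apply, h1]
    · simp only [Pi.neg_apply, neg_mul, sum_neg_distrib, h2, neg_zero]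

theorem lat_smul {c : X → X} (hcg : ∀ (g : G) x, g • c x = c (g • x)) {Φ : Finset X} (σ : G)
    {f : X → ℤ} (hf : f ∈ lat G c Φ) : (fun x => f (σ • x)) ∈ lat G c Φ := by
  obtain ⟨h1, h2⟩ := hf
  refine ⟨fun x => ?_, fun g => ?_⟩
  · show f (σ • c x) = - f (σ • x)
    rw [hcg, h1]
  · rw [← h2 (g * σ⁻¹)]
    refine Fintype.sum_equiv (MulAction.toPerm σ) _ _ fun x => ?_
    rw [MulAction.toPerm_apply, mul_smul, inv_smul_smul]

theorem lat_sat {c : X → X} {Φ : Finset X} {ℓ : ℕ} (hℓ : ℓ ≠ 0) {f : X → ℤ}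
    (hf : (fun x => (ℓ : ℤ) * f x) ∈ lat G c Φ) : f ∈ lat G c Φ := by
  have h0 : (ℓ : ℤ) ≠ 0 := by exact_mod_cast hℓ
  obtain ⟨h1, h2⟩ := hf
  refine ⟨fun x => ?_, fun g => ?_⟩
  · have := h1 x
    simp only at this
    apply mul_left_cancel₀ h0
    rw [this]; ring
  · have := h2 g
    simp only [mul_assoc] at this
    rw [← mul_sum] at this
    exact (mul_eq_zero.1 this).resolve_left h0

open Classical in
theorem lat_ne {c : X → X} (hcc : ∀ x, c (c x) = x) (hcg : ∀ (g : G) x, g • c x = c (g • x))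
    {Φ : Finset X} (hΦ : ∀ x, x ∈ Φ ↔ c x ∉ Φ) {ι : Type*} [Fintype ι] (t : ι → X)
    (hbal : ∀ g : G, (univ.filter fun l => g • t l ∈ Φ).card
        = (univ.filter fun l => ¬ g • t l ∈ Φ).card)
    (hasym : ∃ x, (univ.filter fun l => t l = x).card
        ≠ (univ.filter fun l => t l = c x).card) :
    ∃ f ∈ lat G c Φ, f ≠ 0 ∧ ∀ x, f x = ((univ.filter fun l => t l = x).card : ℤ)
      - ((univ.filter fun l => t l = c x).card : ℤ) := by
  let M : X → ℤ := fun x => ((univ.filter fun l => t l = x).card : ℤ)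
  have hM : ∀ F : X → ℤ, ∑ x, M x * F x = ∑ l, F (t l) := by
    intro F
    rw [← sum_fiberwise (s := univ) (g := t) (f := fun l => F (t l))]
    refine sum_congr rfl fun x _ => ?_
    rw [sum_congr rfl (g := fun _ => F x)]
    · rw [sum_const, nsmul_eq_mul]
    · intro l hl
      rw [(mem_filter.1 hl).2]
  refine ⟨fun x => M x - M (c x), ⟨fun x => ?_, fun g => ?_⟩, ?_, fun x => rfl⟩
  · simp only [hcc]; ring
  · simp only [sub_mul, sum_sub_distrib]
    have h1 : ∑ x, M (c x) * sg Φ (g • x) = ∑ x, M x * sg Φ (g • c x) :=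
      Fintype.sum_equiv (⟨c, c, hcc, hcc⟩ : X ≃ X) _ _ fun x => by
        show M (c x) * sg Φ (g • x) = M (c x) * sg Φ (g • c (c x))
        rw [hcc]
    rw [h1, hM fun x => sg Φ (g • x), hM fun x => sg Φ (g • c x)]
    have h2 : ∀ l, sg Φ (g • c (t l)) = - sg Φ (g • t l) := fun l => by
      rw [hcg, sg_conj hΦ]
    simp only [h2, sum_neg_distrib, sub_neg_eq_add]
    have h3 : ∑ l, sg Φ (g • t l) = 0 := by
      have h4 : ∀ l, sg Φ (g • t l) = if g • t l ∈ Φ then 1 else -1 := fun l => by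
        unfold sg; rfl
      rw [sum_congr rfl fun l _ => h4 l, sum_ite, sum_const, sum_const, hbal g]
      simp
    rw [h3, add_zero]
  · obtain ⟨x, hx⟩ := hasym
    intro h
    have := congrFun h x
    apply hx
    simp only [Pi.zero_apply, sub_eq_zero, M] at this
    exact_mod_cast this

/-- Sums of even functions over a half system. -/
theorem sum_half {c : X → X} (hcc : ∀ x, c (c x) = x) {Φ : Finset X}
    (hΦ : ∀ x, x ∈ Φ ↔ c x ∉ Φ) (F : X → ℤ) (hF : ∀ x, F (c x) = F x) :
    ∑ x, F x = 2 * ∑ x ∈ Φ, F x := by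
  classical
  have h1 : ∑ x ∈ Φᶜ, F x = ∑ x ∈ Φ, F x := by
    refine sum_nbij' c c ?_ ?_ (fun x _ => hcc x) (fun x _ => hcc x) (fun x _ => (hF x).symm)
    · intro x hx
      rw [mem_compl] at hx
      by_contra h2
      exact hx ((hΦ x).2 h2)
    · intro x hx
      rw [mem_compl]
      exact (hΦ x).1 hx
  rw [← sum_add_sum_compl Φ, h1]
  ring

open Classical in
/-- If an odd function with odd values is orthogonal to all translates then every group element
moves an even number of elements out of the half system. -/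
theorem even_card_of_odd {c : X → X} (hcc : ∀ x, c (c x) = x)
    (hcg : ∀ (g : G) x, g • c x = c (g • x)) {Φ : Finset X} (hΦ : ∀ x, x ∈ Φ ↔ c x ∉ Φ)
    {f : X → ℤ} (hf : f ∈ lat G c Φ) (hodd : ∀ x, Odd (f x)) (g : G) :
    Even (Φ.filter fun x => g • x ∉ Φ).card := by
  obtain ⟨h1, h2⟩ := hf
  have h3 : ∀ g : G, ∑ x ∈ Φ, f x * sg Φ (g • x) = 0 := by
    intro g
    have := sum_half hcc hΦ (fun x => f x * sg Φ (g • x)) (fun x => by
      show f (c x) * sg Φ (g • c x) = _
      rw [hcg, sg_conj hΦ, h1, neg_mul_neg])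
    rw [h2 g] at this
    omega
  have h4 := h3 1
  have h5 := h3 g
  have h6 : ∑ x ∈ Φ, f x * sg Φ ((1 : G) • x) - ∑ x ∈ Φ, f x * sg Φ (g • x)
      = 2 * ∑ x ∈ Φ.filter (fun x => g • x ∉ Φ), f x := by
    rw [← sum_sub_distrib, mul_sum, sum_filter]
    refine sum_congr rfl fun x hx => ?_
    rw [one_smul, sg_mem hx]
    by_cases h : g • x ∈ Φ
    · rw [sg_mem h, if_neg (not_not.2 h)]; ring
    · rw [sg_notMem h, if_pos h]; ring
  rw [h4, h5] at h6
  have h7 : ∑ x ∈ Φ.filter (fun x => g • x ∉ Φ), f x = 0 := by omega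
  have h8 : (2 : ℤ) ∣ ∑ x ∈ Φ.filter (fun x => g • x ∉ Φ), (f x - 1) :=
    dvd_sum fun x _ => by
      obtain ⟨k, hk⟩ := hodd x
      exact ⟨k, by rw [hk]; ring⟩
  rw [sum_sub_distrib, h7, sum_const, nsmul_eq_mul, mul_one, zero_sub, Int.dvd_neg] at h8
  exact even_iff_two_dvd.2 (by exact_mod_cast h8)

end Lattice

section Sign

variable {X : Type*} [Fintype X] [DecidableEq X]

/-- A set with a half system is a product with `Bool`. -/
noncomputable def boolEquiv {c : X → X} (hcc : ∀ x, c (c x) = x) {Φ : Finset X}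
    (hΦ : ∀ x, x ∈ Φ ↔ c x ∉ Φ) : Φ × Bool ≃ X where
  toFun := fun y => if y.2 then c y.1 else y.1
  invFun := fun x => if h : x ∈ Φ then (⟨x, h⟩, false)
    else (⟨c x, by by_contra h2; exact h ((hΦ x).2 h2)⟩, true)
  left_inv := by
    rintro ⟨⟨x, hx⟩, b⟩
    cases b
    · simp [hx]
    · have := (hΦ x).1 hx
      simp [this, hcc]
  right_inv := by
    intro x
    by_cases h : x ∈ Φ
    · simp [h]
    · simp [h, hcc]

theorem sign_eq_of_comm {c : X → X} (hcc : ∀ x, c (c x) = x) {Φ : Finset X}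
    (hΦ : ∀ x, x ∈ Φ ↔ c x ∉ Φ) (π : Equiv.Perm X) (hπ : ∀ x, π (c x) = c (π x)) :
    Equiv.Perm.sign π = (-1) ^ (Φ.filter fun x => π x ∉ Φ).card := by
  classical
  -- the permutation of the half system
  let σ₀ : Φ → Φ := fun x => if h : π x ∈ Φ then ⟨π x, h⟩
    else ⟨c (π x), by by_contra h2; exact h ((hΦ _).2 h2)⟩
  have hσ₀ : Function.Injective σ₀ := by
    rintro ⟨x, hx⟩ ⟨y, hy⟩ hxy
    apply Subtype.ext
    show x = y
    simp only [σ₀] at hxy
    split_ifs at hxy with h1 h2 h2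
    · exact π.injective (congrArg Subtype.val hxy)
    · exfalso
      have h3 : π x = c (π y) := congrArg Subtype.val hxy
      rw [← hπ] at h3
      have h4 : x = c y := π.injective h3
      rw [h4] at hx
      exact (hΦ y).1 hy hx
    · exfalso
      have h3 : c (π x) = π y := congrArg Subtype.val hxy
      rw [← hπ] at h3
      have h4 : c x = y := π.injective h3
      rw [← h4] at hy
      exact (hΦ x).1 hx hy
    · have h3 : c (π x) = c (π y) := congrArg Subtype.val hxy
      have h4 := congrArg c h3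
      rw [hcc, hcc] at h4
      exact π.injective h4
  let σ : Equiv.Perm Φ := Equiv.ofBijective σ₀ (Finite.injective_iff_bijective.1 hσ₀)
  let b : Φ → Equiv.Perm Bool := fun x => if π x ∈ Φ then 1 else Equiv.swap false true
  have hsign : Equiv.Perm.sign π = Equiv.Perm.sign
      ((Equiv.prodCongrLeft fun _ : Bool => σ) * (Equiv.prodCongrRight b) :
        Equiv.Perm (Φ × Bool)) := by
    refine (Equiv.Perm.sign_eq_sign_of_equiv _ _ (boolEquiv hcc hΦ) ?_).symm
    rintro ⟨⟨x, hx⟩, β⟩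
    show (boolEquiv hcc hΦ) (σ ⟨x, hx⟩, b ⟨x, hx⟩ β) = π (boolEquiv hcc hΦ (⟨x, hx⟩, β))
    by_cases h : π x ∈ Φ
    · have h1 : b ⟨x, hx⟩ β = β := by simp [b, h]
      have h2 : (σ ⟨x, hx⟩ : X) = π x := by simp [σ, σ₀, h]
      rw [h1]
      cases β
      · simp [boolEquiv, h2]
      · simp [boolEquiv, h2, hπ]
    · have h1 : b ⟨x, hx⟩ β = !β := by
        simp only [b, h, if_false]
        cases β <;> decide
      have h2 : (σ ⟨x, hx⟩ : X) = c (π x) := by simp [σ, σ₀, h]
      rw [h1]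
      cases β
      · simp [boolEquiv, h2, hcc]
      · simp [boolEquiv, h2, hπ]
  rw [hsign, Equiv.Perm.sign_mul, Equiv.Perm.sign_prodCongrLeft, Equiv.Perm.sign_prodCongrRight]
  have h3 : ∏ _k : Bool, Equiv.Perm.sign σ = 1 := by
    rw [prod_const, card_univ, Fintype.card_bool, Int.units_sq]
  have h4 : ∀ x : Φ, Equiv.Perm.sign (b x) = if π x ∈ Φ then 1 else -1 := by
    intro x
    simp only [b]
    split_ifs
    · rfl
    · exact Equiv.Perm.sign_swap (by decide)
  rw [h3, one_mul, prod_congr rfl fun x _ => h4 x, prod_coe_sort Φ fun x => if π x ∈ Φ then (1 : ℤˣ) else -1,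
    prod_ite, prod_const_one, one_mul, prod_const]

end Sign

end Pool.MP43e44c
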