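import Pool.Agent.H.MP_43e44c_ag.WCount
import Pool.Agent.H.MP_43e44c_ag.Lat

/-!
Counting the half systems with a nonzero relation when relations decompose along blocks.
-/

set_option autoImplicit false

open Finset Module

namespace Pool.MP43e44c

section BadCount

variable {G X P Q : Type*} [Group G] [MulAction G X] [Fintype X]
  [MulAction G P] [Fintype P] [MulAction G Q] [Fintype Q]

open Classical in
/-- Complementary indicator of a half system, modulo two. -/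
noncomputable def eps (Φ : Finset X) (x : X) : ZMod 2 := if x ∈ Φ then 0 else 1

omit [Fintype X] in
theorem eps_mem {Φ : Finset X} {x : X} (h : x ∈ Φ) : eps Φ x = 0 := if_pos h

omit [Fintype X] in
theorem eps_notMem {Φ : Finset X} {x : X} (h : x ∉ Φ) : eps Φ x = 1 := if_neg h

omit [Fintype X] in
theorem eps_conj {c : X → X} {Φ : Finset X} (hΦ : ∀ x, x ∈ Φ ↔ c x ∉ Φ) (x : X) :
    eps Φ (c x) = eps Φ x + 1 := by
  by_cases h : x ∈ Φ
  · rw [eps_mem h, eps_notMem ((hΦ x).1 h)]; rfl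
  · have h' : c x ∈ Φ := by
      by_contra h2; exact h ((hΦ x).2 h2)
    rw [eps_notMem h, eps_mem h']; decide

omit [Fintype X] in
/-- Sums over a half system of functions coming from the pairs. -/
theorem sum_half_system {c : X → X} {π : X → P} (hfib : ∀ x y, π x = π y ↔ y = x ∨ y = c x)
    (hsurj : Function.Surjective π) {Φ : Finset X} (hΦ : ∀ x, x ∈ Φ ↔ c x ∉ Φ)
    (F : P → ZMod 2) : ∑ x ∈ Φ, F (π x) = ∑ p, F p := by
  refine Finset.sum_nbij π (fun _ _ => mem_univ _) ?_ ?_ (fun _ _ => rfl)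
  · intro x hx y hy hxy
    rcases (hfib x y).1 hxy with h | h
    · exact h.symm
    · rw [mem_coe, h] at hy
      exact absurd hy ((hΦ x).1 hx)
  · intro p _
    obtain ⟨x, rfl⟩ := hsurj p
    by_cases h : x ∈ Φ
    · exact ⟨x, h, rfl⟩
    · have h' : c x ∈ Φ := by
        by_contra h2; exact h ((hΦ x).2 h2)
      exact ⟨c x, h', ((hfib x (c x)).2 (Or.inr rfl)).symm⟩

/-- The congruences satisfied by a half system. -/
def Cond (G : Type*) {X P : Type*} [Group G] [MulAction G X] (π : X → P) (Φ : Finset X)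
    (U : Submodule (ZMod 2) (P → ZMod 2)) : Prop :=
  ∀ m ∈ U, ∀ g : G, ∑ x ∈ Φ, m (π x) * eps Φ (g • x) = 0

/-- The difference of two half systems. -/
noncomputable def dif {π : X → P} (hsurj : Function.Surjective π) (Φ Φ' : Finset X) (p : P) :
    ZMod 2 :=
  eps Φ (Function.surjInv hsurj p) + eps Φ' (Function.surjInv hsurj p)

omit [Fintype X] [Fintype P] in
theorem dif_apply {c : X → X} {π : X → P} (hfib : ∀ x y, π x = π y ↔ y = x ∨ y = c x)
    (hsurj : Function.Surjective π) {Φ Φ' : Finset X} (hΦ : ∀ x, x ∈ Φ ↔ c x ∉ Φ)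
    (hΦ' : ∀ x, x ∈ Φ' ↔ c x ∉ Φ') (x : X) :
    dif hsurj Φ Φ' (π x) = eps Φ x + eps Φ' x := by
  unfold dif
  have h1 : π x = π (Function.surjInv hsurj (π x)) := (Function.surjInv_eq hsurj _).symm
  rcases (hfib _ _).1 h1 with h | h
  · rw [h]
  · rw [h, eps_conj hΦ, eps_conj hΦ']
    generalize eps Φ x = a
    generalize eps Φ' x = b
    revert a b
    decide

omit [Fintype X] in
theorem dif_mem_relSub {c : X → X} (hcg : ∀ (g : G) x, g • c x = c (g • x)) {π : X → P}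
    (hπ : ∀ (g : G) x, π (g • x) = g • π x) (hfib : ∀ x y, π x = π y ↔ y = x ∨ y = c x)
    (hsurj : Function.Surjective π) {Φ Φ' : Finset X} (hΦ : ∀ x, x ∈ Φ ↔ c x ∉ Φ)
    (hΦ' : ∀ x, x ∈ Φ' ↔ c x ∉ Φ') {U : Submodule (ZMod 2) (P → ZMod 2)}
    (h : Cond G π Φ U) (h' : Cond G π Φ' U) : dif hsurj Φ Φ' ∈ relSub G U := by
  intro m hm g
  have key : ∀ Ψ : Finset X, (∀ x, x ∈ Ψ ↔ c x ∉ Ψ) → Cond G π Ψ U →
      ∑ p, m p * (eps Ψ (Function.surjInv hsurj p) + eps Ψ (g • Function.surjInv hsurj p)) = 0 := by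
    intro Ψ hΨ hc
    rw [← hc m hm g, ← sum_half_system hfib hsurj hΨ]
    refine sum_congr rfl fun x hx => ?_
    have h1 : π x = π (Function.surjInv hsurj (π x)) := (Function.surjInv_eq hsurj _).symm
    congr 1
    rcases (hfib _ _).1 h1 with h | h
    · rw [h, eps_mem hx, zero_add]
    · rw [h, hcg, eps_conj hΨ, eps_conj hΨ, eps_mem hx]
      generalize eps Ψ (g • x) = a
      revert a
      decide
  have h1 := key Φ hΦ h
  have h2 := key Φ' hΦ' h'
  have h3 : ∀ p, m p * (dif hsurj Φ Φ' p + dif hsurj Φ Φ' (g • p))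
      = m p * (eps Φ (Function.surjInv hsurj p) + eps Φ (g • Function.surjInv hsurj p))
        + m p * (eps Φ' (Function.surjInv hsurj p) + eps Φ' (g • Function.surjInv hsurj p)) := by
    intro p
    have h4 : g • p = π (g • Function.surjInv hsurj p) := by
      rw [hπ, Function.surjInv_eq hsurj]
    have h5 : dif hsurj Φ Φ' p = eps Φ (Function.surjInv hsurj p) +
      eps Φ' (Function.surjInv hsurj p) := rfl
    rw [h4, dif_apply hfib hsurj hΦ hΦ', h5]
    ring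
  rw [sum_congr rfl fun p _ => h3 p, sum_add_distrib, h1, h2, add_zero]

theorem card_cond_le {c : X → X} (hcg : ∀ (g : G) x, g • c x = c (g • x)) {π : X → P}
    (hπ : ∀ (g : G) x, π (g • x) = g • π x) (hfib : ∀ x y, π x = π y ↔ y = x ∨ y = c x)
    (hsurj : Function.Surjective π) (U : Submodule (ZMod 2) (P → ZMod 2)) :
    {Φ : Finset X | (∀ x, x ∈ Φ ↔ c x ∉ Φ) ∧ Cond G π Φ U}.ncard
      ≤ 2 ^ finrank (ZMod 2) (relSub G U) := by
  classical
  rcases Set.eq_empty_or_nonempty {Φ : Finset X | (∀ x, x ∈ Φ ↔ c x ∉ Φ) ∧ Cond G π Φ U} with h | h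
  · rw [h, Set.ncard_empty]; exact Nat.zero_le _
  · obtain ⟨Φ₀, hΦ₀, hc₀⟩ := h
    have h1 : Nat.card (relSub G U) = 2 ^ finrank (ZMod 2) (relSub G U) := by
      rw [Module.natCard_eq_pow_finrank (K := ZMod 2), Nat.card_zmod]
    rw [← h1, ← Nat.card_coe_set_eq]
    have : Finite (relSub G U) := Module.finite_of_finite (ZMod 2)
    refine Nat.card_le_card_of_injective (fun Φ => ⟨dif hsurj Φ₀ Φ.1,
      dif_mem_relSub hcg hπ hfib hsurj hΦ₀ Φ.2.1 hc₀ Φ.2.2⟩) ?_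
    rintro ⟨Φ, hΦ, hc⟩ ⟨Φ', hΦ', hc'⟩ h2
    apply Subtype.ext
    show Φ = Φ'
    have h3 : dif hsurj Φ₀ Φ = dif hsurj Φ₀ Φ' := congrArg Subtype.val h2
    ext x
    have h4 := congrFun h3 (π x)
    rw [dif_apply hfib hsurj hΦ₀ hΦ, dif_apply hfib hsurj hΦ₀ hΦ', add_right_inj] at h4
    unfold eps at h4
    by_cases hx : x ∈ Φ
    · by_cases hx' : x ∈ Φ'
      · exact ⟨fun _ => hx', fun _ => hx⟩
      · rw [if_pos hx, if_neg hx'] at h4
        exact absurd h4 (by decide)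
    · by_cases hx' : x ∈ Φ'
      · rw [if_neg hx, if_pos hx'] at h4
        exact absurd h4 (by decide)
      · exact ⟨fun h => absurd h hx, fun h => absurd h hx'⟩

/-- The integral relation behind the congruences. -/
theorem sum_moved_eq_zero {c : X → X} (hcc : ∀ x, c (c x) = x)
    (hcg : ∀ (g : G) x, g • c x = c (g • x)) {Φ : Finset X} (hΦ : ∀ x, x ∈ Φ ↔ c x ∉ Φ)
    {f : X → ℤ} (hf : f ∈ lat G c Φ) (g : G) :
    ∑ x ∈ Φ, ((f x : ℤ) : ZMod 2) * eps Φ (g • x) = 0 := by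
  classical
  obtain ⟨h1, h2⟩ := hf
  have h3 : ∀ g : G, ∑ x ∈ Φ, f x * sg Φ (g • x) = 0 := by
    intro g
    have := sum_half hcc hΦ (fun x => f x * sg Φ (g • x)) (fun x => by
      show f (c x) * sg Φ (g • c x) = _
      rw [hcg, sg_conj hΦ, h1, neg_mul_neg])
    rw [h2 g] at this
    omega
  have h4 := h3 1
  have h5 := h3 g
  have h6 : ∑ x ∈ Φ, f x * sg Φ ((1 : G) • x) - ∑ x ∈ Φ, f x * sg Φ (g • x)
      = 2 * ∑ x ∈ Φ, f x * (if g • x ∈ Φ then 0 else 1) := by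
    rw [← sum_sub_distrib, mul_sum]
    refine sum_congr rfl fun x hx => ?_
    rw [one_smul, sg_mem hx]
    by_cases h : g • x ∈ Φ
    · rw [sg_mem h, if_pos h]; ring
    · rw [sg_notMem h, if_neg h]; ring
  rw [h4, h5] at h6
  have h7 : ∑ x ∈ Φ, f x * (if g • x ∈ Φ then 0 else 1) = 0 := by omega
  have h8 := congrArg (Int.cast : ℤ → ZMod 2) h7
  push_cast at h8
  rw [← h8]
  refine sum_congr rfl fun x _ => ?_
  unfold eps
  rfl

/-- The reductions of the relations supported on a block. -/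
def redSub (G : Type*) {X P Q : Type*} [Group G] [MulAction G X] [Fintype X] (c : X → X)
    (π : X → P) (κ : P → Q) (q₀ : Q) (Φ : Finset X) : Submodule (ZMod 2) (P → ZMod 2) where
  carrier := {m | ∃ f ∈ lat G c Φ, (∀ x, κ (π x) ≠ q₀ → f x = 0) ∧
    ∀ x, m (π x) = ((f x : ℤ) : ZMod 2)}
  zero_mem' := ⟨0, zero_mem _, fun _ _ => rfl, fun x => by simp⟩
  add_mem' := by
    rintro m m' ⟨f, hf, h1, h2⟩ ⟨f', hf', h1', h2'⟩
    refine ⟨f + f', add_mem hf hf', fun x hx => ?_, fun x => ?_⟩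
    · rw [Pi.add_apply, h1 x hx, h1' x hx, add_zero]
    · rw [Pi.add_apply, Pi.add_apply, h2, h2']; push_cast; rfl
  smul_mem' := by
    rintro r m ⟨f, hf, h1, h2⟩
    refine ⟨(r.val : ℤ) • f, AddSubgroup.zsmul_mem _ hf _, fun x hx => ?_, fun x => ?_⟩
    · rw [Pi.smul_apply, h1 x hx, smul_zero]
    · rw [Pi.smul_apply, Pi.smul_apply, h2, smul_eq_mul, smul_eq_mul]
      push_cast
      rw [ZMod.natCast_val, ZMod.cast_id]

theorem redSub_inv {c : X → X} (hcg : ∀ (g : G) x, g • c x = c (g • x)) {π : X → P}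
    (hπ : ∀ (g : G) x, π (g • x) = g • π x) {κ : P → Q}
    (hκ : ∀ (g : G) p, κ (g • p) = g • κ p) (q₀ : Q) (Φ : Finset X) :
    InvSub (MulAction.stabilizer G q₀) (redSub G c π κ q₀ Φ) := by
  rintro h m ⟨f, hf, h1, h2⟩
  refine ⟨fun x => f ((h : G) • x), lat_smul hcg (h : G) hf, fun x hx => ?_, fun x => ?_⟩
  · apply h1
    intro h3
    apply hx
    rw [hπ, hκ] at h3
    have h4 : (h : G) • q₀ = q₀ := h.2
    exact MulAction.injective (h : G) (h3.trans h4.symm)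
  · have h3 : (h • (π x) : P) = π ((h : G) • x) := (hπ (h : G) x).symm
    show m (h • (π x)) = _
    rw [h3, h2]

theorem redSub_cond {c : X → X} (hcc : ∀ x, c (c x) = x)
    (hcg : ∀ (g : G) x, g • c x = c (g • x)) {π : X → P} {κ : P → Q} (q₀ : Q) {Φ : Finset X}
    (hΦ : ∀ x, x ∈ Φ ↔ c x ∉ Φ) {U : Submodule (ZMod 2) (P → ZMod 2)}
    (hU : U ≤ redSub G c π κ q₀ Φ) : Cond G π Φ U := by
  intro m hm g
  obtain ⟨f, hf, -, h2⟩ := hU hm
  rw [← sum_moved_eq_zero hcc hcg hΦ hf g]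
  exact sum_congr rfl fun x _ => by rw [h2]

open Classical in
theorem redSub_ne_bot [MulAction.IsPretransitive G X] {c : X → X}
    (hcg : ∀ (g : G) x, g • c x = c (g • x)) {π : X → P}
    (hπ : ∀ (g : G) x, π (g • x) = g • π x) (hfib : ∀ x y, π x = π y ↔ y = x ∨ y = c x)
    (hsurj : Function.Surjective π) {κ : P → Q}
    (hκ : ∀ (g : G) p, κ (g • p) = g • κ p) (hκs : Function.Surjective κ) (q₀ : Q)
    {Φ : Finset X}
    (hproj : ∀ f ∈ lat G c Φ, ∀ q, (fun x => if κ (π x) = q then f x else 0) ∈ lat G c Φ)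
    (hne : ∃ f ∈ lat G c Φ, f ≠ 0) : redSub G c π κ q₀ Φ ≠ ⊥ := by
  obtain ⟨f, hf, hf0⟩ := hne
  obtain ⟨x₁, hx₁⟩ := Function.ne_iff.1 hf0
  rw [Pi.zero_apply] at hx₁
  obtain ⟨p₀, rfl⟩ := hκs q₀
  obtain ⟨x₀, rfl⟩ := hsurj p₀
  obtain ⟨g, hg⟩ := MulAction.exists_smul_eq G x₀ x₁
  let L : AddSubgroup (X → ℤ) :=
    { carrier := {f | f ∈ lat G c Φ ∧ ∀ x, κ (π x) ≠ κ (π x₀) → f x = 0}
      zero_mem' := ⟨zero_mem _, fun _ _ => rfl⟩
      add_mem' := by
        rintro f f' ⟨h1, h2⟩ ⟨h1', h2'⟩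
        refine ⟨add_mem h1 h1', fun x hx => ?_⟩
        rw [Pi.add_apply, h2 x hx, h2' x hx, add_zero]
      neg_mem' := by
        rintro f ⟨h1, h2⟩
        refine ⟨neg_mem h1, fun x hx => ?_⟩
        rw [Pi.neg_apply, h2 x hx, neg_zero] }
  have h1 : ∃ f' ∈ L, f' ≠ 0 := by
    refine ⟨_, ⟨lat_smul hcg g (hproj f hf (κ (π x₁))), fun x hx => ?_⟩, ?_⟩
    · show (if κ (π (g • x)) = κ (π x₁) then f (g • x) else 0) = 0
      rw [if_neg]
      intro h2
      apply hx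
      rw [← hg, hπ, hκ, hπ, hκ] at h2
      exact MulAction.injective _ h2
    · intro h2
      have h3 := congrFun h2 x₀
      simp only [hg, if_true, Pi.zero_apply] at h3
      exact hx₁ h3
  obtain ⟨f', ⟨hf', hsupp⟩, x, hx⟩ := exists_primitive (ℓ := 2) le_rfl L (by
    rintro f ⟨h2, h3⟩
    refine ⟨lat_sat two_ne_zero h2, fun x hx => ?_⟩
    have h4 := h3 x hx
    simp only at h4
    have h5 : (((2 : ℕ) : ℤ)) ≠ 0 := by norm_num
    exact (mul_eq_zero.1 h4).resolve_left h5) h1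
  rw [Submodule.ne_bot_iff]
  refine ⟨fun p => ((f' (Function.surjInv hsurj p) : ℤ) : ZMod 2), ⟨f', hf', hsupp, ?_⟩, ?_⟩
  · intro y
    have h1 : π y = π (Function.surjInv hsurj (π y)) := (Function.surjInv_eq hsurj _).symm
    rcases (hfib _ _).1 h1 with h | h
    · show ((f' (Function.surjInv hsurj (π y)) : ℤ) : ZMod 2) = _
      rw [h]
    · show ((f' (Function.surjInv hsurj (π y)) : ℤ) : ZMod 2) = _
      rw [h, hf'.1]
      push_cast
      generalize ((f' y : ℤ) : ZMod 2) = a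
      revert a
      decide
  · intro h2
    apply hx
    have h3 := congrFun h2 (π x)
    have h1 : π x = π (Function.surjInv hsurj (π x)) := (Function.surjInv_eq hsurj _).symm
    rw [← ZMod.intCast_zmod_eq_zero_iff_dvd]
    rcases (hfib _ _).1 h1 with h | h
    · simp only [h, Pi.zero_apply] at h3
      exact h3
    · simp only [h, Pi.zero_apply] at h3
      rw [hf'.1] at h3
      push_cast at h3
      exact neg_eq_zero.1 h3

/-- The space of functions supported on a block. -/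
def blockSub {P Q : Type*} (κ : P → Q) (q₀ : Q) : Submodule (ZMod 2) (P → ZMod 2) where
  carrier := {m | ∀ p, κ p ≠ q₀ → m p = 0}
  zero_mem' := fun _ _ => rfl
  add_mem' := by
    intro m m' h h' p hp
    rw [Pi.add_apply, h p hp, h' p hp, add_zero]
  smul_mem' := by
    intro r m h p hp
    rw [Pi.smul_apply, h p hp, smul_zero]

omit [Fintype P] [Fintype Q] in
theorem blockSub_inv {κ : P → Q} (hκ : ∀ (g : G) p, κ (g • p) = g • κ p) (q₀ : Q) :
    InvSub (MulAction.stabilizer G q₀) (blockSub κ q₀) := by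
  intro h m hm p hp
  apply hm
  intro h3
  apply hp
  have h4 : (h : G) • q₀ = q₀ := h.2
  have h5 : κ ((h : G) • p) = q₀ := h3
  rw [hκ] at h5
  exact MulAction.injective (h : G) (h5.trans h4.symm)

open Classical in
theorem finrank_blockSub_le (κ : P → Q) (q₀ : Q) :
    finrank (ZMod 2) (blockSub κ q₀) ≤ (univ.filter fun p => κ p = q₀).card := by
  let L : blockSub κ q₀ →ₗ[ZMod 2] ({p // κ p = q₀} → ZMod 2) :=
    { toFun := fun m p => (m : P → ZMod 2) p.1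
      map_add' := fun _ _ => rfl
      map_smul' := fun _ _ => rfl }
  have hL : Function.Injective L := by
    intro m m' h
    apply Subtype.ext
    funext p
    by_cases hp : κ p = q₀
    · exact congrFun h ⟨p, hp⟩
    · rw [m.2 p hp, m'.2 p hp]
  have h1 := LinearMap.finrank_le_finrank_of_injective hL
  rwa [Module.finrank_pi, Fintype.card_subtype] at h1

/-- A minimal space of dimension one is spanned by the indicator of the block. -/
theorem const_of_finrank_lt_two [MulAction.IsPretransitive G P] {κ : P → Q}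
    (hκ : ∀ (g : G) p, κ (g • p) = g • κ p) {q₀ : Q} {U : Submodule (ZMod 2) (P → ZMod 2)}
    (hU : U ≤ blockSub κ q₀) (hmin : IsMinSub (MulAction.stabilizer G q₀) U)
    (hd : ¬ 2 ≤ finrank (ZMod 2) U) {m : P → ZMod 2} (hm : m ∈ U) (hm0 : m ≠ 0) :
    ∀ p, κ p = q₀ → m p = 1 := by
  have hd1 : finrank (ZMod 2) U = 1 := by
    have h1 : finrank (ZMod 2) U ≠ 0 := by
      intro h2
      exact hmin.2.1 (Submodule.finrank_eq_zero.1 h2)
    omega
  have h1 : ∀ m' ∈ U, m' ≠ 0 → m' = m := by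
    intro m' hm' hm'0
    have h2 := (finrank_eq_one_iff_of_nonzero' (⟨m, hm⟩ : U) (by
      intro h3; exact hm0 (congrArg Subtype.val h3))).1 hd1 ⟨m', hm'⟩
    obtain ⟨r, hr⟩ := h2
    have h3 : r • m = m' := congrArg Subtype.val hr
    have h4 : ∀ r : ZMod 2, r = 0 ∨ r = 1 := by decide
    rcases h4 r with rfl | rfl
    · rw [zero_smul] at h3; exact absurd h3.symm hm'0
    · rw [one_smul] at h3; exact h3.symm
  obtain ⟨p₀, hp₀⟩ := Function.ne_iff.1 hm0
  rw [Pi.zero_apply] at hp₀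
  have hκ0 : κ p₀ = q₀ := by
    by_contra h2
    exact hp₀ (hU hm p₀ h2)
  have h01 : ∀ a : ZMod 2, a ≠ 0 → a = 1 := by decide
  intro p hp
  obtain ⟨g, hg⟩ := MulAction.exists_smul_eq G p₀ p
  have hgs : g ∈ MulAction.stabilizer G q₀ := by
    rw [MulAction.mem_stabilizer_iff]
    have h2 := hκ g p₀
    rw [hg, hp, hκ0] at h2
    exact h2.symm
  have h2 := hmin.1 ⟨g, hgs⟩ m hm
  have h3 : (fun x => m ((⟨g, hgs⟩ : MulAction.stabilizer G q₀) • x)) ≠ 0 := by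
    intro h4
    have h5 := congrFun h4 (g⁻¹ • p₀)
    have h6 : (⟨g, hgs⟩ : MulAction.stabilizer G q₀) • (g⁻¹ • p₀) = p₀ := smul_inv_smul g p₀
    simp only [h6, Pi.zero_apply] at h5
    exact hp₀ h5
  have h4 := congrFun (h1 _ h2 h3) p₀
  have h5 : (⟨g, hgs⟩ : MulAction.stabilizer G q₀) • p₀ = p := hg
  simp only [h5] at h4
  rw [h4]
  exact h01 _ hp₀

open Classical in
/-- The bound for the number of half systems with a nonzero relation. -/
theorem bad_count [MulAction.IsPretransitive G X] {c : X → X} (hcc : ∀ x, c (c x) = x)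
    (hcg : ∀ (g : G) x, g • c x = c (g • x)) {π : X → P}
    (hπ : ∀ (g : G) x, π (g • x) = g • π x) (hfib : ∀ x y, π x = π y ↔ y = x ∨ y = c x)
    (hsurj : Function.Surjective π) {κ : P → Q}
    (hκ : ∀ (g : G) p, κ (g • p) = g • κ p) (hκs : Function.Surjective κ) [Nonempty Q]
    (hproj : ∀ Φ : Finset X, (∀ x, x ∈ Φ ↔ c x ∉ Φ) → ∀ f ∈ lat G c Φ, ∀ q,
      ∃ f' ∈ lat G c Φ, ∀ x, (κ (π x) = q → f' x = f x) ∧ (κ (π x) ≠ q → f' x = 0))
    {b : ℕ} (hb : ∀ q, (univ.filter fun p => κ p = q).card ≤ b) :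
    ({Φ : Finset X | (∀ x, x ∈ Φ ↔ c x ∉ Φ) ∧ ∃ f ∈ lat G c Φ, f ≠ 0}.ncard : ℚ)
      ≤ 2 ^ Fintype.card P * ((b : ℚ) / 2 * (1 / 4) ^ (Fintype.card Q - 1))
        + ({Φ : Finset X | (∀ x, x ∈ Φ ↔ c x ∉ Φ) ∧ ∃ f ∈ lat G c Φ, ∀ x, Odd (f x)}.ncard : ℚ) := by
  classical
  obtain ⟨q₀⟩ := ‹Nonempty Q›
  have hpre : MulAction.IsPretransitive G P := by
    refine ⟨fun p p' => ?_⟩
    obtain ⟨x, rfl⟩ := hsurj p
    obtain ⟨x', rfl⟩ := hsurj p'
    obtain ⟨g, hg⟩ := MulAction.exists_smul_eq G x x'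
    exact ⟨g, by rw [← hπ, hg]⟩
  have hγ : ∀ q : Q, ∃ g : G, g • q₀ = q := by
    intro q
    obtain ⟨p, rfl⟩ := hκs q
    obtain ⟨p₀, rfl⟩ := hκs q₀
    obtain ⟨g, hg⟩ := MulAction.exists_smul_eq G p₀ p
    exact ⟨g, by rw [← hκ, hg]⟩
  choose γ hγ using hγ
  obtain ⟨p₀, hp₀⟩ := hκs q₀
  have hproj' : ∀ Φ : Finset X, (∀ x, x ∈ Φ ↔ c x ∉ Φ) → ∀ f ∈ lat G c Φ, ∀ q,
      (fun x => if κ (π x) = q then f x else 0) ∈ lat G c Φ := by
    intro Φ hΦ f hf q
    obtain ⟨f', hf', h1⟩ := hproj Φ hΦ f hf q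
    have h2 : (fun x => if κ (π x) = q then f x else 0) = f' := by
      funext x
      by_cases h : κ (π x) = q
      · rw [if_pos h, (h1 x).1 h]
      · rw [if_neg h, (h1 x).2 h]
    rw [h2]; exact hf'
  set H := MulAction.stabilizer G q₀ with hH
  have : Finite (Submodule (ZMod 2) (P → ZMod 2)) := by
    refine Finite.of_injective (fun U : Submodule (ZMod 2) (P → ZMod 2) => (U : Set (P → ZMod 2))) ?_
    exact SetLike.coe_injective
  have : Fintype (Submodule (ZMod 2) (P → ZMod 2)) := Fintype.ofFinite _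
  let 𝒰 : Finset (Submodule (ZMod 2) (P → ZMod 2)) := univ.filter fun U =>
    IsMinSub H U ∧ U ≤ blockSub κ q₀ ∧ 2 ≤ finrank (ZMod 2) U
  set S : Set (Finset X) := {Φ : Finset X | (∀ x, x ∈ Φ ↔ c x ∉ Φ) ∧ ∃ f ∈ lat G c Φ, ∀ x, Odd (f x)}
    with hS
  have hcover : {Φ : Finset X | (∀ x, x ∈ Φ ↔ c x ∉ Φ) ∧ ∃ f ∈ lat G c Φ, f ≠ 0}
      ⊆ (⋃ U ∈ 𝒰, {Φ : Finset X | (∀ x, x ∈ Φ ↔ c x ∉ Φ) ∧ Cond G π Φ U}) ∪ S := by
    rintro Φ ⟨hΦ, hne⟩
    have h1 := redSub_ne_bot hcg hπ hfib hsurj hκ hκs q₀ (hproj' Φ hΦ) hne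
    obtain ⟨U, hU, hmin⟩ := exists_minSub (redSub_inv hcg hπ hκ q₀ Φ) h1
    have hUb : U ≤ blockSub κ q₀ := by
      intro m hm p hp
      obtain ⟨f, -, h2, h3⟩ := hU hm
      obtain ⟨x, rfl⟩ := hsurj p
      rw [h3, h2 x hp]; rfl
    by_cases hd : 2 ≤ finrank (ZMod 2) U
    · left
      rw [Set.mem_iUnion₂]
      refine ⟨U, ?_, hΦ, redSub_cond hcc hcg q₀ hΦ hU⟩
      simp only [𝒰, mem_filter, mem_univ, true_and]
      exact ⟨hmin, hUb, hd⟩
    · right
      obtain ⟨m, hm, hm0⟩ := Submodule.exists_mem_ne_zero_of_ne_bot hmin.2.1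
      have h2 := const_of_finrank_lt_two hκ hUb hmin hd hm hm0
      obtain ⟨f, hf, hsupp, hfm⟩ := hU hm
      have hfodd : ∀ x, κ (π x) = q₀ → Odd (f x) := by
        intro x hx
        have h3 := hfm x
        rw [h2 _ hx] at h3
        rw [← Int.not_even_iff_odd, even_iff_two_dvd]
        intro h4
        have h5 := (ZMod.intCast_zmod_eq_zero_iff_dvd (f x) 2).2 (by exact_mod_cast h4)
        rw [h5] at h3
        exact absurd h3 (by decide)
      refine ⟨hΦ, ∑ q, (fun x => f ((γ q)⁻¹ • x)), sum_mem fun q _ => lat_smul hcg _ hf, ?_⟩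
      intro x
      rw [Finset.sum_apply, Finset.sum_eq_single (κ (π x))]
      · apply hfodd
        rw [hπ, hκ, inv_smul_eq_iff, hγ]
      · intro q _ hq
        apply hsupp
        rw [hπ, hκ]
        intro h3
        rw [inv_smul_eq_iff, hγ] at h3
        exact hq h3.symm
      · intro h3; exact absurd (mem_univ _) h3
  have h1 : ({Φ : Finset X | (∀ x, x ∈ Φ ↔ c x ∉ Φ) ∧ ∃ f ∈ lat G c Φ, f ≠ 0}.ncard : ℚ)
      ≤ ∑ U ∈ 𝒰, (({Φ : Finset X | (∀ x, x ∈ Φ ↔ c x ∉ Φ) ∧ Cond G π Φ U}.ncard : ℕ) : ℚ)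
        + (S.ncard : ℚ) := by
    have h2 := (Set.ncard_le_ncard hcover (Set.toFinite _)).trans (Set.ncard_union_le _ _)
    have h3 : (⋃ U ∈ 𝒰, {Φ : Finset X | (∀ x, x ∈ Φ ↔ c x ∉ Φ) ∧ Cond G π Φ U}).ncard
        ≤ ∑ U ∈ 𝒰, {Φ : Finset X | (∀ x, x ∈ Φ ↔ c x ∉ Φ) ∧ Cond G π Φ U}.ncard :=
      Finset.set_ncard_biUnion_le _ _
    have h4 := h2.trans (Nat.add_le_add_right h3 _)
    exact_mod_cast h4
  have h2 : ∀ U ∈ 𝒰, (({Φ : Finset X | (∀ x, x ∈ Φ ↔ c x ∉ Φ) ∧ Cond G π Φ U}.ncard : ℕ) : ℚ)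
      ≤ 2 ^ Fintype.card P * (1 / 2) ^ (((Fintype.card Q - 1) + 1) * finrank (ZMod 2) U) := by
    intro U hU
    simp only [𝒰, mem_filter, mem_univ, true_and] at hU
    obtain ⟨hmin, hUb, hd⟩ := hU
    have h3 := card_cond_le hcg hπ hfib hsurj U
    have h4 := finrank_relSub_le' hκ hγ (fun m hm => hUb hm) hmin hd
    have hQ : 0 < Fintype.card Q := Fintype.card_pos_iff.2 ⟨q₀⟩
    have h5 : Fintype.card Q - 1 + 1 = Fintype.card Q := by omega
    rw [h5]
    have h6 : (({Φ : Finset X | (∀ x, x ∈ Φ ↔ c x ∉ Φ) ∧ Cond G π Φ U}.ncard : ℕ) : ℚ)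
        ≤ 2 ^ finrank (ZMod 2) (relSub G U) := by exact_mod_cast h3
    refine h6.trans ?_
    rw [one_div, inv_pow, ← div_eq_mul_inv, le_div_iff₀ (by positivity), ← pow_add]
    exact pow_le_pow_right₀ (by norm_num) h4
  refine h1.trans (add_le_add_left ?_ _)
  refine (Finset.sum_le_sum h2).trans ?_
  rw [← Finset.mul_sum]
  refine mul_le_mul_of_nonneg_left ?_ (by positivity)
  refine sum_minSub_le (H := H) p₀ (Fintype.card Q - 1) b (blockSub κ q₀)
    (blockSub_inv hκ q₀) ?_ ?_ 𝒰 ?_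
  · intro m hm hzero
    funext p
    rw [Pi.zero_apply]
    by_cases hp : κ p = q₀
    · obtain ⟨g, hg⟩ := MulAction.exists_smul_eq G p₀ p
      have hgs : g ∈ H := by
        rw [hH, MulAction.mem_stabilizer_iff]
        have h3 := hκ g p₀
        rw [hg, hp, hp₀] at h3
        exact h3.symm
      have h3 := hzero ⟨g, hgs⟩
      have h4 : (⟨g, hgs⟩ : H) • p₀ = p := hg
      rwa [h4] at h3
    · exact hm p hp
  · refine (finrank_blockSub_le κ q₀).trans ?_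
    convert hb q₀
  · intro U hU
    simpa [𝒰] using hU

/-- The number of half systems with an everywhere odd relation. -/
theorem special_count [MulAction.IsPretransitive G X] {c : X → X} (hcc : ∀ x, c (c x) = x)
    (hcg : ∀ (g : G) x, g • c x = c (g • x)) {π : X → P}
    (hπ : ∀ (g : G) x, π (g • x) = g • π x) (hfib : ∀ x y, π x = π y ↔ y = x ∨ y = c x)
    (hsurj : Function.Surjective π) {κ : P → Q}
    (hκ : ∀ (g : G) p, κ (g • p) = g • κ p) (hκs : Function.Surjective κ) [Nonempty Q]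
    (hproj : ∀ Φ : Finset X, (∀ x, x ∈ Φ ↔ c x ∉ Φ) → ∀ f ∈ lat G c Φ, ∀ q,
      ∃ f' ∈ lat G c Φ, ∀ x, (κ (π x) = q → f' x = f x) ∧ (κ (π x) ≠ q → f' x = 0)) :
    {Φ : Finset X | (∀ x, x ∈ Φ ↔ c x ∉ Φ) ∧ ∃ f ∈ lat G c Φ, ∀ x, Odd (f x)}.ncard
      * 2 ^ Fintype.card Q ≤ 2 ^ (Fintype.card P + 1) := by
  classical
  obtain ⟨q₀⟩ := ‹Nonempty Q›
  have hγ : ∀ q : Q, ∃ g : G, g • q₀ = q := by
    intro q
    obtain ⟨p, rfl⟩ := hκs q
    obtain ⟨p₀, rfl⟩ := hκs q₀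
    obtain ⟨x, rfl⟩ := hsurj p
    obtain ⟨x₀, rfl⟩ := hsurj p₀
    obtain ⟨g, hg⟩ := MulAction.exists_smul_eq G x₀ x
    exact ⟨g, by rw [← hκ, ← hπ, hg]⟩
  choose γ hγ using hγ
  let u : P → ZMod 2 := fun p => if κ p = q₀ then 1 else 0
  let U : Submodule (ZMod 2) (P → ZMod 2) := Submodule.span (ZMod 2) {u}
  have hU : U ≤ blockSub κ q₀ := by
    rw [Submodule.span_le, Set.singleton_subset_iff]
    intro p hp
    show (if κ p = q₀ then (1 : ZMod 2) else 0) = 0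
    rw [if_neg hp]
  have hd : finrank (ZMod 2) U = 1 := by
    refine finrank_span_singleton ?_
    intro h
    obtain ⟨p₀, hp₀⟩ := hκs q₀
    have h1 := congrFun h p₀
    simp only [u, hp₀, if_true, Pi.zero_apply] at h1
    exact one_ne_zero h1
  have h1 : {Φ : Finset X | (∀ x, x ∈ Φ ↔ c x ∉ Φ) ∧ ∃ f ∈ lat G c Φ, ∀ x, Odd (f x)}
      ⊆ {Φ : Finset X | (∀ x, x ∈ Φ ↔ c x ∉ Φ) ∧ Cond G π Φ U} := by
    rintro Φ ⟨hΦ, f, hf, hodd⟩
    refine ⟨hΦ, redSub_cond (κ := κ) hcc hcg q₀ hΦ ?_⟩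
    rw [Submodule.span_le, Set.singleton_subset_iff]
    obtain ⟨f', hf', h2⟩ := hproj Φ hΦ f hf q₀
    refine ⟨f', hf', fun x hx => (h2 x).2 hx, fun x => ?_⟩
    by_cases hx : κ (π x) = q₀
    · rw [(h2 x).1 hx]
      show (if κ (π x) = q₀ then (1 : ZMod 2) else 0) = _
      rw [if_pos hx]
      obtain ⟨k, hk⟩ := hodd x
      rw [hk]
      push_cast
      have h3 : (2 : ZMod 2) = 0 := by decide
      rw [h3, zero_mul, zero_add]
    · rw [(h2 x).2 hx]
      show (if κ (π x) = q₀ then (1 : ZMod 2) else 0) = _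
      rw [if_neg hx]; rfl
  have h2 := (Set.ncard_le_ncard h1 (Set.toFinite _)).trans (card_cond_le hcg hπ hfib hsurj U)
  have h3 := finrank_relSub_le hκ hγ (fun m hm => hU hm)
  rw [hd, mul_one] at h3
  calc _ ≤ 2 ^ finrank (ZMod 2) (relSub G U) * 2 ^ Fintype.card Q := Nat.mul_le_mul_right _ h2
    _ = 2 ^ (finrank (ZMod 2) (relSub G U) + Fintype.card Q) := (pow_add _ _ _).symm
    _ ≤ _ := Nat.pow_le_pow_right (by norm_num) h3

end BadCount

end Pool.MP43e44c
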