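import Pool.Agent.H.MP_43e44c_ag.Lat

/-!
The subgroup of a group acting on a set with involution which preserves every pair, its classes,
and the projection of the relation lattice to a class.
-/

set_option autoImplicit false

open Finset

namespace Pool.MP43e44c

section Blocks

variable {G X : Type*} [Group G] [MulAction G X]

/-- The group elements moving every point to itself or to its conjugate. -/
def pairKer (G : Type*) {X : Type*} [Group G] [MulAction G X] (c : X → X)
    (hcc : ∀ x, c (c x) = x) (hcg : ∀ (g : G) x, g • c x = c (g • x)) : Subgroup G where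
  carrier := {g | ∀ x : X, g • x = x ∨ g • x = c x}
  one_mem' := fun x => Or.inl (one_smul _ _)
  mul_mem' := by
    intro g h hg hh x
    rw [mul_smul]
    rcases hh x with h1 | h1
    · rw [h1]; exact hg x
    · rw [h1, hcg]
      rcases hg x with h2 | h2
      · rw [h2]; exact Or.inr rfl
      · rw [h2, hcc]; exact Or.inl rfl
  inv_mem' := by
    intro g hg x
    have h1 := hg (g⁻¹ • x)
    rw [smul_inv_smul] at h1
    rcases h1 with h1 | h1
    · exact Or.inl h1.symm
    · right
      have h2 := congrArg c h1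
      rw [hcc] at h2
      exact h2.symm

variable {c : X → X} (hcc : ∀ x, c (c x) = x) (hcg : ∀ (g : G) x, g • c x = c (g • x))

theorem mem_pairKer {g : G} : g ∈ pairKer G c hcc hcg ↔ ∀ x : X, g • x = x ∨ g • x = c x :=
  Iff.rfl

theorem conj_mem_pairKer (g : G) {ν : G} (hν : ν ∈ pairKer G c hcc hcg) :
    g⁻¹ * ν * g ∈ pairKer G c hcc hcg := by
  intro x
  rw [mul_smul, mul_smul]
  rcases hν (g • x) with h | h
  · rw [h, inv_smul_smul]; exact Or.inl rfl
  · rw [h, hcg, inv_smul_smul]; exact Or.inr rfl

/-- Two points are in the same class if they have the same stabiliser in the pair kernel. -/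
def clsSetoid : Setoid X where
  r x y := ∀ ν ∈ pairKer G c hcc hcg, ν • x = x ↔ ν • y = y
  iseqv :=
    { refl := fun _ _ _ => Iff.rfl
      symm := fun h ν hν => (h ν hν).symm
      trans := fun h h' ν hν => (h ν hν).trans (h' ν hν) }

theorem cls_conj (x : X) : (clsSetoid hcc hcg).r x (c x) := by
  intro ν _
  rw [hcg]
  constructor
  · intro h; rw [h]
  · intro h
    have := congrArg c h
    rwa [hcc, hcc] at this

theorem cls_smul (g : G) {x y : X} (h : (clsSetoid hcc hcg).r x y) :
    (clsSetoid hcc hcg).r (g • x) (g • y) := by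
  intro ν hν
  have h1 := h _ (conj_mem_pairKer hcc hcg g hν)
  have h2 : ∀ z : X, (g⁻¹ * ν * g) • z = z ↔ ν • g • z = g • z := by
    intro z
    rw [mul_smul, mul_smul, inv_smul_eq_iff]
  rw [h2, h2] at h1
  exact h1

/-- The classes. -/
abbrev Cls : Type _ := Quotient (clsSetoid hcc hcg)

/-- The action of the group on the classes. -/
instance clsAction : MulAction G (Cls hcc hcg) where
  smul g := Quotient.map (fun x => g • x) fun _ _ h => cls_smul hcc hcg g h
  one_smul := by
    rintro ⟨x⟩
    exact congrArg (Quotient.mk _) (one_smul G x)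
  mul_smul := by
    rintro g h ⟨x⟩
    exact congrArg (Quotient.mk _) (mul_smul g h x)

theorem smul_mk (g : G) (x : X) :
    g • (Quotient.mk (clsSetoid hcc hcg) x) = Quotient.mk (clsSetoid hcc hcg) (g • x) := rfl

open Classical in
/-- The character of the pair kernel at a point. -/
noncomputable def chr (ν : G) (x : X) : ℤ := if ν • x = x then 1 else -1

theorem chr_mul {ν μ : G} (hν : ν ∈ pairKer G c hcc hcg) (hμ : μ ∈ pairKer G c hcc hcg)
    (hne : ∀ x, c x ≠ x) (x : X) : chr (ν * μ) x = chr ν x * chr μ x := by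
  unfold chr
  rw [mul_smul]
  rcases hμ x with h1 | h1
  · rw [h1]
    simp
  · rw [h1, hcg, if_neg (hne x)]
    rcases hν x with h2 | h2
    · rw [h2, if_neg (hne x)]
      simp
    · rw [h2, hcc, if_neg (hne x)]
      simp

theorem chr_sq (ν : G) (x : X) : chr ν x * chr ν x = 1 := by
  unfold chr; split_ifs <;> norm_num

theorem odd_smul {f : X → ℤ} (hf : ∀ x, f (c x) = - f x) {ν : G}
    (hν : ν ∈ pairKer G c hcc hcg) (x : X) : f (ν • x) = chr ν x * f x := by
  unfold chr
  by_cases h : ν • x = x
  · rw [if_pos h, h, one_mul]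
  · rw [if_neg h, (hν x).resolve_left h, hf]; ring

variable [Finite G] [Fintype X]

open Classical in
/-- The part of a relation supported on a class is a relation. -/
theorem proj_mem_lat (hne : ∀ x, c x ≠ x) {Φ : Finset X} {f : X → ℤ} (hf : f ∈ lat G c Φ)
    (q : Cls hcc hcg) :
    (fun x => if Quotient.mk (clsSetoid hcc hcg) x = q then f x else 0) ∈ lat G c Φ := by
  obtain ⟨x₀, rfl⟩ := Quotient.exists_rep q
  have : Fintype (pairKer G c hcc hcg) := Fintype.ofFinite _
  have hN : Fintype.card (pairKer G c hcc hcg) ≠ 0 := Fintype.card_ne_zero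
  refine lat_sat hN ?_
  have h1 : (fun x => ((Fintype.card (pairKer G c hcc hcg) : ℕ) : ℤ) *
      (if Quotient.mk (clsSetoid hcc hcg) x = Quotient.mk (clsSetoid hcc hcg) x₀ then f x else 0))
      = ∑ ν : pairKer G c hcc hcg, chr (ν : G) x₀ • (fun x => f ((ν : G) • x)) := by
    funext x
    rw [Finset.sum_apply]
    have h2 : ∀ ν : pairKer G c hcc hcg, (chr (ν : G) x₀ • (fun x => f ((ν : G) • x))) x
        = (chr (ν : G) x₀ * chr (ν : G) x) * f x := by
      intro ν
      rw [Pi.smul_apply, smul_eq_mul, odd_smul hcc hcg hf.1 ν.2, mul_assoc]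
    rw [Finset.sum_congr rfl fun ν _ => h2 ν, ← Finset.sum_mul]
    by_cases h : Quotient.mk (clsSetoid hcc hcg) x = Quotient.mk (clsSetoid hcc hcg) x₀
    · rw [if_pos h]
      congr 1
      have h3 : ∀ ν : pairKer G c hcc hcg, chr (ν : G) x₀ * chr (ν : G) x = 1 := by
        intro ν
        have h4 : (clsSetoid hcc hcg).r x x₀ := Quotient.exact h
        have h5 := h4 ν.1 ν.2
        have h6 : chr (ν : G) x = chr (ν : G) x₀ := by
          unfold chr
          by_cases h7 : (ν : G) • x = x
          · rw [if_pos h7, if_pos (h5.1 h7)]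
          · rw [if_neg h7, if_neg (fun h8 => h7 (h5.2 h8))]
        rw [h6, chr_sq]
      rw [Finset.sum_congr rfl fun ν _ => h3 ν]
      simp
    · rw [if_neg h, mul_zero]
      have h3 : ∃ μ : pairKer G c hcc hcg, chr (μ : G) x₀ * chr (μ : G) x = -1 := by
        by_contra hcon
        push Not at hcon
        apply h
        apply Quotient.sound
        intro ν hν
        have h4 := hcon ⟨ν, hν⟩
        simp only [chr] at h4
        by_cases h5 : ν • x = x
        · by_cases h6 : ν • x₀ = x₀
          · exact ⟨fun _ => h6, fun _ => h5⟩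
          · rw [if_neg h6, if_pos h5] at h4; norm_num at h4
        · by_cases h6 : ν • x₀ = x₀
          · rw [if_pos h6, if_neg h5] at h4; norm_num at h4
          · exact ⟨fun h7 => absurd h7 h5, fun h7 => absurd h7 h6⟩
      obtain ⟨μ, hμ⟩ := h3
      have h4 : ∑ ν : pairKer G c hcc hcg, chr (ν : G) x₀ * chr (ν : G) x
          = ∑ ν : pairKer G c hcc hcg, - (chr (ν : G) x₀ * chr (ν : G) x) := by
        refine Fintype.sum_equiv (Equiv.mulRight μ) _ _ fun ν => ?_
        show _ = - (chr ((ν * μ : pairKer G c hcc hcg) : G) x₀ *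
          chr ((ν * μ : pairKer G c hcc hcg) : G) x)
        rw [Subgroup.coe_mul, chr_mul hcc hcg ν.2 μ.2 hne, chr_mul hcc hcg ν.2 μ.2 hne]
        have : - (chr (ν : G) x₀ * chr (μ : G) x₀ * (chr (ν : G) x * chr (μ : G) x))
            = - ((chr (ν : G) x₀ * chr (ν : G) x) * (chr (μ : G) x₀ * chr (μ : G) x)) := by ring
        rw [this, hμ]; ring
      rw [Finset.sum_neg_distrib] at h4
      have h5 : ∑ ν : pairKer G c hcc hcg, chr (ν : G) x₀ * chr (ν : G) x = 0 := by omega
      rw [h5, zero_mul]
  rw [h1]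
  refine AddSubgroup.sum_mem _ fun ν _ => ?_
  exact AddSubgroup.zsmul_mem _ (lat_smul hcg (ν : G) hf) _

/-- The pair kernel embeds into the functions on the classes. -/
theorem card_pairKer_le [FaithfulSMul G X] :
    Nat.card (pairKer G c hcc hcg) ≤ 2 ^ Nat.card (Cls hcc hcg) := by
  classical
  have : Finite (Cls hcc hcg) := inferInstance
  have h1 : Nat.card (Cls hcc hcg → Bool) = 2 ^ Nat.card (Cls hcc hcg) := by
    rw [Nat.card_fun, Nat.card_eq_fintype_card (α := Bool), Fintype.card_bool]
  rw [← h1]
  refine Nat.card_le_card_of_injective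
    (fun (ν : pairKer G c hcc hcg) (q : Cls hcc hcg) => decide ((ν : G) • q.out = q.out)) ?_
  intro ν μ h
  apply Subtype.ext
  apply FaithfulSMul.eq_of_smul_eq_smul (α := X)
  intro x
  have h2 := congrFun h (Quotient.mk (clsSetoid hcc hcg) x)
  simp only [decide_eq_decide] at h2
  have h3 : (clsSetoid hcc hcg).r (Quotient.mk (clsSetoid hcc hcg) x).out x :=
    Quotient.mk_out x
  rw [h3 ν.1 ν.2, h3 μ.1 μ.2] at h2
  by_cases h4 : (ν : G) • x = x
  · rw [h4, h2.1 h4]
  · rw [(ν.2 x).resolve_left h4, (μ.2 x).resolve_left fun h5 => h4 (h2.2 h5)]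

end Blocks

end Pool.MP43e44c
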