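import Pool.Agent.H.MP_43e44c_ag.Disc

/-!
CM fields of degree `2 ℓ ^ k`, `ℓ` an odd prime.
-/

set_option autoImplicit false

open NumberField Finset

namespace Pool.MP43e44c

section Abstract

variable {G X : Type*} [Group G] [Finite G] [MulAction G X] [MulAction.IsPretransitive G X]
  [Fintype X]

/-- Elements of odd order which move `x` to `c x` do not exist. -/
theorem not_smul_eq_conj {c : X → X} (hcc : ∀ x, c (c x) = x)
    (hcg : ∀ (g : G) x, g • c x = c (g • x)) (hne : ∀ x, c x ≠ x) {σ : G} (hσ : Odd (orderOf σ))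
    (x : X) : σ • x ≠ c x := by
  intro h
  have h1 : (σ ^ 2) • x = x := by
    rw [pow_two, mul_smul, h, hcg, h, hcc]
  have h2 : ∀ j : ℕ, ((σ ^ 2) ^ j) • x = x := by
    intro j
    induction j with
    | zero => rw [pow_zero, one_smul]
    | succ j ih => rw [pow_succ, mul_smul, h1, ih]
  obtain ⟨j, hj⟩ := hσ
  have h3 : (σ ^ 2) ^ (j + 1) = σ := by
    rw [← pow_mul]
    have : 2 * (j + 1) = orderOf σ + 1 := by omega
    rw [this, pow_succ, pow_orderOf_eq_one, one_mul]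
  have h4 := h2 (j + 1)
  rw [h3, h] at h4
  exact hne x h4

/-- Structure of the orbits of a Sylow subgroup on a set of `2 ℓ ^ k` elements. -/
theorem orbit_half {ℓ k : ℕ} [hℓ : Fact ℓ.Prime] (hodd : ℓ ≠ 2) (hX : Nat.card X = 2 * ℓ ^ k)
    {c : X → X} (hcc : ∀ x, c (c x) = x) (hcg : ∀ (g : G) x, g • c x = c (g • x))
    (hne : ∀ x, c x ≠ x) (P : Sylow ℓ G) (x₀ x : X) :
    x ∈ MulAction.orbit P x₀ ↔ c x ∉ MulAction.orbit P x₀ := by
  classical
  have hoddℓ : Odd ℓ := hℓ.out.odd_of_ne_two hodd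
  have hoo : ∀ σ : P, Odd (orderOf (σ : G)) := by
    intro σ
    obtain ⟨j, hj⟩ := P.isPGroup'.exists_orderOf_eq_pow σ
    have h1 : orderOf (σ : G) = ℓ ^ j := by
      rw [← hj]; exact Subgroup.orderOf_coe σ
    rw [h1]
    exact hoddℓ.pow
  constructor
  · rintro ⟨σ, rfl⟩ ⟨τ, hτ⟩
    have h1 : ((τ * σ⁻¹ : P) : G) • ((σ : G) • x₀) = c ((σ : G) • x₀) := by
      rw [← mul_smul]
      show ((τ * σ⁻¹ * σ : P) : G) • x₀ = c ((σ : G) • x₀)
      rw [inv_mul_cancel_right]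
      exact hτ
    exact not_smul_eq_conj hcc hcg hne (hoo _) _ h1
  · intro h
    -- cardinalities
    set O := MulAction.orbit P x₀ with hO
    set O' := MulAction.orbit P (c x) with hO'
    by_contra hx
    have hd1 : Disjoint O O' := by
      rcases MulAction.orbit.eq_or_disjoint (G := P) x₀ (c x) with h1 | h1
      · exact absurd (by rw [hO, h1]; exact MulAction.mem_orbit_self _) h
      · exact h1
    set O'' := MulAction.orbit P x with hO''
    have hd2 : Disjoint O O'' := by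
      rcases MulAction.orbit.eq_or_disjoint (G := P) x₀ x with h1 | h1
      · exact absurd (by rw [hO, h1]; exact MulAction.mem_orbit_self _) hx
      · exact h1
    have hd3 : Disjoint O'' O' := by
      rcases MulAction.orbit.eq_or_disjoint (G := P) x (c x) with h1 | h1
      · exfalso
        have h2 : c x ∈ MulAction.orbit P x := by
          rw [h1]; exact MulAction.mem_orbit_self _
        obtain ⟨σ, hσ⟩ := h2
        exact not_smul_eq_conj hcc hcg hne (hoo σ) x hσ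
      · exact h1
    have hc : ∀ y : X, ℓ ^ k ≤ (MulAction.orbit P y).ncard := fun y =>
      Nat.le_of_dvd ((Set.ncard_pos).2 (MulAction.nonempty_orbit y))
        (dvd_card_orbit P y (by rw [hX]; exact Dvd.intro_left _ rfl))
    have h4 : (O ∪ O' ∪ O'').ncard = O.ncard + O'.ncard + O''.ncard := by
      rw [Set.ncard_union_eq, Set.ncard_union_eq hd1]
      rw [Set.disjoint_union_left]
      exact ⟨hd2, hd3.symm⟩
    have h5 : (O ∪ O' ∪ O'').ncard ≤ Nat.card X := by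
      rw [← Set.ncard_univ]
      exact Set.ncard_le_ncard (Set.subset_univ _)
    have h6 : ℓ ^ k ≤ O.ncard := hc x₀
    have h7 : ℓ ^ k ≤ O'.ncard := hc (c x)
    have h8 : ℓ ^ k ≤ O''.ncard := hc x
    have h9 : 0 < ℓ ^ k := pow_pos hℓ.out.pos _
    omega

/-- The congruence for a lattice vector fixed modulo `ℓ`. -/
theorem dvd_card_inter [DecidableEq X] {ℓ k : ℕ} [hℓ : Fact ℓ.Prime] (hodd : ℓ ≠ 2) (hk : k ≠ 0)
    (hX : Nat.card X = 2 * ℓ ^ k) {c : X → X} (hcc : ∀ x, c (c x) = x)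
    (hcg : ∀ (g : G) x, g • c x = c (g • x)) (hne : ∀ x, c x ≠ x) (P : Sylow ℓ G)
    {Ψ : Finset X} {x₀ : X} (hΨ : ∀ x, x ∈ Ψ ↔ x ∈ MulAction.orbit P x₀)
    {Φ : Finset X} (hΦ : ∀ x, x ∈ Φ ↔ c x ∉ Φ) (hL : ∃ f ∈ lat G c Φ, f ≠ 0) :
    ℓ ∣ (Φ ∩ Ψ).card := by
  have hΨ' : ∀ x, x ∈ Ψ ↔ c x ∉ Ψ := by
    intro x
    rw [hΨ, hΨ]
    exact orbit_half hodd hX hcc hcg hne P x₀ x
  obtain ⟨f, hf, ⟨x₁, hx₁⟩, hfix⟩ := exists_fixed (P := P) (X := X) P.isPGroup'
    (lat G c Φ) (fun σ f hf => lat_smul hcg (σ : G) hf)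
    (fun f hf => lat_sat hℓ.out.ne_zero hf) hL
  obtain ⟨h1, h2⟩ := hf
  -- values on the orbit
  have h3 : ∀ x ∈ Ψ, (ℓ : ℤ) ∣ f x - f x₀ := by
    intro x hx
    obtain ⟨σ, rfl⟩ := (hΨ x).1 hx
    exact hfix σ x₀
  have h4 : ¬ (ℓ : ℤ) ∣ f x₀ := by
    intro h5
    have h6 : ∀ x ∈ Ψ, (ℓ : ℤ) ∣ f x := fun x hx => by
      have := dvd_add (h3 x hx) h5
      rwa [sub_add_cancel] at this
    by_cases h7 : x₁ ∈ Ψ
    · exact hx₁ (h6 _ h7)
    · have h8 : c x₁ ∈ Ψ := by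
        by_contra h9; exact h7 ((hΨ' _).2 h9)
      have h9 := h6 _ h8
      rw [h1, Int.dvd_neg] at h9
      exact hx₁ h9
  have h5 : ∑ x ∈ Ψ, f x * sg Φ x = 0 := by
    have h6 := sum_half hcc hΨ' (fun x => f x * sg Φ x) (fun x => by
      show f (c x) * sg Φ (c x) = _
      rw [sg_conj hΦ, h1, neg_mul_neg])
    have h7 := h2 1
    simp only [one_smul] at h7
    rw [h7] at h6
    omega
  have h6 : (ℓ : ℤ) ∣ f x₀ * ∑ x ∈ Ψ, sg Φ x := by
    have h7 : f x₀ * ∑ x ∈ Ψ, sg Φ x = ∑ x ∈ Ψ, f x * sg Φ x - ∑ x ∈ Ψ, (f x - f x₀) * sg Φ x := by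
      rw [mul_sum, ← sum_sub_distrib]
      exact sum_congr rfl fun x _ => by ring
    rw [h7, h5, zero_sub, Int.dvd_neg]
    exact dvd_sum fun x hx => Dvd.dvd.mul_right (h3 x hx) _
  have hp : Prime (ℓ : ℤ) := Nat.prime_iff_prime_int.1 hℓ.out
  have h7 := (hp.dvd_or_dvd h6).resolve_left h4
  -- evaluate the sum
  have h8 : ∑ x ∈ Ψ, sg Φ x = 2 * ((Φ ∩ Ψ).card : ℤ) - Ψ.card := by
    have h9 : ∀ x ∈ Ψ, sg Φ x = (if x ∈ Φ then (2 : ℤ) else 0) - 1 := by
      intro x _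
      by_cases h : x ∈ Φ
      · rw [sg_mem h, if_pos h]; norm_num
      · rw [sg_notMem h, if_neg h]; norm_num
    rw [sum_congr rfl h9, sum_sub_distrib, sum_ite, sum_const, sum_const]
    have h10 : Ψ.filter (fun x => x ∈ Φ) = Φ ∩ Ψ := by
      ext x; simp [and_comm]
    rw [h10]
    simp
    ring
  have h9 : Ψ.card = ℓ ^ k := by
    have h10 := sum_half hcc hΨ' (fun _ => 1) (fun _ => rfl)
    simp only [sum_const, card_univ, nsmul_eq_mul, mul_one] at h10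
    rw [Nat.card_eq_fintype_card] at hX
    rw [hX] at h10
    push_cast at h10
    have h11 : ((ℓ ^ k : ℕ) : ℤ) = Ψ.card := by push_cast; linarith
    exact_mod_cast h11.symm
  rw [h8, h9] at h7
  have h10 : (ℓ : ℤ) ∣ 2 * ((Φ ∩ Ψ).card : ℤ) := by
    have h11 : (ℓ : ℤ) ∣ ((ℓ ^ k : ℕ) : ℤ) := by
      exact_mod_cast dvd_pow_self ℓ hk
    have := dvd_add h7 h11
    rwa [sub_add_cancel] at this
  have h11 : ¬ (ℓ : ℤ) ∣ 2 := by
    intro h12
    have h13 : ℓ ∣ 2 := by exact_mod_cast h12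
    exact hodd ((Nat.prime_dvd_prime_iff_eq hℓ.out Nat.prime_two).1 h13)
  exact_mod_cast (hp.dvd_or_dvd h10).resolve_left h11

end Abstract

end Pool.MP43e44c
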