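import Pool.Agent.H.MP_43e44c_ag.Blk
import Pool.Agent.H.MP_43e44c_ag.PP

/-!
Relations supported on a class: Sylow subgroups of the stabiliser of the class.
-/

set_option autoImplicit false

open Finset

namespace Pool.MP43e44c

theorem dvd_card_orbit' {G X : Type*} [Group G] [Finite G] [MulAction G X] {ℓ k : ℕ}
    [Fact ℓ.Prime] (P : Sylow ℓ G) (x : X)
    (h : ℓ ^ k ∣ (MulAction.orbit G x).ncard) : ℓ ^ k ∣ (MulAction.orbit P x).ncard := by
  have h1 : (MulAction.stabilizer G x).index = (MulAction.orbit G x).ncard :=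
    MulAction.index_stabilizer G x
  set S := MulAction.stabilizer G x with hS
  have h2 := Subgroup.relIndex_mul_index (inf_le_left : (P : Subgroup G) ⊓ S ≤ P)
  have h3 := Subgroup.relIndex_mul_index (inf_le_right : (P : Subgroup G) ⊓ S ≤ S)
  have h4 : ℓ ^ k ∣ ((P : Subgroup G) ⊓ S).relIndex P * (P : Subgroup G).index := by
    rw [h2, ← h3, h1]
    exact Dvd.dvd.mul_left h _
  have h5 : Nat.Coprime (ℓ ^ k) (P : Subgroup G).index := by
    apply Nat.Coprime.pow_left
    exact (Nat.Prime.coprime_iff_not_dvd Fact.out).2 P.not_dvd_index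
  have h6 := h5.dvd_of_dvd_mul_right h4
  have h7 : ((P : Subgroup G) ⊓ S).relIndex P = (MulAction.stabilizer P x).index := by
    rw [Subgroup.inf_relIndex_left]
    rfl
  rw [h7, MulAction.index_stabilizer] at h6
  exact h6

section

variable {G X : Type*} [Group G] [MulAction G X]
  {c : X → X} (hcc : ∀ x, c (c x) = x) (hcg : ∀ (g : G) x, g • c x = c (g • x))

/-- The class of a point. -/
abbrev mkc (x : X) : Cls hcc hcg := Quotient.mk (clsSetoid hcc hcg) x

theorem mkc_smul (g : G) (x : X) : mkc hcc hcg (g • x) = g • mkc hcc hcg x := rfl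

theorem mkc_conj (x : X) : mkc hcc hcg (c x) = mkc hcc hcg x :=
  Quotient.sound ((clsSetoid hcc hcg).symm (cls_conj hcc hcg x))

/-- The stabiliser of the class of a point. -/
abbrev stb (x₀ : X) : Subgroup G := MulAction.stabilizer G (mkc hcc hcg x₀)

theorem orbit_stb [MulAction.IsPretransitive G X] (x₀ : X) :
    MulAction.orbit (stb hcc hcg x₀) x₀ = {y | mkc hcc hcg y = mkc hcc hcg x₀} := by
  ext y
  constructor
  · rintro ⟨h, rfl⟩
    show mkc hcc hcg ((h : G) • x₀) = _
    rw [mkc_smul]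
    exact h.2
  · intro hy
    obtain ⟨g, hg⟩ := MulAction.exists_smul_eq G x₀ y
    have hg' : g ∈ stb hcc hcg x₀ := by
      rw [MulAction.mem_stabilizer_iff, ← mkc_smul, hg]
      exact hy
    exact ⟨⟨g, hg'⟩, hg⟩

variable [Finite G] [Fintype X]

theorem ncard_cls_eq [MulAction.IsPretransitive G X] (x y : X) :
    {z | mkc hcc hcg z = mkc hcc hcg x}.ncard = {z | mkc hcc hcg z = mkc hcc hcg y}.ncard := by
  have key : ∀ x y : X, {z | mkc hcc hcg z = mkc hcc hcg x}.ncard
      ≤ {z | mkc hcc hcg z = mkc hcc hcg y}.ncard := by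
    intro x y
    obtain ⟨g, rfl⟩ := MulAction.exists_smul_eq G x y
    refine Set.ncard_le_ncard_of_injOn (fun z => g • z) ?_ ?_ (Set.toFinite _)
    · intro z hz
      show mkc hcc hcg (g • z) = mkc hcc hcg (g • x)
      rw [mkc_smul, mkc_smul, hz]
    · intro z _ z' _ h
      exact MulAction.injective g h
  exact le_antisymm (key x y) (key y x)

/-- The orbit of a Sylow subgroup of the stabiliser of a class is a half of the class. -/
theorem half_orbit [MulAction.IsPretransitive G X] {ℓ k : ℕ} [hℓ : Fact ℓ.Prime] (hodd : ℓ ≠ 2)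
    (hne : ∀ x, c x ≠ x) {x₀ : X}
    (hB : {y | mkc hcc hcg y = mkc hcc hcg x₀}.ncard = 2 * ℓ ^ k)
    (P : Sylow ℓ (stb hcc hcg x₀)) :
    (∀ y ∈ MulAction.orbit P x₀, mkc hcc hcg y = mkc hcc hcg x₀) ∧
    (∀ y, mkc hcc hcg y = mkc hcc hcg x₀ →
      (y ∈ MulAction.orbit P x₀ ↔ c y ∉ MulAction.orbit P x₀)) ∧
    (MulAction.orbit P x₀).ncard = ℓ ^ k := by
  classical
  have hoddℓ : Odd ℓ := hℓ.out.odd_of_ne_two hodd
  have hoo : ∀ σ : P, Odd (orderOf ((σ : stb hcc hcg x₀) : G)) := by
    intro σ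
    obtain ⟨j, hj⟩ := P.isPGroup'.exists_orderOf_eq_pow σ
    have h1 : orderOf ((σ : stb hcc hcg x₀) : G) = ℓ ^ j := by
      rw [← hj, Subgroup.orderOf_coe, Subgroup.orderOf_coe]
    rw [h1]
    exact hoddℓ.pow
  set O := MulAction.orbit P x₀ with hO
  have h1 : ∀ y ∈ O, mkc hcc hcg y = mkc hcc hcg x₀ := by
    rintro y ⟨σ, rfl⟩
    show mkc hcc hcg (((σ : stb hcc hcg x₀) : G) • x₀) = _
    rw [mkc_smul]
    exact (σ : stb hcc hcg x₀).2
  have h2 : ∀ y ∈ O, c y ∉ O := by
    rintro y ⟨σ, rfl⟩ ⟨τ, hτ⟩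
    have h1 : (((τ * σ⁻¹ : P) : stb hcc hcg x₀) : G) • (((σ : stb hcc hcg x₀) : G) • x₀)
        = c (((σ : stb hcc hcg x₀) : G) • x₀) := by
      rw [← mul_smul]
      show (((τ * σ⁻¹ * σ : P) : stb hcc hcg x₀) : G) • x₀ = c (((σ : stb hcc hcg x₀) : G) • x₀)
      rw [inv_mul_cancel_right]
      exact hτ
    exact not_smul_eq_conj hcc hcg hne (hoo _) _ h1
  have h3 : ℓ ^ k ≤ O.ncard := by
    refine Nat.le_of_dvd ((Set.ncard_pos).2 (MulAction.nonempty_orbit x₀)) ?_
    refine dvd_card_orbit' P x₀ ?_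
    rw [orbit_stb, hB]
    exact Dvd.intro_left _ rfl
  have h4 : (O ∪ c '' O) ⊆ {y | mkc hcc hcg y = mkc hcc hcg x₀} := by
    rintro y (hy | ⟨z, hz, rfl⟩)
    · exact h1 y hy
    · show mkc hcc hcg (c z) = _
      rw [mkc_conj, h1 z hz]
  have hcinj : Function.Injective c := fun a b hab => by
    have := congrArg c hab
    rwa [hcc, hcc] at this
  have h5 : Disjoint O (c '' O) := by
    rw [Set.disjoint_left]
    rintro y hy ⟨z, hz, rfl⟩
    exact h2 z hz hy
  have h6 : (O ∪ c '' O).ncard = O.ncard + O.ncard := by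
    rw [Set.ncard_union_eq h5, Set.ncard_image_of_injective _ hcinj]
  have h7 := Set.ncard_le_ncard h4 (Set.toFinite _)
  rw [hB, h6] at h7
  have h8 : O.ncard = ℓ ^ k := by omega
  have h9 : (O ∪ c '' O) = {y | mkc hcc hcg y = mkc hcc hcg x₀} :=
    Set.eq_of_subset_of_ncard_le h4 (by rw [hB, h6, h8]; omega) (Set.toFinite _)
  refine ⟨h1, fun y hy => ⟨h2 y, fun hcy => ?_⟩, h8⟩
  have h10 : y ∈ O ∪ c '' O := by rw [h9]; exact hy
  rcases h10 with h10 | ⟨z, hz, rfl⟩
  · exact h10
  · exact absurd (by rw [hcc]; exact hz) hcy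

/-- The relations supported on a class. -/
def latB (Φ : Finset X) (q : Cls hcc hcg) : AddSubgroup (X → ℤ) where
  carrier := {f | f ∈ lat G c Φ ∧ ∀ x, mkc hcc hcg x ≠ q → f x = 0}
  zero_mem' := ⟨zero_mem _, fun _ _ => rfl⟩
  add_mem' := by
    rintro f f' ⟨h1, h2⟩ ⟨h1', h2'⟩
    refine ⟨add_mem h1 h1', fun x hx => ?_⟩
    rw [Pi.add_apply, h2 x hx, h2' x hx, add_zero]
  neg_mem' := by
    rintro f ⟨h1, h2⟩
    refine ⟨neg_mem h1, fun x hx => ?_⟩
    rw [Pi.neg_apply, h2 x hx, neg_zero]

omit [Finite G] in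
theorem latB_smul {Φ : Finset X} {x₀ : X} (σ : stb hcc hcg x₀) {f : X → ℤ}
    (hf : f ∈ latB hcc hcg Φ (mkc hcc hcg x₀)) :
    (fun x => f (σ • x)) ∈ latB hcc hcg Φ (mkc hcc hcg x₀) := by
  obtain ⟨h1, h2⟩ := hf
  refine ⟨lat_smul hcg (σ : G) h1, fun x hx => ?_⟩
  apply h2
  show mkc hcc hcg ((σ : G) • x) ≠ _
  rw [mkc_smul]
  intro h3
  apply hx
  have h4 : (σ : G) • mkc hcc hcg x₀ = mkc hcc hcg x₀ := σ.2
  exact MulAction.injective (σ : G) (h3.trans h4.symm)

omit [Finite G] in
theorem latB_sat {Φ : Finset X} {q : Cls hcc hcg} {ℓ : ℕ} (hℓ : ℓ ≠ 0) {f : X → ℤ}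
    (hf : (fun x => (ℓ : ℤ) * f x) ∈ latB hcc hcg Φ q) : f ∈ latB hcc hcg Φ q := by
  obtain ⟨h1, h2⟩ := hf
  refine ⟨lat_sat hℓ h1, fun x hx => ?_⟩
  have h3 : (ℓ : ℤ) ≠ 0 := by exact_mod_cast hℓ
  exact (mul_eq_zero.1 (h2 x hx)).resolve_left h3

open Classical in
/-- The relation for a function supported on a class, summed over a half of the class. -/
theorem sum_half_cls {Φ : Finset X} (hΦ : ∀ x, x ∈ Φ ↔ c x ∉ Φ) {q : Cls hcc hcg}
    {f : X → ℤ} (hf : f ∈ latB hcc hcg Φ q) {O : Finset X}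
    (hO : ∀ y ∈ O, mkc hcc hcg y = q)
    (hO' : ∀ y, mkc hcc hcg y = q → (y ∈ O ↔ c y ∉ O)) (g : G) :
    ∑ x ∈ O, f x * sg Φ (g • x) = 0 := by
  obtain ⟨⟨h1, h2⟩, h3⟩ := hf
  have h4 := h2 g
  have hcinj : Function.Injective c := fun a b hab => by
    have := congrArg c hab
    rwa [hcc, hcc] at this
  have h5 : Disjoint O (O.image c) := by
    rw [Finset.disjoint_left]
    intro y hy hy'
    obtain ⟨z, hz, rfl⟩ := mem_image.1 hy'
    exact (hO' z (hO z hz)).1 hz hy
  have h6 : ∑ x, f x * sg Φ (g • x) = ∑ x ∈ O ∪ O.image c, f x * sg Φ (g • x) := by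
    symm
    apply sum_subset (subset_univ _)
    intro x _ hx
    rw [mem_union, not_or] at hx
    rw [h3 x, zero_mul]
    intro hxq
    have h7 : c x ∈ O := by
      by_contra h8
      exact hx.1 ((hO' x hxq).2 h8)
    exact hx.2 (mem_image.2 ⟨c x, h7, hcc x⟩)
  rw [h6, sum_union h5, sum_image (fun a _ b _ hab => hcinj hab)] at h4
  have h7 : ∑ x ∈ O, f (c x) * sg Φ (g • c x) = ∑ x ∈ O, f x * sg Φ (g • x) :=
    sum_congr rfl fun x _ => by rw [hcg, sg_conj hΦ, h1, neg_mul_neg]
  rw [h7] at h4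
  omega

open Classical in
/-- The congruences for a nonzero relation supported on a class of `2 ℓ ^ k` elements. -/
theorem dvd_card_cls [MulAction.IsPretransitive G X] {ℓ k : ℕ} [hℓ : Fact ℓ.Prime]
    (hodd : ℓ ≠ 2) (hk : k ≠ 0) (hne : ∀ x, c x ≠ x) {x₀ : X}
    (hB : {y | mkc hcc hcg y = mkc hcc hcg x₀}.ncard = 2 * ℓ ^ k)
    (P : Sylow ℓ (stb hcc hcg x₀)) {Φ : Finset X} (hΦ : ∀ x, x ∈ Φ ↔ c x ∉ Φ)
    (hL : ∃ f ∈ latB hcc hcg Φ (mkc hcc hcg x₀), f ≠ 0) (g : G) :
    ℓ ∣ (univ.filter fun x => x ∈ MulAction.orbit P x₀ ∧ g • x ∈ Φ).card := by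
  obtain ⟨hO1, hO2, hO3⟩ := half_orbit hcc hcg hodd hne hB P
  let O : Finset X := univ.filter fun x => x ∈ MulAction.orbit P x₀
  have hmemO : ∀ x, x ∈ O ↔ x ∈ MulAction.orbit P x₀ := fun x => by simp [O]
  obtain ⟨f, hf, ⟨x₁, hx₁⟩, hfix⟩ := exists_fixed (P := P) (X := X) P.isPGroup'
    (latB hcc hcg Φ (mkc hcc hcg x₀)) (fun σ f hf => latB_smul hcc hcg (σ : stb hcc hcg x₀) hf)
    (fun f hf => latB_sat hcc hcg hℓ.out.ne_zero hf) hL
  have h3 : ∀ x ∈ O, (ℓ : ℤ) ∣ f x - f x₀ := by
    intro x hx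
    obtain ⟨σ, rfl⟩ := (hmemO x).1 hx
    exact hfix σ x₀
  have h4 : ¬ (ℓ : ℤ) ∣ f x₀ := by
    intro h5
    have h6 : ∀ x ∈ O, (ℓ : ℤ) ∣ f x := fun x hx => by
      have := dvd_add (h3 x hx) h5
      rwa [sub_add_cancel] at this
    have h7 : mkc hcc hcg x₁ = mkc hcc hcg x₀ := by
      by_contra h8
      apply hx₁
      rw [hf.2 x₁ h8]
      exact dvd_zero _
    by_cases h8 : x₁ ∈ O
    · exact hx₁ (h6 _ h8)
    · have h9 : c x₁ ∈ O := by
        by_contra h10
        rw [hmemO] at h8 h10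
        exact h8 ((hO2 x₁ h7).2 h10)
      have h10 := h6 _ h9
      rw [hf.1.1, Int.dvd_neg] at h10
      exact hx₁ h10
  have h5 := sum_half_cls hcc hcg hΦ hf (O := O) (fun y hy => hO1 y ((hmemO y).1 hy))
    (fun y hy => by rw [hmemO, hmemO]; exact hO2 y hy) g
  have h6 : (ℓ : ℤ) ∣ f x₀ * ∑ x ∈ O, sg Φ (g • x) := by
    have h7 : f x₀ * ∑ x ∈ O, sg Φ (g • x)
        = ∑ x ∈ O, f x * sg Φ (g • x) - ∑ x ∈ O, (f x - f x₀) * sg Φ (g • x) := by
      rw [mul_sum, ← sum_sub_distrib]
      exact sum_congr rfl fun x _ => by ring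
    rw [h7, h5, zero_sub, Int.dvd_neg]
    exact dvd_sum fun x hx => Dvd.dvd.mul_right (h3 x hx) _
  have hp : Prime (ℓ : ℤ) := Nat.prime_iff_prime_int.1 hℓ.out
  have h7 := (hp.dvd_or_dvd h6).resolve_left h4
  have h8 : ∑ x ∈ O, sg Φ (g • x) = 2 * ((O.filter fun x => g • x ∈ Φ).card : ℤ) - O.card := by
    have h9 : ∀ x ∈ O, sg Φ (g • x) = (if g • x ∈ Φ then (2 : ℤ) else 0) - 1 := by
      intro x _
      by_cases h : g • x ∈ Φ
      · rw [sg_mem h, if_pos h]; norm_num
      · rw [sg_notMem h, if_neg h]; norm_num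
    rw [sum_congr rfl h9, sum_sub_distrib, sum_ite, sum_const, sum_const]
    simp
    ring
  have h9 : O.card = ℓ ^ k := by
    rw [← hO3, ← Set.ncard_coe_finset]
    congr 1
    ext x
    simp [O]
  rw [h8, h9] at h7
  have h10 : (ℓ : ℤ) ∣ 2 * ((O.filter fun x => g • x ∈ Φ).card : ℤ) := by
    have h11 : (ℓ : ℤ) ∣ ((ℓ ^ k : ℕ) : ℤ) := by
      exact_mod_cast dvd_pow_self ℓ hk
    have := dvd_add h7 h11
    rwa [sub_add_cancel] at this
  have h11 : ¬ (ℓ : ℤ) ∣ 2 := by
    intro h12
    have h13 : ℓ ∣ 2 := by exact_mod_cast h12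
    exact hodd ((Nat.prime_dvd_prime_iff_eq hℓ.out Nat.prime_two).1 h13)
  have h12 : (ℓ : ℤ) ∣ ((O.filter fun x => g • x ∈ Φ).card : ℤ) :=
    (hp.dvd_or_dvd h10).resolve_left h11
  have h13 : (univ.filter fun x => x ∈ MulAction.orbit P x₀ ∧ g • x ∈ Φ)
      = O.filter fun x => g • x ∈ Φ := by
    ext x
    simp [O]
  rw [h13]
  exact_mod_cast h12

open Classical in
/-- Relations supported on a class of size twice one or a prime have vanishing sum over the
equivalence classes of the half system. -/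
theorem sum_eq_zero_of_prime [MulAction.IsPretransitive G X] {b : ℕ} (hb : b = 1 ∨ b.Prime)
    (hne : ∀ x, c x ≠ x) {x₀ : X}
    (hB : {y | mkc hcc hcg y = mkc hcc hcg x₀}.ncard = 2 * b)
    {Φ : Finset X} (hΦ : ∀ x, x ∈ Φ ↔ c x ∉ Φ) {f : X → ℤ}
    (hf : f ∈ latB hcc hcg Φ (mkc hcc hcg x₀)) :
    ∑ y ∈ univ.filter (fun y => ∀ g : G, g • y ∈ Φ ↔ g • x₀ ∈ Φ), f y = 0 := by
  have hcinj : Function.Injective c := fun a b hab => by
    have := congrArg c hab
    rwa [hcc, hcc] at this
  -- a representative half of the class is contained in one equivalence class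
  have key : ∀ O : Finset X, x₀ ∈ O → (∀ y ∈ O, mkc hcc hcg y = mkc hcc hcg x₀) →
      (∀ y, mkc hcc hcg y = mkc hcc hcg x₀ → (y ∈ O ↔ c y ∉ O)) →
      (∀ y ∈ O, ∀ g : G, g • y ∈ Φ ↔ g • x₀ ∈ Φ) →
      ∑ y ∈ univ.filter (fun y => ∀ g : G, g • y ∈ Φ ↔ g • x₀ ∈ Φ), f y = 0 := by
    intro O hx₀ hO1 hO2 hO3
    have h1 := sum_half_cls hcc hcg hΦ hf (O := O) hO1 hO2 1
    have h2 : ∀ y ∈ O, sg Φ ((1 : G) • y) = sg Φ x₀ := by
      intro y hy
      have h3 := hO3 y hy 1
      rw [one_smul, one_smul] at h3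
      rw [one_smul]
      unfold sg
      by_cases h4 : x₀ ∈ Φ
      · rw [if_pos h4, if_pos (h3.2 h4)]
      · rw [if_neg h4, if_neg (fun h5 => h4 (h3.1 h5))]
    rw [sum_congr rfl fun y hy => by rw [h2 y hy], ← sum_mul] at h1
    have h3 : sg Φ x₀ ≠ 0 := by
      unfold sg; split_ifs <;> norm_num
    have h4 := (mul_eq_zero.1 h1).resolve_right h3
    rw [← h4]
    symm
    apply sum_subset
    · intro y hy
      rw [mem_filter]
      exact ⟨mem_univ _, hO3 y hy⟩
    · intro y hy hyO
      rw [mem_filter] at hy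
      apply hf.2
      intro hyq
      have h5 : c y ∈ O := by
        by_contra h6; exact hyO ((hO2 y hyq).2 h6)
      have h6 := hO3 _ h5 1
      have h7 := hy.2 1
      rw [one_smul, one_smul] at h6 h7
      have h8 := hΦ y
      tauto
  rcases hb with rfl | hb
  · -- classes of two elements
    have h1 : {y | mkc hcc hcg y = mkc hcc hcg x₀} = {x₀, c x₀} := by
      symm
      apply Set.eq_of_subset_of_ncard_le
      · rintro y (rfl | rfl)
        · rfl
        · exact mkc_conj hcc hcg x₀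
      · rw [hB, Set.ncard_pair (Ne.symm (hne x₀))]
      · exact Set.toFinite _
    refine key {x₀} (mem_singleton_self _) ?_ ?_ ?_
    · intro y hy
      rw [mem_singleton.1 hy]
    · intro y hy
      have h2 : y ∈ ({x₀, c x₀} : Set X) := by rw [← h1]; exact hy
      rw [mem_singleton, mem_singleton]
      rcases h2 with rfl | h2
      · exact ⟨fun _ => hne _, fun _ => rfl⟩
      · rw [Set.mem_singleton_iff] at h2
        subst h2
        exact ⟨fun h => absurd h (hne x₀), fun h => absurd (hcc x₀) h⟩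
    · intro y hy g
      rw [mem_singleton.1 hy]
  · by_cases h2 : b = 2
    · subst h2
      by_cases hf0 : f = 0
      · rw [hf0]; simp
      -- classes of four elements
      have h1 : ∃ y, mkc hcc hcg y = mkc hcc hcg x₀ ∧ y ≠ x₀ ∧ y ≠ c x₀ := by
        by_contra hcon
        push Not at hcon
        have h3 : {y | mkc hcc hcg y = mkc hcc hcg x₀} ⊆ {x₀, c x₀} := by
          intro y hy
          by_cases h4 : y = x₀
          · exact Or.inl h4
          · exact Or.inr (hcon y hy h4)
        have h4 := Set.ncard_le_ncard h3 (Set.toFinite _)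
        rw [hB, Set.ncard_pair (Ne.symm (hne x₀))] at h4
        omega
      obtain ⟨y, hy, hy1, hy2⟩ := h1
      have hcy1 : c y ≠ x₀ := fun h => hy2 (by rw [← h, hcc])
      have hcy2 : c y ≠ c x₀ := fun h => hy1 (hcinj h)
      have h3 : {z | mkc hcc hcg z = mkc hcc hcg x₀} = {x₀, c x₀, y, c y} := by
        symm
        apply Set.eq_of_subset_of_ncard_le
        · rintro z (rfl | rfl | rfl | rfl)
          · rfl
          · exact mkc_conj hcc hcg x₀
          · exact hy
          · show mkc hcc hcg (c y) = _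
            rw [mkc_conj]; exact hy
        · rw [hB, Set.ncard_insert_of_notMem, Set.ncard_insert_of_notMem,
            Set.ncard_pair (Ne.symm (hne y))]
          · simp only [Set.mem_insert_iff, Set.mem_singleton_iff, not_or]
            exact ⟨Ne.symm hy2, Ne.symm hcy2⟩
          · simp only [Set.mem_insert_iff, Set.mem_singleton_iff, not_or]
            exact ⟨Ne.symm (hne x₀), Ne.symm hy1, Ne.symm hcy1⟩
        · exact Set.toFinite _
      have hrel : ∀ y' : X, mkc hcc hcg y' = mkc hcc hcg x₀ → y' ≠ x₀ → y' ≠ c x₀ →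
          ∀ g : G, f x₀ * sg Φ (g • x₀) + f y' * sg Φ (g • y') = 0 := by
        intro y' hy' h5 h6 g
        have h7 := sum_half_cls hcc hcg hΦ hf (O := {x₀, y'}) ?_ ?_ g
        · rwa [sum_pair (Ne.symm h5)] at h7
        · intro z hz
          rw [mem_insert, mem_singleton] at hz
          rcases hz with rfl | rfl
          · rfl
          · exact hy'
        · have h8 : y' = y ∨ y' = c y := by
            have h9 : y' ∈ ({x₀, c x₀, y, c y} : Set X) := by rw [← h3]; exact hy'
            rcases h9 with h9 | h9 | h9 | h9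
            · exact absurd h9 h5
            · exact absurd h9 h6
            · exact Or.inl h9
            · exact Or.inr h9
          intro z hz
          have h9 : z ∈ ({x₀, c x₀, y, c y} : Set X) := by rw [← h3]; exact hz
          simp only [mem_insert, mem_singleton]
          have h10 := hne x₀
          have h11 := hne y
          have h12 := hcc x₀
          have h13 := hcc y
          rcases h8 with rfl | rfl
          · rcases h9 with rfl | rfl | rfl | rfl
            · simp [h10, Ne.symm hy2]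
            · simp [h10, h12, Ne.symm hy2]
            · simp [hcy1, h11]
            · simp [hcy1, h11, h13]
          · rcases h9 with rfl | rfl | rfl | rfl
            · simp [h10, Ne.symm hcy2]
            · simp [h10, h12, Ne.symm hcy2]
            · simp [hcy1, hy1, Ne.symm h11]
            · simp [h13, hy1, Ne.symm h11]
      have hsgn : ∀ x : X, sg Φ x = 1 ∨ sg Φ x = -1 := fun x => by
        unfold sg; split_ifs <;> simp
      have hfx : f x₀ ≠ 0 := by
        intro h4
        apply hf0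
        have h5 := hrel y hy hy1 hy2 1
        rw [h4, zero_mul, zero_add] at h5
        have h6 : sg Φ ((1 : G) • y) ≠ 0 := by
          rcases hsgn ((1 : G) • y) with h | h <;> rw [h] <;> norm_num
        have h7 := (mul_eq_zero.1 h5).resolve_right h6
        funext z
        rw [Pi.zero_apply]
        by_cases hz : mkc hcc hcg z = mkc hcc hcg x₀
        · have h9 : z ∈ ({x₀, c x₀, y, c y} : Set X) := by rw [← h3]; exact hz
          rcases h9 with rfl | rfl | rfl | rfl
          · exact h4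
          · rw [hf.1.1, h4, neg_zero]
          · exact h7
          · rw [hf.1.1, h7, neg_zero]
        · exact hf.2 z hz
      -- one of `y`, `c y` is equivalent to `x₀`
      have hsame : ∀ y' : X, (∀ g : G, f x₀ * sg Φ (g • x₀) + f y' * sg Φ (g • y') = 0) →
          sg Φ y' = sg Φ x₀ → ∀ g : G, g • y' ∈ Φ ↔ g • x₀ ∈ Φ := by
        intro y' hr hs g
        have h5 := hr 1
        rw [one_smul, one_smul, hs, ← add_mul] at h5
        have h6 : sg Φ x₀ ≠ 0 := by
          rcases hsgn x₀ with h | h <;> rw [h] <;> norm_num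
        have h7 := (mul_eq_zero.1 h5).resolve_right h6
        have h8 := hr g
        have h9 : f y' = - f x₀ := by linarith
        rw [h9, neg_mul, ← sub_eq_add_neg, ← mul_sub] at h8
        have h10 := (mul_eq_zero.1 h8).resolve_left hfx
        have h11 : sg Φ (g • x₀) = sg Φ (g • y') := by linarith
        unfold sg at h11
        by_cases h12 : g • x₀ ∈ Φ
        · by_cases h13 : g • y' ∈ Φ
          · exact ⟨fun _ => h12, fun _ => h13⟩
          · rw [if_pos h12, if_neg h13] at h11; norm_num at h11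
        · by_cases h13 : g • y' ∈ Φ
          · rw [if_neg h12, if_pos h13] at h11; norm_num at h11
          · exact ⟨fun h => absurd h h13, fun h => absurd h h12⟩
      have hfin : ∀ y' : X, mkc hcc hcg y' = mkc hcc hcg x₀ → y' ≠ x₀ → y' ≠ c x₀ →
          sg Φ y' = sg Φ x₀ →
          ∑ y ∈ univ.filter (fun y => ∀ g : G, g • y ∈ Φ ↔ g • x₀ ∈ Φ), f y = 0 := by
        intro y' hy' h5 h6 hs
        have hcy' : c y' ≠ x₀ := fun h => h6 (by rw [← h, hcc])
        have hcy'' : c y' ≠ c x₀ := fun h => h5 (hcinj h)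
        have h8 : y' = y ∨ y' = c y := by
          have h9 : y' ∈ ({x₀, c x₀, y, c y} : Set X) := by rw [← h3]; exact hy'
          rcases h9 with h9 | h9 | h9 | h9
          · exact absurd h9 h5
          · exact absurd h9 h6
          · exact Or.inl h9
          · exact Or.inr h9
        refine key {x₀, y'} (mem_insert_self _ _) ?_ ?_ ?_
        · intro z hz
          rw [mem_insert, mem_singleton] at hz
          rcases hz with rfl | rfl
          · rfl
          · exact hy'
        · intro z hz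
          have h9 : z ∈ ({x₀, c x₀, y, c y} : Set X) := by rw [← h3]; exact hz
          simp only [mem_insert, mem_singleton]
          have h10 := hne x₀
          have h11 := hne y
          have h12 := hcc x₀
          have h13 := hcc y
          rcases h8 with rfl | rfl
          · rcases h9 with rfl | rfl | rfl | rfl
            · simp [h10, Ne.symm hy2]
            · simp [h10, h12, Ne.symm hy2]
            · simp [hcy1, h11]
            · simp [hcy1, h11, h13]
          · rcases h9 with rfl | rfl | rfl | rfl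
            · simp [h10, Ne.symm hcy2]
            · simp [h10, h12, Ne.symm hcy2]
            · simp [hcy1, hy1, Ne.symm h11]
            · simp [h13, hy1, Ne.symm h11]
        · intro z hz
          rw [mem_insert, mem_singleton] at hz
          rcases hz with rfl | rfl
          · exact fun g => Iff.rfl
          · exact hsame z (hrel z hy' h5 h6) hs
      by_cases hs : sg Φ y = sg Φ x₀
      · exact hfin y hy hy1 hy2 hs
      · refine hfin (c y) (by rw [mkc_conj]; exact hy) hcy1 hcy2 ?_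
        rw [sg_conj hΦ]
        rcases hsgn y with h | h <;> rcases hsgn x₀ with h' | h' <;> rw [h, h'] at hs <;>
          rw [h, h'] <;> simp at hs ⊢
    · -- odd primes
      by_cases hf0 : f = 0
      · rw [hf0]; simp
      have : Fact b.Prime := ⟨hb⟩
      let P : Sylow b (stb hcc hcg x₀) := default
      have hB' : {y | mkc hcc hcg y = mkc hcc hcg x₀}.ncard = 2 * b ^ 1 := by rw [pow_one]; exact hB
      obtain ⟨hO1, hO2, hO3⟩ := half_orbit hcc hcg h2 hne hB' P
      let O : Finset X := univ.filter fun x => x ∈ MulAction.orbit P x₀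
      have hmemO : ∀ x, x ∈ O ↔ x ∈ MulAction.orbit P x₀ := fun x => by simp [O]
      have hOcard : O.card = b := by
        rw [← pow_one b, ← hO3, ← Set.ncard_coe_finset]
        congr 1
        ext x
        simp [O]
      have hx₀O : x₀ ∈ O := (hmemO _).2 (MulAction.mem_orbit_self _)
      refine key O hx₀O (fun y hy => hO1 y ((hmemO y).1 hy))
        (fun y hy => by rw [hmemO, hmemO]; exact hO2 y hy) ?_
      intro y hy g
      have h3 := dvd_card_cls hcc hcg h2 one_ne_zero hne hB' P hΦ ⟨f, hf, hf0⟩ g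
      have h4 : (univ.filter fun x => x ∈ MulAction.orbit P x₀ ∧ g • x ∈ Φ)
          = O.filter fun x => g • x ∈ Φ := by
        ext x
        simp [O]
      rw [h4] at h3
      have h5 : (O.filter fun x => g • x ∈ Φ).card ≤ b := by
        rw [← hOcard]; exact card_filter_le _ _
      have h6 : (O.filter fun x => g • x ∈ Φ).card = 0 ∨ (O.filter fun x => g • x ∈ Φ).card = b := by
        obtain ⟨j, hj⟩ := h3
        rw [hj] at h5 ⊢
        have h7 : j ≤ 1 := by
          by_contra h8
          push Not at h8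
          have := hb.pos
          nlinarith
        interval_cases j
        · left; simp
        · right; simp
      rcases h6 with h6 | h6
      · rw [card_eq_zero, filter_eq_empty_iff] at h6
        exact ⟨fun h => absurd h (h6 hy), fun h => absurd h (h6 hx₀O)⟩
      · rw [← hOcard, card_filter_eq_iff] at h6
        exact ⟨fun _ => h6 _ hx₀O, fun _ => h6 _ hy⟩

end

end Pool.MP43e44c
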