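import Pool.Agent.H.MP_43e44c_ag.Blk2

/-!
Classes whose size is a power of two, and the signature criterion for classes whose size is twice a
power of an odd prime.
-/

set_option autoImplicit false

open Finset

namespace Pool.MP43e44c

section

variable {G X : Type*} [Group G] [MulAction G X]
  {c : X → X} (hcc : ∀ x, c (c x) = x) (hcg : ∀ (g : G) x, g • c x = c (g • x))
  [Finite G] [Fintype X]

omit [Finite G] in
theorem latB_translate {Φ : Finset X} {x₀ : X} (g : G) {f : X → ℤ}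
    (hf : f ∈ latB hcc hcg Φ (mkc hcc hcg (g • x₀))) :
    (fun x => f (g • x)) ∈ latB hcc hcg Φ (mkc hcc hcg x₀) := by
  obtain ⟨h1, h2⟩ := hf
  refine ⟨lat_smul hcg g h1, fun x hx => ?_⟩
  apply h2
  rw [mkc_smul, mkc_smul]
  intro h3
  exact hx (MulAction.injective g h3)

omit [Finite G] in
theorem exists_rep_smul [MulAction.IsPretransitive G X] (x₀ : X) :
    ∃ γ : Cls hcc hcg → G, ∀ q, γ q • mkc hcc hcg x₀ = q := by
  have h : ∀ q : Cls hcc hcg, ∃ g : G, g • mkc hcc hcg x₀ = q := by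
    intro q
    obtain ⟨y, rfl⟩ := Quotient.exists_rep q
    obtain ⟨g, hg⟩ := MulAction.exists_smul_eq G x₀ y
    exact ⟨g, by rw [← mkc_smul, hg]⟩
  choose γ hγ using h
  exact ⟨γ, hγ⟩

open Classical in
theorem exists_odd_of_two_pow [MulAction.IsPretransitive G X] {j : ℕ} {x₀ : X}
    (hB : {y | mkc hcc hcg y = mkc hcc hcg x₀}.ncard = 2 ^ j) {Φ : Finset X}
    (hL : ∃ f ∈ latB hcc hcg Φ (mkc hcc hcg x₀), f ≠ 0) :
    ∃ f ∈ lat G c Φ, ∀ x, Odd (f x) := by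
  have : Fact (Nat.Prime 2) := ⟨Nat.prime_two⟩
  let P : Sylow 2 (stb hcc hcg x₀) := default
  obtain ⟨f, hf, ⟨x₁, hx₁⟩, hfix⟩ := exists_fixed (P := P) (X := X) P.isPGroup'
    (latB hcc hcg Φ (mkc hcc hcg x₀)) (fun σ f hf => latB_smul hcc hcg (σ : stb hcc hcg x₀) hf)
    (fun f hf => latB_sat hcc hcg two_ne_zero hf) hL
  have h1 : MulAction.orbit P x₀ = {y | mkc hcc hcg y = mkc hcc hcg x₀} := by
    apply Set.eq_of_subset_of_ncard_le
    · rintro y ⟨σ, rfl⟩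
      show mkc hcc hcg (((σ : stb hcc hcg x₀) : G) • x₀) = _
      rw [mkc_smul]
      exact (σ : stb hcc hcg x₀).2
    · rw [hB]
      refine Nat.le_of_dvd ((Set.ncard_pos).2 (MulAction.nonempty_orbit x₀)) ?_
      refine dvd_card_orbit' P x₀ ?_
      rw [orbit_stb, hB]
    · exact Set.toFinite _
  have h2 : ∀ y, mkc hcc hcg y = mkc hcc hcg x₀ → (2 : ℤ) ∣ f y - f x₀ := by
    intro y hy
    have h3 : y ∈ MulAction.orbit P x₀ := by rw [h1]; exact hy
    obtain ⟨σ, rfl⟩ := h3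
    exact_mod_cast hfix σ x₀
  have h3 : mkc hcc hcg x₁ = mkc hcc hcg x₀ := by
    by_contra h4
    apply hx₁
    rw [hf.2 x₁ h4]
    exact dvd_zero _
  have h4 : ¬ (2 : ℤ) ∣ f x₀ := by
    intro h5
    apply hx₁
    have h6 := dvd_add (h2 x₁ h3) h5
    rw [sub_add_cancel] at h6
    exact_mod_cast h6
  have hodd : ∀ y, mkc hcc hcg y = mkc hcc hcg x₀ → Odd (f y) := by
    intro y hy
    rw [← Int.not_even_iff_odd, even_iff_two_dvd]
    intro h5
    apply h4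
    have h6 := dvd_sub h5 (h2 y hy)
    rwa [sub_sub_cancel] at h6
  obtain ⟨γ, hγ⟩ := exists_rep_smul hcc hcg x₀
  have : Finite (Cls hcc hcg) := inferInstance
  have : Fintype (Cls hcc hcg) := Fintype.ofFinite _
  refine ⟨∑ q, (fun x => f ((γ q)⁻¹ • x)), sum_mem fun q _ => lat_smul hcg _ hf.1, ?_⟩
  intro x
  rw [Finset.sum_apply, Finset.sum_eq_single (mkc hcc hcg x)]
  · apply hodd
    rw [mkc_smul, inv_smul_eq_iff, hγ]
  · intro q _ hq
    apply hf.2
    rw [mkc_smul]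
    intro h5
    rw [inv_smul_eq_iff, hγ] at h5
    exact hq h5.symm
  · intro h5; exact absurd (mem_univ _) h5

open Classical in
/-- The half system attached to a Sylow subgroup of the stabiliser of a class. -/
theorem exists_sylow_half [MulAction.IsPretransitive G X] {ℓ k : ℕ} [hℓ : Fact ℓ.Prime]
    (hodd : ℓ ≠ 2) (hk : k ≠ 0) (hne : ∀ x, c x ≠ x) {x₀ : X}
    (hB : {y | mkc hcc hcg y = mkc hcc hcg x₀}.ncard = 2 * ℓ ^ k) :
    ∃ (P : Sylow ℓ (stb hcc hcg x₀)) (γ : Cls hcc hcg → G) (Ψ : Finset X),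
      (∀ q, γ q • mkc hcc hcg x₀ = q) ∧
      (∀ x, x ∈ Ψ ↔ (γ (mkc hcc hcg x))⁻¹ • x ∈ MulAction.orbit P x₀) ∧
      (∀ x, x ∈ Ψ ↔ c x ∉ Ψ) ∧
      (∀ q, (Ψ.filter fun x => mkc hcc hcg x = q).card = ℓ ^ k) ∧
      (∀ Φ : Finset X, (∀ x, x ∈ Φ ↔ c x ∉ Φ) →
        (∃ x₁, ∃ f ∈ latB hcc hcg Φ (mkc hcc hcg x₁), f ≠ 0) →
        ∀ q, ℓ ∣ (univ.filter fun x => x ∈ Φ ∧ x ∈ Ψ ∧ mkc hcc hcg x = q).card) := by
  let P : Sylow ℓ (stb hcc hcg x₀) := default
  obtain ⟨hO1, hO2, hO3⟩ := half_orbit hcc hcg hodd hne hB P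
  obtain ⟨γ, hγ⟩ := exists_rep_smul hcc hcg x₀
  let Ψ : Finset X := univ.filter fun x => (γ (mkc hcc hcg x))⁻¹ • x ∈ MulAction.orbit P x₀
  have hΨ : ∀ x, x ∈ Ψ ↔ (γ (mkc hcc hcg x))⁻¹ • x ∈ MulAction.orbit P x₀ := fun x => by simp [Ψ]
  have hcls : ∀ x, mkc hcc hcg ((γ (mkc hcc hcg x))⁻¹ • x) = mkc hcc hcg x₀ := fun x => by
    rw [mkc_smul, inv_smul_eq_iff, hγ]
  have hbij : ∀ (q : Cls hcc hcg) (R : X → Prop),
      (univ.filter fun x => R x ∧ x ∈ Ψ ∧ mkc hcc hcg x = q).card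
        = (univ.filter fun x => x ∈ MulAction.orbit P x₀ ∧ R (γ q • x)).card := by
    intro q R
    refine card_nbij' (fun x => (γ q)⁻¹ • x) (fun x => γ q • x) ?_ ?_ ?_ ?_
    · intro x hx
      simp only [coe_filter, mem_univ, true_and, Set.mem_ofPred_eq] at hx ⊢
      obtain ⟨h1, h2, rfl⟩ := hx
      rw [smul_inv_smul]
      exact ⟨(hΨ x).1 h2, h1⟩
    · intro x hx
      simp only [coe_filter, mem_univ, true_and, Set.mem_ofPred_eq] at hx ⊢
      obtain ⟨h1, h2⟩ := hx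
      have h3 : mkc hcc hcg (γ q • x) = q := by rw [mkc_smul, hO1 x h1, hγ]
      refine ⟨h2, ?_, h3⟩
      rw [hΨ, h3, inv_smul_smul]
      exact h1
    · intro x _
      exact smul_inv_smul _ _
    · intro x _
      exact inv_smul_smul _ _
  refine ⟨P, γ, Ψ, hγ, hΨ, ?_, ?_, ?_⟩
  · intro x
    rw [hΨ, hΨ, mkc_conj, hcg]
    exact hO2 _ (hcls x)
  · intro q
    have h1 := hbij q (fun _ => True)
    have h2 : (Ψ.filter fun x => mkc hcc hcg x = q)
        = (univ.filter fun x => True ∧ x ∈ Ψ ∧ mkc hcc hcg x = q) := by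
      ext x; simp
    have h3 : (Ψ.filter fun x => mkc hcc hcg x = q).card
        = (univ.filter fun x => x ∈ MulAction.orbit P x₀ ∧ True).card := by
      rw [h2]
      convert h1
    rw [h3, ← hO3, ← Set.ncard_coe_finset]
    congr 1
    ext x
    simp
  · rintro Φ hΦ ⟨x₁, f, hf, hf0⟩ q
    obtain ⟨g, rfl⟩ := MulAction.exists_smul_eq G x₀ x₁
    have h1 : ∃ f ∈ latB hcc hcg Φ (mkc hcc hcg x₀), f ≠ 0 := by
      refine ⟨_, latB_translate hcc hcg g hf, ?_⟩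
      intro h2
      apply hf0
      funext x
      have h3 := congrFun h2 (g⁻¹ • x)
      simp only [smul_inv_smul] at h3
      exact h3
    have h3 : (univ.filter fun x => x ∈ Φ ∧ x ∈ Ψ ∧ mkc hcc hcg x = q).card
        = (univ.filter fun x => x ∈ MulAction.orbit P x₀ ∧ γ q • x ∈ Φ).card := by
      convert hbij q (fun x => x ∈ Φ)
    rw [h3]
    exact dvd_card_cls hcc hcg hodd hk hne hB P hΦ h1 (γ q)

open Classical in
theorem card_cls_mul [MulAction.IsPretransitive G X] {m : ℕ} {x₀ : X}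
    (hB : {y | mkc hcc hcg y = mkc hcc hcg x₀}.ncard = m) :
    Nat.card (Cls hcc hcg) * m = Nat.card X := by
  have : Finite (Cls hcc hcg) := inferInstance
  have : Fintype (Cls hcc hcg) := Fintype.ofFinite _
  rw [Nat.card_eq_fintype_card, Nat.card_eq_fintype_card, ← card_univ (α := X),
    card_eq_sum_card_fiberwise (f := fun x => mkc hcc hcg x) (t := univ)
      (fun _ _ => mem_coe.2 (mem_univ _))]
  have h1 : ∀ q : Cls hcc hcg, (univ.filter fun x => mkc hcc hcg x = q).card = m := by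
    intro q
    obtain ⟨y, rfl⟩ := Quotient.exists_rep q
    rw [← hB, ncard_cls_eq hcc hcg x₀ y, ← Set.ncard_coe_finset]
    congr 1
    ext x
    simp
  rw [sum_congr rfl fun q _ => h1 q, sum_const, card_univ, smul_eq_mul]

open Classical in
/-- Counting the half systems satisfying the congruences. -/
theorem card_signature_le {ℓ b : ℕ} {Ψ : Finset X} (hΨ : ∀ x, x ∈ Ψ ↔ c x ∉ Ψ)
    (hΨc : ∀ q : Cls hcc hcg, (Ψ.filter fun x => mkc hcc hcg x = q).card = b)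
    (num : ℕ) (hnum : ∀ s : Finset X, s.card = b →
      (s.powerset.filter fun t => ℓ ∣ t.card).card = num) :
    {Φ : Finset X | (∀ x, x ∈ Φ ↔ c x ∉ Φ) ∧
      ∀ q : Cls hcc hcg, ℓ ∣ (univ.filter fun x => x ∈ Φ ∧ x ∈ Ψ ∧ mkc hcc hcg x = q).card}.ncard
      ≤ num ^ Nat.card (Cls hcc hcg) := by
  have : Finite (Cls hcc hcg) := inferInstance
  have : Fintype (Cls hcc hcg) := Fintype.ofFinite _
  let T : Finset (Cls hcc hcg → Finset X) := Fintype.piFinset fun q =>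
    (Ψ.filter fun x => mkc hcc hcg x = q).powerset.filter fun t => ℓ ∣ t.card
  have hT : T.card = num ^ Nat.card (Cls hcc hcg) := by
    rw [Fintype.card_piFinset, prod_congr rfl fun q _ => hnum _ (hΨc q), prod_const, card_univ,
      Nat.card_eq_fintype_card]
  rw [← hT, ← Set.ncard_coe_finset]
  refine Set.ncard_le_ncard_of_injOn
    (fun (Φ : Finset X) (q : Cls hcc hcg) =>
      univ.filter fun x => x ∈ Φ ∧ x ∈ Ψ ∧ mkc hcc hcg x = q) ?_ ?_ (Set.toFinite _)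
  · rintro Φ ⟨hΦ, hdvd⟩
    rw [mem_coe, Fintype.mem_piFinset]
    intro q
    rw [mem_filter, mem_powerset]
    refine ⟨?_, hdvd q⟩
    intro x hx
    rw [mem_filter] at hx ⊢
    exact ⟨hx.2.2.1, hx.2.2.2⟩
  · rintro Φ ⟨hΦ, -⟩ Φ' ⟨hΦ', -⟩ h
    have key : ∀ x ∈ Ψ, (x ∈ Φ ↔ x ∈ Φ') := by
      intro x hx
      have h1 := congrFun h (mkc hcc hcg x)
      simp only at h1
      have h2 : x ∈ (univ.filter fun y => y ∈ Φ ∧ y ∈ Ψ ∧ mkc hcc hcg y = mkc hcc hcg x) ↔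
          x ∈ (univ.filter fun y => y ∈ Φ' ∧ y ∈ Ψ ∧ mkc hcc hcg y = mkc hcc hcg x) := by
        rw [h1]
      simpa [hx] using h2
    ext x
    by_cases hx : x ∈ Ψ
    · exact key x hx
    · have hx' : c x ∈ Ψ := by
        by_contra h4; exact hx ((hΨ x).2 h4)
      rw [hΦ x, hΦ' x]
      exact not_congr (key _ hx')

end

end Pool.MP43e44c
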