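import Mathlib

/-!
Half systems in a finite abelian group with a distinguished involution: a degenerate half system
is annihilated by an odd character.
-/

set_option autoImplicit false

open Finset

namespace Pool.MP43e44c

variable {G : Type*} [CommGroup G] [Fintype G] [DecidableEq G]

/-- A half system for the involution `c`. -/
def IsHalf (c : G) (A : Finset G) : Prop := ∀ g, g ∈ A ↔ g * c ∉ A

/-- The sign function of a set. -/
def sgn (A : Finset G) (g : G) : ℤ := if g ∈ A then 1 else -1

theorem sgn_mul {c : G} {A : Finset G} (h : IsHalf c A) (g : G) :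
    sgn A (g * c) = - sgn A g := by
  unfold sgn
  by_cases hg : g ∈ A
  · rw [if_pos hg, if_neg ((h g).1 hg)]
  · rw [if_neg hg, if_pos (by by_contra h'; exact hg ((h g).2 h'))]; norm_num

theorem exists_char {c : G} (hc2 : c * c = 1) {A : Finset G} (hA : IsHalf c A) (M : G → ℤ)
    (hM : ∀ τ, ∑ g, M g * sgn A (g * τ) = 0) {g₀ : G} (hg₀ : M g₀ ≠ M (g₀ * c)) :
    ∃ χ : G →* ℂˣ, χ c = -1 ∧ ∑ g, (sgn A g : ℂ) * (χ g : ℂ) = 0 := by
  classical
  by_contra hcon
  push Not at hcon
  -- additive characters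
  have key : ∀ ψ : AddChar (Additive G) ℂ, ψ (Additive.ofMul c) = -1 →
      ∑ g, (sgn A g : ℂ) * ψ (Additive.ofMul g) ≠ 0 := by
    intro ψ hψ
    let χ₀ : G →* ℂ :=
      { toFun := fun g => ψ (Additive.ofMul g)
        map_one' := by simp
        map_mul' := fun a b => by rw [ofMul_mul, AddChar.map_add_eq_mul] }
    have h := hcon (MonoidHom.toHomUnits χ₀) (by
      apply Units.ext
      simp [χ₀, hψ])
    simpa [χ₀] using h
  set D : G → ℂ := fun g => (M g : ℂ) - (M (g * c) : ℂ) with hD
  have hMC : ∀ τ, ∑ g, (M g : ℂ) * (sgn A (g * τ) : ℂ) = 0 := by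
    intro τ
    have := hM τ
    exact_mod_cast congrArg (Int.cast : ℤ → ℂ) this
  have hsgnC : ∀ g, (sgn A (g * c) : ℂ) = - (sgn A g : ℂ) := by
    intro g
    rw [sgn_mul hA g]; push_cast; ring
  have hDorth : ∀ τ, ∑ g, D g * (sgn A (g * τ) : ℂ) = 0 := by
    intro τ
    have h2 : ∑ g, (M (g * c) : ℂ) * (sgn A (g * τ) : ℂ) = 0 := by
      have : ∑ g, (M (g * c) : ℂ) * (sgn A (g * τ) : ℂ)
          = ∑ g, (M g : ℂ) * (sgn A (g * c * τ) : ℂ) := by
        refine Fintype.sum_equiv (Equiv.mulRight c) _ _ fun g => ?_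
        simp only [Equiv.coe_mulRight]
        rw [show g * c * c * τ = g * τ by rw [mul_assoc g c c, hc2, mul_one]]
      rw [this]
      have h3 : ∀ g, (M g : ℂ) * (sgn A (g * c * τ) : ℂ)
          = - ((M g : ℂ) * (sgn A (g * τ) : ℂ)) := by
        intro g
        rw [show g * c * τ = (g * τ) * c by rw [mul_assoc, mul_assoc, mul_comm c τ], hsgnC]
        ring
      rw [Finset.sum_congr rfl fun g _ => h3 g, Finset.sum_neg_distrib, hMC, neg_zero]
    simp only [hD, sub_mul, Finset.sum_sub_distrib, hMC, h2, sub_zero]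
  -- transform
  set Dh : AddChar (Additive G) ℂ → ℂ := fun ψ => ∑ g, D g * ψ (-(Additive.ofMul g)) with hDh
  have hprod : ∀ ψ : AddChar (Additive G) ℂ,
      Dh ψ * ∑ g, (sgn A g : ℂ) * ψ (Additive.ofMul g) = 0 := by
    intro ψ
    have h1 : ∑ τ : G, ψ (Additive.ofMul τ) * ∑ g, D g * (sgn A (g * τ) : ℂ) = 0 := by
      simp only [hDorth, mul_zero, Finset.sum_const_zero]
    have h2 : Dh ψ * ∑ g, (sgn A g : ℂ) * ψ (Additive.ofMul g)
        = ∑ g : G, ∑ τ : G, ψ (Additive.ofMul τ) * (D g * (sgn A (g * τ) : ℂ)) := by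
      simp only [hDh]
      rw [Finset.sum_mul_sum]
      refine Finset.sum_congr rfl fun g _ => ?_
      refine Fintype.sum_equiv (Equiv.mulLeft g⁻¹) _ _ fun h => ?_
      simp only [Equiv.coe_mulLeft]
      rw [mul_inv_cancel_left, ofMul_mul, AddChar.map_add_eq_mul, ofMul_inv]
      ring
    rw [h2, Finset.sum_comm, ← h1]
    exact Finset.sum_congr rfl fun τ _ => by rw [Finset.mul_sum]
  have hDh0 : ∀ ψ : AddChar (Additive G) ℂ, Dh ψ = 0 := by
    intro ψ
    have hsq : ψ (Additive.ofMul c) * ψ (Additive.ofMul c) = 1 := by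
      rw [← AddChar.map_add_eq_mul, ← ofMul_mul, hc2, ofMul_one, AddChar.map_zero_eq_one]
    rcases mul_self_eq_one_iff.1 hsq with h1 | h1
    · -- even character
      have h2 : ∑ g, (M (g * c) : ℂ) * ψ (-(Additive.ofMul g))
          = ∑ g, (M g : ℂ) * ψ (-(Additive.ofMul g)) := by
        refine Fintype.sum_equiv (Equiv.mulRight c) _ _ fun g => ?_
        simp only [Equiv.coe_mulRight]
        congr 1
        rw [ofMul_mul, neg_add, AddChar.map_add_eq_mul]
        have : ψ (-(Additive.ofMul c)) = 1 := by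
          rw [← ofMul_inv, show c⁻¹ = c from inv_eq_of_mul_eq_one_left hc2, h1]
        rw [this, mul_one]
      simp only [hDh, hD, sub_mul, Finset.sum_sub_distrib, h2, sub_self]
    · have := hprod ψ
      rcases mul_eq_zero.1 this with h3 | h3
      · exact h3
      · exact absurd h3 (key ψ h1)
  -- inversion
  have hinv : ∑ ψ : AddChar (Additive G) ℂ, ψ (Additive.ofMul g₀) * Dh ψ
      = (Fintype.card G : ℂ) * D g₀ := by
    simp only [hDh, Finset.mul_sum]
    rw [Finset.sum_comm]
    have h4 : ∀ g, ∑ ψ : AddChar (Additive G) ℂ,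
        ψ (Additive.ofMul g₀) * (D g * ψ (-(Additive.ofMul g)))
        = if g = g₀ then (Fintype.card G : ℂ) * D g₀ else 0 := by
      intro g
      have h5 : ∀ ψ : AddChar (Additive G) ℂ,
          ψ (Additive.ofMul g₀) * (D g * ψ (-(Additive.ofMul g)))
          = D g * ψ (Additive.ofMul g₀ - Additive.ofMul g) := by
        intro ψ
        rw [sub_eq_add_neg, AddChar.map_add_eq_mul]; ring
      rw [Finset.sum_congr rfl fun ψ _ => h5 ψ, ← Finset.mul_sum, AddChar.sum_apply_eq_ite]
      by_cases hg : g = g₀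
      · subst hg
        simp only [sub_self, if_true]
        rw [mul_comm, Fintype.card_congr (Additive.toMul : Additive G ≃ G)]
      · have : Additive.ofMul g₀ - Additive.ofMul g ≠ 0 := by
          intro h; apply hg
          have := sub_eq_zero.1 h
          exact (Additive.ofMul.injective this).symm
        rw [if_neg this, if_neg hg, mul_zero]
    rw [Finset.sum_congr rfl fun g _ => h4 g, Finset.sum_ite_eq' univ g₀, if_pos (mem_univ _)]
  simp only [hDh0, mul_zero, Finset.sum_const_zero] at hinv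
  have hcardne : (Fintype.card G : ℂ) ≠ 0 := by
    exact_mod_cast Fintype.card_ne_zero
  have : D g₀ = 0 := by
    rcases mul_eq_zero.1 hinv.symm with h | h
    · exact absurd h hcardne
    · exact h
  apply hg₀
  have h6 : (M g₀ : ℂ) = (M (g₀ * c) : ℂ) := sub_eq_zero.1 this
  exact_mod_cast h6

end Pool.MP43e44c
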