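import Pool.Agent.H.MP_43e44c_ag.Gen
import Pool.Agent.H.MP_43e44c_ag.Lat

/-!
The discriminant of a number field is a square if the Galois group acts by even permutations on
the embeddings; application to CM fields whose degree is a power of two.
-/

set_option autoImplicit false

open NumberField Finset

namespace Pool.MP43e44c

variable {K : Type*} [Field K] [NumberField K]

theorem isSquare_discr_of_even [DecidableEq (K →+* ℂ)]
    (h : ∀ g : GG K, Equiv.Perm.sign (MulAction.toPerm g : Equiv.Perm (K →+* ℂ)) = 1) :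
    IsSquare (discr K) := by
  classical
  let J := Module.Free.ChooseBasisIndex ℤ (𝓞 K)
  let b := integralBasis K
  have hcard : Fintype.card J = Fintype.card (K →ₐ[ℚ] ℂ) := by
    rw [AlgHom.card, Module.finrank_eq_card_basis b]
  let e : J ≃ (K →ₐ[ℚ] ℂ) := Fintype.equivOfCardEq hcard
  let E : J ≃ (K →+* ℂ) := e.trans (RingHom.equivRatAlgHom K ℂ).symm
  let M : Matrix J J (GC K) := Matrix.of fun i j => lft (E j) (b i)
  have h1 : (algebraMap (GC K) ℂ M.det) = (Algebra.embeddingsMatrixReindex ℚ ℂ b e).det := by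
    rw [RingHom.map_det]
    rfl
  have h2 := Algebra.discr_eq_det_embeddingsMatrixReindex_pow_two ℚ ℂ b e
  rw [← coe_discr, ← h1] at h2
  have h3 : ∀ g : GG K, g M.det = M.det := by
    intro g
    let π : Equiv.Perm J := (E.trans (MulAction.toPerm g)).trans E.symm
    have h4 : g M.det = (M.submatrix id π).det := by
      have h5 := (g : GC K ≃ₐ[ℚ] GC K).toRingEquiv.toRingHom.map_det M
      have h6 : g M.det = (g : GC K ≃ₐ[ℚ] GC K).toRingEquiv.toRingHom M.det := rfl
      rw [h6, h5]
      congr 1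
      ext i j
      simp only [RingHom.mapMatrix_apply, Matrix.map_apply, Matrix.submatrix_apply, id, M,
        Matrix.of_apply]
      have h7 : E (π j) = g • E j := by simp [π]
      rw [h7, lft_smul]
      rfl
    rw [h4, Matrix.det_permute']
    have h8 : Equiv.Perm.sign π = 1 := by
      rw [Equiv.Perm.sign_trans_trans_symm]
      exact h g
    rw [h8]
    simp
  obtain ⟨q, hq⟩ := (IsGalois.mem_range_algebraMap_iff_fixed M.det).2 h3
  have h9 : ((discr K : ℤ) : ℚ) = q ^ 2 := by
    have h10 : algebraMap ℚ ℂ ((discr K : ℤ) : ℚ) = algebraMap ℚ ℂ (q ^ 2) := by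
      rw [h2, ← hq, map_pow]
      rfl
    exact (algebraMap ℚ ℂ).injective h10
  have h11 : IsSquare ((discr K : ℤ) : ℚ) := ⟨q, by rw [h9, sq]⟩
  exact Rat.isSquare_intCast_iff.1 h11

/-- Complex conjugation on a CM field. -/
theorem exists_cm_conj (K : Type*) [Field K] [NumberField K] [IsCMField K] :
    ∃ c : K →+* K, ∀ ψ : K →+* ℂ, ComplexEmbedding.conjugate ψ = ψ.comp c := by
  refine ⟨(IsCMField.complexConj K : K →+* K), fun ψ => ?_⟩
  ext x
  rw [ComplexEmbedding.conjugate_coe_eq]
  exact (IsCMField.complexEmbedding_complexConj K ψ x).symm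

theorem card_embeddings (K : Type*) [Field K] [NumberField K] :
    Nat.card (K →+* ℂ) = Module.finrank ℚ K := by
  rw [Nat.card_eq_fintype_card, NumberField.Embeddings.card K ℂ]

/-- CM fields of two power degree with nonsquare discriminant: for every CM type the Hodge rings
of all powers are generated by divisor classes. -/
theorem twoPower [IsCMField K] {m : ℕ} (hm : Module.finrank ℚ K = 2 ^ m)
    (hd : ¬ IsSquare (discr K)) (Φ : Finset (K →+* ℂ)) (hΦ : IsCMType Φ) :
    HodgeRingGeneratedByDivisors Φ := by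
  classical
  intro k p
  by_contra hcon
  obtain ⟨c, hc⟩ := exists_cm_conj K
  obtain ⟨t, hbal, hasym⟩ := exists_tuple hc hΦ hcon
  let cc : (K →+* ℂ) → (K →+* ℂ) := ComplexEmbedding.conjugate
  have hcc : ∀ x, cc (cc x) = x := conj_conj
  have hcg : ∀ (g : GG K) x, g • cc x = cc (g • x) := smul_conj hc
  have hΦ' : ∀ x, x ∈ Φ ↔ cc x ∉ Φ := hΦ
  obtain ⟨f, hf, hf0, -⟩ := lat_ne hcc hcg hΦ' t hbal hasym
  have : Fact (Nat.Prime 2) := ⟨Nat.prime_two⟩
  let P : Sylow 2 (GG K) := default
  obtain ⟨f', hf', ⟨x₀, hx₀⟩, hfix⟩ := exists_fixed (P := P) (X := K →+* ℂ) P.isPGroup'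
    (lat (GG K) cc Φ) (fun σ f hf => lat_smul hcg (σ : GG K) hf)
    (fun f hf => lat_sat two_ne_zero hf) ⟨f, hf, hf0⟩
  -- the Sylow subgroup is transitive
  have horb : ∀ x, x ∈ MulAction.orbit P x₀ := by
    have h1 : 2 ^ m ∣ (MulAction.orbit P x₀).ncard := by
      refine dvd_card_orbit P x₀ ?_
      rw [card_embeddings, hm]
    have h2 : (MulAction.orbit P x₀).ncard ≤ (Set.univ : Set (K →+* ℂ)).ncard :=
      Set.ncard_le_ncard (Set.subset_univ _)
    have h3 : (Set.univ : Set (K →+* ℂ)).ncard = 2 ^ m := by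
      rw [Set.ncard_univ, card_embeddings, hm]
    have h4 : 0 < (MulAction.orbit P x₀).ncard :=
      (Set.ncard_pos).2 (MulAction.nonempty_orbit x₀)
    have h5 := Nat.le_of_dvd h4 h1
    have h6 : MulAction.orbit P x₀ = Set.univ :=
      Set.eq_of_subset_of_ncard_le (Set.subset_univ _) (by omega)
    intro x
    rw [h6]
    exact Set.mem_univ _
  have hodd : ∀ x, Odd (f' x) := by
    intro x
    obtain ⟨σ, rfl⟩ := horb x
    rw [← Int.not_even_iff_odd, even_iff_two_dvd]
    intro h7
    apply hx₀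
    have h8 := hfix σ x₀
    have h9 : f' x₀ = f' (σ • x₀) - (f' (σ • x₀) - f' x₀) := by ring
    rw [h9]
    exact dvd_sub h7 h8
  apply hd
  refine isSquare_discr_of_even fun g => ?_
  rw [sign_eq_of_comm hcc hΦ' _ (fun x => hcg g x)]
  have h10 := even_card_of_odd hcc hcg hΦ' hf' hodd g
  exact Even.neg_one_pow h10

end Pool.MP43e44c
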