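import Mathlib

/-!
Pairing of a tuple with multiplicities symmetric under an involution.
-/

set_option autoImplicit false

open Finset

namespace Pool.MP43e44c

theorem exists_pairing_abs {A : Type*} [DecidableEq A] {n : A → A} (hn : ∀ a, n (n a) = a)
    {S₀ : A → Prop} (hS₀ : ∀ a, S₀ a ↔ ¬ S₀ (n a)) {p : ℕ} (h : Fin p × Fin 2 → A)
    (hsym : ∀ a : A, (univ.filter fun l => h l = a).card = (univ.filter fun l => h l = n a).card) :
    ∃ π : Equiv.Perm (Fin p × Fin 2), ∀ i, h (π (i, 1)) = n (h (π (i, 0))) := by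
  classical
  let S := {l : Fin p × Fin 2 // S₀ (h l)}
  let T := {l : Fin p × Fin 2 // ¬ S₀ (h l)}
  have hfib : ∀ a : A, Nonempty ({s : S // h s.1 = a} ≃ {t : T // n (h t.1) = a}) := by
    intro φ
    by_cases hφ : S₀ φ
    · have e1 : {s : S // h s.1 = φ} ≃ {l : Fin p × Fin 2 // h l = φ} :=
        { toFun := fun s => ⟨s.1.1, s.2⟩
          invFun := fun l => ⟨⟨l.1, by rw [l.2]; exact hφ⟩, l.2⟩
          left_inv := fun s => rfl
          right_inv := fun l => rfl }
      have e2 : {t : T // n (h t.1) = φ} ≃ {l : Fin p × Fin 2 // h l = n φ} :=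
        { toFun := fun t => ⟨t.1.1, by
            have h5 := congrArg n t.2
            rwa [hn] at h5⟩
          invFun := fun l => ⟨⟨l.1, by rw [l.2]; exact (hS₀ φ).1 hφ⟩, by rw [l.2, hn]⟩
          left_inv := fun s => rfl
          right_inv := fun l => rfl }
      have e3 : Fintype.card {l : Fin p × Fin 2 // h l = φ}
          = Fintype.card {l : Fin p × Fin 2 // h l = n φ} := by
        rw [Fintype.card_subtype, Fintype.card_subtype]
        exact hsym φ
      exact ⟨e1.trans ((Fintype.equivOfCardEq e3).trans e2.symm)⟩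
    · have h1 : IsEmpty {s : S // h s.1 = φ} := ⟨fun s => hφ (by rw [← s.2]; exact s.1.2)⟩
      have h2 : IsEmpty {t : T // n (h t.1) = φ} := by
        refine ⟨fun t => ?_⟩
        have h3 : S₀ (n φ) := by
          by_contra h4; exact hφ ((hS₀ φ).2 h4)
        apply t.1.2
        have h5 := congrArg n t.2
        rw [hn] at h5
        rw [h5]; exact h3
      exact ⟨Equiv.equivOfIsEmpty _ _⟩
  let e : S ≃ T := Equiv.ofFiberEquiv (f := fun s : S => h s.1)
    (g := fun t : T => n (h t.1)) fun φ => (hfib φ).some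
  have he : ∀ s : S, n (h (e s).1) = h s.1 := fun s =>
    Equiv.ofFiberEquiv_map (f := fun s : S => h s.1)
      (g := fun t : T => n (h t.1)) (fun φ => (hfib φ).some) s
  have hST : Fintype.card S = Fintype.card T := Fintype.card_congr e
  have hsum : Fintype.card S + Fintype.card T = Fintype.card (Fin p × Fin 2) := by
    rw [← Fintype.card_sum]
    exact Fintype.card_congr (Equiv.sumCompl fun l : Fin p × Fin 2 => S₀ (h l))
  have hS : Fintype.card S = p := by
    rw [← hST, Fintype.card_prod, Fintype.card_fin, Fintype.card_fin] at hsum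
    omega
  let e₀ : Fin p ≃ S := (Fintype.equivFinOfCardEq hS).symm
  let F : Fin p × Fin 2 → Fin p × Fin 2 := fun x =>
    if x.2 = 0 then (e₀ x.1).1 else (e (e₀ x.1)).1
  have hF : Function.Injective F := by
    rintro ⟨i, t⟩ ⟨i', t'⟩ hxy
    simp only [F] at hxy
    split_ifs at hxy with h1 h2 h2
    · have := e₀.injective (Subtype.ext hxy)
      rw [this, h1, h2]
    · exfalso
      have h3 := (e₀ i).2
      rw [hxy] at h3
      exact (e (e₀ i')).2 h3
    · exfalso
      have h3 := (e₀ i').2
      rw [← hxy] at h3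
      exact (e (e₀ i)).2 h3
    · have := e₀.injective (e.injective (Subtype.ext hxy))
      have ht : t = t' := by omega
      rw [this, ht]
  refine ⟨Equiv.ofBijective F (Finite.injective_iff_bijective.1 hF), fun i => ?_⟩
  show h (F (i, 1)) = n (h (F (i, 0)))
  simp only [F, if_true]
  rw [if_neg (by simp)]
  have h5 := congrArg n (he (e₀ i))
  rwa [hn] at h5

end Pool.MP43e44c
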