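import Pool.Agent.H.MP_43e44c_ag.Forms2
import Pool.Agent.H.MP_43e44c_ag.Pairing
import Pool.Agent.H.MP_43e44c_ag.Disc

/-!
The refined relation attached to a Hodge class which is not generated by divisor classes.
-/

set_option autoImplicit false

open NumberField Finset

namespace Pool.MP43e44c

variable {K : Type*} [Field K] [NumberField K] {Φ : Finset (K →+* ℂ)}

open Classical in
/-- The record of an embedding with respect to a CM type. -/
noncomputable def rec (Φ : Finset (K →+* ℂ)) (φ : K →+* ℂ) (g : GG K) : Bool :=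
  decide (g • φ ∈ Φ)

theorem rec_eq_iff {φ ψ : K →+* ℂ} :
    rec Φ φ = rec Φ ψ ↔ ∀ g : GG K, g • φ ∈ Φ ↔ g • ψ ∈ Φ := by
  classical
  constructor
  · intro h g
    have := congrFun h g
    simp only [rec, decide_eq_decide] at this
    exact this
  · intro h
    funext g
    simp only [rec, decide_eq_decide]
    exact h g

theorem rec_conj {c : K →+* K} (hc : ∀ ψ : K →+* ℂ, ComplexEmbedding.conjugate ψ = ψ.comp c)
    (hΦ : IsCMType Φ) (φ : K →+* ℂ) :
    rec Φ (ComplexEmbedding.conjugate φ) = fun g => !(rec Φ φ g) := by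
  classical
  funext g
  simp only [rec]
  rw [smul_conj hc]
  have h1 := hΦ (g • φ)
  by_cases h : g • φ ∈ Φ
  · simp [h, h1.1 h]
  · have h2 : ComplexEmbedding.conjugate (g • φ) ∈ Φ := by
      by_contra h3; exact h (h1.2 h3)
    simp [h, h2]

open Classical in
theorem exists_tuple2 {c : K →+* K}
    (hc : ∀ ψ : K →+* ℂ, ComplexEmbedding.conjugate ψ = ψ.comp c)
    (hΦ : IsCMType Φ) {k p : ℕ} (h : ¬ GeneratedByDivisors (cmLattice Φ k) p) :
    ∃ t : Fin p × Fin 2 → (K →+* ℂ),
      (∀ g : GG K, (univ.filter fun l => g • t l ∈ Φ).card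
        = (univ.filter fun l => ¬ g • t l ∈ Φ).card) ∧
      ∃ φ : K →+* ℂ, (univ.filter fun l => ∀ g : GG K, g • t l ∈ Φ ↔ g • φ ∈ Φ).card
        ≠ (univ.filter fun l => ∀ g : GG K, g • t l ∈ Φ ↔
            g • ComplexEmbedding.conjugate φ ∈ Φ).card := by
  by_contra hcon
  push Not at hcon
  apply h
  intro ω hω
  obtain ⟨n, b, d, -, h2⟩ := exists_dual K
  refine mem_span_rational hΦ ω hω (mem_span_complex2 hΦ h2 ω ?_)
  intro f t hco
  have hbal := fun g : GG K => balanced hΦ h2 ω.toMultilinearMap
    (fun z hz v => hω.type_pp z hz v) f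
      (fun l => g • t l) (coef_smul ω.toMultilinearMap hω.rational f t g hco)
  have hsym := hcon t hbal
  let ng : (GG K → Bool) → (GG K → Bool) := fun a g => !(a g)
  have hng : ∀ a, ng (ng a) = a := fun a => by funext g; simp [ng]
  obtain ⟨π, hπ⟩ := exists_pairing_abs (A := GG K → Bool) (n := ng) hng
    (S₀ := fun a => a 1 = true) (fun a => by simp [ng]) (fun l => rec Φ (t l)) (by
      intro a
      by_cases ha : ∃ l, rec Φ (t l) = a ∨ rec Φ (t l) = ng a
      · obtain ⟨l, hl | hl⟩ := ha
        · have h3 := hsym (t l)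
          have h4 : (univ.filter fun l' => rec Φ (t l') = a)
              = univ.filter fun l' => ∀ g : GG K, g • t l' ∈ Φ ↔ g • t l ∈ Φ := by
            ext l'
            simp only [mem_filter, mem_univ, true_and]
            rw [← hl, rec_eq_iff]
          have h5 : (univ.filter fun l' => rec Φ (t l') = ng a)
              = univ.filter fun l' => ∀ g : GG K, g • t l' ∈ Φ ↔
                g • ComplexEmbedding.conjugate (t l) ∈ Φ := by
            ext l'
            simp only [mem_filter, mem_univ, true_and]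
            rw [← rec_eq_iff, rec_conj hc hΦ, hl]
          rw [h4, h5, h3]
        · have h3 := hsym (t l)
          have h4 : (univ.filter fun l' => rec Φ (t l') = ng a)
              = univ.filter fun l' => ∀ g : GG K, g • t l' ∈ Φ ↔ g • t l ∈ Φ := by
            ext l'
            simp only [mem_filter, mem_univ, true_and]
            rw [← hl, rec_eq_iff]
          have h5 : (univ.filter fun l' => rec Φ (t l') = a)
              = univ.filter fun l' => ∀ g : GG K, g • t l' ∈ Φ ↔
                g • ComplexEmbedding.conjugate (t l) ∈ Φ := by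
            ext l'
            simp only [mem_filter, mem_univ, true_and]
            rw [← rec_eq_iff, rec_conj hc hΦ, hl]
            show _ ↔ rec Φ (t l') = ng (ng a)
            rw [hng]
          rw [h4, h5, h3]
      · push Not at ha
        rw [filter_false_of_mem fun l _ => (ha l).1, filter_false_of_mem fun l _ => (ha l).2])
  refine ⟨π, fun i g => ?_⟩
  have h3 := congrFun (hπ i) g
  simp only [ng, rec] at h3
  by_cases h4 : g • t (π (i, 0)) ∈ Φ
  · simp only [h4, decide_true, Bool.not_true, decide_eq_false_iff_not] at h3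
    exact ⟨fun _ => h3, fun _ => h4⟩
  · simp only [h4, decide_false, Bool.not_false, decide_eq_true_eq] at h3
    exact ⟨fun h5 => absurd h5 h4, fun h5 => absurd h3 h5⟩

open Classical in
/-- The refined relation. -/
theorem exists_lat2 {c : K →+* K}
    (hc : ∀ ψ : K →+* ℂ, ComplexEmbedding.conjugate ψ = ψ.comp c)
    (hΦ : IsCMType Φ) {k p : ℕ} (h : ¬ GeneratedByDivisors (cmLattice Φ k) p) :
    ∃ f ∈ lat (GG K) ComplexEmbedding.conjugate Φ, ∃ φ : K →+* ℂ,
      ∑ y ∈ univ.filter (fun y => ∀ g : GG K, g • y ∈ Φ ↔ g • φ ∈ Φ), f y ≠ 0 := by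
  obtain ⟨t, hbal, φ, hφ⟩ := exists_tuple2 hc hΦ h
  have hasym : ∃ x : K →+* ℂ, (univ.filter fun l => t l = x).card
      ≠ (univ.filter fun l => t l = ComplexEmbedding.conjugate x).card := by
    by_contra hcon
    push Not at hcon
    apply hφ
    have h1 : ∀ ψ : K →+* ℂ, (univ.filter fun l => ∀ g : GG K, g • t l ∈ Φ ↔ g • ψ ∈ Φ).card
        = ∑ y ∈ univ.filter (fun y => ∀ g : GG K, g • y ∈ Φ ↔ g • ψ ∈ Φ),
          (univ.filter fun l => t l = y).card := by
      intro ψ
      rw [card_eq_sum_card_fiberwise (f := t)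
        (t := univ.filter (fun y => ∀ g : GG K, g • y ∈ Φ ↔ g • ψ ∈ Φ))]
      · refine sum_congr rfl fun y hy => ?_
        congr 1
        ext l
        simp only [mem_filter, mem_univ, true_and] at hy ⊢
        constructor
        · exact fun h => h.2
        · intro h
          exact ⟨by rw [h]; exact hy, h⟩
      · intro l hl
        simp only [coe_filter, mem_univ, true_and, Set.mem_setOf_eq] at hl ⊢
        exact hl
    rw [h1, h1]
    refine sum_bij' (fun y _ => ComplexEmbedding.conjugate y)
      (fun y _ => ComplexEmbedding.conjugate y) ?_ ?_ (fun y _ => conj_conj y)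
      (fun y _ => conj_conj y) ?_
    · intro y hy
      simp only [mem_filter, mem_univ, true_and] at hy ⊢
      intro g
      have h2 := hy g
      rw [smul_conj hc, smul_conj hc]
      have h3 := hΦ (g • y)
      have h4 := hΦ (g • φ)
      tauto
    · intro y hy
      simp only [mem_filter, mem_univ, true_and] at hy ⊢
      intro g
      have h2 := hy g
      rw [smul_conj hc] at h2 ⊢
      have h3 := hΦ (g • y)
      have h4 := hΦ (g • φ)
      tauto
    · intro y _
      exact hcon y
  obtain ⟨f, hf, -, hfx⟩ := lat_ne (G := GG K) (c := ComplexEmbedding.conjugate) conj_conj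
    (smul_conj hc) hΦ t hbal hasym
  refine ⟨f, hf, φ, ?_⟩
  have h1 : ∀ ψ : K →+* ℂ, ((univ.filter fun l => ∀ g : GG K, g • t l ∈ Φ ↔ g • ψ ∈ Φ).card : ℤ)
      = ∑ y ∈ univ.filter (fun y => ∀ g : GG K, g • y ∈ Φ ↔ g • ψ ∈ Φ),
        ((univ.filter fun l => t l = y).card : ℤ) := by
    intro ψ
    rw [card_eq_sum_card_fiberwise (f := t)
      (t := univ.filter (fun y => ∀ g : GG K, g • y ∈ Φ ↔ g • ψ ∈ Φ))]
    · push_cast
      refine sum_congr rfl fun y hy => ?_
      congr 2
      ext l
      simp only [mem_filter, mem_univ, true_and] at hy ⊢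
      constructor
      · exact fun h => h.2
      · intro h
        exact ⟨by rw [h]; exact hy, h⟩
    · intro l hl
      simp only [coe_filter, mem_univ, true_and, Set.mem_setOf_eq] at hl ⊢
      exact hl
  have h2 : ∑ y ∈ univ.filter (fun y => ∀ g : GG K, g • y ∈ Φ ↔ g • φ ∈ Φ), f y
      = ((univ.filter fun l => ∀ g : GG K, g • t l ∈ Φ ↔ g • φ ∈ Φ).card : ℤ)
        - ((univ.filter fun l => ∀ g : GG K, g • t l ∈ Φ ↔
            g • ComplexEmbedding.conjugate φ ∈ Φ).card : ℤ) := by
    rw [sum_congr rfl fun y _ => hfx y, sum_sub_distrib, h1, h1]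
    congr 1
    refine sum_bij' (fun y _ => ComplexEmbedding.conjugate y)
      (fun y _ => ComplexEmbedding.conjugate y) ?_ ?_ (fun y _ => conj_conj y)
      (fun y _ => conj_conj y) ?_
    · intro y hy
      simp only [mem_filter, mem_univ, true_and] at hy ⊢
      intro g
      have h2 := hy g
      rw [smul_conj hc, smul_conj hc]
      have h3 := hΦ (g • y)
      have h4 := hΦ (g • φ)
      tauto
    · intro y hy
      simp only [mem_filter, mem_univ, true_and] at hy ⊢
      intro g
      have h2 := hy g
      rw [smul_conj hc] at h2 ⊢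
      have h3 := hΦ (g • y)
      have h4 := hΦ (g • φ)
      tauto
    · intro y _
      rfl
  rw [h2, sub_ne_zero]
  exact_mod_cast hφ

end Pool.MP43e44c
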