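import Pool.Agent.H.MP_43e44c_ag.NCl
import Pool.Agent.H.MP_43e44c_ag.Blk3
import Pool.Agent.H.MP_43e44c_ag.Gen2

/-!
The classes of embeddings of a CM field in terms of the Galois closure of the real subfield, and
the theorems on CM types when the classes are small.
-/

set_option autoImplicit false

open NumberField Finset Module

namespace Pool.MP43e44c

variable {K : Type*} [Field K] [NumberField K] [IsCMField K]

/-- Conjugation commutes with the Galois group. -/
theorem hcgK (g : GG K) (φ : K →+* ℂ) :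
    g • ComplexEmbedding.conjugate φ = ComplexEmbedding.conjugate (g • φ) :=
  smul_conj (exists_cm_conj K).choose_spec g φ

/-- The class of an embedding. -/
noncomputable abbrev cl (φ : K →+* ℂ) : Cls (G := GG K) (X := K →+* ℂ) conj_conj hcgK :=
  mkc conj_conj hcgK φ

theorem conj_real (φ : K →+* ℂ) {y : K} (hy : y ∈ maximalRealSubfield K) :
    ComplexEmbedding.conjugate φ y = φ y := by
  rw [ComplexEmbedding.conjugate_coe_eq, ← IsCMField.complexEmbedding_complexConj K φ,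
    (IsCMField.complexConj_eq_self_iff K y).2 hy]

theorem conj_imag (φ : K →+* ℂ) {θ : K} (hθ : IsCMField.complexConj K θ = -θ) :
    ComplexEmbedding.conjugate φ θ = - φ θ := by
  rw [ComplexEmbedding.conjugate_coe_eq, ← IsCMField.complexEmbedding_complexConj K φ, hθ,
    map_neg]

/-- The Galois closure of the real subfield is the field fixed by the pair kernel. -/
theorem mem_GC0_iff (x : GC K) : (x : ℂ) ∈ GC0 K ↔ ∀ ν ∈ PK K, ν x = x := by
  set E : IntermediateField ℚ (GC K) := IntermediateField.restrict (GC0_le (K := K)) with hEdef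
  have h1 : E.fixingSubgroup ≤ PK K := by
    intro g hg φ
    refine eq_or_conj fun x hx => ?_
    rw [smul_apply]
    have h7 : lft φ x ∈ E := (IntermediateField.mem_restrict _ _).2 (mem_GC0 φ hx)
    have h8 := (IntermediateField.mem_fixingSubgroup_iff E g).1 hg _ h7
    rw [h8, coe_lft]
  constructor
  · intro hx
    let F : IntermediateField ℚ (GC K) := IntermediateField.fixedField (PK K)
    have h2 : GC0 K ≤ IntermediateField.lift F := by
      refine normalClosure_le_iff.2 ?_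
      rintro f _ ⟨y, rfl⟩
      let φ : K →+* ℂ := ComplexEmbedding.lift K (f : maximalRealSubfield K →+* ℂ)
      have h3 : φ (y : K) = f y := ComplexEmbedding.lift_algebraMap_apply K _ y
      show f y ∈ IntermediateField.lift F
      rw [← h3]
      have h4 : (lft φ (y : K) : GC K) ∈ F := by
        rw [IntermediateField.mem_fixedField_iff]
        intro ν hν
        rw [← lft_smul]
        rcases hν φ with h5 | h5
        · rw [h5]
        · rw [h5]
          exact Subtype.ext (conj_real φ y.2)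
      exact (IntermediateField.mem_lift _).2 h4
    have h3 : x ∈ F := (IntermediateField.mem_lift x).1 (h2 hx)
    rw [IntermediateField.mem_fixedField_iff] at h3
    exact h3
  · intro hx
    have h2 : x ∈ IntermediateField.fixedField E.fixingSubgroup := by
      rw [IntermediateField.mem_fixedField_iff]
      intro g hg
      exact hx g (h1 hg)
    rw [IsGalois.fixedField_fixingSubgroup] at h2
    exact (IntermediateField.mem_restrict _ _).1 h2

theorem cl_eq_iff {θ : K} (hθ0 : θ ≠ 0) (hθ : IsCMField.complexConj K θ = -θ) (φ ψ : K →+* ℂ) :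
    cl φ = cl ψ ↔ φ θ * ψ θ ∈ GC0 K := by
  have hx : ((lft φ θ * lft ψ θ : GC K) : ℂ) = φ θ * ψ θ := rfl
  have hx0 : lft φ θ * lft ψ θ ≠ 0 := by
    intro h
    have h1 : φ θ * ψ θ = 0 := by rw [← hx, h]; rfl
    rcases mul_eq_zero.1 h1 with h2 | h2
    · exact hθ0 ((map_eq_zero φ).1 h2)
    · exact hθ0 ((map_eq_zero ψ).1 h2)
  have hconj : ∀ φ : K →+* ℂ, lft (ComplexEmbedding.conjugate φ) θ = - lft φ θ := fun φ =>
    Subtype.ext (by
      rw [coe_lft]
      exact conj_imag φ hθ)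
  rw [← hx, mem_GC0_iff]
  constructor
  · intro h ν hν
    have h1 : ν • φ = φ ↔ ν • ψ = ψ := (Quotient.exact h : (clsSetoid conj_conj hcgK).r φ ψ) ν hν
    rw [map_mul, ← lft_smul, ← lft_smul]
    by_cases h2 : ν • φ = φ
    · rw [h2, h1.1 h2]
    · rw [(hν φ).resolve_left h2, (hν ψ).resolve_left fun h3 => h2 (h1.2 h3), hconj, hconj,
        neg_mul_neg]
  · intro h
    refine Quotient.sound fun ν hν => ?_
    have h1 := h ν hν
    rw [map_mul, ← lft_smul, ← lft_smul] at h1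
    have h4 : ∀ a : GC K, -a = a → a = 0 := by
      intro a ha
      have h5 : (2 : GC K) * a = 0 := by linear_combination -ha
      exact (mul_eq_zero.1 h5).resolve_left two_ne_zero
    constructor
    · intro h2
      by_contra h3
      rw [h2, (hν ψ).resolve_left h3, hconj, mul_neg] at h1
      exact hx0 (h4 _ h1)
    · intro h2
      by_contra h3
      rw [h2, (hν φ).resolve_left h3, hconj, neg_mul] at h1
      exact hx0 (h4 _ h1)

open Classical in
/-- The relation attached to a CM type whose Hodge rings are not generated by divisor classes,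
supported on a class. -/
theorem bad_block {Φ : Finset (K →+* ℂ)} (hΦ : IsCMType Φ)
    (hbad : ¬ HodgeRingGeneratedByDivisors Φ) :
    ∃ x₀ : K →+* ℂ, ∃ f ∈ latB (G := GG K) conj_conj hcgK Φ (cl x₀),
      ∑ y ∈ univ.filter (fun y => ∀ g : GG K, g • y ∈ Φ ↔ g • x₀ ∈ Φ), f y ≠ 0 := by
  unfold HodgeRingGeneratedByDivisors at hbad
  push Not at hbad
  obtain ⟨k', p, hcon⟩ := hbad
  obtain ⟨f, hf, φ, hφ⟩ := exists_lat2 (exists_cm_conj K).choose_spec hΦ hcon
  have hfinQ : Finite (Cls (G := GG K) (X := K →+* ℂ) conj_conj hcgK) := inferInstance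
  have : Fintype (Cls (G := GG K) (X := K →+* ℂ) conj_conj hcgK) := Fintype.ofFinite _
  set S := univ.filter (fun y : K →+* ℂ => ∀ g : GG K, g • y ∈ Φ ↔ g • φ ∈ Φ) with hS
  have h1 : ∑ y ∈ S, f y = ∑ q : Cls (G := GG K) (X := K →+* ℂ) conj_conj hcgK,
      ∑ y ∈ S, if cl y = q then f y else 0 := by
    rw [sum_comm]
    refine sum_congr rfl fun y _ => ?_
    rw [sum_ite_eq univ (cl y), if_pos (mem_univ _)]
  rw [h1] at hφ
  obtain ⟨q, -, hq⟩ := exists_ne_zero_of_sum_ne_zero hφ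
  obtain ⟨y₀, hy₀, hy₀'⟩ := exists_ne_zero_of_sum_ne_zero hq
  have hyq : cl y₀ = q := by
    by_contra h2
    rw [if_neg h2] at hy₀'
    exact hy₀' rfl
  refine ⟨y₀, fun y => if cl y = q then f y else 0, ⟨?_, ?_⟩, ?_⟩
  · exact proj_mem_lat conj_conj hcgK conj_ne hf q
  · intro x hx
    rw [hyq] at hx
    exact if_neg hx
  · have h2 : univ.filter (fun y : K →+* ℂ => ∀ g : GG K, g • y ∈ Φ ↔ g • y₀ ∈ Φ) = S := by
      rw [hS, mem_filter] at hy₀
      ext y
      rw [hS]
      simp only [mem_filter, mem_univ, true_and]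
      exact forall_congr' fun g => by rw [hy₀.2 g]
    rw [h2]
    exact hq

theorem ncard_cl_eq {θ : K} (hθ0 : θ ≠ 0) (hθ : IsCMField.complexConj K θ = -θ) (χ : K →+* ℂ)
    {m : ℕ} (hb : {φ : K →+* ℂ | φ θ * χ θ ∈ GC0 K}.ncard = m) (x₀ : K →+* ℂ) :
    {y : K →+* ℂ | cl y = cl x₀}.ncard = m := by
  rw [← hb, ncard_cls_eq conj_conj hcgK x₀ χ]
  congr 1
  ext y
  exact cl_eq_iff hθ0 hθ y χ

/-- All CM types have the property if the classes are small. -/
theorem all_types_of_small (χ : K →+* ℂ) {b : ℕ}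
    (hb : {φ : K →+* ℂ | cl φ = cl χ}.ncard = 2 * b)
    (h : b = 1 ∨ b.Prime ∨ ((∃ j, b = 2 ^ j) ∧ ¬ IsSquare (discr K)))
    (Φ : Finset (K →+* ℂ)) (hΦ : IsCMType Φ) : HodgeRingGeneratedByDivisors Φ := by
  classical
  by_contra hbad
  obtain ⟨x₀, f, hf, hsum⟩ := bad_block hΦ hbad
  have hB : {y : K →+* ℂ | cl y = cl x₀}.ncard = 2 * b := by
    rw [← hb]
    exact ncard_cls_eq conj_conj hcgK x₀ χ
  rcases h with h | h | ⟨⟨j, rfl⟩, hd⟩
  · apply hsum
    convert sum_eq_zero_of_prime conj_conj hcgK (Or.inl h) conj_ne hB hΦ hf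
  · apply hsum
    convert sum_eq_zero_of_prime conj_conj hcgK (Or.inr h) conj_ne hB hΦ hf
  · have hf0 : f ≠ 0 := by
      rintro rfl
      exact hsum (by simp)
    rw [← pow_succ'] at hB
    obtain ⟨f', hf', hodd⟩ := exists_odd_of_two_pow conj_conj hcgK hB ⟨f, hf, hf0⟩
    apply hd
    refine isSquare_discr_of_even fun g => ?_
    rw [sign_eq_of_comm conj_conj hΦ _ (fun x => hcgK g x)]
    exact Even.neg_one_pow (even_card_of_odd conj_conj hcgK hΦ hf' hodd g)

/-- The order of the pair kernel. -/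
theorem card_PK_mul : Nat.card (PK K) * finrank ℚ (GC0 K) = finrank ℚ (GC K) := by
  have hE := IntermediateField.restrictAlgEquiv (GC0_le (K := K))
  set E : IntermediateField ℚ (GC K) := IntermediateField.restrict (GC0_le (K := K)) with hEdef
  have h1 : finrank ℚ E = finrank ℚ (GC0 K) := (hE.toLinearEquiv.finrank_eq).symm
  have h2 := Module.finrank_mul_finrank ℚ E (GC K)
  have h3 : E.fixingSubgroup = PK K := by
    apply le_antisymm
    · intro g hg φ
      refine eq_or_conj fun x hx => ?_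
      rw [smul_apply]
      have h7 : lft φ x ∈ E := (IntermediateField.mem_restrict _ _).2 (mem_GC0 φ hx)
      have h8 := (IntermediateField.mem_fixingSubgroup_iff E g).1 hg _ h7
      rw [h8, coe_lft]
    · intro ν hν
      rw [IntermediateField.mem_fixingSubgroup_iff]
      intro x hx
      exact (mem_GC0_iff x).1 ((IntermediateField.mem_restrict _ _).1 hx) ν hν
  rw [← h3, IsGalois.card_fixingSubgroup_eq_finrank, ← h1, mul_comm, h2]

theorem two_le_card_PK : 2 ≤ Nat.card (PK K) := by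
  have h1 : conjG K ∈ PK K := fun φ => Or.inr (conjG_smul φ)
  have h2 : PK K ≠ ⊥ := by
    intro h3
    rw [h3, Subgroup.mem_bot] at h1
    obtain ⟨φ⟩ : Nonempty (K →+* ℂ) := inferInstance
    have h4 := conjG_smul φ
    rw [h1, one_smul] at h4
    exact conj_ne φ h4.symm
  have h3 := (Subgroup.one_lt_card_iff_ne_bot (PK K)).2 h2
  omega

/-- Products of two primes. -/
theorem all_types_two_primes {p q : ℕ} (hp : p.Prime) (hq : q.Prime)
    (hn : finrank ℚ K = 2 * (p * q)) (hv : finrank ℚ (GC K) ≠ 2 * finrank ℚ (GC0 K))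
    (Φ : Finset (K →+* ℂ)) (hΦ : IsCMType Φ) : HodgeRingGeneratedByDivisors Φ := by
  classical
  obtain ⟨χ⟩ : Nonempty (K →+* ℂ) := inferInstance
  -- the size of the classes is even
  have h2 : ∃ b, {y : K →+* ℂ | cl y = cl χ}.ncard = 2 * b := by
    have h3 := sum_half conj_conj hΦ (fun y => if cl y = cl χ then 1 else 0) (fun y => by
      have h4 : cl (ComplexEmbedding.conjugate y) = cl y := mkc_conj (G := GG K) conj_conj hcgK y
      rw [h4])
    have h4 : (({y : K →+* ℂ | cl y = cl χ}.ncard : ℕ) : ℤ)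
        = ∑ y : K →+* ℂ, if cl y = cl χ then 1 else 0 := by
      rw [sum_boole, ← Set.ncard_coe_finset]
      congr 2
      ext y
      simp
    refine ⟨(Φ.filter fun y => cl y = cl χ).card, ?_⟩
    rw [h3, sum_boole] at h4
    exact_mod_cast h4
  obtain ⟨b, hb⟩ := h2
  have h1 := card_cls_mul (G := GG K) conj_conj hcgK hb
  rw [card_embeddings, hn] at h1
  set N := Nat.card (Cls (G := GG K) (X := K →+* ℂ) conj_conj hcgK) with hN
  have h3 : N * b = p * q := by
    have : 2 * (N * b) = 2 * (p * q) := by rw [← h1]; ring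
    omega
  have h4 : b ∣ p * q := Dvd.intro_left _ h3
  obtain ⟨b₁, b₂, hb₁, hb₂, hbb⟩ := (Nat.dvd_mul).1 h4
  have hsmall : b = 1 ∨ b.Prime ∨ ((∃ j, b = 2 ^ j) ∧ ¬ IsSquare (discr K)) := by
    rcases (Nat.dvd_prime hp).1 hb₁ with rfl | rfl
    · rcases (Nat.dvd_prime hq).1 hb₂ with rfl | rfl
      · left; rw [← hbb]
      · right; left; rw [← hbb, one_mul]; exact hq
    · rcases (Nat.dvd_prime hq).1 hb₂ with rfl | rfl
      · right; left; rw [← hbb, mul_one]; exact hp
      · exfalso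
        rw [← hbb] at h3
        have hpos : 0 < b₁ * b₂ := Nat.mul_pos hp.pos hq.pos
        have hN1 : N = 1 := by
          have : N * (b₁ * b₂) = 1 * (b₁ * b₂) := by rw [h3, one_mul]
          exact Nat.eq_of_mul_eq_mul_right hpos this
        have h5 := card_pairKer_le (G := GG K) (X := K →+* ℂ) conj_conj hcgK
        have h6 : Nat.card (PK K) ≤ 2 := by
          rw [← hN, hN1, pow_one] at h5
          exact h5
        have h7 := two_le_card_PK (K := K)
        have h8 := card_PK_mul (K := K)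
        rw [show Nat.card (PK K) = 2 by omega] at h8
        exact hv h8.symm
  exact all_types_of_small χ hb hsmall Φ hΦ

/-- The signature criterion. -/
theorem signature_criterion {ℓ k c : ℕ} (hℓ : ℓ.Prime) (hodd : ℓ ≠ 2) (hk : k ≠ 0)
    (hn : finrank ℚ K = 2 * (ℓ ^ k * c)) {θ : K} (hθ0 : θ ≠ 0)
    (hθ : IsCMField.complexConj K θ = -θ) (χ : K →+* ℂ)
    (hb : {φ : K →+* ℂ | φ θ * χ θ ∈ GC0 K}.ncard = 2 * ℓ ^ k) :
    ∃ Ψ : Finset (K →+* ℂ), IsCMType Ψ ∧
      (∀ F : IntermediateField ℚ K, finrank ℚ F = 2 →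
        (∃ x ∈ F, ∃ φ : K →+* ℂ, (φ x).im ≠ 0) →
        ∀ φ ∈ Ψ, ∀ ψ : K →+* ℂ, ψ ∈ Ψ ↔ ∀ x ∈ F, ψ x = φ x) ∧
      (∀ Φ : Finset (K →+* ℂ), IsCMType Φ →
        (∃ χ : K →+* ℂ, ¬ ℓ ∣ {φ : K →+* ℂ | φ ∈ Φ ∧ φ ∈ Ψ ∧ φ θ * χ θ ∈ GC0 K}.ncard) →
        HodgeRingGeneratedByDivisors Φ) ∧
      {Φ : Finset (K →+* ℂ) | IsCMType Φ ∧ ¬ HodgeRingGeneratedByDivisors Φ}.ncard
        ≤ (∑ a ∈ (range (ℓ ^ k + 1)).filter (fun a => ℓ ∣ a), (ℓ ^ k).choose a) ^ c := by
  classical
  have : Fact ℓ.Prime := ⟨hℓ⟩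
  have hB : {y : K →+* ℂ | cl y = cl χ}.ncard = 2 * ℓ ^ k := ncard_cl_eq hθ0 hθ χ hb χ
  obtain ⟨P, γ, Ψ, hγ, hΨ, hΨ', hΨc, hdvd⟩ :=
    exists_sylow_half (G := GG K) conj_conj hcgK hodd hk conj_ne hB
  have hN : Nat.card (Cls (G := GG K) (X := K →+* ℂ) conj_conj hcgK) = c := by
    have h1 := card_cls_mul (G := GG K) conj_conj hcgK hB
    rw [card_embeddings, hn] at h1
    have hpos : 0 < 2 * ℓ ^ k := Nat.mul_pos two_pos (pow_pos hℓ.pos _)
    apply Nat.eq_of_mul_eq_mul_right hpos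
    rw [h1]; ring
  have hbad : ∀ Φ : Finset (K →+* ℂ), IsCMType Φ → ¬ HodgeRingGeneratedByDivisors Φ →
      ∀ q, ℓ ∣ (univ.filter fun x : K →+* ℂ => x ∈ Φ ∧ x ∈ Ψ ∧ cl x = q).card := by
    intro Φ hΦ hbad q
    obtain ⟨x₀, f, hf, hsum⟩ := bad_block hΦ hbad
    have hf0 : f ≠ 0 := by
      rintro rfl
      exact hsum (by simp)
    convert hdvd Φ hΦ ⟨x₀, f, hf, hf0⟩ q
  have hcrit : ∀ Φ : Finset (K →+* ℂ), IsCMType Φ →
      (∃ χ : K →+* ℂ, ¬ ℓ ∣ {φ : K →+* ℂ | φ ∈ Φ ∧ φ ∈ Ψ ∧ φ θ * χ θ ∈ GC0 K}.ncard) →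
      HodgeRingGeneratedByDivisors Φ := by
    rintro Φ hΦ ⟨χ', hχ'⟩
    by_contra hbad'
    apply hχ'
    have h1 := hbad Φ hΦ hbad' (cl χ')
    rw [← Set.ncard_coe_finset] at h1
    have h2 : (((univ.filter fun x : K →+* ℂ => x ∈ Φ ∧ x ∈ Ψ ∧ cl x = cl χ') :
        Finset (K →+* ℂ)) : Set (K →+* ℂ))
        = {φ : K →+* ℂ | φ ∈ Φ ∧ φ ∈ Ψ ∧ φ θ * χ' θ ∈ GC0 K} := by
      ext y
      rw [coe_filter]
      simp only [mem_univ, true_and, Set.mem_ofPred_eq]
      rw [cl_eq_iff hθ0 hθ]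
    rw [h2] at h1
    exact h1
  refine ⟨Ψ, hΨ', ?_, hcrit, ?_⟩
  · intro F hF hF' φ hφ ψ
    obtain ⟨x, hx, χ', hχ'⟩ := hF'
    have hnr : ∀ ψ : K →+* ℂ, ¬ ∀ x ∈ F, (ComplexEmbedding.conjugate ψ) x = ψ x := by
      intro ψ h2
      obtain ⟨g, hg⟩ := exists_smul_eq ψ χ'
      have h3 := smul_agree h2 g x hx
      rw [hcgK, hg] at h3
      apply hχ'
      have h4 : (starRingEnd ℂ) (χ' x) = χ' x := h3
      exact Complex.conj_eq_iff_im.1 h4
    -- all embeddings are in one class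
    have hone : ∀ φ ψ : K →+* ℂ, cl φ = cl ψ := by
      intro φ ψ
      refine Quotient.sound fun ν hν => ?_
      have key : ∀ φ ψ : K →+* ℂ, ν • φ = φ → ν • ψ = ψ := by
        intro φ ψ hφ
        by_contra hψ
        have hψ' := (hν ψ).resolve_left hψ
        have h5 : ∀ ρ : K →+* ℂ, ν • ρ = ρ → (∀ x ∈ F, ρ x = ψ x) → False := by
          intro ρ hρ hag
          have h6 := smul_agree hag ν
          rw [hρ, hψ'] at h6
          exact hnr ψ fun x hx => by rw [← h6 x hx, hag x hx]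
        rcases agree_of_three hF (ComplexEmbedding.conjugate φ) φ ψ with h | h | h
        · exact hnr φ h
        · exact h5 φ hφ h
        · exact h5 _ (by rw [hcgK, hφ]) h
      exact ⟨key φ ψ, key ψ φ⟩
    have hag : ∀ φ ∈ Ψ, ∀ ψ ∈ Ψ, ∀ x ∈ F, φ x = ψ x := by
      have h5 : ∀ φ ∈ Ψ, ∀ x ∈ F, ((γ (cl χ))⁻¹ • φ) x = χ x := by
        intro φ hφ
        have h6 : (γ (cl φ))⁻¹ • φ ∈ MulAction.orbit P χ := (hΨ φ).1 hφ
        rw [hone φ χ] at h6
        obtain ⟨σ, hσ⟩ := h6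
        rw [← hσ]
        refine odd_agree hF (σ := ((σ : stb conj_conj hcgK χ) : GG K)) ?_ χ
        obtain ⟨j, hj⟩ := P.isPGroup'.exists_orderOf_eq_pow σ
        have h1 : orderOf ((σ : stb conj_conj hcgK χ) : GG K) = ℓ ^ j := by
          rw [← hj, Subgroup.orderOf_coe, Subgroup.orderOf_coe]
        rw [h1]
        exact (hℓ.odd_of_ne_two hodd).pow
      intro φ hφ ψ hψ x hx
      have h6 : ∀ x ∈ F, ((γ (cl χ))⁻¹ • φ) x = ((γ (cl χ))⁻¹ • ψ) x := fun x hx => by
        rw [h5 φ hφ x hx, h5 ψ hψ x hx]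
      have h7 := smul_agree h6 (γ (cl χ)) x hx
      rwa [smul_inv_smul, smul_inv_smul] at h7
    constructor
    · intro hψ
      exact hag ψ hψ φ hφ
    · intro h
      by_contra hψ
      have h1 : ComplexEmbedding.conjugate ψ ∈ Ψ := by
        by_contra h2; exact hψ ((hΨ' ψ).2 h2)
      refine hnr ψ fun x hx => ?_
      rw [hag _ h1 φ hφ x hx, h x hx]
  · have h1 := card_signature_le (G := GG K) conj_conj hcgK (ℓ := ℓ) (b := ℓ ^ k) hΨ' hΨc
      (∑ a ∈ (range (ℓ ^ k + 1)).filter (fun a => ℓ ∣ a), (ℓ ^ k).choose a) (fun s hs => by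
        rw [card_powerset_dvd s ℓ, hs])
    rw [hN] at h1
    refine le_trans (Set.ncard_le_ncard ?_ (Set.toFinite _)) h1
    rintro Φ ⟨hΦ, hb'⟩
    refine ⟨hΦ, fun q => ?_⟩
    convert hbad Φ hΦ hb' q

end Pool.MP43e44c
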