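import Mathlib

/-!
Counting families of subsets whose size vector is determined by its tail.
-/

set_option autoImplicit false

open Finset

namespace Pool.MP43e44c

/-- Number of families `a : Fin h → Finset N` whose size vector satisfies a predicate which
determines the first `d` entries from the other ones. -/
theorem card_sizes_le {N : Type*} [Fintype N] [DecidableEq N] {d h : ℕ} (hd : d ≤ h)
    (P : (Fin h → ℕ) → Prop) [DecidablePred P]
    (hP : ∀ x y, P x → P y → (∀ i : Fin h, d ≤ (i : ℕ) → x i = y i) → x = y) :
    (univ.filter fun a : Fin h → Finset N => P fun i => (a i).card).card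
      ≤ ((Fintype.card N).choose (Fintype.card N / 2)) ^ d * (2 ^ Fintype.card N) ^ (h - d) := by
  classical
  set k := Fintype.card N with hk
  have hcard : (univ.filter fun i : Fin h => (i : ℕ) < d).card = d := by
    rw [Fin.card_filter_val_lt]; omega
  have hcard' : (univ.filter fun i : Fin h => ¬ (i : ℕ) < d).card = h - d := by
    have := Finset.card_filter_add_card_filter_not (s := (univ : Finset (Fin h)))
      (fun i : Fin h => (i : ℕ) < d)
    rw [hcard, Finset.card_univ, Fintype.card_fin] at this
    omega
  have hprod : ∀ α β : ℕ, (∏ i : Fin h, if (i : ℕ) < d then α else β) = α ^ d * β ^ (h - d) := by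
    intro α β
    rw [Finset.prod_ite, Finset.prod_const, Finset.prod_const, hcard, hcard']
  -- the target of the tail map
  set t : Finset (Fin h → Finset N) :=
    Fintype.piFinset fun i : Fin h => if (i : ℕ) < d then {∅} else univ with ht
  have htcard : t.card = (2 ^ k) ^ (h - d) := by
    rw [ht, Fintype.card_piFinset]
    have : ∀ i : Fin h, ((if (i : ℕ) < d then {∅} else univ : Finset (Finset N))).card
        = if (i : ℕ) < d then 1 else 2 ^ k := by
      intro i
      split_ifs
      · simp
      · rw [Finset.card_univ, Fintype.card_finset]
    rw [Finset.prod_congr rfl fun i _ => this i, hprod, one_pow, one_mul]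
  rw [← htcard, mul_comm]
  rw [mul_comm]
  refine Finset.card_le_mul_card_image_of_maps_to
    (f := fun (a : Fin h → Finset N) (i : Fin h) => if (i : ℕ) < d then ∅ else a i) ?_ _ ?_
  · intro a _
    rw [ht, Fintype.mem_piFinset]
    intro i
    split_ifs <;> simp
  · intro b _
    by_cases hne : ((univ.filter fun a : Fin h → Finset N => P fun i => (a i).card).filter
        fun a => (fun i : Fin h => if (i : ℕ) < d then ∅ else a i) = b).Nonempty
    · obtain ⟨a₀, ha₀⟩ := hne
      rw [mem_filter, mem_filter] at ha₀
      obtain ⟨⟨-, hPa₀⟩, hb₀⟩ := ha₀
      have hsub : ((univ.filter fun a : Fin h → Finset N => P fun i => (a i).card).filter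
          fun a => (fun i : Fin h => if (i : ℕ) < d then ∅ else a i) = b) ⊆
          Fintype.piFinset fun i : Fin h =>
            if (i : ℕ) < d then Finset.powersetCard (a₀ i).card univ else {b i} := by
        intro a ha
        rw [mem_filter, mem_filter] at ha
        obtain ⟨⟨-, hPa⟩, hb⟩ := ha
        have htail : ∀ i : Fin h, d ≤ (i : ℕ) → a i = a₀ i := by
          intro i hi
          have h1 := congrFun hb i
          have h2 := congrFun hb₀ i
          simp only [not_lt.mpr hi, if_false] at h1 h2
          rw [h1, h2]
        have hsz := hP _ _ hPa hPa₀ fun i hi => by rw [htail i hi]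
        rw [Fintype.mem_piFinset]
        intro i
        split_ifs with hi
        · rw [Finset.mem_powersetCard]
          exact ⟨Finset.subset_univ _, congrFun hsz i⟩
        · have h1 := congrFun hb i
          simp only [hi, if_false] at h1
          rw [h1]; simp
      refine (Finset.card_le_card hsub).trans ?_
      rw [Fintype.card_piFinset]
      calc ∏ i : Fin h, ((if (i : ℕ) < d then Finset.powersetCard (a₀ i).card univ else {b i} :
              Finset (Finset N))).card
          ≤ ∏ i : Fin h, (if (i : ℕ) < d then k.choose (k / 2) else 1) := by
            refine Finset.prod_le_prod' fun i _ => ?_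
            split_ifs
            · rw [Finset.card_powersetCard, Finset.card_univ, ← hk]
              exact Nat.choose_le_middle _ _
            · simp
        _ = (k.choose (k / 2)) ^ d := by rw [hprod, one_pow, mul_one]
    · rw [Finset.not_nonempty_iff_eq_empty] at hne
      rw [hne]; simp

end Pool.MP43e44c
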