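import Pool.Agent.H.MP_43e44c_ag.ClsField
import Pool.Agent.H.MP_43e44c_ag.Tower

/-!
The number of CM types whose Hodge rings are not generated by divisor classes: in terms of the
classes of embeddings of the real subfield, and for degrees with a large prime factor.
-/

set_option autoImplicit false

open NumberField Finset Module

namespace Pool.MP43e44c

variable {K : Type*} [Field K] [NumberField K] [IsCMField K]

theorem bad_subset_lat :
    {Φ : Finset (K →+* ℂ) | IsCMType Φ ∧ ¬ HodgeRingGeneratedByDivisors Φ} ⊆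
      {Φ | (∀ x, x ∈ Φ ↔ ComplexEmbedding.conjugate x ∉ Φ) ∧
        ∃ f ∈ lat (GG K) ComplexEmbedding.conjugate Φ, f ≠ 0} := by
  classical
  rintro Φ ⟨hΦ, hbad⟩
  refine ⟨hΦ, ?_⟩
  unfold HodgeRingGeneratedByDivisors at hbad
  push Not at hbad
  obtain ⟨k', p, hcon⟩ := hbad
  obtain ⟨t, hbal, hasym⟩ := exists_tuple (exists_cm_conj K).choose_spec hΦ hcon
  obtain ⟨f, hf, hf0, -⟩ := lat_ne (G := GG K) conj_conj hcgK hΦ t hbal hasym
  exact ⟨f, hf, hf0⟩

/-- Degrees with a large prime factor. -/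
theorem large_prime_count {r m ℓ k : ℕ} (hℓ : ℓ.Prime) (hodd : ℓ ≠ 2) (hk : k ≠ 0)
    (E : IntermediateField ℚ K) (hE : ∀ x ∈ E, x ∈ maximalRealSubfield K)
    (hr : finrank ℚ E = r) (hm : finrank E K = 2 * (m * ℓ ^ k)) :
    {Φ : Finset (K →+* ℂ) | IsCMType Φ ∧ ¬ HodgeRingGeneratedByDivisors Φ}.ncard ^ 2 * (4 * ℓ)
      ≤ r ^ 2 * (2 * m) ^ (m + 1) * 4 ^ (r * (m * ℓ ^ k)) := by
  classical
  have : Fact ℓ.Prime := ⟨hℓ⟩
  have hX : Nat.card (K →+* ℂ) = 2 * (r * (m * ℓ ^ k)) := by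
    rw [card_embeddings, ← Module.finrank_mul_finrank ℚ E K, hr, hm]
    ring
  let res : (K →+* ℂ) → (E →+* ℂ) := fun φ => φ.comp (algebraMap E K)
  have hres : ∀ φ ψ, res φ = res ψ ↔ ∀ x ∈ E, φ x = ψ x := by
    intro φ ψ
    constructor
    · intro h x hx
      exact congrArg (fun f : E →+* ℂ => f ⟨x, hx⟩) h
    · intro h
      ext x
      exact h x x.2
  have hress : Function.Surjective res := by
    intro f
    refine ⟨ComplexEmbedding.lift K f, ?_⟩
    ext x
    exact ComplexEmbedding.lift_algebraMap_apply K f x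
  let J := Quotient (Setoid.ker res)
  let β : (K →+* ℂ) → J := Quotient.mk (Setoid.ker res)
  have hβr : ∀ φ ψ, β φ = β ψ ↔ ∀ x ∈ E, φ x = ψ x := fun φ ψ =>
    (Quotient.eq (r := Setoid.ker res)).trans (hres φ ψ)
  have hβs : Function.Surjective β := Quotient.exists_rep
  let act : MulAction (GG K) J :=
    { smul := fun g => Quotient.map (fun φ => g • φ) (fun φ ψ h =>
        (hres _ _).2 (smul_agree ((hres φ ψ).1 h) g))
      one_smul := by
        rintro ⟨φ⟩
        show β ((1 : GG K) • φ) = β φ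
        rw [one_smul]
      mul_smul := by
        rintro g h ⟨φ⟩
        show β ((g * h) • φ) = β (g • h • φ)
        rw [mul_smul] }
  have hJ : Nat.card J = r := by
    rw [Nat.card_congr (Setoid.quotientKerEquivOfSurjective res hress),
      Nat.card_eq_fintype_card, NumberField.Embeddings.card E ℂ, hr]
  have h1 := tower_count (G := GG K) hodd hk (m := m) (r := r) conj_conj hcgK conj_ne β
    (fun _ _ => rfl) hβs (fun φ => (hβr _ _).2 fun x hx => conj_real φ (hE x hx)) hJ hX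
  refine le_trans ?_ h1
  refine Nat.mul_le_mul_right _ (Nat.pow_le_pow_left ?_ 2)
  exact Set.ncard_le_ncard bad_subset_lat (Set.toFinite _)

/-- The count in terms of the classes. -/
theorem class_count {b c : ℕ} (hK : finrank ℚ K = 2 * (b * c)) {θ : K} (hθ0 : θ ≠ 0)
    (hθ : IsCMField.complexConj K θ = -θ) (χ : K →+* ℂ)
    (hb : {φ : K →+* ℂ | φ θ * χ θ ∈ GC0 K}.ncard = 2 * b) :
    finrank ℚ (GC K) ≤ 2 ^ c * finrank ℚ (GC0 K) ∧
    {Φ : Finset (K →+* ℂ) | IsCMType Φ ∧ ¬ HodgeRingGeneratedByDivisors Φ}.ncard * 4 ^ c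
        ≤ 2 ^ (b * c + 1) * (b + 2 ^ c) ∧
    (¬ IsSquare (discr K) →
      {Φ : Finset (K →+* ℂ) | IsCMType Φ ∧ ¬ HodgeRingGeneratedByDivisors Φ}.ncard * 4 ^ c
        ≤ 2 ^ (b * c + 1) * b) := by
  classical
  let cc : (K →+* ℂ) → (K →+* ℂ) := ComplexEmbedding.conjugate
  have hcc : ∀ x, cc (cc x) = x := conj_conj
  have hcg : ∀ (g : GG K) x, g • cc x = cc (g • x) := hcgK
  have hne : ∀ x, cc x ≠ x := conj_ne
  let P := Quotient (pairSetoid cc hcc)
  let actP : MulAction (GG K) P := pairAction cc hcc hcg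
  let Q := Cls (G := GG K) hcc hcg
  let π : (K →+* ℂ) → P := Quotient.mk (pairSetoid cc hcc)
  have hπ : ∀ (g : GG K) x, π (g • x) = g • π x := fun _ _ => rfl
  have hfib : ∀ x y, π x = π y ↔ y = x ∨ y = cc x := by
    intro x y
    exact Quotient.eq
  have hsurj : Function.Surjective π := Quotient.exists_rep
  have : Finite P := Finite.of_surjective π hsurj
  let fP : Fintype P := Fintype.ofFinite P
  have : Finite Q := inferInstance
  let fQ : Fintype Q := Fintype.ofFinite Q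
  let κ : P → Q := Quotient.lift (fun x => Quotient.mk (clsSetoid hcc hcg) x) (by
    rintro x y (h | h)
    · rw [h]
    · rw [h]
      exact Quotient.sound (cls_conj hcc hcg x))
  have hκπ : ∀ x, κ (π x) = Quotient.mk (clsSetoid hcc hcg) x := fun _ => rfl
  have hκ : ∀ (g : GG K) p, κ (g • p) = g • κ p := by
    rintro g ⟨x⟩
    rfl
  have hκs : Function.Surjective κ := by
    rintro ⟨x⟩
    exact ⟨π x, rfl⟩
  obtain ⟨x₀⟩ : Nonempty (K →+* ℂ) := inferInstance
  have : Nonempty Q := ⟨Quotient.mk _ x₀⟩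
  have hproj : ∀ Φ : Finset (K →+* ℂ), (∀ x, x ∈ Φ ↔ cc x ∉ Φ) → ∀ f ∈ lat (GG K) cc Φ, ∀ q : Q,
      ∃ f' ∈ lat (GG K) cc Φ, ∀ x, (κ (π x) = q → f' x = f x) ∧ (κ (π x) ≠ q → f' x = 0) := by
    intro Φ _ f hf q
    refine ⟨_, proj_mem_lat hcc hcg hne hf q, fun x => ⟨fun h => if_pos h, fun h => if_neg h⟩⟩
  -- sizes
  have hfibre : ∀ p : P, (univ.filter fun x => π x = p).card = 2 := by
    intro p
    obtain ⟨x, rfl⟩ := hsurj p
    have h3 : (univ.filter fun y => π y = π x) = {x, cc x} := by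
      ext y
      simp only [mem_filter, mem_univ, true_and, mem_insert, mem_singleton]
      rw [eq_comm, hfib]
    rw [h3, card_pair (Ne.symm (hne x))]
  have hcardP : Fintype.card P = b * c := by
    have h1 : Fintype.card (K →+* ℂ) = 2 * Fintype.card P := by
      rw [← card_univ, card_eq_sum_card_fiberwise (f := π) (t := univ)
        (fun _ _ => mem_coe.2 (mem_univ _)), sum_congr rfl fun p _ => hfibre p, sum_const,
        card_univ, smul_eq_mul, mul_comm]
    rw [NumberField.Embeddings.card K ℂ, hK] at h1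
    omega
  have hclsb : ∀ x₀ : K →+* ℂ, {y : K →+* ℂ | mkc hcc hcg y = mkc hcc hcg x₀}.ncard = 2 * b :=
    ncard_cl_eq hθ0 hθ χ hb
  have hbpos : 0 < b := by
    rcases Nat.eq_zero_or_pos b with rfl | h
    · rw [zero_mul, mul_zero] at hK
      exact absurd hK finrank_pos.ne'
    · exact h
  have hcardQ : Fintype.card Q = c := by
    have h1 := card_cls_mul (G := GG K) hcc hcg (hclsb x₀)
    rw [card_embeddings, hK, Nat.card_eq_fintype_card] at h1
    have h2 : Fintype.card Q * (2 * b) = c * (2 * b) := by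
      rw [h1]; ring
    exact Nat.eq_of_mul_eq_mul_right (by omega) h2
  have hblock : ∀ q : Q, (univ.filter fun p => κ p = q).card ≤ b := by
    intro q
    obtain ⟨x, rfl⟩ := Quotient.exists_rep q
    have h1 := hclsb x
    have h2 : {y : K →+* ℂ | mkc hcc hcg y = mkc hcc hcg x}.ncard
        = ∑ p ∈ univ.filter (fun p => κ p = mkc hcc hcg x), (univ.filter fun y => π y = p).card := by
      have h3 : {y : K →+* ℂ | mkc hcc hcg y = mkc hcc hcg x}
          = ((univ.filter fun y => mkc hcc hcg y = mkc hcc hcg x : Finset (K →+* ℂ)) :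
            Set (K →+* ℂ)) := by
        ext y; simp
      rw [h3, Set.ncard_coe_finset, card_eq_sum_card_fiberwise (f := π)
        (t := univ.filter (fun p => κ p = mkc hcc hcg x))]
      · refine sum_congr rfl fun p hp => ?_
        congr 1
        ext y
        simp only [mem_filter, mem_univ, true_and] at hp ⊢
        constructor
        · exact fun h => h.2
        · intro h
          refine ⟨?_, h⟩
          rw [← hp, ← h]
          exact (hκπ y).symm
      · intro y hy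
        rw [coe_filter] at hy ⊢
        exact ⟨mem_univ _, hy.2⟩
    rw [h1, sum_congr rfl fun p _ => hfibre p, sum_const, smul_eq_mul] at h2
    show (univ.filter fun p => κ p = mkc hcc hcg x).card ≤ b
    omega
  have hQpos : 0 < Fintype.card Q := Fintype.card_pos
  have hmain := bad_count hcc hcg hπ hfib hsurj hκ hκs hproj (b := b) (fun q => by
    convert hblock q)
  have hspec := special_count hcc hcg hπ hfib hsurj hκ hκs hproj
  rw [hcardP, hcardQ] at hmain hspec
  rw [hcardQ] at hQpos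
  set S : Set (Finset (K →+* ℂ)) :=
    {Φ | (∀ x, x ∈ Φ ↔ cc x ∉ Φ) ∧ ∃ f ∈ lat (GG K) cc Φ, ∀ x, Odd (f x)} with hS
  set B : Set (Finset (K →+* ℂ)) := {Φ | IsCMType Φ ∧ ¬ HodgeRingGeneratedByDivisors Φ} with hB
  have hB1 : (B.ncard : ℚ) ≤ 2 ^ (b * c) * ((b : ℚ) / 2 * (1 / 4) ^ (c - 1)) + (S.ncard : ℚ) := by
    refine le_trans ?_ hmain
    exact_mod_cast Set.ncard_le_ncard bad_subset_lat (Set.toFinite _)
  have hpow : (1 / 4 : ℚ) ^ (c - 1) * 4 ^ c = 4 := by
    obtain ⟨j, hj⟩ : ∃ j, c = j + 1 := ⟨c - 1, by omega⟩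
    rw [hj, Nat.add_sub_cancel, pow_succ (4 : ℚ), ← mul_assoc, ← mul_pow]
    norm_num
  have hfirst : (2 : ℚ) ^ (b * c) * ((b : ℚ) / 2 * (1 / 4) ^ (c - 1)) * 4 ^ c
      = 2 ^ (b * c + 1) * b := by
    calc (2 : ℚ) ^ (b * c) * ((b : ℚ) / 2 * (1 / 4) ^ (c - 1)) * 4 ^ c
        = 2 ^ (b * c) * ((b : ℚ) / 2) * ((1 / 4) ^ (c - 1) * 4 ^ c) := by ring
      _ = 2 ^ (b * c) * ((b : ℚ) / 2) * 4 := by rw [hpow]
      _ = _ := by rw [pow_succ]; ring
  refine ⟨?_, ?_, ?_⟩
  · have h1 := card_pairKer_le (G := GG K) hcc hcg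
    rw [Nat.card_eq_fintype_card (α := Cls (G := GG K) hcc hcg)] at h1
    have h2 : Nat.card (PK K) ≤ 2 ^ c := by
      rw [← hcardQ]
      exact h1
    rw [← card_PK_mul]
    exact Nat.mul_le_mul_right _ h2
  · have hsecond : (S.ncard : ℚ) * 4 ^ c ≤ 2 ^ (b * c + 1) * 2 ^ c := by
      have h2 : (S.ncard : ℚ) * 2 ^ c ≤ 2 ^ (b * c + 1) := by exact_mod_cast hspec
      have h3 : (4 : ℚ) ^ c = 2 ^ c * 2 ^ c := by rw [← mul_pow]; norm_num
      rw [h3, ← mul_assoc]
      gcongr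
    have h1 : (B.ncard : ℚ) * 4 ^ c ≤ 2 ^ (b * c + 1) * (b + 2 ^ c) := by
      calc (B.ncard : ℚ) * 4 ^ c ≤ (2 ^ (b * c) * ((b : ℚ) / 2 * (1 / 4) ^ (c - 1))
          + (S.ncard : ℚ)) * 4 ^ c := by gcongr
        _ = (2 : ℚ) ^ (b * c) * ((b : ℚ) / 2 * (1 / 4) ^ (c - 1)) * 4 ^ c
          + (S.ncard : ℚ) * 4 ^ c := by ring
        _ ≤ 2 ^ (b * c + 1) * b + 2 ^ (b * c + 1) * 2 ^ c := add_le_add hfirst.le hsecond
        _ = _ := by ring
    exact_mod_cast h1
  · intro hd
    have hS0 : S = ∅ := by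
      rw [Set.eq_empty_iff_forall_notMem]
      rintro Φ ⟨hΦ, f, hf, hodd⟩
      apply hd
      refine isSquare_discr_of_even fun g => ?_
      rw [sign_eq_of_comm hcc hΦ _ (fun x => hcg g x)]
      exact Even.neg_one_pow (even_card_of_odd hcc hcg hΦ hf hodd g)
    rw [hS0, Set.ncard_empty, Nat.cast_zero, add_zero] at hB1
    have h1 : (B.ncard : ℚ) * 4 ^ c ≤ 2 ^ (b * c + 1) * b := by
      rw [← hfirst]
      gcongr
    exact_mod_cast h1

end Pool.MP43e44c
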