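import Pool.Agent.H.MP_43e44c_ag.Defs

/-!
Multilinearity of the cup product and alternating sums of products of bilinear functions.
-/

set_option autoImplicit false

open Finset

namespace Pool.MP43e44c

section General

variable {V : Type*}

/-- Antisymmetrised product of functions of two variables. -/
noncomputable def altSum {p : ℕ} (β : Fin p → V → V → ℂ) (v : Fin p × Fin 2 → V) : ℂ :=
  ∑ σ : Equiv.Perm (Fin p × Fin 2),
    ((Equiv.Perm.sign σ : ℤ) : ℂ) * ∏ i : Fin p, β i (v (σ (i, 0))) (v (σ (i, 1)))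

theorem altSum_transpose {p : ℕ} (γ : Fin p → V → V → ℂ) (i₀ : Fin p) (v : Fin p × Fin 2 → V) :
    altSum (Function.update γ i₀ fun x y => γ i₀ y x) v = - altSum γ v := by
  unfold altSum
  rw [← Finset.sum_neg_distrib]
  have hne : ((i₀, 0) : Fin p × Fin 2) ≠ (i₀, 1) := by
    intro h; simp at h
  refine Fintype.sum_equiv (Equiv.mulRight (Equiv.swap ((i₀, 0) : Fin p × Fin 2) (i₀, 1))) _ _
    fun σ => ?_
  simp only [Equiv.coe_mulRight, Equiv.Perm.sign_mul, Equiv.Perm.sign_swap hne]
  have h1 : ∏ i : Fin p, (Function.update γ i₀ fun x y => γ i₀ y x) i (v (σ (i, 0))) (v (σ (i, 1)))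
      = ∏ i : Fin p, γ i (v ((σ * Equiv.swap ((i₀, 0) : Fin p × Fin 2) (i₀, 1)) (i, 0)))
        (v ((σ * Equiv.swap ((i₀, 0) : Fin p × Fin 2) (i₀, 1)) (i, 1))) := by
    refine Finset.prod_congr rfl fun i _ => ?_
    by_cases hi : i = i₀
    · subst hi
      simp [Function.update_self, Equiv.Perm.mul_apply]
    · rw [Function.update_of_ne hi]
      have h2 : ∀ e : Fin 2, Equiv.swap ((i₀, 0) : Fin p × Fin 2) (i₀, 1) (i, e) = (i, e) := by
        intro e
        apply Equiv.swap_apply_of_ne_of_ne
        · intro h; exact hi (congrArg Prod.fst h)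
        · intro h; exact hi (congrArg Prod.fst h)
      simp [Equiv.Perm.mul_apply, h2]
  rw [h1]
  push_cast
  ring

theorem altSum_update_sub {p : ℕ} (γ : Fin p → V → V → ℂ) (i₀ : Fin p) (A B : V → V → ℂ)
    (v : Fin p × Fin 2 → V) :
    altSum (Function.update γ i₀ fun x y => A x y - B x y) v
      = altSum (Function.update γ i₀ A) v - altSum (Function.update γ i₀ B) v := by
  unfold altSum
  rw [← Finset.sum_sub_distrib]
  refine Finset.sum_congr rfl fun σ _ => ?_
  rw [← mul_sub]
  congr 1
  have h : ∀ C : V → V → ℂ, ∏ i : Fin p, (Function.update γ i₀ C) i (v (σ (i, 0))) (v (σ (i, 1)))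
      = C (v (σ (i₀, 0))) (v (σ (i₀, 1))) *
        ∏ i ∈ univ.erase i₀, γ i (v (σ (i, 0))) (v (σ (i, 1))) := by
    intro C
    rw [← Finset.mul_prod_erase univ _ (mem_univ i₀), Function.update_self]
    congr 1
    refine Finset.prod_congr rfl fun i hi => ?_
    rw [Function.update_of_ne (Finset.ne_of_mem_erase hi)]
  rw [h, h, h]
  ring

theorem altSum_antisymm {p : ℕ} (β : Fin p → V → V → ℂ) (v : Fin p × Fin 2 → V) :
    altSum (fun i x y => β i x y - β i y x) v = 2 ^ p * altSum β v := by
  classical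
  have key : ∀ s : Finset (Fin p), altSum (fun i => if i ∈ s then (fun x y => β i x y - β i y x)
      else β i) v = 2 ^ s.card * altSum β v := by
    intro s
    induction s using Finset.induction_on with
    | empty => simp
    | insert i₀ s hi₀ ih =>
      set γ : Fin p → V → V → ℂ := fun i => if i ∈ s then (fun x y => β i x y - β i y x)
        else β i with hγ
      have h1 : (fun i => if i ∈ insert i₀ s then (fun x y => β i x y - β i y x) else β i)
          = Function.update γ i₀ fun x y => γ i₀ x y - γ i₀ y x := by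
        funext i
        by_cases hi : i = i₀
        · subst hi
          rw [Function.update_self, if_pos (mem_insert_self _ _)]
          simp only [hγ, if_neg hi₀]
        · rw [Function.update_of_ne hi]
          simp only [hγ, mem_insert, hi, false_or]
      rw [h1, altSum_update_sub, altSum_transpose]
      have h2 : (Function.update γ i₀ fun x y => γ i₀ x y) = γ := Function.update_eq_self _ _
      rw [h2, ih, Finset.card_insert_of_notMem hi₀, pow_succ]
      ring
  have h := key univ
  simp only [mem_univ, if_true, Finset.card_univ, Fintype.card_fin] at h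
  exact h

theorem altSum_expand {p n : ℕ} (c : Fin p → Fin n → ℂ) (B : Fin p → Fin n → V → V → ℂ)
    (v : Fin p × Fin 2 → V) :
    altSum (fun i x y => ∑ r, c i r * B i r x y) v
      = ∑ r : Fin p → Fin n, (∏ i, c i (r i)) * altSum (fun i => B i (r i)) v := by
  unfold altSum
  simp only [Finset.mul_sum]
  rw [Finset.sum_comm]
  refine Finset.sum_congr rfl fun σ _ => ?_
  rw [Finset.prod_univ_sum, Fintype.piFinset_univ, Finset.mul_sum]
  refine Finset.sum_congr rfl fun r _ => ?_
  rw [Finset.prod_mul_distrib]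
  ring

end General

section Multi

variable {V : Type*} [AddCommGroup V] [Module ℝ V] {p : ℕ}

theorem two_add_left (θ : V [⋀^Fin 2]→ₗ[ℝ] ℝ) (x y a : V) :
    θ ![x + y, a] = θ ![x, a] + θ ![y, a] := by
  have h := θ.map_update_add ![x, a] 0 x y
  have e : ∀ z : V, Function.update ![x, a] 0 z = ![z, a] := by
    intro z; funext i; fin_cases i <;> simp
  rwa [e, e, e] at h

theorem two_add_right (θ : V [⋀^Fin 2]→ₗ[ℝ] ℝ) (x y a : V) :
    θ ![a, x + y] = θ ![a, x] + θ ![a, y] := by
  have h := θ.map_update_add ![a, x] 1 x y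
  have e : ∀ z : V, Function.update ![a, x] 1 z = ![a, z] := by
    intro z; funext i; fin_cases i <;> simp
  rwa [e, e, e] at h

theorem two_smul_left (θ : V [⋀^Fin 2]→ₗ[ℝ] ℝ) (c : ℝ) (x a : V) :
    θ ![c • x, a] = c * θ ![x, a] := by
  have h := θ.map_update_smul ![x, a] 0 c x
  have e : ∀ z : V, Function.update ![x, a] 0 z = ![z, a] := by
    intro z; funext i; fin_cases i <;> simp
  rwa [e, e] at h

theorem two_smul_right (θ : V [⋀^Fin 2]→ₗ[ℝ] ℝ) (c : ℝ) (x a : V) :
    θ ![a, c • x] = c * θ ![a, x] := by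
  have h := θ.map_update_smul ![a, x] 1 c x
  have e : ∀ z : V, Function.update ![a, x] 1 z = ![a, z] := by
    intro z; funext i; fin_cases i <;> simp
  rwa [e, e] at h

theorem prod_update (θ : Fin p → V [⋀^Fin 2]→ₗ[ℝ] ℝ) [DecidableEq (Fin p × Fin 2)]
    (v : Fin p × Fin 2 → V) (l : Fin p × Fin 2) (x : V) :
    ∏ i : Fin p, θ i ![Function.update v l x (i, 0), Function.update v l x (i, 1)]
      = θ l.1 ![if l.2 = 0 then x else v (l.1, 0), if l.2 = 0 then v (l.1, 1) else x] *
        ∏ i ∈ univ.erase l.1, θ i ![v (i, 0), v (i, 1)] := by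
  rw [← Finset.mul_prod_erase univ _ (mem_univ l.1)]
  congr 1
  · obtain ⟨i, e⟩ := l
    congr 1
    funext t
    fin_cases e <;> fin_cases t <;> simp
  · refine Finset.prod_congr rfl fun i hi => ?_
    have hne : ∀ e : Fin 2, ((i, e) : Fin p × Fin 2) ≠ l := by
      intro e h
      exact Finset.ne_of_mem_erase hi (by rw [← h])
    rw [Function.update_of_ne (hne 0), Function.update_of_ne (hne 1)]

/-- The product of two-forms as a multilinear map. -/
noncomputable def prodForm (θ : Fin p → V [⋀^Fin 2]→ₗ[ℝ] ℝ) :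
    MultilinearMap ℝ (fun _ : Fin p × Fin 2 => V) ℝ where
  toFun v := ∏ i : Fin p, θ i ![v (i, 0), v (i, 1)]
  map_update_add' := by
    intro _ v l x y
    rw [prod_update, prod_update, prod_update, ← add_mul]
    congr 1
    split_ifs
    · exact two_add_left _ _ _ _
    · exact two_add_right _ _ _ _
  map_update_smul' := by
    intro _ v l c x
    rw [prod_update, prod_update, smul_eq_mul, ← mul_assoc]
    congr 1
    split_ifs
    · exact two_smul_left _ _ _ _
    · exact two_smul_right _ _ _ _

/-- The cup product as a multilinear map. -/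
noncomputable def cupM (θ : Fin p → V [⋀^Fin 2]→ₗ[ℝ] ℝ) :
    MultilinearMap ℝ (fun _ : Fin p × Fin 2 => V) ℝ :=
  ∑ σ : Equiv.Perm (Fin p × Fin 2),
    (((Equiv.Perm.sign σ : ℤ) : ℝ)) • (prodForm θ).domDomCongr σ

theorem cupM_apply [Module ℂ V] (θ : Fin p → V [⋀^Fin 2]→ₗ[ℝ] ℝ) (v : Fin p × Fin 2 → V) :
    cupM θ v = cup θ v := by
  unfold cupM cup
  rw [_root_.sum_apply]
  refine Finset.sum_congr rfl fun σ _ => ?_
  rfl

theorem cup_eq_altSum [Module ℂ V] (θ : Fin p → V [⋀^Fin 2]→ₗ[ℝ] ℝ) (v : Fin p × Fin 2 → V) :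
    (cup θ v : ℂ) = altSum (fun i x y => ((θ i ![x, y] : ℝ) : ℂ)) v := by
  unfold cup altSum
  push_cast
  rfl

end Multi

end Pool.MP43e44c
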