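import Mathlib

/-!
Hodge classes on complex tori, CM types and the tori `A_Φ^k`.
-/

set_option autoImplicit false

open NumberField

namespace Pool.MP43e44c

section Torus

variable {V : Type*} [AddCommGroup V] [Module ℂ V] [Module ℝ V]

/-- Let `Λ` be a lattice in the complex vector space `V`.  A real alternating form `ω` on `V` in
`|ι|` variables is a class in `H^{|ι|}(V/Λ, ℝ)`.  It is a (rational) Hodge class of the complex
torus `V/Λ` if it takes rational values on `Λ` and is of type `(p,p)`, `|ι| = 2p`, that is,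
invariant under simultaneous multiplication of its arguments by any complex number of absolute
value one. -/
structure IsHodgeClass (Λ : Set V) {ι : Type*} (ω : V [⋀^ι]→ₗ[ℝ] ℝ) : Prop where
  rational : ∀ v : ι → V, (∀ l, v l ∈ Λ) → ∃ q : ℚ, ω v = q
  type_pp : ∀ z : ℂ, ‖z‖ = 1 → ∀ v : ι → V, ω (fun l => z • v l) = ω v

/-- The cup product `2^p · θ_1 ∧ ... ∧ θ_p` of `p` classes of degree two. -/
noncomputable def cup {p : ℕ} (θ : Fin p → V [⋀^Fin 2]→ₗ[ℝ] ℝ) (v : Fin p × Fin 2 → V) : ℝ :=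
  ∑ σ : Equiv.Perm (Fin p × Fin 2),
    ((Equiv.Perm.sign σ : ℤ) : ℝ) * ∏ i : Fin p, θ i ![v (σ (i, 0)), v (σ (i, 1))]

/-- Every Hodge class of degree `2p` of the torus `V/Λ` is a rational linear combination of
products of `p` Hodge classes of degree two, i.e. (Lefschetz) of rational divisor classes. -/
def GeneratedByDivisors (Λ : Set V) (p : ℕ) : Prop :=
  ∀ ω : V [⋀^Fin p × Fin 2]→ₗ[ℝ] ℝ, IsHodgeClass Λ ω →
    (⇑ω : (Fin p × Fin 2 → V) → ℝ) ∈ Submodule.span ℚ
      {f | ∃ θ : Fin p → V [⋀^Fin 2]→ₗ[ℝ] ℝ, (∀ i, IsHodgeClass Λ (θ i)) ∧ f = cup θ}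

end Torus

section CM

variable {K : Type*} [Field K] [NumberField K]

/-- A CM type: a set of embeddings `K → ℂ` containing exactly one from each pair of complex
conjugate ones. -/
def IsCMType (Φ : Finset (K →+* ℂ)) : Prop :=
  ∀ φ : K →+* ℂ, φ ∈ Φ ↔ ComplexEmbedding.conjugate φ ∉ Φ

/-- The lattice `Φ(𝓞_K)^k` in `(ℂ^Φ)^k`; the quotient is `A_Φ^k`, `A_Φ = ℂ^Φ / Φ(𝓞_K)`. -/
def cmLattice (Φ : Finset (K →+* ℂ)) (k : ℕ) : Set (Fin k → Φ → ℂ) :=
  {v | ∃ a : Fin k → 𝓞 K, ∀ i (φ : Φ), v i φ = (φ : K →+* ℂ) (a i)}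

/-- For all `k` and `p`, every rational Hodge class of degree `2p` on `A_Φ^k` is a rational
combination of products of divisor classes. -/
def HodgeRingGeneratedByDivisors (Φ : Finset (K →+* ℂ)) : Prop :=
  ∀ k p : ℕ, GeneratedByDivisors (cmLattice Φ k) p

end CM

end Pool.MP43e44c
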