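import Pool.Agent.H.MP_43e44c_ag.Defs

/-!
Coordinates on `ℂ^Φ` and expansion of multilinear forms.
-/

set_option autoImplicit false

open NumberField Finset

namespace Pool.MP43e44c

variable {K : Type*} [Field K] [NumberField K]

/-- Dual families in `K` for the trace form. -/
theorem exists_dual_left (K : Type*) [Field K] [NumberField K] :
    ∃ (n : ℕ) (b : Fin n → 𝓞 K) (d : Fin n → K), n = Fintype.card (K →+* ℂ) ∧
    (∀ i j, ∑ φ : K →+* ℂ, φ (d i) * φ (b j) = if i = j then 1 else 0) := by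
  classical
  let J := Module.Free.ChooseBasisIndex ℤ (𝓞 K)
  have hnd := traceForm_nondegenerate ℚ K
  let B := integralBasis K
  let d : J → K := fun j => (Algebra.traceForm ℚ K).dualBasis hnd B j
  have h1 : ∀ i j, ∑ φ : K →+* ℂ, φ (d i) * φ (algebraMap (𝓞 K) K (RingOfIntegers.basis K j))
      = if i = j then 1 else 0 := by
    intro i j
    have h2 := LinearMap.BilinForm.apply_dualBasis_left (B := Algebra.traceForm ℚ K) hnd B i j
    rw [Algebra.traceForm_apply, integralBasis_apply] at h2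
    have h3 := trace_eq_sum_embeddings ℂ (K := ℚ) (L := K)
      (x := (Algebra.traceForm ℚ K).dualBasis hnd B i *
        algebraMap (𝓞 K) K (RingOfIntegers.basis K j))
    rw [h2] at h3
    rw [← Fintype.sum_equiv (RingHom.equivRatAlgHom K ℂ).symm
      (fun σ : K →ₐ[ℚ] ℂ => σ (d i * algebraMap (𝓞 K) K (RingOfIntegers.basis K j)))]
    · rw [← h3]
      by_cases hij : i = j
      · subst hij; simp
      · rw [if_neg hij, if_neg (fun h => hij h.symm)]; simp
    · intro σ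
      rw [map_mul]
      rfl
  let e := Fintype.equivFin J
  refine ⟨Fintype.card J, fun j => RingOfIntegers.basis K (e.symm j), fun j => d (e.symm j), ?_, ?_⟩
  · rw [NumberField.Embeddings.card K ℂ, Module.finrank_eq_card_basis B]
  · intro i j
    rw [h1]
    simp

theorem exists_dual (K : Type*) [Field K] [NumberField K] [DecidableEq (K →+* ℂ)] :
    ∃ (n : ℕ) (b : Fin n → 𝓞 K) (d : Fin n → K),
    (∀ i j, ∑ φ : K →+* ℂ, φ (d i) * φ (b j) = if i = j then 1 else 0) ∧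
    (∀ φ ψ : K →+* ℂ, ∑ j, φ (d j) * ψ (b j) = if φ = ψ then 1 else 0) := by
  obtain ⟨n, b, d, hn, h1⟩ := exists_dual_left K
  refine ⟨n, b, d, h1, ?_⟩
  let P : Matrix (Fin n) (K →+* ℂ) ℂ := Matrix.of fun i φ => φ (d i)
  let Q : Matrix (K →+* ℂ) (Fin n) ℂ := Matrix.of fun φ j => φ (b j)
  have hPQ : P * Q = 1 := by
    ext i j
    rw [Matrix.mul_apply, Matrix.one_apply]
    exact h1 i j
  have e : Fin n ≃ (K →+* ℂ) := Fintype.equivOfCardEq (by rw [Fintype.card_fin, hn])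
  have hQP : Q * P = 1 := (Matrix.mul_eq_one_comm_of_equiv e).1 hPQ
  intro φ ψ
  have := congrFun (congrFun hQP ψ) φ
  rw [Matrix.mul_apply, Matrix.one_apply] at this
  rw [show (if φ = ψ then (1 : ℂ) else 0) = if ψ = φ then 1 else 0 by simp [eq_comm], ← this]
  exact Finset.sum_congr rfl fun j _ => mul_comm _ _

/-- The coordinate `x ↦ x_φ` for `φ ∈ Φ`, and `x ↦ conj x_{φ̄}` for `φ ∉ Φ`. -/
noncomputable def coord (Φ : Finset (K →+* ℂ)) (φ : K →+* ℂ) : (Φ → ℂ) →ₗ[ℝ] ℂ := by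
  classical
  exact if h : φ ∈ Φ then LinearMap.proj ⟨φ, h⟩ else
    if h' : ComplexEmbedding.conjugate φ ∈ Φ then
      Complex.conjAe.toLinearMap.comp (LinearMap.proj ⟨ComplexEmbedding.conjugate φ, h'⟩)
    else 0

variable {Φ : Finset (K →+* ℂ)}

theorem coord_mem {φ : K →+* ℂ} (h : φ ∈ Φ) (x : Φ → ℂ) : coord Φ φ x = x ⟨φ, h⟩ := by
  unfold coord
  rw [dif_pos h]; rfl

theorem coord_not_mem {φ : K →+* ℂ} (h : φ ∉ Φ) (h' : ComplexEmbedding.conjugate φ ∈ Φ)
    (x : Φ → ℂ) :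
    coord Φ φ x = (starRingEnd ℂ) (x ⟨ComplexEmbedding.conjugate φ, h'⟩) := by
  unfold coord
  rw [dif_neg h, dif_pos h']; rfl

theorem conj_conj (φ : K →+* ℂ) :
    ComplexEmbedding.conjugate (ComplexEmbedding.conjugate φ) = φ := by
  ext x; simp

theorem coord_conj (hΦ : IsCMType Φ) (φ : K →+* ℂ) (x : Φ → ℂ) :
    coord Φ (ComplexEmbedding.conjugate φ) x = (starRingEnd ℂ) (coord Φ φ x) := by
  by_cases h : φ ∈ Φ
  · have h' := (hΦ φ).1 h
    rw [coord_not_mem h' (by rw [conj_conj]; exact h), coord_mem h]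
    congr 2
    exact Subtype.ext (conj_conj φ)
  · have h' : ComplexEmbedding.conjugate φ ∈ Φ := by
      by_contra h2; exact h ((hΦ φ).2 h2)
    rw [coord_mem h', coord_not_mem h h', Complex.conj_conj]

theorem coord_emb (hΦ : IsCMType Φ) (φ : K →+* ℂ) (a : K) :
    coord Φ φ (fun ψ => (ψ : K →+* ℂ) a) = φ a := by
  by_cases h : φ ∈ Φ
  · rw [coord_mem h]
  · have h' : ComplexEmbedding.conjugate φ ∈ Φ := by
      by_contra h2; exact h ((hΦ φ).2 h2)
    rw [coord_not_mem h h', ComplexEmbedding.conjugate_coe_eq, Complex.conj_conj]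

/-- The weight of `z` on the coordinate `φ`. -/
noncomputable def wt (Φ : Finset (K →+* ℂ)) (φ : K →+* ℂ) (z : ℂ) : ℂ := by
  classical
  exact if φ ∈ Φ then z else (starRingEnd ℂ) z

theorem coord_smul (hΦ : IsCMType Φ) (φ : K →+* ℂ) (z : ℂ) (x : Φ → ℂ) :
    coord Φ φ (z • x) = wt Φ φ z * coord Φ φ x := by
  unfold wt
  by_cases h : φ ∈ Φ
  · rw [coord_mem h, coord_mem h, if_pos h]; rfl
  · have h' : ComplexEmbedding.conjugate φ ∈ Φ := by
      by_contra h2; exact h ((hΦ φ).2 h2)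
    rw [coord_not_mem h h', coord_not_mem h h', if_neg h]
    simp

/-- Real coordinates with respect to the basis `Φ(b_j)`. -/
noncomputable def tco (Φ : Finset (K →+* ℂ)) {n : ℕ} (d : Fin n → K) (j : Fin n) (x : Φ → ℂ) : ℝ :=
  (∑ φ : K →+* ℂ, φ (d j) * coord Φ φ x).re

theorem tco_coe (hΦ : IsCMType Φ) {n : ℕ} (d : Fin n → K) (j : Fin n) (x : Φ → ℂ) :
    (tco Φ d j x : ℂ) = ∑ φ : K →+* ℂ, φ (d j) * coord Φ φ x := by
  have h : (starRingEnd ℂ) (∑ φ : K →+* ℂ, φ (d j) * coord Φ φ x)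
      = ∑ φ : K →+* ℂ, φ (d j) * coord Φ φ x := by
    rw [map_sum]
    let e : (K →+* ℂ) ≃ (K →+* ℂ) :=
      ⟨ComplexEmbedding.conjugate, ComplexEmbedding.conjugate, conj_conj, conj_conj⟩
    refine Fintype.sum_equiv e _ _ fun φ => ?_
    show (starRingEnd ℂ) (φ (d j) * coord Φ φ x)
      = (ComplexEmbedding.conjugate φ) (d j) * coord Φ (ComplexEmbedding.conjugate φ) x
    rw [coord_conj hΦ, map_mul, ComplexEmbedding.conjugate_coe_eq]
  exact (Complex.conj_eq_iff_re.1 h)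

theorem expand_vec (hΦ : IsCMType Φ) [DecidableEq (K →+* ℂ)] {n : ℕ} {b : Fin n → 𝓞 K}
    {d : Fin n → K}
    (h2 : ∀ φ ψ : K →+* ℂ, ∑ j, φ (d j) * ψ (b j) = if φ = ψ then 1 else 0) (x : Φ → ℂ) :
    x = ∑ j, tco Φ d j x • (fun ψ : Φ => (ψ : K →+* ℂ) (b j)) := by
  funext ψ
  rw [Finset.sum_apply]
  simp only [Pi.smul_apply, Complex.real_smul, tco_coe hΦ, Finset.sum_mul]
  rw [Finset.sum_comm]
  have h3 : ∀ φ : K →+* ℂ, ∑ j, φ (d j) * coord Φ φ x * (ψ : K →+* ℂ) (b j)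
      = if φ = (ψ : K →+* ℂ) then coord Φ φ x else 0 := by
    intro φ
    have : ∑ j, φ (d j) * coord Φ φ x * (ψ : K →+* ℂ) (b j)
        = coord Φ φ x * ∑ j, φ (d j) * (ψ : K →+* ℂ) (b j) := by
      rw [Finset.mul_sum]
      exact Finset.sum_congr rfl fun j _ => by ring
    rw [this, h2]
    split_ifs <;> simp
  rw [Finset.sum_congr rfl fun φ _ => h3 φ, Finset.sum_ite_eq' univ (ψ : K →+* ℂ),
    if_pos (mem_univ _), coord_mem ψ.2]

end Pool.MP43e44c
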