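import Pool.Agent.H.MP_43e44c_ag.Emb

/-!
Expansion of real multilinear forms on `(ℂ^Φ)^k` in the embedding coordinates.
-/

set_option autoImplicit false

open NumberField Finset

namespace Pool.MP43e44c

variable {K : Type*} [Field K] [NumberField K] {Φ : Finset (K →+* ℂ)}

/-- The lattice vector `b_j` in the `i`-th copy. -/
noncomputable def bvec (Φ : Finset (K →+* ℂ)) {n k : ℕ} (b : Fin n → 𝓞 K) (i : Fin k) (j : Fin n) :
    Fin k → Φ → ℂ :=
  Pi.single i (fun ψ : Φ => (ψ : K →+* ℂ) (b j))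

theorem bvec_mem {n k : ℕ} (b : Fin n → 𝓞 K) (i : Fin k) (j : Fin n) :
    bvec Φ b i j ∈ cmLattice Φ k := by
  refine ⟨Pi.single i (b j), fun i' φ => ?_⟩
  unfold bvec
  by_cases h : i' = i
  · subst h; simp
  · simp [Pi.single_eq_of_ne h]

variable {ι : Type*} [Fintype ι] [DecidableEq ι]

theorem expand_multi (hΦ : IsCMType Φ) [DecidableEq (K →+* ℂ)] {n k : ℕ} {b : Fin n → 𝓞 K}
    {d : Fin n → K}
    (h2 : ∀ φ ψ : K →+* ℂ, ∑ j, φ (d j) * ψ (b j) = if φ = ψ then 1 else 0)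
    (m : MultilinearMap ℝ (fun _ : ι => (Fin k → Φ → ℂ)) ℝ) (v : ι → Fin k → Φ → ℂ) :
    m v = ∑ f : ι → Fin k, ∑ g : ι → Fin n,
      (∏ l, tco Φ d (g l) (v l (f l))) * m (fun l => bvec Φ b (f l) (g l)) := by
  have hv : v = fun l => ∑ i, ∑ j, tco Φ d j (v l i) • bvec Φ b i j := by
    funext l
    funext i'
    rw [Finset.sum_apply]
    rw [Finset.sum_eq_single i']
    · rw [Finset.sum_apply]
      conv_lhs => rw [expand_vec hΦ h2 (v l i')]
      refine Finset.sum_congr rfl fun j _ => ?_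
      simp [bvec]
    · intro i _ hi
      rw [Finset.sum_apply]
      refine Finset.sum_eq_zero fun j _ => ?_
      simp [bvec, Pi.single_eq_of_ne (Ne.symm hi)]
    · intro h; exact absurd (mem_univ _) h
  conv_lhs => rw [hv]
  rw [m.map_sum]
  refine Finset.sum_congr rfl fun f _ => ?_
  rw [m.map_sum]
  refine Finset.sum_congr rfl fun g _ => ?_
  rw [m.map_smul_univ, smul_eq_mul]

/-- The coefficients of a form. -/
noncomputable def coef (Φ : Finset (K →+* ℂ)) {n k : ℕ} (b : Fin n → 𝓞 K) (d : Fin n → K)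
    (m : MultilinearMap ℝ (fun _ : ι => (Fin k → Φ → ℂ)) ℝ) (f : ι → Fin k) (h : ι → K →+* ℂ) : ℂ :=
  ∑ g : ι → Fin n, (∏ l, h l (d (g l))) * (m (fun l => bvec Φ b (f l) (g l)) : ℂ)

theorem expand_coeff (hΦ : IsCMType Φ) [DecidableEq (K →+* ℂ)] {n k : ℕ} {b : Fin n → 𝓞 K}
    {d : Fin n → K}
    (h2 : ∀ φ ψ : K →+* ℂ, ∑ j, φ (d j) * ψ (b j) = if φ = ψ then 1 else 0)
    (m : MultilinearMap ℝ (fun _ : ι => (Fin k → Φ → ℂ)) ℝ) (v : ι → Fin k → Φ → ℂ) :
    (m v : ℂ) = ∑ f : ι → Fin k, ∑ h : ι → (K →+* ℂ),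
      coef Φ b d m f h * ∏ l, coord Φ (h l) (v l (f l)) := by
  rw [expand_multi hΦ h2 m v]
  push_cast
  refine Finset.sum_congr rfl fun f _ => ?_
  have h3 : ∀ g : ι → Fin n, (∏ l, (tco Φ d (g l) (v l (f l)) : ℂ))
      = ∑ h : ι → (K →+* ℂ), ∏ l, (h l (d (g l)) * coord Φ (h l) (v l (f l))) := by
    intro g
    rw [Finset.prod_congr rfl fun l _ => tco_coe hΦ d (g l) (v l (f l))]
    rw [Finset.prod_univ_sum]
    rw [Fintype.piFinset_univ]
  simp only [h3, Finset.sum_mul]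
  rw [Finset.sum_comm]
  refine Finset.sum_congr rfl fun h _ => ?_
  rw [coef, Finset.sum_mul]
  refine Finset.sum_congr rfl fun g _ => ?_
  rw [Finset.prod_mul_distrib]
  ring

/-- Two multilinear forms which agree on the lattice are equal. -/
theorem eq_of_eq_on_lattice (hΦ : IsCMType Φ) {k : ℕ}
    (m m' : MultilinearMap ℝ (fun _ : ι => (Fin k → Φ → ℂ)) ℝ)
    (h : ∀ v : ι → Fin k → Φ → ℂ, (∀ l, v l ∈ cmLattice Φ k) → m v = m' v) (v) : m v = m' v := by
  classical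
  obtain ⟨n, b, d, -, h2⟩ := exists_dual K
  rw [expand_multi hΦ h2 m v, expand_multi hΦ h2 m' v]
  refine Finset.sum_congr rfl fun f _ => Finset.sum_congr rfl fun g _ => ?_
  rw [h _ fun l => bvec_mem b (f l) (g l)]

/-- The coefficients with a nonzero value have balanced type. -/
theorem coef_wt (hΦ : IsCMType Φ) [DecidableEq (K →+* ℂ)] {n k : ℕ} {b : Fin n → 𝓞 K}
    {d : Fin n → K}
    (h2 : ∀ φ ψ : K →+* ℂ, ∑ j, φ (d j) * ψ (b j) = if φ = ψ then 1 else 0)
    (m : MultilinearMap ℝ (fun _ : ι => (Fin k → Φ → ℂ)) ℝ) (z : ℂ)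
    (hz : ∀ v : ι → Fin k → Φ → ℂ, m (fun l => z • v l) = m v)
    (f : ι → Fin k) (h : ι → K →+* ℂ) :
    coef Φ b d m f h * ∏ l, wt Φ (h l) z = coef Φ b d m f h := by
  have h3 : coef Φ b d m f h = ∑ g : ι → Fin n, (∏ l, h l (d (g l))) *
      (m (fun l => z • bvec Φ b (f l) (g l)) : ℂ) := by
    rw [coef]
    refine Finset.sum_congr rfl fun g _ => ?_
    rw [hz]
  conv_rhs => rw [h3]
  have h4 : ∀ g : ι → Fin n, (m (fun l => z • bvec Φ b (f l) (g l)) : ℂ)
      = ∑ h' : ι → (K →+* ℂ), coef Φ b d m f h' * ∏ l, (wt Φ (h' l) z * h' l (b (g l))) := by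
    intro g
    rw [expand_coeff hΦ h2 m]
    rw [Finset.sum_eq_single f]
    · refine Finset.sum_congr rfl fun h' _ => ?_
      congr 1
      refine Finset.prod_congr rfl fun l _ => ?_
      rw [Pi.smul_apply, coord_smul hΦ]
      congr 1
      rw [bvec, Pi.single_eq_same, coord_emb hΦ]
    · intro f' _ hf'
      refine Finset.sum_eq_zero fun h' _ => ?_
      obtain ⟨l, hl⟩ := Function.ne_iff.1 hf'
      have : ∏ l, coord Φ (h' l) ((z • bvec Φ b (f l) (g l)) (f' l)) = 0 := by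
        refine Finset.prod_eq_zero (mem_univ l) ?_
        rw [Pi.smul_apply, bvec, Pi.single_eq_of_ne hl, smul_zero, map_zero]
      rw [this, mul_zero]
    · intro h; exact absurd (mem_univ _) h
  simp only [h4, Finset.mul_sum]
  rw [Finset.sum_comm]
  have h5 : ∀ h' : ι → (K →+* ℂ), ∑ g : ι → Fin n, (∏ l, h l (d (g l))) *
      (coef Φ b d m f h' * ∏ l, (wt Φ (h' l) z * h' l (b (g l))))
      = if h = h' then coef Φ b d m f h' * ∏ l, wt Φ (h' l) z else 0 := by
    intro h'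
    have h6 : ∀ g : ι → Fin n, (∏ l, h l (d (g l))) *
      (coef Φ b d m f h' * ∏ l, (wt Φ (h' l) z * h' l (b (g l))))
      = (coef Φ b d m f h' * ∏ l, wt Φ (h' l) z) * ∏ l, (h l (d (g l)) * h' l (b (g l))) := by
      intro g
      rw [Finset.prod_mul_distrib, Finset.prod_mul_distrib]
      ring
    rw [Finset.sum_congr rfl fun g _ => h6 g, ← Finset.mul_sum]
    have h7 : ∑ g : ι → Fin n, ∏ l, (h l (d (g l)) * h' l (b (g l)))
        = ∏ l, ∑ j : Fin n, h l (d j) * h' l (b j) := by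
      rw [Finset.prod_univ_sum, Fintype.piFinset_univ]
    rw [h7]
    simp only [h2]
    by_cases hh : h = h'
    · subst hh; simp
    · obtain ⟨l, hl⟩ := Function.ne_iff.1 hh
      have h8 : ∏ l, (if h l = h' l then (1 : ℂ) else 0) = 0 :=
        Finset.prod_eq_zero (mem_univ l) (if_neg hl)
      rw [h8, mul_zero, if_neg hh]
  rw [Finset.sum_congr rfl fun h' _ => h5 h', Finset.sum_ite_eq univ h, if_pos (mem_univ _)]

open Classical in
/-- A nonzero coefficient has as many embeddings in `Φ` as outside. -/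
theorem balanced (hΦ : IsCMType Φ) {n k : ℕ} {b : Fin n → 𝓞 K}
    {d : Fin n → K}
    (h2 : ∀ φ ψ : K →+* ℂ, ∑ j, φ (d j) * ψ (b j) = if φ = ψ then 1 else 0)
    (m : MultilinearMap ℝ (fun _ : ι => (Fin k → Φ → ℂ)) ℝ)
    (hz : ∀ z : ℂ, ‖z‖ = 1 → ∀ v : ι → Fin k → Φ → ℂ, m (fun l => z • v l) = m v)
    (f : ι → Fin k) (h : ι → K →+* ℂ) (hc : coef Φ b d m f h ≠ 0) :
    (univ.filter fun l => h l ∈ Φ).card = (univ.filter fun l => ¬ h l ∈ Φ).card := by
  set p := (univ.filter fun l => h l ∈ Φ).card with hp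
  set q := (univ.filter fun l => ¬ h l ∈ Φ).card with hq
  have h3 : ∀ z : ℂ, ‖z‖ = 1 → z ^ p * (starRingEnd ℂ z) ^ q = 1 := by
    intro z hz1
    have h4 := coef_wt hΦ h2 m z (hz z hz1) f h
    have h5 : ∏ l, wt Φ (h l) z = z ^ p * (starRingEnd ℂ z) ^ q := by
      unfold wt
      rw [Finset.prod_ite, Finset.prod_const, Finset.prod_const]
    rw [h5] at h4
    exact mul_left_cancel₀ hc (by rw [h4, mul_one])
  have hconj : ∀ z : ℂ, ‖z‖ = 1 → z * starRingEnd ℂ z = 1 := by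
    intro z hz1
    rw [Complex.mul_conj, Complex.normSq_eq_norm_sq, hz1]; simp
  -- a unit complex number with z ^ r = -1
  have hroot : ∀ r : ℕ, r ≠ 0 → ∃ z : ℂ, ‖z‖ = 1 ∧ z ^ r = -1 := by
    intro r hr
    refine ⟨Complex.exp ((Real.pi / r : ℝ) * Complex.I), Complex.norm_exp_ofReal_mul_I _, ?_⟩
    rw [← Complex.exp_nat_mul]
    have : (r : ℂ) * (((Real.pi / r : ℝ) : ℂ) * Complex.I) = Real.pi * Complex.I := by
      push_cast
      have : (r : ℂ) ≠ 0 := by exact_mod_cast hr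
      field_simp
    rw [this, Complex.exp_pi_mul_I]
  rcases lt_trichotomy p q with hlt | heq | hgt
  · exfalso
    obtain ⟨z, hz1, hz2⟩ := hroot (q - p) (by omega)
    have h4 := h3 (starRingEnd ℂ z) (by rw [RCLike.norm_conj, hz1])
    rw [Complex.conj_conj] at h4
    have h5 : z ^ q = z ^ (q - p) * z ^ p := by rw [← pow_add, Nat.sub_add_cancel hlt.le]
    rw [h5, hz2, mul_comm, mul_assoc, ← mul_pow, hconj z hz1, one_pow] at h4
    norm_num at h4
  · exact heq
  · exfalso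
    obtain ⟨z, hz1, hz2⟩ := hroot (p - q) (by omega)
    have h4 := h3 z hz1
    have h5 : z ^ p = z ^ (p - q) * z ^ q := by rw [← pow_add, Nat.sub_add_cancel hgt.le]
    rw [h5, hz2, mul_assoc, ← mul_pow, hconj z hz1, one_pow] at h4
    norm_num at h4

end Pool.MP43e44c
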