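import Pool.Agent.H.MP_43e44c_ag.Sub
import Pool.Agent.H.MP_43e44c_ag.Asym

/-!
Asymptotic consequences of the union bound.
-/

set_option autoImplicit false

open NumberField Finset Module

open scoped IsMulCommutative

namespace Pool.MP43e44c

variable {K : Type*} [Field K] [NumberField K] [IsAbelianGalois ℚ K]

open Classical in
theorem card_fields_le {r : ℕ} (s : Fin r → (K ≃ₐ[ℚ] K))
    (hs : Subgroup.closure (Set.range s) = ⊤)
    (S : Finset (IntermediateField ℚ K)) (hS : ∀ F ∈ S, F ∈ exceptionalSubfields K) (m : ℕ) :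
    (S.filter fun F : IntermediateField ℚ K => finrank ℚ F = m).card ≤ m ^ r := by
  rcases Nat.eq_zero_or_pos m with rfl | hm
  · have : (S.filter fun F : IntermediateField ℚ K => finrank ℚ F = 0) = ∅ := by
      rw [filter_eq_empty_iff]
      intro F _ h
      exact (finrank_pos (R := ℚ) (M := F)).ne' h
    rw [this, card_empty]
    exact Nat.zero_le _
  have h1 := card_quot_le s hs hm
    ((S.filter fun F : IntermediateField ℚ K => finrank ℚ F = m).image fun F : IntermediateField ℚ K => F.fixingSubgroup) (by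
      intro N hN
      obtain ⟨F, hF, rfl⟩ := mem_image.1 hN
      obtain ⟨hF, hFm⟩ := mem_filter.1 hF
      obtain ⟨N, rfl⟩ : ∃ N : Subgroup (K ≃ₐ[ℚ] K), IntermediateField.fixedField N = F :=
        ⟨F.fixingSubgroup, IsGalois.fixedField_fixingSubgroup F⟩
      have hcyc : IsCyclic ((K ≃ₐ[ℚ] K) ⧸ N) :=
        (MulEquiv.isCyclic (IsGalois.normalAutEquivQuotient N)).2 (hS _ hF).1
      refine ⟨?_, ?_⟩
      · rw [IntermediateField.fixingSubgroup_fixedField]; exact hcyc
      · rw [index_eq, hFm])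
  rwa [card_image_of_injective] at h1
  intro F F' h
  have h2 : F.fixingSubgroup = F'.fixingSubgroup := h
  rw [← IsGalois.fixedField_fixingSubgroup F, h2, IsGalois.fixedField_fixingSubgroup F']

theorem two_le_totient [IsCyclic (K ≃ₐ[ℚ] K)] {F : IntermediateField ℚ K}
    (hF : F ∈ exceptionalSubfields K) : 2 ≤ Nat.totient (finrank ℚ F) := by
  classical
  obtain ⟨φ⟩ : Nonempty (K →+* ℂ) := inferInstance
  obtain ⟨c, hc2, -, hc'⟩ := exists_c φ
  obtain ⟨-, ⟨x, hx, ψ, hψ⟩, hne⟩ := hF
  have hcN : c ∉ F.fixingSubgroup := by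
    intro h2
    rw [IntermediateField.mem_fixingSubgroup_iff] at h2
    apply hψ
    rw [← Complex.conj_eq_iff_im]
    have h3 : ψ (c x) = (ComplexEmbedding.conjugate ψ) x := by rw [hc' ψ]; rfl
    have h4 : c x = x := h2 x hx
    rw [h4] at h3
    exact h3.symm
  have hodd : Odd (finrank F K) := by
    by_contra heven
    rw [Nat.not_odd_iff_even, ← IsGalois.card_fixingSubgroup_eq_finrank] at heven
    have : Fact (Nat.Prime 2) := ⟨Nat.prime_two⟩
    obtain ⟨y, hy⟩ := exists_prime_orderOf_dvd_card' 2 heven.two_dvd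
    have hy2 : (y : K ≃ₐ[ℚ] K) ^ 2 = 1 := by
      have := pow_orderOf_eq_one y
      rw [hy] at this
      exact_mod_cast congrArg Subtype.val this
    have hy1 : (y : K ≃ₐ[ℚ] K) ≠ 1 := by
      intro h
      have : y = 1 := Subtype.ext h
      rw [this, orderOf_one] at hy
      exact absurd hy (by norm_num)
    have hc1 : c ≠ 1 := by
      rintro rfl
      exact hcN F.fixingSubgroup.one_mem
    have hyc : (y : K ≃ₐ[ℚ] K) ≠ c := by
      rintro h
      exact hcN (h ▸ y.2)
    have h1 := IsCyclic.card_pow_eq_one_le (α := K ≃ₐ[ℚ] K) (n := 2) (by norm_num)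
    have h2 : ({1, c, (y : K ≃ₐ[ℚ] K)} : Finset (K ≃ₐ[ℚ] K)) ⊆
        univ.filter fun a => a ^ 2 = 1 := by
      intro z hz
      rw [mem_filter]
      refine ⟨mem_univ _, ?_⟩
      simp only [mem_insert, mem_singleton] at hz
      rcases hz with rfl | rfl | rfl
      · exact one_pow 2
      · rw [pow_two]; exact hc2
      · exact hy2
    have h3 := (card_le_card h2).trans h1
    rw [card_insert_of_notMem, card_insert_of_notMem, card_singleton] at h3
    · omega
    · rw [mem_singleton]; exact hyc.symm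
    · simp only [mem_insert, mem_singleton, not_or]
      exact ⟨hc1.symm, hy1.symm⟩
  have hnp : ∀ a, finrank ℚ F ≠ 2 ^ a := fun a h => hne ⟨hodd, a, h⟩
  have hpos : 0 < Nat.totient (finrank ℚ F) := Nat.totient_pos.2 finrank_pos
  have hne1 : Nat.totient (finrank ℚ F) ≠ 1 := by
    intro h
    rcases Nat.totient_eq_one_iff.1 h with h | h
    · exact hnp 0 (by simpa using h)
    · exact hnp 1 (by simpa using h)
  omega

theorem rank_sum_le (r : ℕ) : ∃ C : ℝ, ∀ (K : Type) [Field K] [NumberField K]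
    [IsAbelianGalois ℚ K] (s : Fin r → (K ≃ₐ[ℚ] K)), Subgroup.closure (Set.range s) = ⊤ →
    ∑ᶠ F ∈ exceptionalSubfields K, maxProb (finrank F K) ^ Nat.totient (finrank ℚ F)
      ≤ C / √(finrank ℚ K) := by
  classical
  obtain ⟨C, hC0, hC⟩ := exists_sum_bound (r + 1)
  refine ⟨√2 * C, fun K _ _ _ s hs => ?_⟩
  have := finite_intermediateField (K := K)
  have hfin : (exceptionalSubfields K).Finite := Set.toFinite _
  rw [finsum_mem_eq_finite_toFinset_sum _ hfin]
  have hS : ∀ F ∈ hfin.toFinset, F ∈ exceptionalSubfields K := fun F hF => by simpa using hF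
  refine (sum_fiber_le hfin.toFinset (fun F : IntermediateField ℚ K => finrank ℚ F) r
    (card_fields_le s hs hfin.toFinset hS) _
    (fun m => (1 / √(finrank ℚ K)) * (√2 * m * (1 / √2) ^ Nat.totient m))
    (fun m => by positivity) ?_).trans ?_
  · intro F _
    exact term_le_one (Module.finrank_mul_finrank ℚ F K).symm finrank_pos finrank_pos
      (Nat.totient_pos.2 finrank_pos)
  · have h1 : ∀ m : ℕ, (m : ℝ) ^ r * ((1 / √(finrank ℚ K)) * (√2 * m * (1 / √2) ^ Nat.totient m))
        = (√2 / √(finrank ℚ K)) * ((m : ℝ) ^ (r + 1) * (1 / √2) ^ Nat.totient m) := by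
      intro m; ring
    rw [sum_congr rfl fun m _ => h1 m, ← mul_sum, mul_div_right_comm]
    exact mul_le_mul_of_nonneg_left (hC _) (by positivity)

theorem cyclic_sum_le : ∃ C : ℝ, ∀ (K : Type) [Field K] [NumberField K]
    [IsAbelianGalois ℚ K] [IsCyclic (K ≃ₐ[ℚ] K)],
    ∑ᶠ F ∈ exceptionalSubfields K, maxProb (finrank F K) ^ Nat.totient (finrank ℚ F)
      ≤ C / finrank ℚ K := by
  classical
  obtain ⟨C, hC0, hC⟩ := exists_sum_bound 2
  refine ⟨2 * C, fun K _ _ _ _ => ?_⟩
  obtain ⟨g, hg⟩ := IsCyclic.exists_generator (α := K ≃ₐ[ℚ] K)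
  have hs : Subgroup.closure (Set.range fun _ : Fin 1 => g) = ⊤ := by
    rw [Set.range_const, ← Subgroup.zpowers_eq_closure, eq_top_iff]
    exact fun x _ => hg x
  have := finite_intermediateField (K := K)
  have hfin : (exceptionalSubfields K).Finite := Set.toFinite _
  rw [finsum_mem_eq_finite_toFinset_sum _ hfin]
  have hS : ∀ F ∈ hfin.toFinset, F ∈ exceptionalSubfields K := fun F hF => by simpa using hF
  refine (sum_fiber_le hfin.toFinset (fun F : IntermediateField ℚ K => finrank ℚ F) 1
    (card_fields_le _ hs hfin.toFinset hS) _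
    (fun m => (1 / (finrank ℚ K : ℝ)) * (2 * m * (1 / √2) ^ Nat.totient m))
    (fun m => by positivity) ?_).trans ?_
  · intro F hF
    exact term_le_two (Module.finrank_mul_finrank ℚ F K).symm finrank_pos finrank_pos
      (two_le_totient (hS F hF))
  · have h1 : ∀ m : ℕ, (m : ℝ) ^ 1 * ((1 / (finrank ℚ K : ℝ)) *
        (2 * m * (1 / √2) ^ Nat.totient m))
        = (2 / (finrank ℚ K : ℝ)) * ((m : ℝ) ^ 2 * (1 / √2) ^ Nat.totient m) := by
      intro m; ring
    rw [sum_congr rfl fun m _ => h1 m, ← mul_sum, mul_div_right_comm]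
    exact mul_le_mul_of_nonneg_left (hC _) (by positivity)

end Pool.MP43e44c

namespace Pool.MP43e44c

/-- The imaginary quadratic subfields `F` of `K` for which `[K : F]` is even. -/
def evenImagQuadratic (K : Type*) [Field K] [NumberField K] : Set (IntermediateField ℚ K) :=
  {F | finrank ℚ F = 2 ∧ (∃ x ∈ F, ∃ φ : K →+* ℂ, (φ x).im ≠ 0) ∧ Even (finrank F K)}

theorem two_le_totient' {K : Type*} [Field K] [NumberField K] [IsAbelianGalois ℚ K]
    {F : IntermediateField ℚ K} (hF : F ∈ exceptionalSubfields K) (h2 : finrank ℚ F ≠ 2) :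
    2 ≤ Nat.totient (finrank ℚ F) := by
  have hpos : 0 < Nat.totient (finrank ℚ F) := Nat.totient_pos.2 finrank_pos
  have hne1 : Nat.totient (finrank ℚ F) ≠ 1 := by
    intro h
    rcases Nat.totient_eq_one_iff.1 h with h | h
    · obtain ⟨-, ⟨x, hx, ψ, hψ⟩, -⟩ := hF
      rw [IntermediateField.finrank_eq_one_iff] at h
      rw [h, IntermediateField.mem_bot] at hx
      obtain ⟨q, rfl⟩ := hx
      apply hψ
      have h3 : ψ (algebraMap ℚ K q) = (q : ℂ) := by
        rw [eq_ratCast (algebraMap ℚ K) q, map_ratCast]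
      rw [h3]
      exact Complex.ratCast_im q
    · exact h2 h
  omega

theorem sum_le (r : ℕ) : ∃ C : ℝ, ∀ (K : Type) [Field K] [NumberField K]
    [IsAbelianGalois ℚ K] (s : Fin r → (K ≃ₐ[ℚ] K)), Subgroup.closure (Set.range s) = ⊤ →
    ∑ᶠ F ∈ exceptionalSubfields K, maxProb (finrank F K) ^ Nat.totient (finrank ℚ F)
      ≤ (evenImagQuadratic K).ncard *
          (((finrank ℚ K / 2).choose (finrank ℚ K / 4) : ℝ) / 2 ^ (finrank ℚ K / 2))
        + C / finrank ℚ K := by
  classical
  obtain ⟨C, hC0, hC⟩ := exists_sum_bound (r + 1)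
  refine ⟨2 * C, fun K _ _ _ s hs => ?_⟩
  have := finite_intermediateField (K := K)
  have hfin : (exceptionalSubfields K).Finite := Set.toFinite _
  rw [finsum_mem_eq_finite_toFinset_sum _ hfin]
  have hS : ∀ F ∈ hfin.toFinset, F ∈ exceptionalSubfields K := fun F hF => by simpa using hF
  rw [← sum_filter_add_sum_filter_not hfin.toFinset
    (fun F : IntermediateField ℚ K => finrank ℚ F = 2)]
  refine add_le_add ?_ ?_
  · have hsub : ((hfin.toFinset.filter fun F : IntermediateField ℚ K => finrank ℚ F = 2) :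
        Set (IntermediateField ℚ K)) ⊆ evenImagQuadratic K := by
      intro F hF
      obtain ⟨hF, hF2⟩ := mem_filter.1 (mem_coe.1 hF)
      obtain ⟨-, h1, h2⟩ := hS F hF
      refine ⟨hF2, h1, ?_⟩
      rw [← Nat.not_odd_iff_even]
      exact fun h => h2 ⟨h, 1, by simpa using hF2⟩
    have hcard : ((hfin.toFinset.filter fun F : IntermediateField ℚ K => finrank ℚ F = 2).card : ℝ)
        ≤ (evenImagQuadratic K).ncard := by
      rw [← Set.ncard_coe_finset]
      exact_mod_cast Set.ncard_le_ncard hsub (Set.toFinite _)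
    have hterm : ∀ F ∈ hfin.toFinset.filter fun F : IntermediateField ℚ K => finrank ℚ F = 2,
        maxProb (finrank F K) ^ Nat.totient (finrank ℚ F) =
          (((finrank ℚ K / 2).choose (finrank ℚ K / 4) : ℝ) / 2 ^ (finrank ℚ K / 2)) := by
      intro F hF
      have hF2 := (mem_filter.1 hF).2
      have h3 := Module.finrank_mul_finrank ℚ F K
      rw [hF2] at h3 ⊢
      have h4 : finrank ℚ K / 2 = finrank F K := by omega
      have h5 : finrank ℚ K / 4 = finrank F K / 2 := by omega
      rw [h4, h5, Nat.totient_two, pow_one, maxProb]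
    rw [sum_congr rfl hterm, sum_const, nsmul_eq_mul]
    exact mul_le_mul_of_nonneg_right hcard (by positivity)
  · refine (sum_fiber_le _ (fun F : IntermediateField ℚ K => finrank ℚ F) r
      (card_fields_le s hs _ (fun F hF => hS F (mem_filter.1 hF).1)) _
      (fun m => (1 / (finrank ℚ K : ℝ)) * (2 * m * (1 / √2) ^ Nat.totient m))
      (fun m => by positivity) ?_).trans ?_
    · intro F hF
      exact term_le_two (Module.finrank_mul_finrank ℚ F K).symm finrank_pos finrank_pos
        (two_le_totient' (hS F (mem_filter.1 hF).1) (mem_filter.1 hF).2)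
    · have h1 : ∀ m : ℕ, (m : ℝ) ^ r * ((1 / (finrank ℚ K : ℝ)) *
          (2 * m * (1 / √2) ^ Nat.totient m))
          = (2 / (finrank ℚ K : ℝ)) * ((m : ℝ) ^ (r + 1) * (1 / √2) ^ Nat.totient m) := by
        intro m; ring
      rw [sum_congr rfl fun m _ => h1 m, ← mul_sum, mul_div_right_comm]
      exact mul_le_mul_of_nonneg_left (hC _) (by positivity)

end Pool.MP43e44c
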