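import Mathlib

/-!
Sylow subgroups acting on transitive sets and fixed vectors modulo a prime.
-/

set_option autoImplicit false

open Finset

namespace Pool.MP43e44c

section SylowOrbit

variable {G X : Type*} [Group G] [Finite G] [MulAction G X] [MulAction.IsPretransitive G X]

theorem dvd_card_orbit {ℓ k : ℕ} [Fact ℓ.Prime] (P : Sylow ℓ G) (x : X)
    (h : ℓ ^ k ∣ Nat.card X) : ℓ ^ k ∣ (MulAction.orbit P x).ncard := by
  have h1 : (MulAction.stabilizer G x).index = Nat.card X := by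
    rw [MulAction.index_stabilizer, MulAction.orbit_eq_univ, Set.ncard_univ]
  set S := MulAction.stabilizer G x with hS
  have h2 := Subgroup.relIndex_mul_index (inf_le_left : (P : Subgroup G) ⊓ S ≤ P)
  have h3 := Subgroup.relIndex_mul_index (inf_le_right : (P : Subgroup G) ⊓ S ≤ S)
  have h4 : ℓ ^ k ∣ ((P : Subgroup G) ⊓ S).relIndex P * (P : Subgroup G).index := by
    rw [h2, ← h3, h1]
    exact Dvd.dvd.mul_left h _
  have h5 : Nat.Coprime (ℓ ^ k) (P : Subgroup G).index := by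
    apply Nat.Coprime.pow_left
    exact (Nat.Prime.coprime_iff_not_dvd Fact.out).2 P.not_dvd_index
  have h6 := h5.dvd_of_dvd_mul_right h4
  have h7 : ((P : Subgroup G) ⊓ S).relIndex P = (MulAction.stabilizer P x).index := by
    rw [Subgroup.inf_relIndex_left]
    rfl
  rw [h7, MulAction.index_stabilizer] at h6
  exact h6

end SylowOrbit

section FixedVector

variable {P X : Type*} [Group P] [Finite X] [MulAction P X]

theorem exists_primitive {ℓ : ℕ} (hℓ : 2 ≤ ℓ) (L : AddSubgroup (X → ℤ))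
    (hsat : ∀ f : X → ℤ, (fun x => (ℓ : ℤ) * f x) ∈ L → f ∈ L) (hne : ∃ f ∈ L, f ≠ 0) :
    ∃ f ∈ L, ∃ x, ¬ (ℓ : ℤ) ∣ f x := by
  obtain ⟨f, hf, hf0⟩ := hne
  obtain ⟨x, hx⟩ := Function.ne_iff.1 hf0
  simp only [Pi.zero_apply] at hx
  have key : ∀ N : ℕ, ∀ f ∈ L, f x ≠ 0 → (f x).natAbs ≤ N → ∃ f ∈ L, ∃ x, ¬ (ℓ : ℤ) ∣ f x := by
    intro N
    induction N with
    | zero =>
      intro f _ h0 h1
      exact absurd (Int.natAbs_eq_zero.1 (Nat.le_zero.1 h1)) h0
    | succ N ih =>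
      intro f hf h0 h1
      by_cases hall : ∀ y, (ℓ : ℤ) ∣ f y
      · choose g hg using hall
        have hgL : g ∈ L := by
          apply hsat
          have : (fun x => (ℓ : ℤ) * g x) = f := by
            funext y; exact (hg y).symm
          rw [this]; exact hf
        have hgx : g x ≠ 0 := by
          intro h2
          apply h0
          rw [hg, h2, mul_zero]
        refine ih g hgL hgx ?_
        have h3 : (f x).natAbs = ℓ * (g x).natAbs := by
          rw [hg, Int.natAbs_mul, Int.natAbs_natCast]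
        have h4 : 0 < (g x).natAbs := Int.natAbs_pos.2 hgx
        nlinarith
      · push Not at hall
        exact ⟨f, hf, hall⟩
  exact key _ f hf hx le_rfl

theorem exists_fixed {ℓ : ℕ} [hℓ : Fact ℓ.Prime] (hP : IsPGroup ℓ P) (L : AddSubgroup (X → ℤ))
    (hL : ∀ (σ : P) (f : X → ℤ), f ∈ L → (fun x => f (σ • x)) ∈ L)
    (hsat : ∀ f : X → ℤ, (fun x => (ℓ : ℤ) * f x) ∈ L → f ∈ L) (hne : ∃ f ∈ L, f ≠ 0) :
    ∃ f ∈ L, (∃ x, ¬ (ℓ : ℤ) ∣ f x) ∧ ∀ (σ : P) (x : X), (ℓ : ℤ) ∣ f (σ • x) - f x := by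
  classical
  obtain ⟨f₀, hf₀, x₀, hx₀⟩ := exists_primitive hℓ.out.two_le L hsat hne
  let red : (X → ℤ) →+ (X → ZMod ℓ) :=
    { toFun := fun f x => (f x : ZMod ℓ)
      map_zero' := by funext x; simp
      map_add' := fun f g => by funext x; simp }
  let A : AddSubgroup (X → ZMod ℓ) := L.map red
  have hA : ∀ (σ : P) (a : X → ZMod ℓ), a ∈ A → (fun x => a (σ • x)) ∈ A := by
    rintro σ a ⟨f, hf, rfl⟩
    exact ⟨fun x => f (σ • x), hL σ f hf, rfl⟩
  letI : MulAction P A :=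
    { smul := fun σ a => ⟨fun x => a.1 (σ⁻¹ • x), hA σ⁻¹ a.1 a.2⟩
      one_smul := fun a => Subtype.ext (funext fun x => by
        show a.1 ((1 : P)⁻¹ • x) = a.1 x
        rw [inv_one, one_smul])
      mul_smul := fun σ τ a => Subtype.ext (funext fun x => by
        show a.1 ((σ * τ)⁻¹ • x) = a.1 (τ⁻¹ • σ⁻¹ • x)
        rw [mul_inv_rev, mul_smul]) }
  have hsm : ∀ (σ : P) (a : A) (x : X), (σ • a : A).1 x = a.1 (σ⁻¹ • x) := fun _ _ _ => rfl
  have : NeZero ℓ := ⟨hℓ.out.ne_zero⟩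
  have := Fintype.ofFinite X
  have hcard : ℓ ∣ Nat.card A := by
    have h1 : Nat.card A ∣ ℓ ^ Fintype.card X := by
      have := AddSubgroup.card_addSubgroup_dvd_card A
      rwa [Nat.card_eq_fintype_card (α := X → ZMod ℓ), Fintype.card_fun, ZMod.card] at this
    obtain ⟨j, -, hj⟩ := (Nat.dvd_prime_pow hℓ.out).1 h1
    have hj0 : j ≠ 0 := by
      rintro rfl
      rw [pow_zero] at hj
      have h2 := (Nat.card_eq_one_iff_unique.1 hj).1
      have h3 : (⟨red f₀, ⟨f₀, hf₀, rfl⟩⟩ : A) = 0 := Subsingleton.elim _ _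
      have h4 := congrFun (congrArg Subtype.val h3) x₀
      apply hx₀
      rw [← ZMod.intCast_zmod_eq_zero_iff_dvd]
      exact h4
    rw [hj]
    exact dvd_pow_self _ hj0
  have h0 : (0 : A) ∈ MulAction.fixedPoints P A := by
    intro σ
    apply Subtype.ext
    funext x
    rw [hsm]
    rfl
  obtain ⟨b, hb, hb0⟩ := hP.exists_fixed_point_of_prime_dvd_card_of_fixed_point A hcard h0
  obtain ⟨f, hf, hfb⟩ := b.2
  have hfx : ∀ x, ((f x : ℤ) : ZMod ℓ) = b.1 x := fun x => congrFun hfb x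
  refine ⟨f, hf, ?_, ?_⟩
  · by_contra hcon
    push Not at hcon
    apply hb0
    apply Subtype.ext
    funext x
    rw [← hfx, (ZMod.intCast_zmod_eq_zero_iff_dvd _ _).2 (hcon x)]
    rfl
  · intro σ x
    rw [← ZMod.intCast_zmod_eq_zero_iff_dvd]
    push_cast
    rw [hfx, hfx, sub_eq_zero]
    have h5 := hb σ
    have h6 := congrFun (congrArg Subtype.val h5) (σ • x)
    rw [hsm, inv_smul_smul] at h6
    exact h6.symm

end FixedVector

end Pool.MP43e44c
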