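import Pool.Agent.H.MP_43e44c_ag.Expand
import Pool.Agent.H.MP_43e44c_ag.Cup

/-!
Rational `(1,1)`-classes on `A_Φ^k` and their products.
-/

set_option autoImplicit false

open NumberField Finset

namespace Pool.MP43e44c

variable {K : Type*} [Field K] [NumberField K] {Φ : Finset (K →+* ℂ)} {k : ℕ}

/-- The complex bilinear function `x, y ↦ x_{a,φ} y_{b,φ̄}`. -/
noncomputable def pairC (Φ : Finset (K →+* ℂ)) (a b : Fin k) (φ : K →+* ℂ)
    (x y : Fin k → Φ → ℂ) : ℂ :=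
  coord Φ φ (x a) * coord Φ (ComplexEmbedding.conjugate φ) (y b)

/-- The real bilinear form `∑_ψ ψ(α) x_{a,ψ} y_{b,ψ̄}`. -/
noncomputable def bform (Φ : Finset (K →+* ℂ)) (α : K) (a b : Fin k) (x y : Fin k → Φ → ℂ) : ℝ :=
  (∑ ψ : K →+* ℂ, ψ α * pairC Φ a b ψ x y).re

theorem bform_coe (hΦ : IsCMType Φ) (α : K) (a b : Fin k) (x y : Fin k → Φ → ℂ) :
    (bform Φ α a b x y : ℂ) = ∑ ψ : K →+* ℂ, ψ α * pairC Φ a b ψ x y := by
  have h : (starRingEnd ℂ) (∑ ψ : K →+* ℂ, ψ α * pairC Φ a b ψ x y)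
      = ∑ ψ : K →+* ℂ, ψ α * pairC Φ a b ψ x y := by
    rw [map_sum]
    let e : (K →+* ℂ) ≃ (K →+* ℂ) :=
      ⟨ComplexEmbedding.conjugate, ComplexEmbedding.conjugate, conj_conj, conj_conj⟩
    refine Fintype.sum_equiv e _ _ fun φ => ?_
    show (starRingEnd ℂ) (φ α * pairC Φ a b φ x y)
      = (ComplexEmbedding.conjugate φ) α * pairC Φ a b (ComplexEmbedding.conjugate φ) x y
    unfold pairC
    rw [map_mul, map_mul, ← coord_conj hΦ, ← coord_conj hΦ, ComplexEmbedding.conjugate_coe_eq]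
  exact (Complex.conj_eq_iff_re.1 h)

theorem bform_add_left (α : K) (a b : Fin k) (x x' y : Fin k → Φ → ℂ) :
    bform Φ α a b (x + x') y = bform Φ α a b x y + bform Φ α a b x' y := by
  unfold bform pairC
  rw [← Complex.add_re, ← Finset.sum_add_distrib]
  congr 1
  refine Finset.sum_congr rfl fun ψ _ => ?_
  rw [Pi.add_apply, map_add]; ring

theorem bform_add_right (α : K) (a b : Fin k) (x y y' : Fin k → Φ → ℂ) :
    bform Φ α a b x (y + y') = bform Φ α a b x y + bform Φ α a b x y' := by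
  unfold bform pairC
  rw [← Complex.add_re, ← Finset.sum_add_distrib]
  congr 1
  refine Finset.sum_congr rfl fun ψ _ => ?_
  rw [Pi.add_apply, map_add]; ring

theorem bform_smul_left (α : K) (a b : Fin k) (c : ℝ) (x y : Fin k → Φ → ℂ) :
    bform Φ α a b (c • x) y = c * bform Φ α a b x y := by
  unfold bform pairC
  rw [← Complex.re_ofReal_mul, Finset.mul_sum]
  congr 1
  refine Finset.sum_congr rfl fun ψ _ => ?_
  rw [Pi.smul_apply, map_smul, Complex.real_smul]; ring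

theorem bform_smul_right (α : K) (a b : Fin k) (c : ℝ) (x y : Fin k → Φ → ℂ) :
    bform Φ α a b x (c • y) = c * bform Φ α a b x y := by
  unfold bform pairC
  rw [← Complex.re_ofReal_mul, Finset.mul_sum]
  congr 1
  refine Finset.sum_congr rfl fun ψ _ => ?_
  rw [Pi.smul_apply, map_smul, Complex.real_smul]; ring

/-- The alternating form `∑_ψ ψ(α) (x_{a,ψ} y_{b,ψ̄} - y_{a,ψ} x_{b,ψ̄})`. -/
noncomputable def thetaForm (Φ : Finset (K →+* ℂ)) (α : K) (a b : Fin k) :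
    (Fin k → Φ → ℂ) [⋀^Fin 2]→ₗ[ℝ] ℝ where
  toFun v := bform Φ α a b (v 0) (v 1) - bform Φ α a b (v 1) (v 0)
  map_update_add' := by
    intro _ v i x y
    fin_cases i
    · simp [bform_add_left, bform_add_right]; ring
    · simp [bform_add_left, bform_add_right]; ring
  map_update_smul' := by
    intro _ v i c x
    fin_cases i
    · simp [bform_smul_left, bform_smul_right]; ring
    · simp [bform_smul_left, bform_smul_right]; ring
  map_eq_zero_of_eq' := by
    intro v i j hij hne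
    fin_cases i <;> fin_cases j <;> simp_all

theorem thetaForm_apply (α : K) (a b : Fin k) (x y : Fin k → Φ → ℂ) :
    thetaForm Φ α a b ![x, y] = bform Φ α a b x y - bform Φ α a b y x := rfl

theorem wt_conj (hΦ : IsCMType Φ) {z : ℂ} (hz : ‖z‖ = 1) (φ : K →+* ℂ) :
    wt Φ φ z * wt Φ (ComplexEmbedding.conjugate φ) z = 1 := by
  have h1 : z * starRingEnd ℂ z = 1 := by
    rw [Complex.mul_conj, Complex.normSq_eq_norm_sq, hz]; simp
  unfold wt
  by_cases h : φ ∈ Φ
  · rw [if_pos h, if_neg ((hΦ φ).1 h), h1]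
  · rw [if_neg h, if_pos (by by_contra h2; exact h ((hΦ φ).2 h2)), mul_comm, h1]

theorem pairC_smul (hΦ : IsCMType Φ) {z : ℂ} (hz : ‖z‖ = 1) (a b : Fin k) (φ : K →+* ℂ)
    (x y : Fin k → Φ → ℂ) : pairC Φ a b φ (z • x) (z • y) = pairC Φ a b φ x y := by
  unfold pairC
  rw [Pi.smul_apply, Pi.smul_apply, coord_smul hΦ, coord_smul hΦ]
  have := wt_conj hΦ hz φ
  calc wt Φ φ z * coord Φ φ (x a) * (wt Φ (ComplexEmbedding.conjugate φ) z *
        coord Φ (ComplexEmbedding.conjugate φ) (y b))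
      = (wt Φ φ z * wt Φ (ComplexEmbedding.conjugate φ) z) * (coord Φ φ (x a) *
        coord Φ (ComplexEmbedding.conjugate φ) (y b)) := by ring
    _ = _ := by rw [this, one_mul]

theorem coord_lattice (hΦ : IsCMType Φ) {x : Fin k → Φ → ℂ} {u : Fin k → 𝓞 K}
    (hx : ∀ i (φ : Φ), x i φ = (φ : K →+* ℂ) (u i)) (φ : K →+* ℂ) (a : Fin k) :
    coord Φ φ (x a) = φ (u a) := by
  have : x a = fun ψ : Φ => (ψ : K →+* ℂ) (u a) := by
    funext ψ; exact hx a ψ
  rw [this, coord_emb hΦ]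

theorem bform_rational (hΦ : IsCMType Φ) {c : K →+* K}
    (hc : ∀ ψ : K →+* ℂ, ComplexEmbedding.conjugate ψ = ψ.comp c) (α : K) (a b : Fin k)
    {x y : Fin k → Φ → ℂ} (hx : x ∈ cmLattice Φ k) (hy : y ∈ cmLattice Φ k) :
    ∃ q : ℚ, bform Φ α a b x y = q := by
  obtain ⟨u, hu⟩ := hx
  obtain ⟨w, hw⟩ := hy
  refine ⟨Algebra.trace ℚ K (α * (u a * c (w b))), ?_⟩
  have h1 : (bform Φ α a b x y : ℂ) = ((Algebra.trace ℚ K (α * (u a * c (w b))) : ℚ) : ℂ) := by
    rw [bform_coe hΦ]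
    have h2 := trace_eq_sum_embeddings ℂ (K := ℚ) (L := K) (x := α * (u a * c (w b)))
    rw [eq_ratCast] at h2
    rw [h2]
    refine Fintype.sum_equiv (RingHom.equivRatAlgHom K ℂ) _ _ fun ψ => ?_
    unfold pairC
    rw [coord_lattice hΦ hu, coord_lattice hΦ hw, hc]
    show ψ α * (ψ (u a) * ψ (c (w b))) = ψ (α * (u a * c (w b)))
    rw [map_mul, map_mul]
  have h3 : (((bform Φ α a b x y : ℝ)) : ℂ)
      = (((Algebra.trace ℚ K (α * (u a * c (w b))) : ℚ) : ℝ) : ℂ) := by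
    rw [h1]; norm_cast
  exact Complex.ofReal_injective h3

theorem thetaForm_hodge (hΦ : IsCMType Φ) {c : K →+* K}
    (hc : ∀ ψ : K →+* ℂ, ComplexEmbedding.conjugate ψ = ψ.comp c) (α : K) (a b : Fin k) :
    IsHodgeClass (cmLattice Φ k) (thetaForm Φ α a b) := by
  constructor
  · intro v hv
    obtain ⟨q, hq⟩ := bform_rational hΦ hc α a b (hv 0) (hv 1)
    obtain ⟨r, hr⟩ := bform_rational hΦ hc α a b (hv 1) (hv 0)
    refine ⟨q - r, ?_⟩
    show bform Φ α a b (v 0) (v 1) - bform Φ α a b (v 1) (v 0) = _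
    rw [hq, hr]; push_cast; rfl
  · intro z hz v
    show bform Φ α a b (z • v 0) (z • v 1) - bform Φ α a b (z • v 1) (z • v 0)
      = bform Φ α a b (v 0) (v 1) - bform Φ α a b (v 1) (v 0)
    unfold bform
    simp only [pairC_smul hΦ hz]

/-- The complex bilinear functions `pairC` are combinations of the rational forms. -/
theorem pairC_eq (hΦ : IsCMType Φ) [DecidableEq (K →+* ℂ)] {n : ℕ} {b : Fin n → 𝓞 K}
    {d : Fin n → K}
    (h2 : ∀ φ ψ : K →+* ℂ, ∑ j, φ (d j) * ψ (b j) = if φ = ψ then 1 else 0) (φ : K →+* ℂ)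
    (a a' : Fin k) (x y : Fin k → Φ → ℂ) :
    pairC Φ a a' φ x y = ∑ r, φ (d r) * (bform Φ (b r : K) a a' x y : ℂ) := by
  simp only [bform_coe hΦ, Finset.mul_sum]
  rw [Finset.sum_comm]
  have h3 : ∀ ψ : K →+* ℂ, ∑ r, φ (d r) * (ψ (b r) * pairC Φ a a' ψ x y)
      = if φ = ψ then pairC Φ a a' ψ x y else 0 := by
    intro ψ
    have : ∑ r, φ (d r) * (ψ (b r) * pairC Φ a a' ψ x y)
        = (∑ r, φ (d r) * ψ (b r)) * pairC Φ a a' ψ x y := by
      rw [Finset.sum_mul]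
      exact Finset.sum_congr rfl fun r _ => by ring
    rw [this, h2]
    split_ifs <;> simp
  rw [Finset.sum_congr rfl fun ψ _ => h3 ψ, Finset.sum_ite_eq univ φ, if_pos (mem_univ _)]

/-- The alternating sum of a product of `pairC`'s is a complex combination of cup products of
rational `(1,1)`-classes. -/
theorem altSum_pairC_mem (hΦ : IsCMType Φ) {c : K →+* K}
    (hc : ∀ ψ : K →+* ℂ, ComplexEmbedding.conjugate ψ = ψ.comp c)
    {p : ℕ} (φ : Fin p → K →+* ℂ) (a a' : Fin p → Fin k) :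
    (fun v => altSum (fun i => pairC Φ (a i) (a' i) (φ i)) v) ∈ Submodule.span ℂ
      {F : (Fin p × Fin 2 → Fin k → Φ → ℂ) → ℂ |
        ∃ θ : Fin p → (Fin k → Φ → ℂ) [⋀^Fin 2]→ₗ[ℝ] ℝ,
        (∀ i, IsHodgeClass (cmLattice Φ k) (θ i)) ∧ F = fun v => (cup θ v : ℂ)} := by
  classical
  obtain ⟨n, b, d, -, h2⟩ := exists_dual K
  have h3 : (fun v => altSum (fun i => pairC Φ (a i) (a' i) (φ i)) v)
      = ∑ r : Fin p → Fin n, ((∏ i, φ i (d (r i))) * (2 ^ p)⁻¹) •
        (fun v : Fin p × Fin 2 → Fin k → Φ → ℂ =>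
          (cup (fun i => thetaForm Φ (b (r i) : K) (a i) (a' i)) v : ℂ)) := by
    funext v
    have h4 : (fun i => pairC Φ (a i) (a' i) (φ i))
        = fun i x y => ∑ r, φ i (d r) * (bform Φ (b r : K) (a i) (a' i) x y : ℂ) := by
      funext i x y
      exact pairC_eq hΦ h2 _ _ _ _ _
    rw [h4]
    have h5 := altSum_expand (fun i r => φ i (d r))
      (fun i r x y => (bform Φ (b r : K) (a i) (a' i) x y : ℂ)) v
    rw [h5, Finset.sum_apply]
    refine Finset.sum_congr rfl fun r _ => ?_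
    rw [Pi.smul_apply, smul_eq_mul, cup_eq_altSum]
    have h6 : (fun i x y => ((thetaForm Φ (b (r i) : K) (a i) (a' i) ![x, y] : ℝ) : ℂ))
        = fun (i : Fin p) (x y : Fin k → Φ → ℂ) =>
          (bform Φ (b (r i) : K) (a i) (a' i) x y : ℂ) - (bform Φ (b (r i) : K) (a i) (a' i) y x : ℂ) := by
      funext i x y
      rw [thetaForm_apply]; push_cast; rfl
    rw [h6, altSum_antisymm (fun (i : Fin p) (x y : Fin k → Φ → ℂ) =>
      (bform Φ (b (r i) : K) (a i) (a' i) x y : ℂ)) v]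
    field_simp
  rw [h3]
  refine Submodule.sum_mem _ fun r _ => Submodule.smul_mem _ _ (Submodule.subset_span ?_)
  exact ⟨fun i => thetaForm Φ (b (r i) : K) (a i) (a' i), fun i => thetaForm_hodge hΦ hc _ _ _, rfl⟩

end Pool.MP43e44c
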