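import Pool.Agent.H.MP_43e44c_ag.Gen

/-!
Rational `(1,1)`-classes attached to arbitrary pairs of embeddings of Hodge type, and the
resulting criterion for generation by divisor classes.
-/

set_option autoImplicit false

open NumberField Finset

namespace Pool.MP43e44c

variable {K : Type*} [Field K] [NumberField K] {Φ : Finset (K →+* ℂ)} {k : ℕ}

/-- A pair of embeddings of Hodge type: every Galois translate has exactly one member in `Φ`. -/
def Perp (Φ : Finset (K →+* ℂ)) (φ φ' : K →+* ℂ) : Prop :=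
  ∀ g : GG K, g • φ ∈ Φ ↔ g • φ' ∉ Φ

/-- Complex conjugation on the Galois closure. -/
noncomputable def conjG (K : Type*) [Field K] [NumberField K] : GG K :=
  (Complex.conjAe.restrictScalars ℚ).restrictNormal (GC K)

theorem conjG_apply (x : GC K) : ((conjG K x : GC K) : ℂ) = (starRingEnd ℂ) (x : ℂ) :=
  AlgEquiv.restrictNormal_commutes (Complex.conjAe.restrictScalars ℚ) (GC K) x

theorem conjG_smul (φ : K →+* ℂ) : conjG K • φ = ComplexEmbedding.conjugate φ := by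
  ext x
  rw [smul_apply, conjG_apply, coe_lft, ComplexEmbedding.conjugate_coe_eq]

/-- The complex bilinear function `x, y ↦ x_{a,φ} y_{b,φ'}`. -/
noncomputable def pair2 (Φ : Finset (K →+* ℂ)) (a b : Fin k) (φ φ' : K →+* ℂ)
    (x y : Fin k → Φ → ℂ) : ℂ :=
  coord Φ φ (x a) * coord Φ φ' (y b)

/-- The real bilinear form `∑_g g(α) x_{a,gφ} y_{b,gφ'}`. -/
noncomputable def bform2 (Φ : Finset (K →+* ℂ)) (α : GC K) (a b : Fin k) (φ φ' : K →+* ℂ)
    (x y : Fin k → Φ → ℂ) : ℝ :=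
  (∑ g : GG K, ((g α : GC K) : ℂ) * pair2 Φ a b (g • φ) (g • φ') x y).re

theorem bform2_coe (hΦ : IsCMType Φ) (α : GC K) (a b : Fin k) (φ φ' : K →+* ℂ)
    (x y : Fin k → Φ → ℂ) :
    (bform2 Φ α a b φ φ' x y : ℂ)
      = ∑ g : GG K, ((g α : GC K) : ℂ) * pair2 Φ a b (g • φ) (g • φ') x y := by
  have h : (starRingEnd ℂ) (∑ g : GG K, ((g α : GC K) : ℂ) * pair2 Φ a b (g • φ) (g • φ') x y)
      = ∑ g : GG K, ((g α : GC K) : ℂ) * pair2 Φ a b (g • φ) (g • φ') x y := by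
    rw [map_sum]
    refine Fintype.sum_equiv (Equiv.mulLeft (conjG K)) _ _ fun g => ?_
    rw [Equiv.coe_mulLeft]
    unfold pair2
    rw [map_mul, map_mul, ← coord_conj hΦ, ← coord_conj hΦ, mul_smul, mul_smul, conjG_smul,
      conjG_smul, AlgEquiv.mul_apply, conjG_apply]
  exact (Complex.conj_eq_iff_re.1 h)

theorem bform2_add_left (α : GC K) (a b : Fin k) (φ φ' : K →+* ℂ) (x x' y : Fin k → Φ → ℂ) :
    bform2 Φ α a b φ φ' (x + x') y = bform2 Φ α a b φ φ' x y + bform2 Φ α a b φ φ' x' y := by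
  unfold bform2 pair2
  rw [← Complex.add_re, ← Finset.sum_add_distrib]
  congr 1
  refine Finset.sum_congr rfl fun ψ _ => ?_
  rw [Pi.add_apply, map_add]; ring

theorem bform2_add_right (α : GC K) (a b : Fin k) (φ φ' : K →+* ℂ) (x y y' : Fin k → Φ → ℂ) :
    bform2 Φ α a b φ φ' x (y + y') = bform2 Φ α a b φ φ' x y + bform2 Φ α a b φ φ' x y' := by
  unfold bform2 pair2
  rw [← Complex.add_re, ← Finset.sum_add_distrib]
  congr 1
  refine Finset.sum_congr rfl fun ψ _ => ?_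
  rw [Pi.add_apply, map_add]; ring

theorem bform2_smul_left (α : GC K) (a b : Fin k) (φ φ' : K →+* ℂ) (c : ℝ)
    (x y : Fin k → Φ → ℂ) :
    bform2 Φ α a b φ φ' (c • x) y = c * bform2 Φ α a b φ φ' x y := by
  unfold bform2 pair2
  rw [← Complex.re_ofReal_mul, Finset.mul_sum]
  congr 1
  refine Finset.sum_congr rfl fun ψ _ => ?_
  rw [Pi.smul_apply, map_smul, Complex.real_smul]; ring

theorem bform2_smul_right (α : GC K) (a b : Fin k) (φ φ' : K →+* ℂ) (c : ℝ)
    (x y : Fin k → Φ → ℂ) :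
    bform2 Φ α a b φ φ' x (c • y) = c * bform2 Φ α a b φ φ' x y := by
  unfold bform2 pair2
  rw [← Complex.re_ofReal_mul, Finset.mul_sum]
  congr 1
  refine Finset.sum_congr rfl fun ψ _ => ?_
  rw [Pi.smul_apply, map_smul, Complex.real_smul]; ring

/-- The alternating form attached to `bform2`. -/
noncomputable def theta2 (Φ : Finset (K →+* ℂ)) (α : GC K) (a b : Fin k) (φ φ' : K →+* ℂ) :
    (Fin k → Φ → ℂ) [⋀^Fin 2]→ₗ[ℝ] ℝ where
  toFun v := bform2 Φ α a b φ φ' (v 0) (v 1) - bform2 Φ α a b φ φ' (v 1) (v 0)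
  map_update_add' := by
    intro _ v i x y
    fin_cases i
    · simp [bform2_add_left, bform2_add_right]; ring
    · simp [bform2_add_left, bform2_add_right]; ring
  map_update_smul' := by
    intro _ v i c x
    fin_cases i
    · simp [bform2_smul_left, bform2_smul_right]; ring
    · simp [bform2_smul_left, bform2_smul_right]; ring
  map_eq_zero_of_eq' := by
    intro v i j hij hne
    fin_cases i <;> fin_cases j <;> simp_all

theorem theta2_apply (α : GC K) (a b : Fin k) (φ φ' : K →+* ℂ) (x y : Fin k → Φ → ℂ) :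
    theta2 Φ α a b φ φ' ![x, y] = bform2 Φ α a b φ φ' x y - bform2 Φ α a b φ φ' y x := rfl

theorem wt_perp {z : ℂ} (hz : ‖z‖ = 1) {φ φ' : K →+* ℂ} (h : φ ∈ Φ ↔ φ' ∉ Φ) :
    wt Φ φ z * wt Φ φ' z = 1 := by
  have h1 : z * starRingEnd ℂ z = 1 := by
    rw [Complex.mul_conj, Complex.normSq_eq_norm_sq, hz]; simp
  unfold wt
  by_cases h2 : φ ∈ Φ
  · rw [if_pos h2, if_neg (h.1 h2), h1]
  · rw [if_neg h2, if_pos (by by_contra h3; exact h2 (h.2 h3)), mul_comm, h1]

theorem pair2_smul (hΦ : IsCMType Φ) {z : ℂ} (hz : ‖z‖ = 1) (a b : Fin k) {φ φ' : K →+* ℂ}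
    (h : φ ∈ Φ ↔ φ' ∉ Φ) (x y : Fin k → Φ → ℂ) :
    pair2 Φ a b φ φ' (z • x) (z • y) = pair2 Φ a b φ φ' x y := by
  unfold pair2
  rw [Pi.smul_apply, Pi.smul_apply, coord_smul hΦ, coord_smul hΦ]
  have := wt_perp hz h
  calc wt Φ φ z * coord Φ φ (x a) * (wt Φ φ' z * coord Φ φ' (y b))
      = (wt Φ φ z * wt Φ φ' z) * (coord Φ φ (x a) * coord Φ φ' (y b)) := by ring
    _ = _ := by rw [this, one_mul]

theorem bform2_rational (hΦ : IsCMType Φ) (α : GC K) (a b : Fin k) (φ φ' : K →+* ℂ)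
    {x y : Fin k → Φ → ℂ} (hx : x ∈ cmLattice Φ k) (hy : y ∈ cmLattice Φ k) :
    ∃ q : ℚ, bform2 Φ α a b φ φ' x y = q := by
  obtain ⟨u, hu⟩ := hx
  obtain ⟨w, hw⟩ := hy
  set β : GC K := α * (lft φ (u a) * lft φ' (w b)) with hβ
  refine ⟨Algebra.trace ℚ (GC K) β, ?_⟩
  have h1 : (bform2 Φ α a b φ φ' x y : ℂ) = ((Algebra.trace ℚ (GC K) β : ℚ) : ℂ) := by
    rw [bform2_coe hΦ]
    have h2 := trace_eq_sum_automorphisms (K := ℚ) β
    have h3 : ((Algebra.trace ℚ (GC K) β : ℚ) : ℂ)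
        = ((algebraMap ℚ (GC K) (Algebra.trace ℚ (GC K) β) : GC K) : ℂ) := by
      rw [eq_ratCast (algebraMap ℚ (GC K))]
      norm_cast
    rw [h3, h2]
    push_cast
    refine Finset.sum_congr rfl fun g _ => ?_
    unfold pair2
    rw [coord_lattice hΦ hu, coord_lattice hΦ hw, smul_apply, smul_apply, hβ, map_mul, map_mul]
    push_cast
    rfl
  have h3 : (((bform2 Φ α a b φ φ' x y : ℝ)) : ℂ)
      = (((Algebra.trace ℚ (GC K) β : ℚ) : ℝ) : ℂ) := by
    rw [h1]; norm_cast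
  exact Complex.ofReal_injective h3

theorem theta2_hodge (hΦ : IsCMType Φ) (α : GC K) (a b : Fin k) {φ φ' : K →+* ℂ}
    (h : Perp Φ φ φ') : IsHodgeClass (cmLattice Φ k) (theta2 Φ α a b φ φ') := by
  constructor
  · intro v hv
    obtain ⟨q, hq⟩ := bform2_rational hΦ α a b φ φ' (hv 0) (hv 1)
    obtain ⟨r, hr⟩ := bform2_rational hΦ α a b φ φ' (hv 1) (hv 0)
    refine ⟨q - r, ?_⟩
    show bform2 Φ α a b φ φ' (v 0) (v 1) - bform2 Φ α a b φ φ' (v 1) (v 0) = _
    rw [hq, hr]; push_cast; rfl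
  · intro z hz v
    show bform2 Φ α a b φ φ' (z • v 0) (z • v 1) - bform2 Φ α a b φ φ' (z • v 1) (z • v 0)
      = bform2 Φ α a b φ φ' (v 0) (v 1) - bform2 Φ α a b φ φ' (v 1) (v 0)
    unfold bform2
    have h1 : ∀ (g : GG K) (x y : Fin k → Φ → ℂ),
        pair2 Φ a b (g • φ) (g • φ') (z • x) (z • y) = pair2 Φ a b (g • φ) (g • φ') x y :=
      fun g x y => pair2_smul hΦ hz a b (h g) x y
    simp only [h1]

instance numberFieldGC (K : Type*) [Field K] [NumberField K] : NumberField (GC K) where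
  to_charZero := inferInstance
  to_finiteDimensional := inferInstance

open Classical in
/-- The bilinear functions `pair2` are combinations of the rational forms. -/
theorem pair2_eq (hΦ : IsCMType Φ) {n : ℕ} {b : Fin n → 𝓞 (GC K)} {d : Fin n → GC K}
    (h2 : ∀ g : GG K, ∑ j, ((d j : GC K) : ℂ) * ((g (b j : GC K) : GC K) : ℂ)
      = if g = 1 then 1 else 0)
    (φ φ' : K →+* ℂ) (a a' : Fin k) (x y : Fin k → Φ → ℂ) :
    pair2 Φ a a' φ φ' x y = ∑ r, ((d r : GC K) : ℂ) * (bform2 Φ (b r : GC K) a a' φ φ' x y : ℂ) := by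
  simp only [bform2_coe hΦ, Finset.mul_sum]
  rw [Finset.sum_comm]
  have h3 : ∀ g : GG K, ∑ r, ((d r : GC K) : ℂ) * (((g (b r : GC K) : GC K) : ℂ) *
      pair2 Φ a a' (g • φ) (g • φ') x y)
      = if g = 1 then pair2 Φ a a' (g • φ) (g • φ') x y else 0 := by
    intro g
    have : ∑ r, ((d r : GC K) : ℂ) * (((g (b r : GC K) : GC K) : ℂ) *
      pair2 Φ a a' (g • φ) (g • φ') x y)
        = (∑ r, ((d r : GC K) : ℂ) * ((g (b r : GC K) : GC K) : ℂ)) *
          pair2 Φ a a' (g • φ) (g • φ') x y := by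
      rw [Finset.sum_mul]
      exact Finset.sum_congr rfl fun r _ => by ring
    rw [this, h2]
    split_ifs <;> simp
  rw [Finset.sum_congr rfl fun g _ => h3 g, Finset.sum_ite_eq' univ (1 : GG K),
    if_pos (mem_univ _), one_smul, one_smul]

open Classical in
theorem exists_dualG (K : Type*) [Field K] [NumberField K] :
    ∃ (n : ℕ) (b : Fin n → 𝓞 (GC K)) (d : Fin n → GC K),
    ∀ g : GG K, ∑ j, ((d j : GC K) : ℂ) * ((g (b j : GC K) : GC K) : ℂ)
      = if g = 1 then 1 else 0 := by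
  classical
  obtain ⟨n, b, d, -, h2⟩ := exists_dual (GC K)
  refine ⟨n, b, d, fun g => ?_⟩
  have h3 := h2 ((GC K).val : GC K →+* ℂ) (((GC K).val : GC K →+* ℂ).comp (g : GC K →+* GC K))
  refine Eq.trans ?_ (h3.trans ?_)
  · rfl
  · by_cases hg : g = 1
    · subst hg
      rw [if_pos rfl, if_pos]
      rfl
    · rw [if_neg hg, if_neg]
      intro h4
      apply hg
      ext x
      have h5 := RingHom.congr_fun h4 x
      exact h5.symm

/-- The alternating sum of a product of `pair2`'s of Hodge type is a complex combination of cup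
products of rational `(1,1)`-classes. -/
theorem altSum_pair2_mem (hΦ : IsCMType Φ) {p : ℕ} (φ φ' : Fin p → K →+* ℂ)
    (hperp : ∀ i, Perp Φ (φ i) (φ' i)) (a a' : Fin p → Fin k) :
    (fun v => altSum (fun i => pair2 Φ (a i) (a' i) (φ i) (φ' i)) v) ∈
      Submodule.span ℂ (cupsC Φ k p) := by
  classical
  obtain ⟨n, b, d, h2⟩ := exists_dualG K
  have h3 : (fun v => altSum (fun i => pair2 Φ (a i) (a' i) (φ i) (φ' i)) v)
      = ∑ r : Fin p → Fin n, ((∏ i, ((d (r i) : GC K) : ℂ)) * (2 ^ p)⁻¹) •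
        (fun v : Fin p × Fin 2 → Fin k → Φ → ℂ =>
          (cup (fun i => theta2 Φ (b (r i) : GC K) (a i) (a' i) (φ i) (φ' i)) v : ℂ)) := by
    funext v
    have h4 : (fun i => pair2 Φ (a i) (a' i) (φ i) (φ' i))
        = fun i x y => ∑ r, ((d r : GC K) : ℂ) *
          (bform2 Φ (b r : GC K) (a i) (a' i) (φ i) (φ' i) x y : ℂ) := by
      funext i x y
      exact pair2_eq hΦ h2 _ _ _ _ _ _
    rw [h4]
    have h5 := altSum_expand (fun (_ : Fin p) r => ((d r : GC K) : ℂ))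
      (fun i r x y => (bform2 Φ (b r : GC K) (a i) (a' i) (φ i) (φ' i) x y : ℂ)) v
    rw [h5, Finset.sum_apply]
    refine Finset.sum_congr rfl fun r _ => ?_
    rw [Pi.smul_apply, smul_eq_mul, cup_eq_altSum]
    have h6 : (fun i x y => ((theta2 Φ (b (r i) : GC K) (a i) (a' i) (φ i) (φ' i) ![x, y] : ℝ) : ℂ))
        = fun (i : Fin p) (x y : Fin k → Φ → ℂ) =>
          (bform2 Φ (b (r i) : GC K) (a i) (a' i) (φ i) (φ' i) x y : ℂ)
            - (bform2 Φ (b (r i) : GC K) (a i) (a' i) (φ i) (φ' i) y x : ℂ) := by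
      funext i x y
      rw [theta2_apply]; push_cast; rfl
    rw [h6, altSum_antisymm (fun (i : Fin p) (x y : Fin k → Φ → ℂ) =>
      (bform2 Φ (b (r i) : GC K) (a i) (a' i) (φ i) (φ' i) x y : ℂ)) v]
    field_simp
  rw [h3]
  refine Submodule.sum_mem _ fun r _ => Submodule.smul_mem _ _ (Submodule.subset_span ?_)
  exact ⟨fun i => theta2 Φ (b (r i) : GC K) (a i) (a' i) (φ i) (φ' i),
    fun i => theta2_hodge hΦ _ _ _ (hperp i), rfl⟩

theorem altMono_perp {p : ℕ} (f : Fin p × Fin 2 → Fin k) (h : Fin p × Fin 2 → K →+* ℂ)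
    (v : Fin p × Fin 2 → Fin k → Φ → ℂ) :
    altMono Φ f h v
      = altSum (fun i => pair2 Φ (f (i, 0)) (f (i, 1)) (h (i, 0)) (h (i, 1))) v := by
  unfold altMono altSum
  refine Finset.sum_congr rfl fun σ _ => ?_
  congr 1
  rw [Fintype.prod_prod_type]
  refine Finset.prod_congr rfl fun i _ => ?_
  rw [Fin.prod_univ_two]
  rfl

theorem mem_span_complex2 (hΦ : IsCMType Φ) [DecidableEq (K →+* ℂ)] {p n : ℕ}
    {b : Fin n → 𝓞 K} {d : Fin n → K}
    (h2 : ∀ φ ψ : K →+* ℂ, ∑ j, φ (d j) * ψ (b j) = if φ = ψ then 1 else 0)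
    (ω : (Fin k → Φ → ℂ) [⋀^Fin p × Fin 2]→ₗ[ℝ] ℝ)
    (hmatch : ∀ f h, coef Φ b d ω.toMultilinearMap f h ≠ 0 →
      ∃ π : Equiv.Perm (Fin p × Fin 2), ∀ i, Perp Φ (h (π (i, 0))) (h (π (i, 1)))) :
    (fun v => (ω v : ℂ)) ∈ Submodule.span ℂ (cupsC Φ k p) := by
  classical
  -- antisymmetrise
  have hcard : (Fintype.card (Equiv.Perm (Fin p × Fin 2)) : ℂ) ≠ 0 := by
    exact_mod_cast Fintype.card_ne_zero
  have h3 : ∀ v, (Fintype.card (Equiv.Perm (Fin p × Fin 2)) : ℂ) * (ω v : ℂ)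
      = ∑ f, ∑ h, coef Φ b d ω.toMultilinearMap f h * altMono Φ f h v := by
    intro v
    have h4 : ∀ σ : Equiv.Perm (Fin p × Fin 2), (ω v : ℂ)
        = ((Equiv.Perm.sign σ : ℤ) : ℂ) * ∑ f, ∑ h, coef Φ b d ω.toMultilinearMap f h *
          ∏ l, coord Φ (h l) (v (σ l) (f l)) := by
      intro σ
      have h5 := expand_coeff hΦ h2 ω.toMultilinearMap (fun l => v (σ l))
      rw [← h5]
      have h6 : ω.toMultilinearMap (fun l => v (σ l)) = Equiv.Perm.sign σ • ω v :=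
        ω.map_perm v σ
      rw [h6]
      rcases Int.units_eq_one_or (Equiv.Perm.sign σ) with h | h <;> simp [h]
    have h7 : (Fintype.card (Equiv.Perm (Fin p × Fin 2)) : ℂ) * (ω v : ℂ)
        = ∑ σ : Equiv.Perm (Fin p × Fin 2), (ω v : ℂ) := by
      rw [Finset.sum_const, Finset.card_univ, nsmul_eq_mul]
    rw [h7, Finset.sum_congr rfl fun σ _ => h4 σ]
    simp only [Finset.mul_sum, altMono]
    rw [Finset.sum_comm]
    refine Finset.sum_congr rfl fun f _ => ?_
    rw [Finset.sum_comm]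
    refine Finset.sum_congr rfl fun h _ => ?_
    refine Finset.sum_congr rfl fun σ _ => ?_
    ring
  have h8 : (fun v => (ω v : ℂ)) = (Fintype.card (Equiv.Perm (Fin p × Fin 2)) : ℂ)⁻¹ •
      ∑ f : Fin p × Fin 2 → Fin k, ∑ h : Fin p × Fin 2 → (K →+* ℂ),
        coef Φ b d ω.toMultilinearMap f h • (fun v => altMono Φ f h v) := by
    funext v
    rw [Pi.smul_apply, Finset.sum_apply, smul_eq_mul]
    simp only [Finset.sum_apply, Pi.smul_apply, smul_eq_mul]
    rw [← h3 v, inv_mul_cancel_left₀ hcard]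
  rw [h8]
  refine Submodule.smul_mem _ _ (Submodule.sum_mem _ fun f _ => Submodule.sum_mem _ fun h _ => ?_)
  by_cases hco : coef Φ b d ω.toMultilinearMap f h = 0
  · rw [hco, zero_smul]; exact Submodule.zero_mem _
  · obtain ⟨π, hπ⟩ := hmatch f h hco
    refine Submodule.smul_mem _ _ ?_
    have h9 : (fun v => altMono Φ f h v) = ((Equiv.Perm.sign π : ℤ) : ℂ) •
        (fun v => altSum (fun i => pair2 Φ (f (π (i, 0))) (f (π (i, 1))) (h (π (i, 0)))
          (h (π (i, 1)))) v) := by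
      funext v
      rw [altMono_perm f h π v, altMono_perp]
      rfl
    rw [h9]
    exact Submodule.smul_mem _ _ (altSum_pair2_mem hΦ _ _ hπ _ _)

end Pool.MP43e44c
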