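import Pool.Agent.H.MP_43e44c_ag.Count
import Pool.Agent.H.MP_43e44c_ag.Char

/-!
Half systems annihilated by an odd character with a given kernel.
-/

set_option autoImplicit false

open Finset Polynomial

namespace Pool.MP43e44c

variable {G : Type*} [CommGroup G] [Fintype G] [DecidableEq G]

/-- Data of a cyclic quotient of `G` not killing the involution `c`. -/
theorem exists_gen {c : G} (hc2 : c * c = 1) (N : Subgroup G) [IsCyclic (G ⧸ N)] (hcN : c ∉ N) :
    ∃ (t : G) (h : ℕ), N.index = 2 * h ∧ 0 < h ∧ (∀ j : ℕ, t ^ j ∈ N ↔ N.index ∣ j) ∧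
      (∀ g : G, ∃ j < N.index, (t ^ j)⁻¹ * g ∈ N) ∧ (t ^ h)⁻¹ * c ∈ N := by
  classical
  obtain ⟨q, hq⟩ := IsCyclic.exists_generator (α := G ⧸ N)
  obtain ⟨t, rfl⟩ := QuotientGroup.mk_surjective q
  have hord : orderOf (t : G ⧸ N) = N.index := by
    rw [orderOf_eq_card_of_forall_mem_zpowers hq, Subgroup.index_eq_card]
  have hpos : 0 < N.index := by
    rw [← hord]; exact orderOf_pos _
  have hpow : ∀ j : ℕ, t ^ j ∈ N ↔ N.index ∣ j := by
    intro j
    rw [← hord, orderOf_dvd_iff_pow_eq_one, ← QuotientGroup.mk_pow, QuotientGroup.eq_one_iff]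
  have hrep : ∀ g : G, ∃ j < N.index, (t ^ j)⁻¹ * g ∈ N := by
    intro g
    have h1 : (g : G ⧸ N) ∈ Subgroup.zpowers (t : G ⧸ N) := hq _
    rw [mem_zpowers_iff_mem_range_orderOf, Finset.mem_image] at h1
    obtain ⟨j, hj, hj2⟩ := h1
    refine ⟨j, by rw [← hord]; exact Finset.mem_range.1 hj, ?_⟩
    rw [← QuotientGroup.eq, QuotientGroup.mk_pow]
    exact hj2
  obtain ⟨j, hj, hjN⟩ := hrep c
  have hj0 : j ≠ 0 := by
    rintro rfl
    apply hcN; simpa using hjN
  have h2j : N.index ∣ 2 * j := by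
    rw [← hpow]
    have h3 : (t ^ j)⁻¹ * c * ((t ^ j)⁻¹ * c) ∈ N := N.mul_mem hjN hjN
    have h4 : (t ^ j)⁻¹ * c * ((t ^ j)⁻¹ * c) = (t ^ (2 * j))⁻¹ := by
      rw [two_mul, pow_add, mul_inv, mul_mul_mul_comm, hc2, mul_one]
    rw [h4] at h3
    simpa using N.inv_mem h3
  obtain ⟨r, hr⟩ := h2j
  have hr1 : r = 1 := by
    have h5 : r < 2 := by
      by_contra h6
      push Not at h6
      have : N.index * 2 ≤ N.index * r := Nat.mul_le_mul_left _ h6
      omega
    have h7 : r ≠ 0 := by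
      rintro rfl; omega
    omega
  subst hr1
  exact ⟨t, j, by omega, by omega, hpow, hrep, hjN⟩

section Fixed

variable {c : G} (hc2 : c * c = 1) (N : Subgroup G) (t : G) (h : ℕ)

/-- The parametrisation of `G` by `Fin h × N × Bool`. -/
def param (c : G) (N : Subgroup G) (t : G) (h : ℕ) (x : Bool × Fin h × N) : G :=
  t ^ (x.2.1 : ℕ) * (x.2.2 : G) * (if x.1 then c else 1)

include hc2 in
theorem param_bijective (hm : N.index = 2 * h)
    (hpow : ∀ j : ℕ, t ^ j ∈ N ↔ N.index ∣ j)
    (hrep : ∀ g : G, ∃ j < N.index, (t ^ j)⁻¹ * g ∈ N) (htc : (t ^ h)⁻¹ * c ∈ N) :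
    Function.Bijective (param c N t h) := by
  -- every element is congruent to `t ^ (i + h b)`
  have hcong : ∀ x : Bool × Fin h × N,
      (t ^ ((x.2.1 : ℕ) + if x.1 then h else 0))⁻¹ * param c N t h x ∈ N := by
    rintro ⟨b, i, n⟩
    unfold param
    cases b
    · simp
    · simp only [if_true]
      have : (t ^ ((i : ℕ) + h))⁻¹ * (t ^ (i : ℕ) * (n : G) * c) = (n : G) * ((t ^ h)⁻¹ * c) := by
        rw [pow_add, mul_inv]
        calc (t ^ (i : ℕ))⁻¹ * (t ^ h)⁻¹ * (t ^ (i : ℕ) * (n : G) * c)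
            = ((t ^ (i : ℕ))⁻¹ * t ^ (i : ℕ)) * ((n : G) * ((t ^ h)⁻¹ * c)) := by
              simp only [mul_assoc, mul_comm, mul_left_comm]
          _ = _ := by rw [inv_mul_cancel, one_mul]
      rw [this]
      exact N.mul_mem n.2 htc
  have huniq : ∀ i j : ℕ, i < N.index → j < N.index → (t ^ i)⁻¹ * t ^ j ∈ N → i = j := by
    have aux : ∀ i j : ℕ, i ≤ j → j < N.index → (t ^ i)⁻¹ * t ^ j ∈ N → i = j := by
      intro i j hij hj hN
      have : (t ^ i)⁻¹ * t ^ j = t ^ (j - i) := by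
        rw [inv_mul_eq_iff_eq_mul, ← pow_add, Nat.add_sub_cancel' hij]
      rw [this, hpow] at hN
      have := Nat.eq_zero_of_dvd_of_lt hN (by omega)
      omega
    intro i j hi hj hN
    rcases le_total i j with hij | hij
    · exact aux i j hij hj hN
    · refine (aux j i hij hi ?_).symm
      have := N.inv_mem hN
      simpa [mul_comm] using this
  constructor
  · rintro x y hxy
    have h1 := hcong x
    have h2 := hcong y
    rw [← hxy] at h2
    have h3 : (t ^ ((x.2.1 : ℕ) + if x.1 then h else 0))⁻¹ *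
        t ^ ((y.2.1 : ℕ) + if y.1 then h else 0) ∈ N := by
      have := N.mul_mem h1 (N.inv_mem h2)
      have h4 : (t ^ ((x.2.1 : ℕ) + if x.1 then h else 0))⁻¹ * param c N t h x *
          ((t ^ ((y.2.1 : ℕ) + if y.1 then h else 0))⁻¹ * param c N t h x)⁻¹
          = (t ^ ((x.2.1 : ℕ) + if x.1 then h else 0))⁻¹ *
            t ^ ((y.2.1 : ℕ) + if y.1 then h else 0) := by
        rw [mul_inv, inv_inv, mul_mul_mul_comm, mul_inv_cancel, mul_one]
      rwa [h4] at this
    have hlt : ∀ z : Bool × Fin h × N, (z.2.1 : ℕ) + (if z.1 then h else 0) < N.index := by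
      intro z
      have := z.2.1.2
      split_ifs <;> omega
    have h5 := huniq _ _ (hlt x) (hlt y) h3
    obtain ⟨b, i, n⟩ := x
    obtain ⟨b', i', n'⟩ := y
    simp only at h5
    have hi := i.2
    have hi' := i'.2
    have hb : b = b' ∧ (i : ℕ) = (i' : ℕ) := by
      cases b <;> cases b' <;> simp at h5 ⊢ <;> omega
    obtain ⟨rfl, hii⟩ := hb
    have hii' : i = i' := Fin.ext hii
    subst hii'
    simp only [param] at hxy
    have h6 := mul_left_cancel (mul_right_cancel hxy)
    have h7 : n = n' := Subtype.ext h6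
    rw [h7]
  · intro g
    obtain ⟨j, hj, hjN⟩ := hrep g
    by_cases hjh : j < h
    · refine ⟨(false, ⟨j, hjh⟩, ⟨_, hjN⟩), ?_⟩
      simp [param]
    · refine ⟨(true, ⟨j - h, by omega⟩, ⟨(t ^ (j - h))⁻¹ * g * c⁻¹, ?_⟩), ?_⟩
      · have h8 : (t ^ (j - h))⁻¹ * g * c⁻¹ = ((t ^ j)⁻¹ * g) * ((t ^ h)⁻¹ * c)⁻¹ := by
          have : t ^ j = t ^ (j - h) * t ^ h := by
            rw [← pow_add]; congr 1; omega
          rw [this]
          simp only [mul_inv, inv_inv]
          calc (t ^ (j - h))⁻¹ * g * c⁻¹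
              = (t ^ (j - h))⁻¹ * g * c⁻¹ * ((t ^ h)⁻¹ * t ^ h) := by
                rw [inv_mul_cancel, mul_one]
            _ = _ := by simp only [mul_assoc, mul_comm, mul_left_comm]
        rw [h8]
        exact N.mul_mem hjN (N.inv_mem htc)
      · simp only [param, if_true]
        rw [mul_assoc (t ^ (j - h))⁻¹, mul_inv_cancel_left, inv_mul_cancel_right]

/-- The family of subsets of `N` attached to a subset of `G`. -/
noncomputable def fam (N : Subgroup G) (t : G) (h : ℕ) (A : Finset G) (i : Fin h) : Finset N := by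
  classical
  exact univ.filter fun n : N => t ^ (i : ℕ) * (n : G) ∈ A

theorem mem_fam {N : Subgroup G} {t : G} {h : ℕ} {A : Finset G} {i : Fin h} {n : N} :
    n ∈ fam N t h A i ↔ t ^ (i : ℕ) * (n : G) ∈ A := by
  classical
  simp [fam]

theorem fam_injOn (hb : Function.Bijective (param c N t h)) {A B : Finset G}
    (hA : IsHalf c A) (hB : IsHalf c B) (hAB : fam N t h A = fam N t h B) : A = B := by
  ext g
  obtain ⟨⟨b, i, n⟩, rfl⟩ := hb.2 g
  have h1 : t ^ (i : ℕ) * (n : G) ∈ A ↔ t ^ (i : ℕ) * (n : G) ∈ B := by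
    rw [← mem_fam (N := N) (h := h), ← mem_fam (N := N) (h := h), hAB]
  cases b
  · simpa [param] using h1
  · simp only [param, if_true]
    have h2 := hA (t ^ (i : ℕ) * (n : G))
    have h3 := hB (t ^ (i : ℕ) * (n : G))
    tauto

include hc2 in
theorem fam_surj (hb : Function.Bijective (param c N t h)) (a : Fin h → Finset N) :
    ∃ A : Finset G, IsHalf c A ∧ fam N t h A = a := by
  classical
  set e := Equiv.ofBijective _ hb with he
  have he1 : ∀ b i n, e (b, i, n) = t ^ (i : ℕ) * (n : G) * (if b then c else 1) := by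
    intro b i n; rfl
  have hmul : ∀ b i n, e (b, i, n) * c = e (!b, i, n) := by
    intro b i n
    rw [he1, he1]
    cases b
    · simp
    · simp [mul_assoc, hc2]
  refine ⟨univ.filter fun g => ((e.symm g).2.2 ∈ a (e.symm g).2.1) ↔ (e.symm g).1 = false,
    ?_, ?_⟩
  · intro g
    obtain ⟨⟨b, i, n⟩, rfl⟩ := e.surjective g
    rw [hmul]
    simp only [mem_filter, mem_univ, true_and, Equiv.symm_apply_apply]
    cases b <;> simp
  · funext i
    ext n
    rw [mem_fam]
    have : t ^ (i : ℕ) * (n : G) = e (false, i, n) := by rw [he1]; simp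
    rw [this]
    simp

/-- The sum of a character over a half system. -/
theorem sum_char (hb : Function.Bijective (param c N t h)) {A : Finset G} (hA : IsHalf c A)
    (χ : G →* ℂˣ) (hχ : χ.ker = N) (hχc : χ c = -1) :
    ∑ g, (sgn A g : ℂ) * (χ g : ℂ)
      = 2 * ∑ i : Fin h, ((2 * (fam N t h A i).card : ℤ) - (Nat.card N : ℤ) : ℤ)
          * (χ t : ℂ) ^ (i : ℕ) := by
  classical
  have hsgnC : ∀ g, (sgn A (g * c) : ℂ) = - (sgn A g : ℂ) := by
    intro g
    rw [sgn_mul hA g]; push_cast; ring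
  have hker : ∀ n : N, χ (n : G) = 1 := by
    intro n
    have h' : (n : G) ∈ χ.ker := by rw [hχ]; exact n.2
    exact h'
  rw [← (Equiv.ofBijective _ hb).sum_comp]
  simp only [Equiv.ofBijective_apply]
  rw [Fintype.sum_prod_type]
  simp only [Fintype.sum_prod_type, Fintype.sum_bool, param, if_true, Bool.false_eq_true, if_false,
    mul_one]
  rw [← Finset.sum_add_distrib, Finset.mul_sum]
  refine Finset.sum_congr rfl fun i _ => ?_
  rw [← Finset.sum_add_distrib]
  have h1 : ∀ n : N, (sgn A (t ^ (i : ℕ) * (n : G) * c) : ℂ) * (χ (t ^ (i : ℕ) * (n : G) * c) : ℂ)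
      + (sgn A (t ^ (i : ℕ) * (n : G)) : ℂ) * (χ (t ^ (i : ℕ) * (n : G)) : ℂ)
      = 2 * (χ t : ℂ) ^ (i : ℕ) * (sgn A (t ^ (i : ℕ) * (n : G)) : ℂ) := by
    intro n
    rw [hsgnC, map_mul χ, hχc, map_mul, map_pow, hker]
    push_cast
    ring
  rw [Finset.sum_congr rfl fun n _ => h1 n, ← Finset.mul_sum]
  have h2 : ∑ n : N, (sgn A (t ^ (i : ℕ) * (n : G)) : ℂ)
      = ((2 * (fam N t h A i).card : ℤ) - (Nat.card N : ℤ) : ℤ) := by
    have h3 : ∀ n : N, sgn A (t ^ (i : ℕ) * (n : G))
        = 2 * (if n ∈ fam N t h A i then 1 else 0) - 1 := by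
      intro n
      unfold sgn
      by_cases hn : t ^ (i : ℕ) * (n : G) ∈ A
      · rw [if_pos hn, if_pos (mem_fam.2 hn)]; norm_num
      · rw [if_neg hn, if_neg (fun h => hn (mem_fam.1 h))]; norm_num
    have h4 : ∑ n : N, sgn A (t ^ (i : ℕ) * (n : G))
        = (2 * (fam N t h A i).card : ℤ) - (Nat.card N : ℤ) := by
      rw [Finset.sum_congr rfl fun n _ => h3 n, Finset.sum_sub_distrib, ← Finset.mul_sum,
        Finset.sum_boole]
      simp [Finset.card_univ, Nat.card_eq_fintype_card]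
    rw [← h4]; push_cast; rfl
  rw [h2]
  ring

end Fixed

/-- The maximal probability that a sum of `k` independent signs takes a given value. -/
noncomputable def maxProb (k : ℕ) : ℝ := (k.choose (k / 2) : ℝ) / 2 ^ k

/-- The polynomial attached to a size vector. -/
noncomputable def sizePoly (k h : ℕ) (x : Fin h → ℕ) : ℤ[X] :=
  ∑ i : Fin h, C (2 * (x i : ℤ) - (k : ℤ)) * X ^ (i : ℕ)

theorem coeff_sizePoly (k h : ℕ) (x : Fin h → ℕ) (i : Fin h) :
    (sizePoly k h x).coeff i = 2 * (x i : ℤ) - (k : ℤ) := by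
  unfold sizePoly
  rw [Polynomial.finsetSum_coeff]
  simp only [coeff_C_mul, coeff_X_pow]
  rw [Finset.sum_eq_single i]
  · simp
  · intro j _ hj
    rw [if_neg]
    · simp
    · intro h'; exact hj (Fin.ext h'.symm)
  · simp

theorem coeff_sizePoly_of_ge (k h : ℕ) (x : Fin h → ℕ) {j : ℕ} (hj : h ≤ j) :
    (sizePoly k h x).coeff j = 0 := by
  unfold sizePoly
  rw [Polynomial.finsetSum_coeff]
  simp only [coeff_C_mul, coeff_X_pow]
  refine Finset.sum_eq_zero fun i _ => ?_
  rw [if_neg (by have := i.2; omega)]; simp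

theorem exists_dvd {c : G} (hc2 : c * c = 1) {N : Subgroup G} (hcN : c ∉ N) {t : G} {h : ℕ}
    (hm : N.index = 2 * h) (hh : 0 < h) (hpow : ∀ j : ℕ, t ^ j ∈ N ↔ N.index ∣ j)
    (hb : Function.Bijective (param c N t h)) {A : Finset G} (hA : IsHalf c A)
    {χ : G →* ℂˣ} (hχ : χ.ker = N) (h0 : ∑ g, (sgn A g : ℂ) * (χ g : ℂ) = 0) :
    cyclotomic N.index ℤ ∣ sizePoly (Nat.card N) h fun i => (fam N t h A i).card := by
  have hχc : χ c = -1 := by
    have h1 : χ c * χ c = 1 := by rw [← map_mul, hc2, map_one]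
    have h2 : χ c ≠ 1 := by
      intro h3
      apply hcN
      rw [← hχ]; exact h3
    have h3 : ((χ c : ℂˣ) : ℂ) * (χ c : ℂ) = 1 := by
      rw [← Units.val_mul, h1, Units.val_one]
    rcases mul_self_eq_one_iff.1 h3 with h4 | h4
    · exact absurd (Units.ext (by simpa using h4)) h2
    · exact Units.ext (by simpa using h4)
  have hprim : IsPrimitiveRoot (χ t : ℂ) N.index := by
    constructor
    · have : t ^ N.index ∈ χ.ker := by rw [hχ, hpow]
      have h1 : χ (t ^ N.index) = 1 := this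
      rw [map_pow] at h1
      have := congrArg (Units.val) h1
      simpa using this
    · intro l hl
      rw [← hpow, ← hχ]
      show χ (t ^ l) = 1
      rw [map_pow]
      apply Units.ext
      simpa using hl
  rw [sum_char N t h hb hA χ hχ hχc] at h0
  rw [cyclotomic_eq_minpoly hprim (by omega)]
  apply minpoly.isIntegrallyClosed_dvd (hprim.isIntegral (by omega))
  rw [sizePoly, map_sum]
  have h5 := (mul_eq_zero.1 h0).resolve_left two_ne_zero
  rw [← h5]
  refine Finset.sum_congr rfl fun i _ => ?_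
  rw [map_mul, map_pow, aeval_X, aeval_C]
  simp

theorem totient_le_half {m h : ℕ} (hm : m = 2 * h) (hh : 0 < h) : Nat.totient m ≤ h := by
  subst hm
  rcases Nat.even_or_odd h with he | ho
  · rw [Nat.totient_mul_of_prime_of_dvd Nat.prime_two he.two_dvd]
    obtain ⟨j, hj⟩ := he
    have : Nat.totient h ≤ j := by
      have h1 := totient_le_half (m := h) (h := j) (by omega) (by omega)
      exact h1
    omega
  · rw [Nat.totient_mul (Nat.coprime_two_left.2 ho)]
    simpa using Nat.totient_le h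

open Classical in
theorem card_bad_le {c : G} (hc2 : c * c = 1) (N : Subgroup G) [IsCyclic (G ⧸ N)] (hcN : c ∉ N) :
    ((univ.filter fun A : Finset G => IsHalf c A ∧
        ∃ χ : G →* ℂˣ, χ.ker = N ∧ ∑ g, (sgn A g : ℂ) * (χ g : ℂ) = 0).card : ℝ)
      ≤ maxProb (Nat.card N) ^ Nat.totient N.index *
        ((univ.filter fun A : Finset G => IsHalf c A).card : ℝ) := by
  obtain ⟨t, h, hm, hh, hpow, hrep, htc⟩ := exists_gen hc2 N hcN
  have hb := param_bijective hc2 N t h hm hpow hrep htc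
  set k := Nat.card N with hk
  have hkF : Fintype.card N = k := by rw [hk, Nat.card_eq_fintype_card]
  set d := Nat.totient N.index with hd
  have hdh : d ≤ h := totient_le_half hm hh
  -- number of half systems
  have hhalf : (univ.filter fun A : Finset G => IsHalf c A).card = (2 ^ k) ^ h := by
    have h1 : (univ.filter fun A : Finset G => IsHalf c A).card
        = (univ : Finset (Fin h → Finset N)).card := by
      refine Finset.card_bij (fun A _ => fam N t h A) (fun A _ => mem_univ _) ?_ ?_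
      · intro A hA B hB hAB
        exact fam_injOn N t h hb (mem_filter.1 hA).2 (mem_filter.1 hB).2 hAB
      · intro a _
        obtain ⟨A, hA, hAa⟩ := fam_surj hc2 N t h hb a
        exact ⟨A, mem_filter.2 ⟨mem_univ _, hA⟩, hAa⟩
    rw [h1, Finset.card_univ, Fintype.card_fun, Fintype.card_finset, Fintype.card_fin, hkF]
  -- the bad ones
  have hbad : (univ.filter fun A : Finset G => IsHalf c A ∧
        ∃ χ : G →* ℂˣ, χ.ker = N ∧ ∑ g, (sgn A g : ℂ) * (χ g : ℂ) = 0).card
      ≤ (k.choose (k / 2)) ^ d * (2 ^ k) ^ (h - d) := by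
    have h2 := card_sizes_le (N := N) hdh
      (fun x => cyclotomic N.index ℤ ∣ sizePoly k h x) (by
        intro x y hx hy hxy
        have h3 : cyclotomic N.index ℤ ∣ sizePoly k h x - sizePoly k h y := dvd_sub hx hy
        have h4 : sizePoly k h x - sizePoly k h y = 0 := by
          refine eq_zero_of_dvd_of_degree_lt h3 ?_
          rw [degree_cyclotomic, ← hd, degree_lt_iff_coeff_zero]
          intro j hj
          rw [coeff_sub]
          by_cases hjh : j < h
          · have h5 := coeff_sizePoly k h x ⟨j, hjh⟩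
            have h6 := coeff_sizePoly k h y ⟨j, hjh⟩
            simp only at h5 h6
            rw [h5, h6, hxy ⟨j, hjh⟩ hj]; ring
          · rw [coeff_sizePoly_of_ge _ _ _ (not_lt.1 hjh),
              coeff_sizePoly_of_ge _ _ _ (not_lt.1 hjh), sub_zero]
        funext i
        have h7 := congrArg (fun p => p.coeff (i : ℕ)) h4
        simp only [coeff_sub, coeff_sizePoly, coeff_zero] at h7
        omega)
    rw [hkF] at h2
    refine le_trans ?_ h2
    refine Finset.card_le_card_of_injOn (fun A => fam N t h A) ?_ ?_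
    · intro A hA
      have hA' := (mem_filter.1 (mem_coe.1 hA)).2
      obtain ⟨hA1, χ, hχ, h0⟩ := hA'
      exact mem_coe.2 (mem_filter.2 ⟨mem_univ _, exists_dvd hc2 hcN hm hh hpow hb hA1 hχ h0⟩)
    · intro A hA B hB hAB
      exact fam_injOn N t h hb (mem_filter.1 (mem_coe.1 hA)).2.1 (mem_filter.1 (mem_coe.1 hB)).2.1
        hAB
  rw [hhalf]
  have h8 : ((univ.filter fun A : Finset G => IsHalf c A ∧
        ∃ χ : G →* ℂˣ, χ.ker = N ∧ ∑ g, (sgn A g : ℂ) * (χ g : ℂ) = 0).card : ℝ)
      ≤ ((k.choose (k / 2) : ℝ)) ^ d * (2 ^ k) ^ (h - d) := by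
    exact_mod_cast hbad
  refine h8.trans (le_of_eq ?_)
  have h9 : ((2 : ℝ) ^ k) ^ h = ((2 : ℝ) ^ k) ^ d * ((2 : ℝ) ^ k) ^ (h - d) := by
    rw [← pow_add, Nat.add_sub_cancel' hdh]
  push_cast
  rw [h9, maxProb, div_pow]
  field_simp

theorem not_bad {c : G} (hc2 : c * c = 1) (N : Subgroup G) [IsCyclic (G ⧸ N)] (hcN : c ∉ N)
    (hodd : Odd (Nat.card N)) {a : ℕ} (ha : N.index = 2 ^ a) {A : Finset G} (hA : IsHalf c A)
    {χ : G →* ℂˣ} (hχ : χ.ker = N) : ∑ g, (sgn A g : ℂ) * (χ g : ℂ) ≠ 0 := by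
  intro h0
  obtain ⟨t, h, hm, hh, hpow, hrep, htc⟩ := exists_gen hc2 N hcN
  have hb := param_bijective hc2 N t h hm hpow hrep htc
  have h1 := exists_dvd hc2 hcN hm hh hpow hb hA hχ h0
  have ha0 : a ≠ 0 := by
    rintro rfl; omega
  have htot : Nat.totient N.index = h := by
    rw [ha, Nat.totient_prime_pow Nat.prime_two (Nat.pos_of_ne_zero ha0)]
    have : 2 ^ a = 2 * 2 ^ (a - 1) := by
      rw [← pow_succ', Nat.sub_add_cancel (Nat.pos_of_ne_zero ha0)]
    omega
  have h2 : sizePoly (Nat.card N) h (fun i => (fam N t h A i).card) = 0 := by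
    refine eq_zero_of_dvd_of_degree_lt h1 ?_
    rw [degree_cyclotomic, htot, degree_lt_iff_coeff_zero]
    intro j hj
    exact coeff_sizePoly_of_ge _ _ _ hj
  have h3 := coeff_sizePoly (Nat.card N) h (fun i => (fam N t h A i).card) ⟨0, hh⟩
  rw [h2, coeff_zero] at h3
  obtain ⟨r, hr⟩ := hodd
  rw [hr] at h3
  push_cast at h3
  omega

end Pool.MP43e44c
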