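import Pool.Agent.H.MP_43e44c_ag.Span
import Pool.Agent.H.MP_43e44c_ag.Grp

/-!
Abelian CM fields: nondegenerate CM types have Hodge rings generated by divisor classes.
-/

set_option autoImplicit false

open NumberField Finset

open scoped IsMulCommutative

namespace Pool.MP43e44c

variable {K : Type*} [Field K] [NumberField K]

/-- Twist of an embedding by an automorphism. -/
def tw (φ : K →+* ℂ) (g : K ≃ₐ[ℚ] K) : K →+* ℂ := φ.comp (g : K →+* K)

theorem tw_apply (φ : K →+* ℂ) (g : K ≃ₐ[ℚ] K) (x : K) : tw φ g x = φ (g x) := rfl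

theorem tw_mul (φ : K →+* ℂ) (g h : K ≃ₐ[ℚ] K) (x : K) : tw φ (g * h) x = tw φ g (h x) := rfl

theorem tw_bijective [IsGalois ℚ K] (φ : K →+* ℂ) : Function.Bijective (tw φ) := by
  constructor
  · intro g h hgh
    ext x
    apply φ.injective
    exact RingHom.congr_fun hgh x
  · intro ψ
    obtain ⟨σ, hσ⟩ := NumberField.ComplexEmbedding.exists_comp_symm_eq_of_comp_eq (k := ℚ) φ ψ
      (Subsingleton.elim _ _)
    exact ⟨σ.symm, hσ⟩

variable [IsAbelianGalois ℚ K]

/-- Data attached to a base embedding. -/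
theorem exists_c (φ : K →+* ℂ) : ∃ c : K ≃ₐ[ℚ] K, c * c = 1 ∧
    (∀ g, ComplexEmbedding.conjugate (tw φ g) = tw φ (g * c)) ∧
    (∀ ψ : K →+* ℂ, ComplexEmbedding.conjugate ψ = ψ.comp (c : K →+* K)) := by
  obtain ⟨c, hc⟩ := (tw_bijective φ).2 (ComplexEmbedding.conjugate φ)
  have h1 : ∀ g, ComplexEmbedding.conjugate (tw φ g) = tw φ (g * c) := by
    intro g
    ext x
    have h2 : (ComplexEmbedding.conjugate (tw φ g)) x = ComplexEmbedding.conjugate φ (g x) := rfl
    rw [h2, ← hc, tw_apply, tw_apply, mul_comm g c]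
    rfl
  refine ⟨c, ?_, h1, ?_⟩
  · apply (tw_bijective φ).1
    rw [← h1, hc, conj_conj]
    rfl
  · intro ψ
    obtain ⟨g, rfl⟩ := (tw_bijective φ).2 ψ
    rw [h1]
    rfl

variable {Φ : Finset (K →+* ℂ)} {ι : Type*} [Fintype ι] [DecidableEq ι]

theorem coef_gal {n k : ℕ} {b : Fin n → 𝓞 K} {d : Fin n → K}
    (m : MultilinearMap ℝ (fun _ : ι => (Fin k → Φ → ℂ)) ℝ)
    (hm : ∀ v : ι → Fin k → Φ → ℂ, (∀ l, v l ∈ cmLattice Φ k) → ∃ q : ℚ, m v = q)
    (f : ι → Fin k) (φ : K →+* ℂ) (g : ι → K ≃ₐ[ℚ] K) (τ : K ≃ₐ[ℚ] K)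
    (h0 : coef Φ b d m f (fun l => tw φ (g l)) ≠ 0) :
    coef Φ b d m f (fun l => tw φ (g l * τ)) ≠ 0 := by
  have h1 : ∀ r : ι → Fin n, ∃ q : ℚ, m (fun l => bvec Φ b (f l) (r l)) = q :=
    fun r => hm _ fun l => bvec_mem b (f l) (r l)
  choose q hq using h1
  set γ : K := ∑ r : ι → Fin n, (∏ l, g l (d (r l))) * (q r : K) with hγ
  have h2 : coef Φ b d m f (fun l => tw φ (g l)) = φ γ := by
    rw [coef, hγ, map_sum]
    refine Finset.sum_congr rfl fun r _ => ?_
    rw [map_mul, map_prod, map_ratCast, hq]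
    norm_cast
  have h3 : coef Φ b d m f (fun l => tw φ (g l * τ)) = φ (τ γ) := by
    rw [coef, hγ, map_sum, map_sum]
    refine Finset.sum_congr rfl fun r _ => ?_
    rw [map_mul, map_mul, map_prod, map_prod, map_ratCast, map_ratCast, hq]
    have h4 : ∀ l, tw φ (g l * τ) (d (r l)) = φ (τ (g l (d (r l)))) := by
      intro l
      rw [mul_comm (g l) τ]
      rfl
    rw [Finset.prod_congr rfl fun l _ => h4 l]
    norm_cast
  rw [h3]
  rw [h2] at h0
  intro h5
  apply h0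
  have h6 : τ γ = 0 := by
    apply φ.injective; rw [h5, map_zero]
  have h7 : γ = 0 := by
    apply τ.injective; rw [h6, map_zero]
  rw [h7, map_zero]

/-- The half system of a CM type. -/
noncomputable def halfOf (φ : K →+* ℂ) (Φ : Finset (K →+* ℂ)) : Finset (K ≃ₐ[ℚ] K) := by
  classical
  exact univ.filter fun g => tw φ g ∈ Φ

theorem mem_halfOf {φ : K →+* ℂ} {Φ : Finset (K →+* ℂ)} {g : K ≃ₐ[ℚ] K} :
    g ∈ halfOf φ Φ ↔ tw φ g ∈ Φ := by
  classical
  simp [halfOf]

theorem isHalf_iff {φ : K →+* ℂ} {c : K ≃ₐ[ℚ] K}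
    (hc : ∀ g, ComplexEmbedding.conjugate (tw φ g) = tw φ (g * c)) (Φ : Finset (K →+* ℂ)) :
    IsHalf c (halfOf φ Φ) ↔ IsCMType Φ := by
  unfold IsHalf IsCMType
  simp only [mem_halfOf, ← hc]
  constructor
  · intro h ψ
    obtain ⟨g, rfl⟩ := (tw_bijective φ).2 ψ
    exact h g
  · intro h g
    exact h _

/-- If the Hodge ring is not generated by divisors then the half system is degenerate. -/
theorem degenerate_of_not_generated [DecidableEq (K ≃ₐ[ℚ] K)] {φ : K →+* ℂ} {c : K ≃ₐ[ℚ] K}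
    (hc : ∀ g, ComplexEmbedding.conjugate (tw φ g) = tw φ (g * c))
    (hc' : ∀ ψ : K →+* ℂ, ComplexEmbedding.conjugate ψ = ψ.comp (c : K →+* K))
    {Φ : Finset (K →+* ℂ)} (hΦ : IsCMType Φ) (h : ¬ HodgeRingGeneratedByDivisors Φ) :
    ∃ M : (K ≃ₐ[ℚ] K) → ℤ, (∀ τ, ∑ g, M g * sgn (halfOf φ Φ) (g * τ) = 0) ∧
      ∃ g, M g ≠ M (g * c) := by
  classical
  by_contra hcon
  push Not at hcon
  apply h
  intro k p ω hω
  obtain ⟨n, b, d, -, h2⟩ := exists_dual K
  refine mem_span_rational hΦ ω hω (mem_span_complex hΦ hc' h2 ω ?_)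
  intro f h hco
  apply exists_pairing hΦ
  -- choose group elements
  have h3 : ∀ l, ∃ g, tw φ g = h l := fun l => (tw_bijective φ).2 (h l)
  choose g hg using h3
  have hh : h = fun l => tw φ (g l) := by
    funext l; exact (hg l).symm
  subst hh
  set M : (K ≃ₐ[ℚ] K) → ℤ := fun x => ((univ.filter fun l => g l = x).card : ℤ) with hM
  have hMsum : ∀ τ, ∑ x, M x * sgn (halfOf φ Φ) (x * τ) = 0 := by
    intro τ
    have h4 : ∑ x, M x * sgn (halfOf φ Φ) (x * τ) = ∑ l, sgn (halfOf φ Φ) (g l * τ) := by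
      rw [← Finset.sum_fiberwise (s := univ) (g := g) (f := fun l => sgn (halfOf φ Φ) (g l * τ))]
      refine Finset.sum_congr rfl fun x _ => ?_
      rw [Finset.sum_congr rfl (g := fun _ => sgn (halfOf φ Φ) (x * τ))]
      · rw [Finset.sum_const, nsmul_eq_mul]
      · intro l hl
        rw [(mem_filter.1 hl).2]
    rw [h4]
    have h5 : ∀ l, sgn (halfOf φ Φ) (g l * τ) = if tw φ (g l * τ) ∈ Φ then 1 else -1 := by
      intro l
      unfold sgn
      simp only [mem_halfOf]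
    rw [Finset.sum_congr rfl fun l _ => h5 l, Finset.sum_ite, Finset.sum_const, Finset.sum_const]
    have h6 := balanced hΦ h2 ω.toMultilinearMap (fun z hz v => hω.type_pp z hz v) f
      (fun l => tw φ (g l * τ)) (coef_gal ω.toMultilinearMap hω.rational f φ g τ hco)
    rw [h6]
    simp
  have h7 := hcon M hMsum
  intro ψ
  obtain ⟨x, rfl⟩ := (tw_bijective φ).2 ψ
  have h8 := h7 x
  simp only [hM] at h8
  have h9 : ∀ y : K ≃ₐ[ℚ] K, (univ.filter fun l => tw φ (g l) = tw φ y).card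
      = (univ.filter fun l => g l = y).card := by
    intro y
    congr 1
    ext l
    simp only [mem_filter, mem_univ, true_and]
    exact (tw_bijective φ).1.eq_iff
  rw [hc, h9, h9]
  exact_mod_cast h8

end Pool.MP43e44c
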