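import Pool.Agent.H.MP_43e44c_ag.Span

/-!
The action of the Galois group of the Galois closure on the embeddings of a number field, and the
tuples of embeddings attached to Hodge classes which are not generated by divisor classes.
-/

set_option autoImplicit false

open NumberField Finset

namespace Pool.MP43e44c

section Closure

variable (K : Type*) [Field K] [NumberField K]

/-- The Galois closure of `K` in `ℂ`. -/
noncomputable abbrev GC : IntermediateField ℚ ℂ := IntermediateField.normalClosure ℚ K ℂ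

instance isNormalClosure_GC : IsNormalClosure ℚ K (GC K) :=
  Algebra.IsAlgebraic.isNormalClosure_normalClosure fun _ => IsAlgClosed.splits _

instance normal_GC : Normal ℚ (GC K) := IsNormalClosure.normal (K := K)

instance isGalois_GC : IsGalois ℚ (GC K) := { }

/-- The Galois group of the Galois closure of `K`. -/
abbrev GG := GC K ≃ₐ[ℚ] GC K

variable {K}

/-- An embedding `K → ℂ` as a map to the Galois closure. -/
noncomputable def lft (φ : K →+* ℂ) : K →ₐ[ℚ] GC K :=
  φ.toRatAlgHom.codRestrict (GC K).toSubalgebra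
    fun x => φ.toRatAlgHom.fieldRange_le_normalClosure ⟨x, rfl⟩

theorem coe_lft (φ : K →+* ℂ) (x : K) : ((lft φ x : GC K) : ℂ) = φ x := rfl

/-- The action of the Galois group on embeddings. -/
noncomputable def act (g : GG K) (φ : K →+* ℂ) : K →+* ℂ :=
  ((GC K).val.comp (g.toAlgHom.comp (lft φ))).toRingHom

theorem act_apply (g : GG K) (φ : K →+* ℂ) (x : K) : act g φ x = ((g (lft φ x) : GC K) : ℂ) := rfl

theorem lft_act (g : GG K) (φ : K →+* ℂ) (x : K) : lft (act g φ) x = g (lft φ x) :=
  Subtype.ext (by rw [coe_lft, act_apply])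

noncomputable instance actionGG : MulAction (GG K) (K →+* ℂ) where
  smul := act
  one_smul φ := by
    ext x
    show act 1 φ x = φ x
    rw [act_apply]
    rfl
  mul_smul g h φ := by
    ext x
    show act (g * h) φ x = act g (act h φ) x
    rw [act_apply, act_apply, lft_act]
    rfl

theorem smul_apply (g : GG K) (φ : K →+* ℂ) (x : K) :
    (g • φ) x = ((g (lft φ x) : GC K) : ℂ) := rfl

theorem lft_smul (g : GG K) (φ : K →+* ℂ) (x : K) : lft (g • φ) x = g (lft φ x) := lft_act g φ x

theorem exists_smul_eq (φ ψ : K →+* ℂ) : ∃ g : GG K, g • φ = ψ := by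
  let e1 : K ≃ₐ[ℚ] (lft φ).fieldRange := AlgEquiv.ofInjectiveField (lft φ)
  let e2 : K ≃ₐ[ℚ] (lft ψ).fieldRange := AlgEquiv.ofInjectiveField (lft ψ)
  let e : (lft φ).fieldRange ≃ₐ[ℚ] (lft ψ).fieldRange := e1.symm.trans e2
  refine ⟨e.liftNormal (GC K), ?_⟩
  ext x
  rw [smul_apply]
  have h1 : (lft φ x : GC K) = algebraMap (lft φ).fieldRange (GC K) (e1 x) := rfl
  rw [h1, AlgEquiv.liftNormal_commutes]
  have h2 : e (e1 x) = e2 x := by
    simp only [e, AlgEquiv.trans_apply, AlgEquiv.symm_apply_apply]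
  rw [h2]
  rfl

instance pretransitive : MulAction.IsPretransitive (GG K) (K →+* ℂ) := ⟨exists_smul_eq⟩

/-- Commutation with complex conjugation. -/
theorem smul_conj {c : K →+* K}
    (hc : ∀ ψ : K →+* ℂ, ComplexEmbedding.conjugate ψ = ψ.comp c) (g : GG K) (φ : K →+* ℂ) :
    g • ComplexEmbedding.conjugate φ = ComplexEmbedding.conjugate (g • φ) := by
  ext x
  rw [hc, hc, smul_apply]
  show ((g (lft (φ.comp c) x) : GC K) : ℂ) = (g • φ) (c x)
  rw [smul_apply]
  rfl

end Closure

variable {K : Type*} [Field K] [NumberField K]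

variable {Φ : Finset (K →+* ℂ)} {ι : Type*} [Fintype ι] [DecidableEq ι]

theorem coef_smul {n k : ℕ} {b : Fin n → 𝓞 K} {d : Fin n → K}
    (m : MultilinearMap ℝ (fun _ : ι => (Fin k → Φ → ℂ)) ℝ)
    (hm : ∀ v : ι → Fin k → Φ → ℂ, (∀ l, v l ∈ cmLattice Φ k) → ∃ q : ℚ, m v = q)
    (f : ι → Fin k) (h : ι → K →+* ℂ) (τ : GG K)
    (h0 : coef Φ b d m f h ≠ 0) :
    coef Φ b d m f (fun l => τ • h l) ≠ 0 := by
  have h1 : ∀ r : ι → Fin n, ∃ q : ℚ, m (fun l => bvec Φ b (f l) (r l)) = q :=
    fun r => hm _ fun l => bvec_mem b (f l) (r l)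
  choose q hq using h1
  set γ : GC K := ∑ r : ι → Fin n, (∏ l, lft (h l) (d (r l))) * (q r : GC K) with hγ
  have h2 : coef Φ b d m f h = (γ : ℂ) := by
    rw [coef, hγ]
    push_cast
    refine Finset.sum_congr rfl fun r _ => ?_
    rw [hq, Complex.ofReal_ratCast]
    rfl
  have h3 : coef Φ b d m f (fun l => τ • h l) = ((τ γ : GC K) : ℂ) := by
    rw [coef, hγ, map_sum]
    push_cast
    refine Finset.sum_congr rfl fun r _ => ?_
    rw [map_mul, map_prod, map_ratCast, hq, Complex.ofReal_ratCast]
    push_cast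
    rfl
  rw [h3]
  rw [h2] at h0
  intro h5
  apply h0
  have h6 : τ γ = 0 := Subtype.ext h5
  have h7 : γ = 0 := by
    apply τ.injective; rw [h6, map_zero]
  rw [h7]
  rfl

open Classical in
/-- A Hodge class which is not generated by divisor classes produces a tuple of embeddings all of
whose Galois translates are balanced, but which is not symmetric under complex conjugation. -/
theorem exists_tuple {c : K →+* K}
    (hc : ∀ ψ : K →+* ℂ, ComplexEmbedding.conjugate ψ = ψ.comp c)
    (hΦ : IsCMType Φ) {k p : ℕ} (h : ¬ GeneratedByDivisors (cmLattice Φ k) p) :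
    ∃ t : Fin p × Fin 2 → (K →+* ℂ),
      (∀ g : GG K, (univ.filter fun l => g • t l ∈ Φ).card
        = (univ.filter fun l => ¬ g • t l ∈ Φ).card) ∧
      ∃ φ : K →+* ℂ, (univ.filter fun l => t l = φ).card
        ≠ (univ.filter fun l => t l = ComplexEmbedding.conjugate φ).card := by
  by_contra hcon
  push Not at hcon
  apply h
  intro ω hω
  obtain ⟨n, b, d, -, h2⟩ := exists_dual K
  refine mem_span_rational hΦ ω hω (mem_span_complex hΦ hc h2 ω ?_)
  intro f t hco
  refine exists_pairing hΦ t fun φ => ?_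
  refine hcon t (fun g => ?_) φ
  exact balanced hΦ h2 ω.toMultilinearMap (fun z hz v => hω.type_pp z hz v) f
      (fun l => g • t l) (coef_smul ω.toMultilinearMap hω.rational f t g hco)

end Pool.MP43e44c
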