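import Pool.Agent.H.MP_43e44c_ag.PPField
import Pool.Agent.H.MP_43e44c_ag.Blk
import Pool.Agent.H.MP_43e44c_ag.BadCount

/-!
The number of CM types whose Hodge rings are not generated by divisor classes in terms of the
degree of the Galois closure of a CM field over the Galois closure of its real subfield.
-/

set_option autoImplicit false

open NumberField Finset Module

namespace Pool.MP43e44c

section Field

variable {K : Type*} [Field K] [NumberField K]

instance faithfulGG : FaithfulSMul (GG K) (K →+* ℂ) := by
  have key : ∀ τ : GG K, (∀ φ : K →+* ℂ, τ • φ = φ) → τ = 1 := by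
    intro τ hτ
    let S : Subgroup (GG K) :=
      { carrier := {f | ∀ φ : K →+* ℂ, f • φ = φ}
        one_mem' := fun φ => one_smul _ φ
        mul_mem' := fun {f g} hf hg φ => by rw [mul_smul, hg, hf]
        inv_mem' := fun {f} hf φ => by rw [inv_smul_eq_iff, hf] }
    let F : IntermediateField ℚ (GC K) := IntermediateField.fixedField S
    have h1 : GC K ≤ IntermediateField.lift F := by
      refine normalClosure_le_iff.2 ?_
      rintro f _ ⟨y, rfl⟩
      have h2 : (lft (f : K →+* ℂ) y : GC K) ∈ F := by
        rw [IntermediateField.mem_fixedField_iff]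
        intro g hg
        rw [← lft_smul, hg]
      exact (IntermediateField.mem_lift _).2 h2
    ext x
    have h2 : (x : ℂ) ∈ IntermediateField.lift F := h1 x.2
    have h3 : x ∈ F := (IntermediateField.mem_lift x).1 h2
    rw [IntermediateField.mem_fixedField_iff] at h3
    have h4 := h3 τ hτ
    rw [h4]; rfl
  refine ⟨fun {g h} hgh => ?_⟩
  have h1 := key (h⁻¹ * g) fun φ => by rw [mul_smul, hgh, inv_smul_smul]
  rw [inv_mul_eq_one] at h1
  exact h1.symm

variable [IsCMField K]

theorem exists_purely_imaginary (K : Type*) [Field K] [NumberField K] [IsCMField K] :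
    ∃ θ : K, θ ≠ 0 ∧ IsCMField.complexConj K θ = -θ := by
  have h1 : ∃ x : K, IsCMField.complexConj K x ≠ x := by
    by_contra hcon
    push Not at hcon
    apply IsCMField.complexConj_ne_one K
    ext x
    exact hcon x
  obtain ⟨x, hx⟩ := h1
  refine ⟨x - IsCMField.complexConj K x, sub_ne_zero.2 (Ne.symm hx), ?_⟩
  rw [map_sub, IsCMField.complexConj_apply_apply, neg_sub]

/-- Two embeddings of a CM field which agree on the real subfield are equal or conjugate. -/
theorem eq_or_conj {φ ψ : K →+* ℂ} (h : ∀ x ∈ maximalRealSubfield K, ψ x = φ x) :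
    ψ = φ ∨ ψ = ComplexEmbedding.conjugate φ := by
  obtain ⟨θ, hθ0, hθ⟩ := exists_purely_imaginary K
  have hc : ∀ x : K, ComplexEmbedding.conjugate φ x = φ (IsCMField.complexConj K x) := fun x => by
    rw [ComplexEmbedding.conjugate_coe_eq, IsCMField.complexEmbedding_complexConj]
  have hreal : ∀ x : K, IsCMField.complexConj K x = x → ψ x = φ x := fun x hx =>
    h x ((IsCMField.complexConj_eq_self_iff K x).1 hx)
  have h2 : ψ θ = φ θ ∨ ψ θ = - φ θ := by
    apply sq_eq_sq_iff_eq_or_eq_neg.1
    rw [← map_pow, ← map_pow]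
    apply hreal
    rw [map_pow, hθ, neg_sq]
  have hdec : ∀ x : K, ∃ a b : K, IsCMField.complexConj K a = a ∧ IsCMField.complexConj K b = b ∧
      x = a + b * θ := by
    intro x
    refine ⟨(x + IsCMField.complexConj K x) / 2, (x - IsCMField.complexConj K x) / (2 * θ), ?_, ?_, ?_⟩
    · rw [map_div₀, map_add, IsCMField.complexConj_apply_apply, map_ofNat, add_comm]
    · rw [map_div₀, map_sub, IsCMField.complexConj_apply_apply, map_mul, map_ofNat, hθ]
      rw [mul_neg, div_neg, ← neg_div, neg_sub]
    · field_simp
      ring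
  rcases h2 with h2 | h2
  · left
    ext x
    obtain ⟨a, b, ha, hb, rfl⟩ := hdec x
    rw [map_add, map_mul, map_add, map_mul, hreal a ha, hreal b hb, h2]
  · right
    ext x
    rw [hc]
    obtain ⟨a, b, ha, hb, rfl⟩ := hdec x
    rw [map_add, map_mul, map_add, map_mul, ha, hb, hθ, map_add, map_mul, map_neg, hreal a ha,
      hreal b hb, h2]

/-- The Galois closure of the real subfield. -/
noncomputable abbrev GC0 (K : Type*) [Field K] [NumberField K] : IntermediateField ℚ ℂ :=
  IntermediateField.normalClosure ℚ (maximalRealSubfield K) ℂ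

omit [IsCMField K] in
theorem GC0_le : GC0 K ≤ GC K := by
  refine normalClosure_le_iff.2 ?_
  rintro f _ ⟨y, rfl⟩
  let φ : K →+* ℂ := ComplexEmbedding.lift K (f : maximalRealSubfield K →+* ℂ)
  have h1 : φ (y : K) = f y := ComplexEmbedding.lift_algebraMap_apply K _ y
  show f y ∈ GC K
  rw [← h1, ← coe_lft]
  exact (lft φ (y : K)).2

omit [IsCMField K] in
theorem mem_GC0 (φ : K →+* ℂ) {y : K} (hy : y ∈ maximalRealSubfield K) : φ y ∈ GC0 K := by
  let f : maximalRealSubfield K →ₐ[ℚ] ℂ :=
    (φ.comp (algebraMap (maximalRealSubfield K) K)).toRatAlgHom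
  exact f.fieldRange_le_normalClosure ⟨⟨y, hy⟩, rfl⟩

/-- The pair kernel of the Galois group. -/
noncomputable abbrev PK (K : Type*) [Field K] [NumberField K] [IsCMField K] : Subgroup (GG K) :=
  pairKer (GG K) (ComplexEmbedding.conjugate : (K →+* ℂ) → (K →+* ℂ)) conj_conj
    (smul_conj (exists_cm_conj K).choose_spec)

theorem two_pow_le_card_pairKer {v : ℕ}
    (hv : finrank ℚ (GC K) = 2 ^ v * finrank ℚ (GC0 K)) : 2 ^ v ≤ Nat.card (PK K) := by
  have hE := IntermediateField.restrictAlgEquiv (GC0_le (K := K))
  set E : IntermediateField ℚ (GC K) := IntermediateField.restrict (GC0_le (K := K)) with hEdef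
  have h1 : finrank ℚ E = finrank ℚ (GC0 K) := (hE.toLinearEquiv.finrank_eq).symm
  have h2 := Module.finrank_mul_finrank ℚ E (GC K)
  have h3 : 0 < finrank ℚ E := finrank_pos
  have h4 : finrank E (GC K) = 2 ^ v := by
    rw [hv, ← h1, mul_comm] at h2
    exact Nat.eq_of_mul_eq_mul_right h3 h2
  have h5 : Nat.card E.fixingSubgroup = 2 ^ v := by
    rw [IsGalois.card_fixingSubgroup_eq_finrank, h4]
  rw [← h5]
  have h6 : E.fixingSubgroup ≤ PK K := by
    intro g hg φ
    refine eq_or_conj fun x hx => ?_
    rw [smul_apply]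
    have h7 : lft φ x ∈ E := (IntermediateField.mem_restrict _ _).2 (mem_GC0 φ hx)
    have h8 := (IntermediateField.mem_fixingSubgroup_iff E g).1 hg _ h7
    rw [h8, coe_lft]
  exact Nat.card_le_card_of_injective (Subgroup.inclusion h6) (Subgroup.inclusion_injective h6)

end Field

section Pairs

variable {G X : Type*} [Group G] [MulAction G X]

/-- The equivalence relation of being equal or conjugate. -/
def pairSetoid (c : X → X) (hcc : ∀ x, c (c x) = x) : Setoid X where
  r x y := y = x ∨ y = c x
  iseqv :=
    { refl := fun _ => Or.inl rfl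
      symm := by
        rintro x y (h | h)
        · exact Or.inl h.symm
        · right; rw [h, hcc]
      trans := by
        rintro x y z (h | h) (h' | h')
        · left; rw [h', h]
        · right; rw [h', h]
        · right; rw [h', h]
        · left; rw [h', h, hcc] }

/-- The action on pairs. -/
@[reducible]
def pairAction (c : X → X) (hcc : ∀ x, c (c x) = x)
    (hcg : ∀ (g : G) x, g • c x = c (g • x)) : MulAction G (Quotient (pairSetoid c hcc)) where
  smul g := Quotient.map (fun x => g • x) (by
    rintro x y (h | h)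
    · exact Or.inl (by rw [h])
    · exact Or.inr (by rw [h, hcg]))
  one_smul := by
    rintro ⟨x⟩
    exact congrArg (Quotient.mk _) (one_smul G x)
  mul_smul := by
    rintro g h ⟨x⟩
    exact congrArg (Quotient.mk _) (mul_smul g h x)

end Pairs

end Pool.MP43e44c
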