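import Pool.Agent.H.MP_43e44c_ag.Lat
import Pool.Agent.H.MP_43e44c_ag.PP

/-!
The number of half systems with a nonzero relation for a transitive group of degree `2 m ℓ ^ k`.
-/

set_option autoImplicit false

open Finset

namespace Pool.MP43e44c

section Tools

theorem exists_half {Ω : Type*} [Finite Ω] (τ : Ω → Ω) (hτ : ∀ ω, τ (τ ω) = ω)
    (hne : ∀ ω, τ ω ≠ ω) : ∃ S : Ω → Prop, ∀ ω, S ω ↔ ¬ S (τ ω) := by
  have : Fintype Ω := Fintype.ofFinite Ω
  let e := Fintype.equivFin Ω
  refine ⟨fun ω => e ω < e (τ ω), fun ω => ?_⟩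
  show e ω < e (τ ω) ↔ ¬ e (τ ω) < e (τ (τ ω))
  rw [hτ, not_lt]
  have h1 : e (τ ω) ≠ e ω := fun h => hne ω (e.injective h)
  exact ⟨fun h => h.le, fun h => lt_of_le_of_ne h (Ne.symm h1)⟩

variable {G X : Type*} [Group G] [MulAction G X] [MulAction.IsPretransitive G X]

open Classical in
theorem card_moving [Fintype G] [Fintype X] (x y : X) :
    (univ.filter fun g : G => g⁻¹ • x = y).card * Fintype.card X = Fintype.card G := by
  have h1 : ∀ y' : X, (univ.filter fun g : G => g⁻¹ • x = y').card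
      = (univ.filter fun g : G => g⁻¹ • x = y).card := by
    intro y'
    obtain ⟨k, hk⟩ := MulAction.exists_smul_eq G y' y
    refine card_nbij' (fun g => g * k⁻¹) (fun g => g * k) ?_ ?_ ?_ ?_
    · intro g hg
      simp only [coe_filter, mem_univ, true_and, Set.mem_ofPred_eq] at hg ⊢
      rw [mul_inv_rev, inv_inv, mul_smul, hg, hk]
    · intro g hg
      simp only [coe_filter, mem_univ, true_and, Set.mem_ofPred_eq] at hg ⊢
      rw [mul_inv_rev, mul_smul, hg, ← hk, inv_smul_smul]
    · intro g _; simp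
    · intro g _; simp
  have h2 : (univ : Finset G).card = ∑ y' : X, (univ.filter fun g : G => g⁻¹ • x = y').card :=
    card_eq_sum_card_fiberwise (f := fun g : G => g⁻¹ • x) (t := univ)
      (fun _ _ => mem_coe.2 (mem_univ _))
  rw [← card_univ (α := G), h2, sum_congr rfl fun y' _ => h1 y', sum_const, card_univ,
    smul_eq_mul, mul_comm]

open Classical in
theorem exists_large_inter [Finite G] [Fintype X] (C O : Finset X) :
    ∃ g : G, C.card * O.card ≤ (C.filter fun x => g⁻¹ • x ∈ O).card * Fintype.card X := by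
  have : Fintype G := Fintype.ofFinite G
  by_contra hcon
  push Not at hcon
  have h1 : ∑ g : G, (C.filter fun x => g⁻¹ • x ∈ O).card * Fintype.card X
      = Fintype.card G * (C.card * O.card) := by
    rw [← sum_mul]
    have h2 : ∑ g : G, (C.filter fun x => g⁻¹ • x ∈ O).card
        = ∑ x ∈ C, ∑ y ∈ O, (univ.filter fun g : G => g⁻¹ • x = y).card := by
      have h3 : ∀ g : G, (C.filter fun x => g⁻¹ • x ∈ O).card
          = ∑ x ∈ C, ∑ y ∈ O, if g⁻¹ • x = y then 1 else 0 := by
        intro g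
        rw [card_filter]
        refine sum_congr rfl fun x _ => ?_
        rw [sum_ite_eq]
      rw [sum_congr rfl fun g _ => h3 g, sum_comm]
      refine sum_congr rfl fun x _ => ?_
      rw [sum_comm]
      refine sum_congr rfl fun y _ => ?_
      rw [card_filter]
    rw [h2, sum_mul]
    have h4 : ∀ x ∈ C, (∑ y ∈ O, (univ.filter fun g : G => g⁻¹ • x = y).card) * Fintype.card X
        = O.card * Fintype.card G := by
      intro x _
      rw [sum_mul, sum_congr rfl fun y _ => card_moving x y, sum_const, smul_eq_mul]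
    rw [sum_congr rfl h4, sum_const, smul_eq_mul]
    ring
  have h2 : ∑ g : G, (C.filter fun x => g⁻¹ • x ∈ O).card * Fintype.card X
      < ∑ _g : G, C.card * O.card := by
    refine sum_lt_sum_of_nonempty ⟨1, mem_univ _⟩ fun g _ => hcon g
  rw [h1, sum_const, card_univ, smul_eq_mul] at h2
  exact lt_irrefl _ h2

open Classical in
theorem exists_common [Finite G] [Fintype X] {ι : Type*} (O : ι → Finset X) {m : ℕ}
    (hO : ∀ i, Fintype.card X ≤ 2 * m * (O i).card) (hO0 : ∀ i, 0 < (O i).card) (I : Finset ι) :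
    ∃ h : ι → G, Fintype.card X
      ≤ (univ.filter fun x => ∀ i ∈ I, (h i)⁻¹ • x ∈ O i).card * (2 * m) ^ I.card := by
  induction I using Finset.induction_on with
  | empty =>
    refine ⟨fun _ => 1, ?_⟩
    simp
  | insert a I ha ih =>
    obtain ⟨h, hh⟩ := ih
    set C := univ.filter fun x => ∀ i ∈ I, (h i)⁻¹ • x ∈ O i with hC
    obtain ⟨g, hg⟩ := exists_large_inter (G := G) C (O a)
    refine ⟨Function.update h a g, ?_⟩
    have h1 : (univ.filter fun x => ∀ i ∈ insert a I, (Function.update h a g i)⁻¹ • x ∈ O i)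
        = C.filter fun x => g⁻¹ • x ∈ O a := by
      ext x
      simp only [hC, mem_filter, mem_univ, true_and, mem_insert, forall_eq_or_imp,
        Function.update_self]
      constructor
      · rintro ⟨h2, h3⟩
        refine ⟨fun i hi => ?_, h2⟩
        have := h3 i hi
        rwa [Function.update_of_ne (by rintro rfl; exact ha hi)] at this
      · rintro ⟨h2, h3⟩
        refine ⟨h3, fun i hi => ?_⟩
        rw [Function.update_of_ne (by rintro rfl; exact ha hi)]
        exact h2 i hi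
    rw [h1, card_insert_of_notMem ha, pow_succ]
    set D := (C.filter fun x => g⁻¹ • x ∈ O a).card with hD
    have h2 : C.card ≤ D * (2 * m) := by
      have h3 : C.card * (O a).card ≤ D * (2 * m) * (O a).card :=
        calc C.card * (O a).card ≤ D * Fintype.card X := hg
          _ ≤ D * (2 * m * (O a).card) := Nat.mul_le_mul_left _ (hO a)
          _ = _ := by ring
      exact Nat.le_of_mul_le_mul_right h3 (hO0 a)
    calc Fintype.card X ≤ C.card * (2 * m) ^ I.card := hh
      _ ≤ D * (2 * m) * (2 * m) ^ I.card := Nat.mul_le_mul_right _ h2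
      _ = _ := by ring

/-- Upper bound for the middle binomial coefficient. -/
theorem centralBinom_sq_le (j : ℕ) : (Nat.centralBinom j) ^ 2 * (3 * j + 1) ≤ 16 ^ j := by
  induction j with
  | zero => simp
  | succ j ih =>
    have h1 := Nat.succ_mul_centralBinom_succ j
    have h2 : (j + 1) ^ 2 * ((Nat.centralBinom (j + 1)) ^ 2 * (3 * (j + 1) + 1))
        ≤ (j + 1) ^ 2 * 16 ^ (j + 1) := by
      calc (j + 1) ^ 2 * ((Nat.centralBinom (j + 1)) ^ 2 * (3 * (j + 1) + 1))
          = ((j + 1) * Nat.centralBinom (j + 1)) ^ 2 * (3 * j + 4) := by ring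
        _ = (2 * (2 * j + 1) * Nat.centralBinom j) ^ 2 * (3 * j + 4) := by rw [h1]
        _ = 4 * ((2 * j + 1) ^ 2 * (3 * j + 4)) * (Nat.centralBinom j) ^ 2 := by ring
        _ ≤ 4 * (4 * (j + 1) ^ 2 * (3 * j + 1)) * (Nat.centralBinom j) ^ 2 := by
            have h3 : (2 * j + 1) ^ 2 * (3 * j + 4) ≤ 4 * (j + 1) ^ 2 * (3 * j + 1) := by
              nlinarith
            exact Nat.mul_le_mul_right _ (Nat.mul_le_mul_left _ h3)
        _ = 16 * (j + 1) ^ 2 * ((Nat.centralBinom j) ^ 2 * (3 * j + 1)) := by ring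
        _ ≤ 16 * (j + 1) ^ 2 * 16 ^ j := by gcongr
        _ = _ := by ring
    exact Nat.le_of_mul_le_mul_left h2 (by positivity)

theorem choose_half_sq_le (κ : ℕ) : (κ.choose (κ / 2)) ^ 2 * (3 * κ + 2) ≤ 2 * 4 ^ κ := by
  rcases Nat.even_or_odd' κ with ⟨j, rfl | rfl⟩
  · have h1 := centralBinom_sq_le j
    have h2 : (2 * j).choose (2 * j / 2) = Nat.centralBinom j := by
      rw [Nat.mul_div_cancel_left _ two_pos]; rfl
    rw [h2]
    have h3 : (4 : ℕ) ^ (2 * j) = 16 ^ j := by rw [pow_mul]; norm_num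
    rw [h3]
    nlinarith
  · have h1 := centralBinom_sq_le (j + 1)
    have h2 : 2 * (2 * j + 1).choose ((2 * j + 1) / 2) = Nat.centralBinom (j + 1) := by
      have h3 : (2 * j + 1) / 2 = j := by omega
      rw [h3, Nat.centralBinom_eq_two_mul_choose]
      have h4 : 2 * (j + 1) = (2 * j + 1) + 1 := by ring
      rw [h4, Nat.choose_succ_succ]
      have h5 : (2 * j + 1).choose (j + 1) = (2 * j + 1).choose j :=
        Nat.choose_symm_of_eq_add (by ring)
      rw [Nat.succ_eq_add_one, h5]; ring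
    rw [← h2] at h1
    have h3 : (16 : ℕ) ^ (j + 1) = 4 * 4 ^ (2 * j + 1) := by
      rw [show (16 : ℕ) = 4 ^ 2 by norm_num, ← pow_mul]
      rw [show 2 * (j + 1) = (2 * j + 1) + 1 by ring, pow_succ]; ring
    rw [h3] at h1
    nlinarith

/-- Counting by the degree of a characteristic polynomial. -/
theorem count_det {X ι : Type*} [DecidableEq X] [Fintype ι] [DecidableEq ι] {ℓ : ℕ}
    [hℓ : Fact ℓ.Prime] (hodd : ℓ ≠ 2) {R C' : Finset X} (hC : C' ⊆ R) (hκ : C'.card < ℓ)
    (D : Finset (Finset X)) (A : Finset X → Matrix ι ι (ZMod ℓ))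
    (hdet : ∀ Φ ∈ D, (A Φ).det = 0)
    (hN : ∀ Φ ∈ D, ∀ Φ' ∈ D, Φ ∩ (R \ C') = Φ' ∩ (R \ C') →
      A Φ - Matrix.scalar ι (2 * ((Φ ∩ C').card : ZMod ℓ) - (C'.card : ZMod ℓ))
        = A Φ' - Matrix.scalar ι (2 * ((Φ' ∩ C').card : ZMod ℓ) - (C'.card : ZMod ℓ)))
    (hinj : ∀ Φ ∈ D, ∀ Φ' ∈ D, Φ ∩ R = Φ' ∩ R → Φ = Φ') :
    D.card ≤ (Fintype.card ι * C'.card.choose (C'.card / 2)) * 2 ^ (R.card - C'.card) := by
  classical
  have h1 := Finset.card_le_mul_card_image (f := fun Φ => Φ ∩ (R \ C')) D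
    (Fintype.card ι * C'.card.choose (C'.card / 2)) ?_
  · refine h1.trans (Nat.mul_le_mul_left _ ?_)
    have h2 : D.image (fun Φ => Φ ∩ (R \ C')) ⊆ (R \ C').powerset := by
      intro t ht
      obtain ⟨Φ, -, rfl⟩ := mem_image.1 ht
      rw [mem_powerset]
      exact inter_subset_right
    have h3 := card_le_card h2
    rwa [card_powerset, card_sdiff_of_subset hC] at h3
  · intro t ht
    obtain ⟨Φ₀, hΦ₀, rfl⟩ := mem_image.1 ht
    set N := A Φ₀ - Matrix.scalar ι (2 * ((Φ₀ ∩ C').card : ZMod ℓ) - (C'.card : ZMod ℓ)) with hNdef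
    set P := (-N).charpoly with hP
    have hPm : P.Monic := Matrix.charpoly_monic _
    let V : Finset ℕ := (range (C'.card + 1)).filter fun v =>
      (2 * (v : ZMod ℓ) - (C'.card : ZMod ℓ)) ∈ P.roots.toFinset
    have hV : V.card ≤ Fintype.card ι := by
      have h2 : V.card ≤ P.roots.toFinset.card := by
        refine card_le_card_of_injOn (fun v => (2 * (v : ZMod ℓ) - (C'.card : ZMod ℓ)))
          (fun v hv => mem_coe.2 (mem_filter.1 hv).2) ?_
        intro v hv v' hv' hvv
        have hv1 := mem_range.1 (mem_filter.1 hv).1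
        have hv1' := mem_range.1 (mem_filter.1 hv').1
        have h3 : (2 : ZMod ℓ) * (v : ZMod ℓ) = 2 * (v' : ZMod ℓ) := sub_left_injective hvv
        have h4 : (2 : ZMod ℓ) ≠ 0 := by
          intro h5
          have h6 : ((2 : ℕ) : ZMod ℓ) = 0 := by exact_mod_cast h5
          rw [ZMod.natCast_eq_zero_iff] at h6
          exact hodd ((Nat.prime_dvd_prime_iff_eq hℓ.out Nat.prime_two).1 h6)
        have h5 := mul_left_cancel₀ h4 h3
        rw [ZMod.natCast_eq_natCast_iff] at h5
        exact Nat.ModEq.eq_of_lt_of_lt h5 (by omega) (by omega)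
      refine h2.trans ((Multiset.toFinset_card_le _).trans ((Polynomial.card_roots' _).trans ?_))
      rw [Matrix.charpoly_natDegree_eq_dim]
    have h2 : (D.filter fun Φ => Φ ∩ (R \ C') = Φ₀ ∩ (R \ C')).card
        ≤ (V.biUnion fun v => powersetCard v C').card := by
      refine card_le_card_of_injOn (fun Φ => Φ ∩ C') ?_ ?_
      · intro Φ hΦ
        obtain ⟨hΦD, hΦt⟩ := mem_filter.1 (mem_coe.1 hΦ)
        rw [mem_coe, mem_biUnion]
        refine ⟨(Φ ∩ C').card, ?_, mem_powersetCard.2 ⟨inter_subset_right, rfl⟩⟩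
        rw [mem_filter, mem_range]
        refine ⟨Nat.lt_succ_of_le (card_le_card inter_subset_right), ?_⟩
        rw [Multiset.mem_toFinset, Polynomial.mem_roots hPm.ne_zero, Polynomial.IsRoot.def,
          hP, Matrix.eval_charpoly, sub_neg_eq_add, hNdef,
          ← hN Φ hΦD Φ₀ hΦ₀ hΦt, add_sub_cancel]
        exact hdet Φ hΦD
      · intro Φ hΦ Φ' hΦ' h3
        obtain ⟨hΦD, hΦt⟩ := mem_filter.1 (mem_coe.1 hΦ)
        obtain ⟨hΦD', hΦt'⟩ := mem_filter.1 (mem_coe.1 hΦ')
        have h3' : Φ ∩ C' = Φ' ∩ C' := h3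
        refine hinj Φ hΦD Φ' hΦD' ?_
        have h4 : R = C' ∪ (R \ C') := (union_sdiff_of_subset hC).symm
        rw [h4, inter_union_distrib_left, inter_union_distrib_left, h3', hΦt, hΦt']
    refine h2.trans (card_biUnion_le.trans ?_)
    calc ∑ v ∈ V, (powersetCard v C').card ≤ ∑ _v ∈ V, C'.card.choose (C'.card / 2) := by
          refine sum_le_sum fun v _ => ?_
          rw [card_powersetCard]
          exact Nat.choose_le_middle v _
      _ = V.card * C'.card.choose (C'.card / 2) := by rw [sum_const, smul_eq_mul]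
      _ ≤ _ := Nat.mul_le_mul_right _ hV

end Tools

end Pool.MP43e44c
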