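import Pool.Agent.H.MP_43e44c_ag.Large

/-!
The bound for the number of half systems with a nonzero relation for a transitive group, in terms
of the orbits of an `ℓ`-subgroup.
-/

set_option autoImplicit false

open Finset

namespace Pool.MP43e44c

section LargeMain

variable {G X : Type*} [Group G] [Finite G] [MulAction G X] [MulAction.IsPretransitive G X]
  [Fintype X]

open Classical in
/-- The matrix of signed sums over the translates of the orbits. -/
noncomputable def amat (ℓ : ℕ) {ι : Type*} (O : ι → Finset X) (h : ι → G) (Φ : Finset X) :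
    Matrix ι ι (ZMod ℓ) :=
  Matrix.of fun i j => ∑ x ∈ univ.filter (fun x => (h i)⁻¹ • x ∈ O j), ((sg Φ x : ℤ) : ZMod ℓ)

open Classical in
theorem large_core {ℓ : ℕ} [hℓ : Fact ℓ.Prime] (hodd : ℓ ≠ 2) {c : X → X}
    (hcc : ∀ x, c (c x) = x) (hcg : ∀ (g : G) x, g • c x = c (g • x))
    (P : Subgroup G) (hP : IsPGroup ℓ P) {ι : Type*} [Fintype ι] [Nonempty ι] (O : ι → Finset X)
    (hOP : ∀ i, ∀ x ∈ O i, ∀ y ∈ O i, y ∈ MulAction.orbit P x) (hOne : ∀ i, (O i).Nonempty)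
    (hOO : ∀ i j x, x ∈ O i → x ∈ O j → i = j) (hcO : ∀ i j x, x ∈ O i → c x ∉ O j)
    (hcov : ∀ x, (∃ i, x ∈ O i) ∨ ∃ i, c x ∈ O i) (h : ι → G) (C : Finset X)
    (hCO : ∀ x ∈ C, ∀ i, (h i)⁻¹ • x ∈ O i) {N M D : ℕ} (hX : Nat.card X = 2 * N)
    (hι : Fintype.card ι ≤ M) (hD : ℓ ≤ C.card * D) (hD1 : 1 ≤ D) :
    {Φ : Finset X | (∀ x, x ∈ Φ ↔ c x ∉ Φ) ∧ ∃ f ∈ lat G c Φ, f ≠ 0}.ncard ^ 2 * (4 * ℓ)
      ≤ 4 * M ^ 2 * D * 4 ^ N := by
  have hXF : Fintype.card X = 2 * N := by rw [← hX, Nat.card_eq_fintype_card]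
  obtain ⟨C', hC'C, hC'card⟩ := exists_subset_card_eq (s := C) (n := min C.card (ℓ - 1))
    (min_le_left _ _)
  set κ := min C.card (ℓ - 1) with hκ
  have hκℓ : κ < ℓ := by
    have := hℓ.out.pos
    have h1 : κ ≤ ℓ - 1 := min_le_right _ _
    omega
  have hC'O : ∀ x ∈ C', ∀ i, (h i)⁻¹ • x ∈ O i := fun x hx i => hCO x (hC'C hx) i
  obtain ⟨i₀⟩ : Nonempty ι := inferInstance
  have hC'c : ∀ x ∈ C', c x ∉ C' := by
    intro x hx hcx
    have h1 := hC'O x hx i₀
    have h2 := hC'O (c x) hcx i₀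
    rw [hcg] at h2
    exact hcO i₀ i₀ _ h1 h2
  -- the half system of the orbits
  let S : X → Prop := fun x => ∃ i, x ∈ O i
  have hS : ∀ x, S x ↔ ¬ S (c x) := by
    intro x
    constructor
    · rintro ⟨i, hi⟩ ⟨j, hj⟩
      exact hcO i j x hi hj
    · intro h1
      exact (hcov x).resolve_right h1
  -- the adapted half system
  let R : Finset X := univ.filter fun x => x ∈ C' ∨ (c x ∉ C' ∧ S x)
  have hRmem : ∀ x, x ∈ R ↔ (x ∈ C' ∨ (c x ∉ C' ∧ S x)) := fun x => by simp [R]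
  have hR : ∀ x, x ∈ R ↔ c x ∉ R := by
    intro x
    rw [hRmem, hRmem, hcc]
    have h1 := hC'c x
    have h2 := hS x
    tauto
  have hC'R : C' ⊆ R := fun x hx => (hRmem x).2 (Or.inl hx)
  have hRcard : R.card = N := by
    have h10 := sum_half hcc hR (fun _ => 1) (fun _ => rfl)
    simp only [sum_const, card_univ, nsmul_eq_mul, mul_one] at h10
    rw [hXF] at h10
    push_cast at h10
    have h11 : ((N : ℕ) : ℤ) = R.card := by linarith
    exact_mod_cast h11.symm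
  -- the bad half systems
  set B : Set (Finset X) := {Φ | (∀ x, x ∈ Φ ↔ c x ∉ Φ) ∧ ∃ f ∈ lat G c Φ, f ≠ 0} with hB
  let D' : Finset (Finset X) := (Set.toFinite B).toFinset
  have hDmem : ∀ Φ, Φ ∈ D' ↔ Φ ∈ B := fun Φ => Set.Finite.mem_toFinset _
  have hdet : ∀ Φ ∈ D', (amat ℓ O h Φ).det = 0 := by
    intro Φ hΦD
    obtain ⟨hΦ, hL⟩ := (hDmem Φ).1 hΦD
    obtain ⟨f, hf, ⟨x₁, hx₁⟩, hfix⟩ := exists_fixed (P := P) (X := X) hP
      (lat G c Φ) (fun σ f hf => lat_smul hcg (σ : G) hf)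
      (fun f hf => lat_sat hℓ.out.ne_zero hf) hL
    -- values on the orbits
    let a : ι → ZMod ℓ := fun j => ((f (hOne j).choose : ℤ) : ZMod ℓ)
    have hfa : ∀ j x, x ∈ O j → ((f x : ℤ) : ZMod ℓ) = a j := by
      intro j x hx
      obtain ⟨σ, hσ⟩ := hOP j _ (hOne j).choose_spec x hx
      have h2 := hfix σ (hOne j).choose
      rw [← ZMod.intCast_zmod_eq_zero_iff_dvd] at h2
      push_cast at h2
      rw [sub_eq_zero] at h2
      have h3 : σ • (hOne j).choose = x := hσ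
      rw [h3] at h2
      exact h2
    rw [← Matrix.exists_mulVec_eq_zero_iff]
    refine ⟨a, ?_, ?_⟩
    · intro ha
      apply hx₁
      rw [← ZMod.intCast_zmod_eq_zero_iff_dvd]
      rcases hcov x₁ with ⟨j, hj⟩ | ⟨j, hj⟩
      · rw [hfa j x₁ hj, ha]; rfl
      · have h3 := hfa j (c x₁) hj
        rw [ha, hf.1] at h3
        push_cast at h3
        exact neg_eq_zero.1 h3
    · funext i
      rw [Matrix.mulVec, dotProduct, Pi.zero_apply]
      have hrel := hf.2 (h i)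
      have h1 := sum_half hcc (Φ := univ.filter fun x => S x) (fun x => by
        simp only [mem_filter, mem_univ, true_and]
        exact hS x) (fun x => f x * sg Φ (h i • x)) (fun x => by
          show f (c x) * sg Φ (h i • c x) = _
          rw [hcg, sg_conj hΦ, hf.1, neg_mul_neg])
      rw [hrel] at h1
      have h2 : ∑ x ∈ univ.filter (fun x => S x), f x * sg Φ (h i • x) = 0 := by omega
      have h3 : ∑ x ∈ univ.filter (fun x => S x), ((f x * sg Φ (h i • x) : ℤ) : ZMod ℓ)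
          = 0 := by
        rw [← Int.cast_sum, h2, Int.cast_zero]
      have h4 : ∑ x ∈ univ.filter (fun x => S x), ((f x * sg Φ (h i • x) : ℤ) : ZMod ℓ)
          = ∑ j : ι, ∑ x ∈ O j, ((f x * sg Φ (h i • x) : ℤ) : ZMod ℓ) := by
        rw [← sum_biUnion]
        · refine sum_congr ?_ fun _ _ => rfl
          ext x
          simp only [mem_filter, mem_univ, true_and, mem_biUnion]
          rfl
        · intro j _ j' _ hjj
          rw [Function.onFun, Finset.disjoint_left]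
          intro x hx hx'
          exact hjj (hOO j j' x hx hx')
      rw [← h3, h4]
      refine sum_congr rfl fun j _ => ?_
      have h5 : ∀ x ∈ O j, ((f x * sg Φ (h i • x) : ℤ) : ZMod ℓ)
          = a j * ((sg Φ (h i • x) : ℤ) : ZMod ℓ) := by
        intro x hx
        push_cast
        rw [hfa j x hx]
      rw [sum_congr rfl h5, ← mul_sum, mul_comm]
      congr 1
      show ∑ x ∈ univ.filter (fun x => (h i)⁻¹ • x ∈ O j), ((sg Φ x : ℤ) : ZMod ℓ) = _
      refine sum_nbij' (fun x => (h i)⁻¹ • x) (fun x => h i • x) ?_ ?_ ?_ ?_ ?_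
      · intro x hx
        exact (mem_filter.1 hx).2
      · intro x hx
        rw [mem_filter, inv_smul_smul]
        exact ⟨mem_univ _, hx⟩
      · intro x _
        exact smul_inv_smul _ _
      · intro x _
        exact inv_smul_smul _ _
      · intro x _
        rw [smul_inv_smul]
  -- the decomposition
  have hsum : ∀ Φ : Finset X, ∑ x ∈ C', ((sg Φ x : ℤ) : ZMod ℓ)
      = 2 * ((Φ ∩ C').card : ZMod ℓ) - (C'.card : ZMod ℓ) := by
    intro Φ
    have h9 : ∀ x ∈ C', ((sg Φ x : ℤ) : ZMod ℓ) = (if x ∈ Φ then (2 : ZMod ℓ) else 0) - 1 := by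
      intro x _
      by_cases h : x ∈ Φ
      · rw [sg_mem h, if_pos h]; push_cast; ring
      · rw [sg_notMem h, if_neg h]; push_cast; ring
    rw [sum_congr rfl h9, sum_sub_distrib, ← sum_filter, sum_const, sum_const]
    have h10 : C'.filter (fun x => x ∈ Φ) = Φ ∩ C' := by
      ext x; simp [and_comm]
    rw [h10]
    simp only [nsmul_eq_mul, mul_one]
    ring
  have hNent : ∀ (Φ : Finset X) (i j : ι),
      (amat ℓ O h Φ - Matrix.scalar ι (2 * ((Φ ∩ C').card : ZMod ℓ) - (C'.card : ZMod ℓ))) i j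
        = ∑ x ∈ univ.filter (fun x => (h i)⁻¹ • x ∈ O j ∧ x ∉ C'), ((sg Φ x : ℤ) : ZMod ℓ) := by
    intro Φ i j
    have h1 : amat ℓ O h Φ i j
        = ∑ x ∈ univ.filter (fun x => (h i)⁻¹ • x ∈ O j ∧ x ∉ C'), ((sg Φ x : ℤ) : ZMod ℓ)
          + ∑ x ∈ univ.filter (fun x => (h i)⁻¹ • x ∈ O j ∧ x ∈ C'), ((sg Φ x : ℤ) : ZMod ℓ) := by
      show ∑ x ∈ univ.filter (fun x => (h i)⁻¹ • x ∈ O j), ((sg Φ x : ℤ) : ZMod ℓ) = _
      rw [← sum_filter_add_sum_filter_not (univ.filter (fun x => (h i)⁻¹ • x ∈ O j))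
        (fun x => x ∉ C'), filter_filter, filter_filter]
      simp only [not_not]
    rw [Matrix.sub_apply, h1, Matrix.scalar_apply, ← hsum Φ]
    by_cases hij : i = j
    · subst hij
      rw [Matrix.diagonal_apply_eq]
      have h2 : univ.filter (fun x => (h i)⁻¹ • x ∈ O i ∧ x ∈ C') = C' := by
        ext x
        simp only [mem_filter, mem_univ, true_and, and_iff_right_iff_imp]
        exact fun hx => hC'O x hx i
      rw [h2, add_sub_cancel_right]
    · rw [Matrix.diagonal_apply_ne _ hij, sub_zero]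
      have h2 : univ.filter (fun x => (h i)⁻¹ • x ∈ O j ∧ x ∈ C') = ∅ := by
        rw [filter_eq_empty_iff]
        rintro x - ⟨h3, h4⟩
        exact hij (hOO i j _ (hC'O x h4 i) h3)
      rw [h2, sum_empty, add_zero]
  have hN : ∀ Φ ∈ D', ∀ Φ' ∈ D', Φ ∩ (R \ C') = Φ' ∩ (R \ C') →
      amat ℓ O h Φ - Matrix.scalar ι (2 * ((Φ ∩ C').card : ZMod ℓ) - (C'.card : ZMod ℓ))
        = amat ℓ O h Φ' - Matrix.scalar ι (2 * ((Φ' ∩ C').card : ZMod ℓ) - (C'.card : ZMod ℓ)) := by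
    intro Φ hΦD Φ' hΦD' hagree
    obtain ⟨hΦ, -⟩ := (hDmem Φ).1 hΦD
    obtain ⟨hΦ', -⟩ := (hDmem Φ').1 hΦD'
    have hmem : ∀ x, x ∈ R → x ∉ C' → (x ∈ Φ ↔ x ∈ Φ') := by
      intro x hx hx'
      have h1 : x ∈ Φ ∩ (R \ C') ↔ x ∈ Φ' ∩ (R \ C') := by rw [hagree]
      simpa [hx, hx'] using h1
    ext i j
    rw [hNent, hNent]
    refine sum_congr rfl fun x hx => ?_
    obtain ⟨-, hxO, hxC⟩ := mem_filter.1 hx
    have hcxC : c x ∉ C' := by
      intro h1
      have h2 := hC'O _ h1 i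
      rw [hcg] at h2
      exact hcO j i _ hxO h2
    have hsg : sg Φ x = sg Φ' x := by
      by_cases hxR : x ∈ R
      · have h1 := hmem x hxR hxC
        by_cases h2 : x ∈ Φ
        · rw [sg_mem h2, sg_mem (h1.1 h2)]
        · rw [sg_notMem h2, sg_notMem fun h3 => h2 (h1.2 h3)]
      · have hcxR : c x ∈ R := by
          by_contra h3; exact hxR ((hR x).2 h3)
        have h1 := hmem (c x) hcxR hcxC
        have h3 : x ∈ Φ ↔ x ∈ Φ' := by
          rw [hΦ x, hΦ' x]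
          exact not_congr h1
        by_cases h2 : x ∈ Φ
        · rw [sg_mem h2, sg_mem (h3.1 h2)]
        · rw [sg_notMem h2, sg_notMem fun h4 => h2 (h3.2 h4)]
    rw [hsg]
  have hinj : ∀ Φ ∈ D', ∀ Φ' ∈ D', Φ ∩ R = Φ' ∩ R → Φ = Φ' := by
    intro Φ hΦD Φ' hΦD' hagree
    obtain ⟨hΦ, -⟩ := (hDmem Φ).1 hΦD
    obtain ⟨hΦ', -⟩ := (hDmem Φ').1 hΦD'
    have hmem : ∀ x, x ∈ R → (x ∈ Φ ↔ x ∈ Φ') := by
      intro x hx
      have h1 : x ∈ Φ ∩ R ↔ x ∈ Φ' ∩ R := by rw [hagree]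
      simpa [hx] using h1
    ext x
    by_cases hxR : x ∈ R
    · exact hmem x hxR
    · have hcxR : c x ∈ R := by
        by_contra h3; exact hxR ((hR x).2 h3)
      rw [hΦ x, hΦ' x]
      exact not_congr (hmem _ hcxR)
  have hcount := count_det hodd hC'R (by rw [hC'card]; exact hκℓ) D' (amat ℓ O h) hdet hN hinj
  rw [hC'card, hRcard] at hcount
  have hBD : B.ncard = D'.card := by
    rw [← Set.ncard_coe_finset]
    congr 1
    ext Φ
    rw [mem_coe, hDmem]
  rw [hBD]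
  -- numerical estimate
  have hκR : κ ≤ N := by
    rw [← hRcard, ← hC'card]
    exact card_le_card hC'R
  have h1 := choose_half_sq_le κ
  have h2 : D'.card ^ 2 * (3 * κ + 2) ≤ 2 * M ^ 2 * 4 ^ N := by
    calc D'.card ^ 2 * (3 * κ + 2)
        ≤ ((Fintype.card ι * κ.choose (κ / 2)) * 2 ^ (N - κ)) ^ 2 * (3 * κ + 2) := by gcongr
      _ ≤ ((M * κ.choose (κ / 2)) * 2 ^ (N - κ)) ^ 2 * (3 * κ + 2) := by gcongr
      _ = M ^ 2 * (κ.choose (κ / 2) ^ 2 * (3 * κ + 2)) * 4 ^ (N - κ) := by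
          rw [show (4 : ℕ) = 2 ^ 2 by norm_num, ← pow_mul, mul_comm 2 (N - κ), pow_mul]
          ring
      _ ≤ M ^ 2 * (2 * 4 ^ κ) * 4 ^ (N - κ) := by gcongr
      _ = 2 * M ^ 2 * (4 ^ κ * 4 ^ (N - κ)) := by ring
      _ = _ := by rw [← pow_add, Nat.add_sub_cancel' hκR]
  have h3 : 2 * ℓ ≤ (3 * κ + 2) * D := by
    rcases le_total C.card (ℓ - 1) with h4 | h4
    · have h5 : κ = C.card := min_eq_left h4
      rw [h5]
      calc 2 * ℓ ≤ 3 * (C.card * D) := by omega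
        _ ≤ (3 * C.card + 2) * D := by nlinarith
    · have h5 : κ = ℓ - 1 := min_eq_right h4
      rw [h5]
      have h6 := hℓ.out.two_le
      calc 2 * ℓ ≤ (3 * (ℓ - 1) + 2) * 1 := by omega
        _ ≤ _ := Nat.mul_le_mul_left _ hD1
  have h5 : D'.card ^ 2 * (4 * ℓ) * (3 * κ + 2) ≤ 4 * M ^ 2 * D * 4 ^ N * (3 * κ + 2) := by
    calc D'.card ^ 2 * (4 * ℓ) * (3 * κ + 2)
        = (D'.card ^ 2 * (3 * κ + 2)) * (2 * (2 * ℓ)) := by ring
      _ ≤ (2 * M ^ 2 * 4 ^ N) * (2 * ((3 * κ + 2) * D)) := by gcongr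
      _ = _ := by ring
  exact Nat.le_of_mul_le_mul_right h5 (by omega)

end LargeMain

end Pool.MP43e44c
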