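import Pool.Agent.H.MP_43e44c_ag.Lat

/-!
Translates of an odd function of small support on a transitive set: triangular systems, the
dimension of the orthogonal space and the number of half systems orthogonal to all translates.
-/

set_option autoImplicit false

open Finset

namespace Pool.MP43e44c

section Tri

variable {G X : Type*} [Group G] [MulAction G X] [MulAction.IsPretransitive G X] [Fintype X]
  {c : X → X} {Ψ : Finset X}

theorem card_half (hcc : ∀ x, c (c x) = x) (hΨ : ∀ x, x ∈ Ψ ↔ c x ∉ Ψ) :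
    Fintype.card X = 2 * Ψ.card := by
  have h := sum_half hcc hΨ (fun _ => 1) (fun _ => rfl)
  simp only [sum_const, card_univ, nsmul_eq_mul, mul_one] at h
  exact_mod_cast h

open Classical in
/-- A triangular system of translates. -/
theorem exists_triangular (hcg : ∀ (g : G) x, g • c x = c (g • x))
    (hcc : ∀ x, c (c x) = x) (hΨ : ∀ x, x ∈ Ψ ↔ c x ∉ Ψ) {F : X → ℤ} (hF : ∀ x, F (c x) = - F x)
    (hF0 : F ≠ 0) {s : ℕ} (hs : (univ.filter fun x => F x ≠ 0).card ≤ 2 * s) (r : ℕ)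
    (hr : s * (r - 1) < Ψ.card) :
    ∃ (g : Fin r → G) (x : Fin r → X), (∀ i, x i ∈ Ψ) ∧ (∀ i, F (g i • x i) ≠ 0) ∧
      ∀ i j, j < i → F (g j • x i) = 0 := by
  obtain ⟨y₀, hy₀⟩ := Function.ne_iff.1 hF0
  simp only [Pi.zero_apply] at hy₀
  induction r with
  | zero => exact ⟨Fin.elim0, Fin.elim0, fun i => i.elim0, fun i => i.elim0, fun i => i.elim0⟩
  | succ r ih =>
    obtain ⟨g, x, hx1, hx2, hx3⟩ := ih (lt_of_le_of_lt (Nat.mul_le_mul_left s (by omega)) hr)
    rw [Nat.add_sub_cancel] at hr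
    let T : Finset X := univ.biUnion fun j : Fin r => univ.filter fun y => F (g j • y) ≠ 0
    have hT : T.card < Fintype.card X := by
      have h1 : T.card ≤ ∑ _j : Fin r, 2 * s := by
        refine card_biUnion_le.trans (sum_le_sum fun j _ => ?_)
        refine le_trans (le_of_eq ?_) hs
        refine card_bij (fun y _ => g j • y) ?_ ?_ ?_
        · intro y hy
          rw [mem_filter] at hy ⊢
          exact ⟨mem_univ _, hy.2⟩
        · intro y _ y' _ h
          exact MulAction.injective (g j) h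
        · intro y hy
          refine ⟨(g j)⁻¹ • y, ?_, smul_inv_smul _ _⟩
          rw [mem_filter] at hy ⊢
          exact ⟨mem_univ _, by rw [smul_inv_smul]; exact hy.2⟩
      rw [sum_const, card_univ, Fintype.card_fin, smul_eq_mul] at h1
      rw [card_half hcc hΨ]
      nlinarith
    obtain ⟨z, hz⟩ : ∃ z, z ∉ T := by
      by_contra hcon
      push Not at hcon
      have : T = univ := eq_univ_of_forall hcon
      rw [this, card_univ] at hT
      exact lt_irrefl _ hT
    have hz0 : ∀ j, F (g j • z) = 0 := by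
      intro j
      by_contra h
      exact hz (mem_biUnion.2 ⟨j, mem_univ _, mem_filter.2 ⟨mem_univ _, h⟩⟩)
    obtain ⟨z', hz'Ψ, hz'⟩ : ∃ z' ∈ Ψ, ∀ j, F (g j • z') = 0 := by
      by_cases h : z ∈ Ψ
      · exact ⟨z, h, hz0⟩
      · refine ⟨c z, by by_contra h2; exact h ((hΨ z).2 h2), fun j => ?_⟩
        rw [hcg, hF, hz0, neg_zero]
    obtain ⟨g', hg'⟩ := MulAction.exists_smul_eq G z' y₀
    refine ⟨Fin.snoc g g', Fin.snoc x z', ?_, ?_, ?_⟩
    · intro i
      refine Fin.lastCases ?_ (fun i => ?_) i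
      · rw [Fin.snoc_last]; exact hz'Ψ
      · rw [Fin.snoc_castSucc]; exact hx1 i
    · intro i
      refine Fin.lastCases ?_ (fun i => ?_) i
      · rw [Fin.snoc_last, Fin.snoc_last, hg']; exact hy₀
      · rw [Fin.snoc_castSucc, Fin.snoc_castSucc]; exact hx2 i
    · intro i j
      refine Fin.lastCases ?_ (fun i => ?_) i
      · refine Fin.lastCases ?_ (fun j => ?_) j
        · intro h; exact absurd h (lt_irrefl _)
        · intro _
          rw [Fin.snoc_last, Fin.snoc_castSucc]; exact hz' j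
      · refine Fin.lastCases ?_ (fun j => ?_) j
        · intro h
          exact absurd h (not_lt.2 (Fin.le_last _))
        · intro h
          rw [Fin.snoc_castSucc, Fin.snoc_castSucc]
          exact hx3 i j (by simpa using h)

theorem sum_half' {R : Type*} [CommRing R] (hcc : ∀ x, c (c x) = x)
    (hΨ : ∀ x, x ∈ Ψ ↔ c x ∉ Ψ) (F : X → R) (hF : ∀ x, F (c x) = F x) :
    ∑ x, F x = 2 * ∑ x ∈ Ψ, F x := by
  classical
  have h1 : ∑ x ∈ Ψᶜ, F x = ∑ x ∈ Ψ, F x := by
    refine sum_nbij' c c ?_ ?_ (fun x _ => hcc x) (fun x _ => hcc x) (fun x _ => (hF x).symm)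
    · intro x hx
      rw [mem_compl] at hx
      by_contra h2
      exact hx ((hΨ x).2 h2)
    · intro x hx
      rw [mem_compl]
      exact (hΨ x).1 hx
  rw [← sum_add_sum_compl Ψ, h1]
  ring

/-- Uniqueness of solutions of a triangular system. -/
theorem eq_zero_of_triangular (hcg : ∀ (g : G) x, g • c x = c (g • x))
    (hcc : ∀ x, c (c x) = x) (hΨ : ∀ x, x ∈ Ψ ↔ c x ∉ Ψ) {F : X → ℤ} (hF : ∀ x, F (c x) = - F x)
    {r : ℕ} {g : Fin r → G} {x : Fin r → X} (hx1 : ∀ i, x i ∈ Ψ) (hx2 : ∀ i, F (g i • x i) ≠ 0)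
    (hx3 : ∀ i j, j < i → F (g j • x i) = 0) {w : X → ℚ} (hw : ∀ y, w (c y) = - w y)
    (hw0 : ∀ g : G, ∑ y, (F (g • y) : ℚ) * w y = 0)
    (hv : ∀ y ∈ Ψ, (∀ i, y ≠ x i) → w y = 0) : w = 0 := by
  have h1 : ∀ g : G, ∑ y ∈ Ψ, (F (g • y) : ℚ) * w y = 0 := by
    intro g
    have h2 := sum_half' hcc hΨ (fun y => (F (g • y) : ℚ) * w y) (fun y => by
      show (F (g • c y) : ℚ) * w (c y) = _
      rw [hcg, hF, hw]; push_cast; ring)
    rw [hw0 g] at h2
    linarith
  have h2 : ∀ (m : ℕ) (i : Fin r), (i : ℕ) = m → w (x i) = 0 := by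
    intro m
    induction m using Nat.strong_induction_on with
    | _ m ih =>
      intro i hi
      have h3 := h1 (g i)
      rw [sum_eq_single (x i)] at h3
      · rcases mul_eq_zero.1 h3 with h4 | h4
        · exact absurd (by exact_mod_cast h4) (hx2 i)
        · exact h4
      · intro y hy hyi
        by_cases h4 : ∀ j, y ≠ x j
        · rw [hv y hy h4, mul_zero]
        · push Not at h4
          obtain ⟨j, rfl⟩ := h4
          rcases lt_trichotomy j i with h5 | h5 | h5
          · rw [ih j (by rw [← hi]; exact h5) j rfl, mul_zero]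
          · exact absurd (by rw [h5]) hyi
          · rw [hx3 j i h5]; simp
      · intro h4; exact absurd (hx1 i) h4
  have h3 : ∀ y ∈ Ψ, w y = 0 := by
    intro y hy
    by_cases h4 : ∀ j, y ≠ x j
    · exact hv y hy h4
    · push Not at h4
      obtain ⟨j, rfl⟩ := h4
      exact h2 j j rfl
  funext y
  by_cases hy : y ∈ Ψ
  · exact h3 y hy
  · have h4 : c y ∈ Ψ := by
      by_contra h5; exact hy ((hΨ y).2 h5)
    have h5 := h3 _ h4
    rw [hw, neg_eq_zero] at h5
    exact h5

theorem injective_of_triangular {F : X → ℤ} {r : ℕ} {g : Fin r → G} {x : Fin r → X}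
    (hx2 : ∀ i, F (g i • x i) ≠ 0) (hx3 : ∀ i j, j < i → F (g j • x i) = 0) :
    Function.Injective x := by
  intro i j hij
  rcases lt_trichotomy i j with h | h | h
  · exfalso
    have := hx3 j i h
    rw [← hij] at this
    exact hx2 i this
  · exact h
  · exfalso
    have := hx3 i j h
    rw [hij] at this
    exact hx2 j this

/-- The odd rational functions orthogonal to all translates of `F`. -/
def oddOrth (G : Type*) [Group G] [MulAction G X] (c : X → X) (F : X → ℤ) : Submodule ℚ (X → ℚ) where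
  carrier := {w | (∀ y, w (c y) = - w y) ∧ ∀ g : G, ∑ y, (F (g • y) : ℚ) * w y = 0}
  zero_mem' := ⟨fun y => by simp, fun g => by simp⟩
  add_mem' := by
    rintro w w' ⟨h1, h2⟩ ⟨h1', h2'⟩
    refine ⟨fun x => ?_, fun g => ?_⟩
    · rw [Pi.add_apply, Pi.add_apply, h1, h1']; ring
    · simp only [Pi.add_apply, mul_add, sum_add_distrib, h2, h2', add_zero]
  smul_mem' := by
    rintro a w ⟨h1, h2⟩
    refine ⟨fun x => ?_, fun g => ?_⟩
    · rw [Pi.smul_apply, Pi.smul_apply, h1, smul_neg]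
    · have : ∀ y, (F (g • y) : ℚ) * (a • w) y = a * ((F (g • y) : ℚ) * w y) := fun y => by
        rw [Pi.smul_apply, smul_eq_mul]; ring
      simp only [this, ← mul_sum, h2, mul_zero]

theorem finrank_oddOrth_le (hcg : ∀ (g : G) x, g • c x = c (g • x))
    (hcc : ∀ x, c (c x) = x) (hΨ : ∀ x, x ∈ Ψ ↔ c x ∉ Ψ) {F : X → ℤ} (hF : ∀ x, F (c x) = - F x)
    {r : ℕ} {g : Fin r → G} {x : Fin r → X} (hx1 : ∀ i, x i ∈ Ψ) (hx2 : ∀ i, F (g i • x i) ≠ 0)
    (hx3 : ∀ i j, j < i → F (g j • x i) = 0) :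
    Module.finrank ℚ (oddOrth G c F) + r ≤ Ψ.card := by
  classical
  let S : Finset X := Ψ \ univ.image x
  let ρ : oddOrth G c F →ₗ[ℚ] (S → ℚ) :=
    { toFun := fun w y => w.1 y
      map_add' := fun w w' => rfl
      map_smul' := fun a w => rfl }
  have hρ : Function.Injective ρ := by
    rw [injective_iff_map_eq_zero]
    rintro ⟨w, hw1, hw2⟩ h
    apply Subtype.ext
    refine eq_zero_of_triangular hcg hcc hΨ hF hx1 hx2 hx3 hw1 hw2 fun y hy hyx => ?_
    have hyS : y ∈ S := by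
      rw [mem_sdiff, mem_image]
      refine ⟨hy, ?_⟩
      rintro ⟨i, -, hi⟩
      exact hyx i hi.symm
    exact congrFun h ⟨y, hyS⟩
  have h1 := LinearMap.finrank_le_finrank_of_injective hρ
  rw [Module.finrank_fintype_fun_eq_card, Fintype.card_coe] at h1
  have h2 : S.card + r = Ψ.card := by
    have h3 : (univ.image x).card = r := by
      rw [card_image_of_injective _ (injective_of_triangular hx2 hx3), card_univ, Fintype.card_fin]
    have h4 : univ.image x ⊆ Ψ := by
      intro y hy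
      obtain ⟨i, -, rfl⟩ := mem_image.1 hy
      exact hx1 i
    have h5 := card_sdiff_add_card_eq_card h4
    rw [h3] at h5
    exact h5
  omega

theorem sg_mem_oddOrth {F : X → ℤ} {Φ : Finset X} (hcg : ∀ (g : G) x, g • c x = c (g • x))
    (hΦ : ∀ x, x ∈ Φ ↔ c x ∉ Φ) (hF : F ∈ lat G c Φ) (h : G) :
    (fun y => (sg Φ (h • y) : ℚ)) ∈ oddOrth G c F := by
  refine ⟨fun y => ?_, fun g => ?_⟩
  · show (sg Φ (h • c y) : ℚ) = _
    rw [hcg, sg_conj hΦ]; push_cast; rfl
  · have h1 := hF.2 (h * g⁻¹)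
    have h2 : ∑ y, (F (g • y) : ℚ) * (sg Φ (h • y) : ℚ) = ((∑ y, F y * sg Φ ((h * g⁻¹) • y) : ℤ) : ℚ) := by
      push_cast
      refine Fintype.sum_equiv (MulAction.toPerm g) _ _ fun y => ?_
      rw [MulAction.toPerm_apply, mul_smul, inv_smul_smul]
    rw [h2, h1]; rfl

open Classical in
/-- The number of half systems orthogonal to all translates of `F`. -/
theorem card_orth_le (hcg : ∀ (g : G) x, g • c x = c (g • x))
    (hcc : ∀ x, c (c x) = x) (hΨ : ∀ x, x ∈ Ψ ↔ c x ∉ Ψ) {F : X → ℤ} (hF : ∀ x, F (c x) = - F x)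
    {r : ℕ} {g : Fin r → G} {x : Fin r → X} (hx1 : ∀ i, x i ∈ Ψ) (hx2 : ∀ i, F (g i • x i) ≠ 0)
    (hx3 : ∀ i j, j < i → F (g j • x i) = 0) :
    (univ.filter fun Φ : Finset X => (∀ x, x ∈ Φ ↔ c x ∉ Φ) ∧ F ∈ lat G c Φ).card * 2 ^ r
      ≤ 2 ^ Ψ.card := by
  let S : Finset X := Ψ \ univ.image x
  have h2 : S.card + r = Ψ.card := by
    have h3 : (univ.image x).card = r := by
      rw [card_image_of_injective _ (injective_of_triangular hx2 hx3), card_univ, Fintype.card_fin]
    have h4 : univ.image x ⊆ Ψ := by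
      intro y hy
      obtain ⟨i, -, rfl⟩ := mem_image.1 hy
      exact hx1 i
    have h5 := card_sdiff_add_card_eq_card h4
    rw [h3] at h5
    exact h5
  rw [← h2, pow_add]
  refine Nat.mul_le_mul_right _ ?_
  rw [← card_powerset]
  refine card_le_card_of_injOn (fun Φ => Φ ∩ S) (fun Φ _ => ?_) ?_
  · rw [mem_coe, mem_powerset]; exact inter_subset_right
  · rintro Φ hΦ Φ' hΦ' h
    obtain ⟨-, hΦ1, hΦ2⟩ := mem_filter.1 (mem_coe.1 hΦ)
    obtain ⟨-, hΦ1', hΦ2'⟩ := mem_filter.1 (mem_coe.1 hΦ')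
    have h' : Φ ∩ S = Φ' ∩ S := h
    let w : X → ℚ := (fun y => (sg Φ ((1 : G) • y) : ℚ)) - (fun y => (sg Φ' ((1 : G) • y) : ℚ))
    have hw : w ∈ oddOrth G c F :=
      Submodule.sub_mem _ (sg_mem_oddOrth hcg hΦ1 hΦ2 1) (sg_mem_oddOrth hcg hΦ1' hΦ2' 1)
    have hw0 : w = 0 := by
      refine eq_zero_of_triangular hcg hcc hΨ hF hx1 hx2 hx3 hw.1 hw.2 fun y hy hyx => ?_
      have hyS : y ∈ S := by
        rw [mem_sdiff, mem_image]
        refine ⟨hy, ?_⟩
        rintro ⟨i, -, hi⟩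
        exact hyx i hi.symm
      have h3 : y ∈ Φ ∩ S ↔ y ∈ Φ' ∩ S := by rw [h']
      simp only [mem_inter, hyS, and_true] at h3
      simp only [w, Pi.sub_apply, one_smul, sub_eq_zero]
      by_cases h4 : y ∈ Φ
      · rw [sg_mem h4, sg_mem (h3.1 h4)]
      · rw [sg_notMem h4, sg_notMem (fun h5 => h4 (h3.2 h5))]
    ext y
    have h3 := congrFun hw0 y
    simp only [w, Pi.sub_apply, one_smul, sub_eq_zero, Pi.zero_apply] at h3
    have h3' : sg Φ y = sg Φ' y := by exact_mod_cast h3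
    by_cases h4 : y ∈ Φ
    · simp only [h4, true_iff]
      by_contra h5
      rw [sg_mem h4, sg_notMem h5] at h3'
      norm_num at h3'
    · simp only [h4, false_iff]
      intro h5
      rw [sg_notMem h4, sg_mem h5] at h3'
      norm_num at h3'

end Tri

end Pool.MP43e44c
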