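import Pool.Agent.H.MP_43e44c_ag.Disc
import Pool.Agent.H.MP_43e44c_ag.Tri

/-!
Hodge classes of low codimension or low dimension on the powers of a CM abelian variety.
-/

set_option autoImplicit false

open NumberField Finset

namespace Pool.MP43e44c

variable {K : Type*} [Field K] [NumberField K]

section Coef

variable {Φ : Finset (K →+* ℂ)} {ι : Type*} [Fintype ι] [DecidableEq ι]

theorem coef_perm {n k : ℕ} {b : Fin n → 𝓞 K} {d : Fin n → K}
    (ω : (Fin k → Φ → ℂ) [⋀^ι]→ₗ[ℝ] ℝ) (f : ι → Fin k) (h : ι → K →+* ℂ) (π : Equiv.Perm ι) :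
    coef Φ b d ω.toMultilinearMap (fun l => f (π l)) (fun l => h (π l))
      = ((Equiv.Perm.sign π : ℤ) : ℂ) * coef Φ b d ω.toMultilinearMap f h := by
  rw [coef, coef, mul_sum]
  refine Fintype.sum_equiv (Equiv.arrowCongr π (Equiv.refl (Fin n))) _ _ fun g => ?_
  have h1 : ∀ l, (Equiv.arrowCongr π (Equiv.refl (Fin n)) g) (π l) = g l := fun l => by
    simp [Equiv.arrowCongr]
  have h2 : ∏ l, h (π l) (d (g l)) = ∏ l, h l (d ((Equiv.arrowCongr π (Equiv.refl (Fin n)) g) l)) := by
    rw [← Equiv.prod_comp π (fun l => h l (d ((Equiv.arrowCongr π (Equiv.refl (Fin n)) g) l)))]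
    exact prod_congr rfl fun l _ => by rw [h1]
  have h3 : ω.toMultilinearMap (fun l => bvec Φ b (f (π l)) (g l))
      = ((Equiv.Perm.sign π : ℤ) : ℝ) * ω.toMultilinearMap
        (fun l => bvec Φ b (f l) ((Equiv.arrowCongr π (Equiv.refl (Fin n)) g) l)) := by
    have h4 : (fun l => bvec Φ b (f (π l)) (g l)) = (fun l => bvec Φ b (f l)
        ((Equiv.arrowCongr π (Equiv.refl (Fin n)) g) l)) ∘ π := by
      funext l
      rw [Function.comp_apply, h1]
    rw [h4]
    have h5 := ω.map_perm (fun l => bvec Φ b (f l)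
        ((Equiv.arrowCongr π (Equiv.refl (Fin n)) g) l)) π
    refine Eq.trans h5 ?_
    rcases Int.units_eq_one_or (Equiv.Perm.sign π) with h6 | h6 <;> rw [h6] <;> simp
  rw [h2, h3]
  push_cast
  ring

theorem coef_injective {n k : ℕ} {b : Fin n → 𝓞 K} {d : Fin n → K}
    (ω : (Fin k → Φ → ℂ) [⋀^ι]→ₗ[ℝ] ℝ) (f : ι → Fin k) (h : ι → K →+* ℂ)
    (h0 : coef Φ b d ω.toMultilinearMap f h ≠ 0) : Function.Injective fun l => (f l, h l) := by
  intro l l' hll
  by_contra hne
  apply h0
  have h1 := coef_perm (b := b) (d := d) ω f h (Equiv.swap l l')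
  have hf : (fun i => f (Equiv.swap l l' i)) = f := by
    funext i
    rcases Equiv.swap_apply_eq_iff.1 (rfl : Equiv.swap l l' i = Equiv.swap l l' i) with _
    by_cases h2 : i = l
    · rw [h2, Equiv.swap_apply_left]; exact (congrArg Prod.fst hll).symm
    · by_cases h3 : i = l'
      · rw [h3, Equiv.swap_apply_right]; exact congrArg Prod.fst hll
      · rw [Equiv.swap_apply_of_ne_of_ne h2 h3]
  have hh : (fun i => h (Equiv.swap l l' i)) = h := by
    funext i
    by_cases h2 : i = l
    · rw [h2, Equiv.swap_apply_left]; exact (congrArg Prod.snd hll).symm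
    · by_cases h3 : i = l'
      · rw [h3, Equiv.swap_apply_right]; exact congrArg Prod.snd hll
      · rw [Equiv.swap_apply_of_ne_of_ne h2 h3]
  rw [hf, hh, Equiv.Perm.sign_swap hne] at h1
  simp only [Units.val_neg, Units.val_one, Int.cast_neg, Int.cast_one, neg_mul, one_mul] at h1
  have h4 : (2 : ℂ) * coef Φ b d ω.toMultilinearMap f h = 0 := by
    rw [two_mul]
    nth_rewrite 1 [h1]
    ring
  exact (mul_eq_zero.1 h4).resolve_left two_ne_zero

end Coef

variable {Φ : Finset (K →+* ℂ)}

open Classical in
/-- Refined form of `exists_tuple`: distinct indices. -/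
theorem exists_tuple_inj {c : K →+* K}
    (hc : ∀ ψ : K →+* ℂ, ComplexEmbedding.conjugate ψ = ψ.comp c)
    (hΦ : IsCMType Φ) {k p : ℕ} (h : ¬ GeneratedByDivisors (cmLattice Φ k) p) :
    ∃ (f : Fin p × Fin 2 → Fin k) (t : Fin p × Fin 2 → (K →+* ℂ)),
      (Function.Injective fun l => (f l, t l)) ∧
      (∀ g : GG K, (univ.filter fun l => g • t l ∈ Φ).card
        = (univ.filter fun l => ¬ g • t l ∈ Φ).card) ∧
      ∃ φ : K →+* ℂ, (univ.filter fun l => t l = φ).card
        ≠ (univ.filter fun l => t l = ComplexEmbedding.conjugate φ).card := by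
  by_contra hcon
  push Not at hcon
  apply h
  intro ω hω
  obtain ⟨n, b, d, -, h2⟩ := exists_dual K
  refine mem_span_rational hΦ ω hω (mem_span_complex hΦ hc h2 ω ?_)
  intro f t hco
  refine exists_pairing hΦ t fun φ => ?_
  refine hcon f t (coef_injective ω f t hco) (fun g => ?_) φ
  exact balanced hΦ h2 ω.toMultilinearMap (fun z hz v => hω.type_pp z hz v) f
      (fun l => g • t l) (coef_smul ω.toMultilinearMap hω.rational f t g hco)

section Rep

variable {X : Type*} [Fintype X] [DecidableEq X]

/-- Multiplicity of `x` in a tuple. -/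
def mult {ι : Type*} [Fintype ι] (t : ι → X) (x : X) : ℤ := ((univ.filter fun l => t l = x).card : ℤ)

/-- The odd function of a tuple. -/
def oddf {ι : Type*} [Fintype ι] (c : X → X) (t : ι → X) (x : X) : ℤ := mult t x - mult t (c x)

theorem mult_comp {ι κ : Type*} [Fintype ι] [Fintype κ] (e : κ ≃ ι) (t : ι → X) (x : X) :
    mult (fun l => t (e l)) x = mult t x := by
  unfold mult
  congr 1
  refine card_bij (fun l _ => e l) ?_ ?_ ?_
  · intro l hl
    rw [mem_filter] at hl ⊢
    exact ⟨mem_univ _, hl.2⟩
  · intro l _ l' _ h; exact e.injective h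
  · intro l hl
    refine ⟨e.symm l, ?_, e.apply_symm_apply l⟩
    rw [mem_filter] at hl ⊢
    refine ⟨mem_univ _, ?_⟩
    show t (e (e.symm l)) = x
    rw [e.apply_symm_apply]; exact hl.2

theorem mult_eq_sum {ι : Type*} [Fintype ι] (t : ι → X) (x : X) :
    mult t x = ∑ l, if t l = x then (1 : ℤ) else 0 := by
  unfold mult
  rw [card_filter]
  push_cast
  rfl

/-- The odd function of a tuple of pairwise distinct indexed elements is also the odd function of a
tuple coming from the complement. -/
theorem exists_short {c : X → X} (hcc : ∀ x, c (c x) = x) {k p n : ℕ}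
    (hn : Fintype.card X = 2 * n) (f : Fin p × Fin 2 → Fin k) (t : Fin p × Fin 2 → X)
    (hinj : Function.Injective fun l => (f l, t l)) :
    ∃ t' : Fin (min p (n * k - p)) × Fin 2 → X, ∀ x, oddf c t' x = oddf c t x := by
  classical
  rcases le_total p (n * k - p) with hle | hle
  · refine ⟨fun l => t (Fin.cast (min_eq_left hle) l.1, l.2), fun x => ?_⟩
    have e : Fin (min p (n * k - p)) × Fin 2 ≃ Fin p × Fin 2 :=
      Equiv.prodCongr (finCongr (min_eq_left hle)) (Equiv.refl _)
    unfold oddf
    have h1 := mult_comp (Equiv.prodCongr (finCongr (min_eq_left hle)) (Equiv.refl (Fin 2))) t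
    rw [← h1 x, ← h1 (c x)]
    rfl
  · let A : Finset (Fin k × X) := univ.image fun l => (f l, t l)
    have hA : A.card = 2 * p := by
      rw [card_image_of_injective _ hinj, card_univ, Fintype.card_prod, Fintype.card_fin,
        Fintype.card_fin, mul_comm]
    have hAc : Aᶜ.card = 2 * (n * k - p) := by
      rw [card_compl, hA, Fintype.card_prod, Fintype.card_fin, hn]
      have h1 : k * (2 * n) = 2 * (n * k) := by ring
      rw [h1, Nat.mul_sub]
    have hcard : Fintype.card (Fin (min p (n * k - p)) × Fin 2) = Fintype.card {y // y ∈ Aᶜ} := by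
      rw [Fintype.card_coe, hAc, Fintype.card_prod, Fintype.card_fin, Fintype.card_fin,
        min_eq_right hle, mul_comm]
    let e : (Fin (min p (n * k - p)) × Fin 2) ≃ {y // y ∈ Aᶜ} := Fintype.equivOfCardEq hcard
    refine ⟨fun l => c (e l).1.2, fun x => ?_⟩
    have hm : ∀ x, mult (fun l => c (e l).1.2) x = k - mult t (c x) := by
      intro x
      have h1 := mult_comp e (fun y : {y // y ∈ Aᶜ} => c y.1.2) x
      rw [h1]
      have h2 : mult (fun y : {y // y ∈ Aᶜ} => c y.1.2) x
          = ((Aᶜ.filter fun y => y.2 = c x).card : ℤ) := by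
        unfold mult
        congr 1
        refine card_bij (fun y _ => y.1) ?_ ?_ ?_
        · intro y hy
          rw [mem_filter] at hy ⊢
          refine ⟨y.2, ?_⟩
          rw [← hy.2, hcc]
        · intro y _ y' _ h; exact Subtype.ext h
        · intro y hy
          rw [mem_filter] at hy
          refine ⟨⟨y, hy.1⟩, ?_, rfl⟩
          rw [mem_filter]
          exact ⟨mem_univ _, by show c y.2 = x; rw [hy.2, hcc]⟩
      rw [h2]
      have h3 : (Aᶜ.filter fun y => y.2 = c x).card + (A.filter fun y => y.2 = c x).card = k := by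
        rw [← card_union_of_disjoint]
        · have h4 : (Aᶜ.filter fun y => y.2 = c x) ∪ (A.filter fun y => y.2 = c x)
              = univ.filter fun y : Fin k × X => y.2 = c x := by
            ext y
            simp only [mem_union, mem_filter, mem_compl, mem_univ, true_and]
            tauto
          rw [h4]
          have h5 : (univ.filter fun y : Fin k × X => y.2 = c x).card = (univ : Finset (Fin k)).card := by
            refine card_bij (fun y _ => y.1) (fun _ _ => mem_univ _) ?_ ?_
            · intro y hy y' hy' h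
              rw [mem_filter] at hy hy'
              exact Prod.ext h (hy.2.trans hy'.2.symm)
            · intro i _
              exact ⟨(i, c x), mem_filter.2 ⟨mem_univ _, rfl⟩, rfl⟩
          rw [h5, card_univ, Fintype.card_fin]
        · rw [disjoint_left]
          intro y hy hy'
          exact (mem_compl.1 (mem_filter.1 hy).1) (mem_filter.1 hy').1
      have h6 : ((A.filter fun y => y.2 = c x).card : ℤ) = mult t (c x) := by
        unfold mult
        congr 1
        symm
        refine card_bij (fun l _ => (f l, t l)) ?_ ?_ ?_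
        · intro l hl
          rw [mem_filter] at hl ⊢
          exact ⟨mem_image.2 ⟨l, mem_univ _, rfl⟩, hl.2⟩
        · intro l _ l' _ h; exact hinj h
        · intro y hy
          rw [mem_filter] at hy
          obtain ⟨l, -, rfl⟩ := mem_image.1 hy.1
          exact ⟨l, mem_filter.2 ⟨mem_univ _, hy.2⟩, rfl⟩
      rw [← h6]
      have h7 : (((Aᶜ.filter fun y => y.2 = c x).card + (A.filter fun y => y.2 = c x).card : ℕ) : ℤ)
          = k := by rw [h3]
      push_cast at h7
      linarith
    unfold oddf
    rw [hm, hm, hcc]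
    ring

/-- Padding by pairs `x₀, c x₀`. -/
theorem exists_pad {c : X → X} (hcc : ∀ x, c (c x) = x) {q P : ℕ} (hq : q ≤ P) (x₀ : X)
    (t : Fin q × Fin 2 → X) :
    ∃ t' : Fin P × Fin 2 → X, ∀ x, oddf c t' x = oddf c t x := by
  classical
  let t' : Fin P × Fin 2 → X := fun l =>
    if h : (l.1 : ℕ) < q then t (⟨l.1, h⟩, l.2) else if l.2 = 0 then x₀ else c x₀
  refine ⟨t', fun x => ?_⟩
  let E : X → ℤ := fun y => (if y = x then (1 : ℤ) else 0) - (if y = c x then (1 : ℤ) else 0)
  have h1 : ∀ {ι : Type} [Fintype ι] (s : ι → X), oddf c s x = ∑ l, E (s l) := by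
    intro ι _ s
    unfold oddf
    rw [mult_eq_sum, mult_eq_sum, ← sum_sub_distrib]
  rw [h1, h1, Fintype.sum_prod_type, Fintype.sum_prod_type]
  symm
  refine Fintype.sum_of_injective (Fin.castLE hq) (Fin.castLE_injective hq) _ _ ?_ ?_
  · intro i hi
    have hi' : ¬ (i : ℕ) < q := by
      intro h
      exact hi ⟨⟨i, h⟩, Fin.ext rfl⟩
    rw [Fin.sum_univ_two]
    have h2 : t' (i, 0) = x₀ := by simp [t', hi']
    have h3 : t' (i, 1) = c x₀ := by simp [t', hi']
    rw [h2, h3]
    simp only [E]
    have h4 : (c x₀ = x) ↔ (x₀ = c x) := ⟨fun h => by rw [← h, hcc], fun h => by rw [h, hcc]⟩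
    have h5 : (c x₀ = c x) ↔ (x₀ = x) := ⟨fun h => by
      have := congrArg c h
      rwa [hcc, hcc] at this, fun h => by rw [h]⟩
    simp only [h4, h5]
    ring
  · intro i
    refine sum_congr rfl fun j _ => ?_
    have h2 : t' (Fin.castLE hq i, j) = t (i, j) := by
      simp [t']
    rw [h2]

theorem card_support_le {c : X → X} (hcc : ∀ x, c (c x) = x) {q : ℕ} (t : Fin q × Fin 2 → X) :
    (univ.filter fun x => oddf c t x ≠ 0).card ≤ 2 * (2 * q) := by
  classical
  have h1 : (univ.filter fun x => oddf c t x ≠ 0) ⊆ univ.image t ∪ univ.image fun l => c (t l) := by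
    intro x hx
    rw [mem_filter] at hx
    by_contra h
    apply hx.2
    rw [mem_union, mem_image, mem_image, not_or] at h
    obtain ⟨h2, h3⟩ := h
    push Not at h2 h3
    have h4 : mult t x = 0 := by
      unfold mult
      rw [filter_eq_empty_iff.2 fun l _ => h2 l (mem_univ _)]
      rfl
    have h5 : mult t (c x) = 0 := by
      unfold mult
      rw [filter_eq_empty_iff.2 fun l _ h6 => h3 l (mem_univ _) (by rw [h6, hcc])]
      rfl
    unfold oddf
    rw [h4, h5]; rfl
  refine (card_le_card h1).trans ((card_union_le _ _).trans ?_)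
  have h2 : (univ.image t).card ≤ 2 * q := by
    refine card_image_le.trans ?_
    rw [card_univ, Fintype.card_prod, Fintype.card_fin, Fintype.card_fin, mul_comm]
  have h3 : (univ.image fun l => c (t l)).card ≤ 2 * q := by
    refine card_image_le.trans ?_
    rw [card_univ, Fintype.card_prod, Fintype.card_fin, Fintype.card_fin, mul_comm]
  omega

end Rep

end Pool.MP43e44c
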