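import Pool.Agent.H.MP_43e44c_ag.Low

/-!
Hodge classes of low codimension or low dimension: the rank bound and the count of CM types.
-/

set_option autoImplicit false

open NumberField Finset

namespace Pool.MP43e44c

variable {K : Type*} [Field K] [NumberField K]

open Classical in
/-- The rank of a CM type (the dimension of its Mumford-Tate group): the dimension of the span of
the indicator functions of its translates under the Galois group of the Galois closure. -/
noncomputable def cmRank (Φ : Finset (K →+* ℂ)) : ℕ :=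
  Module.finrank ℚ (Submodule.span ℚ (Set.range fun g : GG K =>
    (fun φ : K →+* ℂ => if g • φ ∈ Φ then (1 : ℚ) else 0)))

theorem cmRank_le (Φ : Finset (K →+* ℂ)) {c : (K →+* ℂ) → (K →+* ℂ)}
    (hcg : ∀ (g : GG K) x, g • c x = c (g • x)) (hΦ : ∀ x, x ∈ Φ ↔ c x ∉ Φ)
    {F : (K →+* ℂ) → ℤ} (hF : F ∈ lat (GG K) c Φ) :
    cmRank Φ ≤ Module.finrank ℚ (oddOrth (GG K) c F) + 1 := by
  classical
  let one : (K →+* ℂ) → ℚ := fun _ => 1
  have h1 : Submodule.span ℚ (Set.range fun g : GG K =>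
      (fun φ : K →+* ℂ => if g • φ ∈ Φ then (1 : ℚ) else 0))
      ≤ oddOrth (GG K) c F ⊔ Submodule.span ℚ {one} := by
    rw [Submodule.span_le]
    rintro _ ⟨g, rfl⟩
    have h2 : (fun φ : K →+* ℂ => if g • φ ∈ Φ then (1 : ℚ) else 0)
        = (1 / 2 : ℚ) • (fun φ => (sg Φ (g • φ) : ℚ)) + (1 / 2 : ℚ) • one := by
      funext φ
      rw [Pi.add_apply, Pi.smul_apply, Pi.smul_apply, smul_eq_mul, smul_eq_mul]
      by_cases h : g • φ ∈ Φ
      · rw [if_pos h, sg_mem h]; simp only [one]; norm_num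
      · rw [if_neg h, sg_notMem h]; simp only [one]; norm_num
    rw [SetLike.mem_coe]
    show (fun φ : K →+* ℂ => if g • φ ∈ Φ then (1 : ℚ) else 0) ∈ _
    rw [h2]
    refine Submodule.add_mem _ (Submodule.smul_mem _ _ ?_) (Submodule.smul_mem _ _ ?_)
    · exact Submodule.mem_sup_left (sg_mem_oddOrth hcg hΦ hF g)
    · exact Submodule.mem_sup_right (Submodule.mem_span_singleton_self one)
  have h3 := Submodule.finrank_mono h1
  have h4 := Submodule.finrank_add_le_finrank_add_finrank (oddOrth (GG K) c F)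
    (Submodule.span ℚ {one})
  have h5 : Module.finrank ℚ (Submodule.span ℚ {one}) ≤ 1 := by
    have := finrank_span_le_card (R := ℚ) ({one} : Set ((K →+* ℂ) → ℚ))
    simpa using this
  unfold cmRank
  omega

/-- The data extracted from a Hodge class which is not generated by divisor classes. -/
theorem exists_oddf [IsCMField K] {n : ℕ} (hn : Module.finrank ℚ K = 2 * n)
    {Φ : Finset (K →+* ℂ)} (hΦ : IsCMType Φ) {k p : ℕ}
    (h : ¬ GeneratedByDivisors (cmLattice Φ k) p) [DecidableEq (K →+* ℂ)] :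
    ∃ t : Fin (min p (n * k - p)) × Fin 2 → (K →+* ℂ),
      oddf ComplexEmbedding.conjugate t ∈ lat (GG K) ComplexEmbedding.conjugate Φ ∧
      oddf ComplexEmbedding.conjugate t ≠ 0 := by
  obtain ⟨c, hc⟩ := exists_cm_conj K
  have hcg : ∀ (g : GG K) x, g • ComplexEmbedding.conjugate x
      = ComplexEmbedding.conjugate (g • x) := smul_conj hc
  obtain ⟨f, t, hinj, hbal, hasym⟩ := exists_tuple_inj hc hΦ h
  obtain ⟨F, hF, hF0, hFt⟩ := lat_ne (G := GG K) (c := ComplexEmbedding.conjugate) conj_conj hcg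
    hΦ t hbal hasym
  have hcard : Fintype.card (K →+* ℂ) = 2 * n := by rw [NumberField.Embeddings.card K ℂ, hn]
  obtain ⟨t', ht'⟩ := exists_short (c := ComplexEmbedding.conjugate) conj_conj hcard f t hinj
  have h1 : oddf ComplexEmbedding.conjugate t' = F := by
    funext x
    rw [ht', hFt, oddf, mult, mult]
    congr!
  exact ⟨t', by rw [h1]; exact hF, by rw [h1]; exact hF0⟩

theorem oddf_conj [DecidableEq (K →+* ℂ)] {ι : Type*} [Fintype ι] (t : ι → (K →+* ℂ))
    (x : K →+* ℂ) : oddf ComplexEmbedding.conjugate t (ComplexEmbedding.conjugate x)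
      = - oddf ComplexEmbedding.conjugate t x := by
  unfold oddf
  rw [conj_conj]
  ring

/-- Rank bound: exceptional Hodge classes have large codimension and dimension. -/
theorem lowCodim [IsCMField K] {n : ℕ} (hn : Module.finrank ℚ K = 2 * n)
    (Φ : Finset (K →+* ℂ)) (hΦ : IsCMType Φ) (k p : ℕ)
    (h : 2 * min p (n * k - p) * (n + 1 - cmRank Φ) < n) :
    GeneratedByDivisors (cmLattice Φ k) p := by
  classical
  by_contra hcon
  obtain ⟨c, hc⟩ := exists_cm_conj K
  have hcg : ∀ (g : GG K) x, g • ComplexEmbedding.conjugate x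
      = ComplexEmbedding.conjugate (g • x) := smul_conj hc
  obtain ⟨t, ht, ht0⟩ := exists_oddf hn hΦ hcon
  have hΦn : Φ.card = n := by
    have h1 := card_half (c := ComplexEmbedding.conjugate) conj_conj hΦ
    rw [NumberField.Embeddings.card K ℂ, hn] at h1
    omega
  have hr : 2 * min p (n * k - p) * (n + 1 - cmRank Φ + 1 - 1) < Φ.card := by
    rw [hΦn, Nat.add_sub_cancel]; exact h
  obtain ⟨g, x, hx1, hx2, hx3⟩ := exists_triangular (G := GG K) hcg conj_conj hΦ (oddf_conj t) ht0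
    (card_support_le (c := ComplexEmbedding.conjugate) conj_conj t) (n + 1 - cmRank Φ + 1) hr
  have h1 := finrank_oddOrth_le hcg conj_conj hΦ (oddf_conj t) hx1 hx2 hx3
  have h2 := cmRank_le Φ hcg hΦ ht
  omega

open Classical in
/-- The number of CM types with exceptional Hodge classes of low codimension or dimension. -/
theorem lowCount [IsCMField K] {n : ℕ} (hn : Module.finrank ℚ K = 2 * n) (P r : ℕ)
    (hr : 2 * P * (r - 1) < n) :
    {Φ : Finset (K →+* ℂ) | IsCMType Φ ∧ ∃ k p : ℕ, min p (n * k - p) ≤ P ∧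
      ¬ GeneratedByDivisors (cmLattice Φ k) p}.ncard * 2 ^ r ≤ (2 * n) ^ (2 * P) * 2 ^ n := by
  classical
  obtain ⟨c, hc⟩ := exists_cm_conj K
  let cc : (K →+* ℂ) → (K →+* ℂ) := ComplexEmbedding.conjugate
  have hcc : ∀ x, cc (cc x) = x := conj_conj
  have hcg : ∀ (g : GG K) x, g • cc x = cc (g • x) := smul_conj hc
  have hcard : Fintype.card (K →+* ℂ) = 2 * n := by rw [NumberField.Embeddings.card K ℂ, hn]
  rcases Set.eq_empty_or_nonempty {Φ : Finset (K →+* ℂ) | IsCMType Φ ∧ ∃ k p : ℕ,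
      min p (n * k - p) ≤ P ∧ ¬ GeneratedByDivisors (cmLattice Φ k) p} with he | ⟨Ψ, hΨ, -⟩
  · rw [he, Set.ncard_empty, zero_mul]; exact Nat.zero_le _
  have hΨn : Ψ.card = n := by
    have h1 := card_half (c := ComplexEmbedding.conjugate) conj_conj hΨ
    rw [NumberField.Embeddings.card K ℂ, hn] at h1
    omega
  obtain ⟨x₀⟩ : Nonempty (K →+* ℂ) := inferInstance
  let T : Finset (Fin P × Fin 2 → (K →+* ℂ)) := univ.filter fun t => oddf cc t ≠ 0
  let B : (Fin P × Fin 2 → (K →+* ℂ)) → Finset (Finset (K →+* ℂ)) := fun t =>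
    univ.filter fun Φ : Finset (K →+* ℂ) => (∀ x, x ∈ Φ ↔ cc x ∉ Φ) ∧ oddf cc t ∈ lat (GG K) cc Φ
  have hsub : {Φ : Finset (K →+* ℂ) | IsCMType Φ ∧ ∃ k p : ℕ, min p (n * k - p) ≤ P ∧
      ¬ GeneratedByDivisors (cmLattice Φ k) p} ⊆ (T.biUnion B : Finset (Finset (K →+* ℂ))) := by
    rintro Φ ⟨hΦ, k, p, hp, hg⟩
    obtain ⟨t, ht, ht0⟩ := exists_oddf hn hΦ hg
    obtain ⟨t', ht'⟩ := exists_pad (c := cc) hcc hp x₀ t
    have h1 : oddf cc t' = oddf cc t := funext ht'
    rw [mem_coe, mem_biUnion]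
    refine ⟨t', mem_filter.2 ⟨mem_univ _, by rw [h1]; exact ht0⟩,
      mem_filter.2 ⟨mem_univ _, hΦ, by rw [h1]; exact ht⟩⟩
  have h1 : {Φ : Finset (K →+* ℂ) | IsCMType Φ ∧ ∃ k p : ℕ, min p (n * k - p) ≤ P ∧
      ¬ GeneratedByDivisors (cmLattice Φ k) p}.ncard ≤ (T.biUnion B).card := by
    rw [← Set.ncard_coe_finset]
    exact Set.ncard_le_ncard hsub (Set.toFinite _)
  have h2 : ∀ t ∈ T, (B t).card * 2 ^ r ≤ 2 ^ n := by
    intro t ht
    have ht0 := (mem_filter.1 ht).2
    obtain ⟨g, x, hx1, hx2, hx3⟩ := exists_triangular (G := GG K) hcg hcc hΨ (oddf_conj t) ht0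
      (card_support_le (c := cc) hcc t) r (by rw [hΨn]; exact hr)
    have h3 := card_orth_le hcg hcc hΨ (oddf_conj t) hx1 hx2 hx3
    rw [hΨn] at h3
    exact h3
  calc _ ≤ (T.biUnion B).card * 2 ^ r := Nat.mul_le_mul_right _ h1
    _ ≤ (∑ t ∈ T, (B t).card) * 2 ^ r := Nat.mul_le_mul_right _ card_biUnion_le
    _ = ∑ t ∈ T, (B t).card * 2 ^ r := by rw [sum_mul]
    _ ≤ ∑ _t ∈ T, 2 ^ n := sum_le_sum h2
    _ = T.card * 2 ^ n := by rw [sum_const, smul_eq_mul]
    _ ≤ (2 * n) ^ (2 * P) * 2 ^ n := by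
      refine Nat.mul_le_mul_right _ ?_
      refine (card_filter_le _ _).trans ?_
      rw [card_univ, Fintype.card_fun, Fintype.card_prod, Fintype.card_fin, Fintype.card_fin,
        hcard, mul_comm P 2]

/-- The count in real form. -/
theorem lowCount' [IsCMField K] {n : ℕ} (hn : Module.finrank ℚ K = 2 * n) (P : ℕ) :
    ({Φ : Finset (K →+* ℂ) | IsCMType Φ ∧ ∃ k p : ℕ, min p (n * k - p) ≤ P ∧
      ¬ GeneratedByDivisors (cmLattice Φ k) p}.ncard : ℝ)
      ≤ (2 * n) ^ (2 * P) * 2 ^ ((n : ℝ) - n / (2 * P)) := by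
  have hn0 : 0 < n := by
    have := Module.finrank_pos (R := ℚ) (M := K)
    omega
  rcases Nat.eq_zero_or_pos P with rfl | hP
  · have h1 := lowCount (K := K) hn 0 0 (by simpa using hn0)
    simp only [pow_zero, mul_one, mul_zero, one_mul] at h1
    simp only [Nat.cast_zero, mul_zero, div_zero, sub_zero, pow_zero, one_mul]
    rw [Real.rpow_natCast]
    exact_mod_cast h1
  · let r := (n + 2 * P - 1) / (2 * P)
    have hr1 : 2 * P * (r - 1) < n := by
      have h2 : r * (2 * P) ≤ n + 2 * P - 1 := Nat.div_mul_le_self _ _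
      rcases Nat.eq_zero_or_pos r with h0 | h0
      · rw [h0]; simpa using hn0
      · have h3 : 2 * P * (r - 1) + 2 * P = r * (2 * P) := by
          obtain ⟨s, hs⟩ := Nat.exists_eq_succ_of_ne_zero h0.ne'
          rw [hs]; simp only [Nat.succ_sub_one, Nat.succ_eq_add_one]; ring
        omega
    have hr2 : (n : ℝ) / (2 * P) ≤ r := by
      have h2P : (0 : ℝ) < 2 * P := by positivity
      rw [div_le_iff₀ h2P]
      have h3 : n ≤ r * (2 * P) := by
        have h4 := Nat.lt_div_mul_add (a := n + 2 * P - 1) (b := 2 * P) (by omega)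
        have h5 : (n + 2 * P - 1) / (2 * P) * (2 * P) = r * (2 * P) := rfl
        omega
      exact_mod_cast h3
    have h1 := lowCount (K := K) hn P r hr1
    have h1' : ({Φ : Finset (K →+* ℂ) | IsCMType Φ ∧ ∃ k p : ℕ, min p (n * k - p) ≤ P ∧
      ¬ GeneratedByDivisors (cmLattice Φ k) p}.ncard : ℝ) * 2 ^ r ≤ (2 * n) ^ (2 * P) * 2 ^ n := by
      exact_mod_cast h1
    have h6 : (2 : ℝ) ^ ((n : ℝ) - n / (2 * P)) * 2 ^ r ≥ 2 ^ n := by
      rw [← Real.rpow_natCast 2 r, ← Real.rpow_natCast 2 n, ← Real.rpow_add (by norm_num)]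
      apply Real.rpow_le_rpow_of_exponent_le (by norm_num)
      linarith
    have h7 : (0 : ℝ) < 2 ^ r := by positivity
    have h8 : ({Φ : Finset (K →+* ℂ) | IsCMType Φ ∧ ∃ k p : ℕ, min p (n * k - p) ≤ P ∧
      ¬ GeneratedByDivisors (cmLattice Φ k) p}.ncard : ℝ) * 2 ^ r ≤
        ((2 * n) ^ (2 * P) * 2 ^ ((n : ℝ) - n / (2 * P))) * 2 ^ r := by
      rw [mul_assoc]
      exact h1'.trans (mul_le_mul_of_nonneg_left h6 (by positivity))
    exact le_of_mul_le_mul_right h8 h7

end Pool.MP43e44c
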