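import Mathlib

/-!
Counting the minimal invariant subspaces of a transitive permutation module over `𝔽₂`.
-/

set_option autoImplicit false

open Finset Module

namespace Pool.MP43e44c

section MinSub

variable {H P : Type*} [Group H] [MulAction H P] [Fintype P]

/-- Invariance of a space of functions under translations. -/
def InvSub (H : Type*) {P : Type*} [Group H] [MulAction H P]
    (U : Submodule (ZMod 2) (P → ZMod 2)) : Prop :=
  ∀ (h : H) (m : P → ZMod 2), m ∈ U → (fun x => m (h • x)) ∈ U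

/-- Minimal nonzero invariant spaces. -/
def IsMinSub (H : Type*) {P : Type*} [Group H] [MulAction H P]
    (U : Submodule (ZMod 2) (P → ZMod 2)) : Prop :=
  InvSub H U ∧ U ≠ ⊥ ∧ ∀ W : Submodule (ZMod 2) (P → ZMod 2), InvSub H W → W ≤ U → W = ⊥ ∨ W = U

omit [Fintype P] in
theorem InvSub.inf {U V : Submodule (ZMod 2) (P → ZMod 2)} (hU : InvSub H U) (hV : InvSub H V) :
    InvSub H (U ⊓ V) := fun h m hm => ⟨hU h m hm.1, hV h m hm.2⟩

omit [Fintype P] in
theorem InvSub.sup {U V : Submodule (ZMod 2) (P → ZMod 2)} (hU : InvSub H U) (hV : InvSub H V) :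
    InvSub H (U ⊔ V) := by
  intro h m hm
  obtain ⟨y, hy, z, hz, rfl⟩ := Submodule.mem_sup.1 hm
  exact Submodule.mem_sup.2 ⟨_, hU h y hy, _, hV h z hz, rfl⟩

omit [Fintype P] in
theorem InvSub.bot : InvSub H (⊥ : Submodule (ZMod 2) (P → ZMod 2)) := by
  intro h m hm
  rw [Submodule.mem_bot] at hm ⊢
  subst hm
  rfl

theorem exists_minSub {V : Submodule (ZMod 2) (P → ZMod 2)} (hV : InvSub H V) (hne : V ≠ ⊥) :
    ∃ U, U ≤ V ∧ IsMinSub H U := by
  classical
  have key : ∀ n : ℕ, ∀ V : Submodule (ZMod 2) (P → ZMod 2), InvSub H V → V ≠ ⊥ →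
      finrank (ZMod 2) V ≤ n → ∃ U, U ≤ V ∧ IsMinSub H U := by
    intro n
    induction n with
    | zero =>
      intro V _ hne h
      exact absurd (Submodule.finrank_eq_zero.1 (Nat.le_zero.1 h)) hne
    | succ n ih =>
      intro V hV hne h
      by_cases hmin : IsMinSub H V
      · exact ⟨V, le_rfl, hmin⟩
      · unfold IsMinSub at hmin
        push Not at hmin
        obtain ⟨W, hW, hWV, hW0, hW1⟩ := hmin hV hne
        have h1 : finrank (ZMod 2) W < finrank (ZMod 2) V :=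
          Submodule.finrank_lt_finrank_of_lt (lt_of_le_of_ne hWV hW1)
        obtain ⟨U, hU, hU'⟩ := ih W hW hW0 (by omega)
        exact ⟨U, hU.trans hWV, hU'⟩
  exact key _ V hV hne le_rfl

omit [Fintype P] in
theorem IsMinSub.inf_eq_bot {U V : Submodule (ZMod 2) (P → ZMod 2)} (hU : IsMinSub H U)
    (hV : InvSub H V) (h : ¬ U ≤ V) : U ⊓ V = ⊥ := by
  rcases hU.2.2 _ (hU.1.inf hV) inf_le_left with h1 | h1
  · exact h1
  · exact absurd (inf_eq_left.1 h1) h

omit [Fintype P] in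
theorem IsMinSub.eq_of_inf_ne {U V : Submodule (ZMod 2) (P → ZMod 2)} (hU : IsMinSub H U)
    (hV : IsMinSub H V) (h : U ⊓ V ≠ ⊥) : U = V := by
  have h1 := (hU.2.2 _ (hU.1.inf hV.1) inf_le_left).resolve_left h
  have h2 := (hV.2.2 _ (hU.1.inf hV.1) inf_le_right).resolve_left h
  rw [← h1, h2]

/-- The counting lemma. -/
theorem sum_minSub_le (p₀ : P) (c' : ℕ) : ∀ (n : ℕ) (V : Submodule (ZMod 2) (P → ZMod 2)),
    InvSub H V → (∀ m ∈ V, (∀ h : H, m (h • p₀) = 0) → m = 0) → finrank (ZMod 2) V ≤ n →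
    ∀ T : Finset (Submodule (ZMod 2) (P → ZMod 2)),
      (∀ U ∈ T, IsMinSub H U ∧ U ≤ V ∧ 2 ≤ finrank (ZMod 2) U) →
      ∑ U ∈ T, ((1 : ℚ) / 2) ^ ((c' + 1) * finrank (ZMod 2) U)
        ≤ (n : ℚ) / 2 * (1 / 4) ^ c' := by
  classical
  intro n
  induction n using Nat.strong_induction_on with
  | _ n ih =>
  intro V hV hinj hn T hT
  rcases T.eq_empty_or_nonempty with rfl | ⟨U₁, hU₁T⟩
  · rw [sum_empty]; positivity
  obtain ⟨hmin₁, hle₁, hd₁⟩ := hT U₁ hU₁T
  -- a maximal invariant space with trivial intersection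
  let 𝒲 : Finset ℕ := (range (n + 1)).filter fun d =>
    ∃ W : Submodule (ZMod 2) (P → ZMod 2), InvSub H W ∧ W ≤ V ∧ W ⊓ U₁ = ⊥ ∧
      finrank (ZMod 2) W = d
  have h𝒲 : 𝒲.Nonempty := ⟨0, by
    simp only [𝒲, mem_filter, mem_range]
    exact ⟨by omega, ⊥, InvSub.bot, bot_le, bot_inf_eq _, finrank_bot _ _⟩⟩
  obtain ⟨V', hV'inv, hV'V, hV'U, hV'd⟩ := (mem_filter.1 (𝒲.max'_mem h𝒲)).2
  have hmax : ∀ W : Submodule (ZMod 2) (P → ZMod 2), InvSub H W → W ≤ V → W ⊓ U₁ = ⊥ →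
      finrank (ZMod 2) W ≤ finrank (ZMod 2) V' := by
    intro W hW hWV hWU
    rw [hV'd]
    apply Finset.le_max'
    simp only [𝒲, mem_filter, mem_range]
    have := Submodule.finrank_mono hWV
    exact ⟨by omega, W, hW, hWV, hWU, rfl⟩
  set d₁ := finrank (ZMod 2) U₁ with hd₁def
  have hdim : finrank (ZMod 2) V' + d₁ ≤ n := by
    have h1 := Submodule.finrank_sup_add_finrank_inf_eq V' U₁
    rw [hV'U, finrank_bot, add_zero] at h1
    rw [← h1]
    exact (Submodule.finrank_mono (sup_le hV'V hle₁)).trans hn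
  -- split
  have hsplit : ∑ U ∈ T, ((1 : ℚ) / 2) ^ ((c' + 1) * finrank (ZMod 2) U)
      = ∑ U ∈ T.filter (fun U => U ≤ V'), ((1 : ℚ) / 2) ^ ((c' + 1) * finrank (ZMod 2) U)
        + ∑ U ∈ T.filter (fun U => ¬ U ≤ V'), ((1 : ℚ) / 2) ^ ((c' + 1) * finrank (ZMod 2) U) :=
    (sum_filter_add_sum_filter_not T _ _).symm
  have h1 : ∑ U ∈ T.filter (fun U => U ≤ V'), ((1 : ℚ) / 2) ^ ((c' + 1) * finrank (ZMod 2) U)
      ≤ ((n - d₁ : ℕ) : ℚ) / 2 * (1 / 4) ^ c' := by
    refine ih (n - d₁) (by omega) V' hV'inv (fun m hm => hinj m (hV'V hm)) (by omega) _ ?_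
    intro U hU
    obtain ⟨h2, h3⟩ := mem_filter.1 hU
    exact ⟨(hT U h2).1, h3, (hT U h2).2.2⟩
  -- the remaining ones
  have hrem : ∀ U ∈ T.filter (fun U => ¬ U ≤ V'), U ⊓ V' = ⊥ ∧ U₁ ≤ V' ⊔ U ∧
      finrank (ZMod 2) U = d₁ := by
    intro U hU
    obtain ⟨h2, h3⟩ := mem_filter.1 hU
    obtain ⟨hmin, hle, -⟩ := hT U h2
    have h4 := hmin.inf_eq_bot hV'inv h3
    have h5 : U₁ ≤ V' ⊔ U := by
      by_contra h6
      have h7 : (V' ⊔ U) ⊓ U₁ = ⊥ := by
        rw [inf_comm]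
        exact hmin₁.inf_eq_bot (hV'inv.sup hmin.1) h6
      have h8 := hmax _ (hV'inv.sup hmin.1) (sup_le hV'V hle) h7
      have h9 : V' = V' ⊔ U :=
        Submodule.eq_of_le_of_finrank_le le_sup_left h8
      apply h3
      rw [h9]
      exact le_sup_right
    refine ⟨h4, h5, ?_⟩
    have h6 := Submodule.finrank_sup_add_finrank_inf_eq V' U
    have h7 := Submodule.finrank_sup_add_finrank_inf_eq V' U₁
    rw [inf_comm, h4, finrank_bot, add_zero] at h6
    rw [hV'U, finrank_bot, add_zero] at h7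
    have h8 : V' ⊔ U₁ ≤ V' ⊔ U := sup_le le_sup_left h5
    have h9 := Submodule.finrank_mono h8
    have h10 : U ≤ V' ⊔ U₁ := by
      by_contra h11
      have h12 := hmin.inf_eq_bot (hV'inv.sup hmin₁.1) h11
      obtain ⟨u₁, hu₁, hu₁0⟩ := Submodule.exists_mem_ne_zero_of_ne_bot hmin₁.2.1
      obtain ⟨v, hv, u, hu, huv⟩ := Submodule.mem_sup.1 (h5 hu₁)
      have h13 : u ∈ U ⊓ (V' ⊔ U₁) := by
        refine ⟨hu, Submodule.mem_sup.2 ⟨-v, neg_mem hv, u₁, hu₁, ?_⟩⟩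
        rw [← huv]; abel
      rw [h12, Submodule.mem_bot] at h13
      rw [h13, add_zero] at huv
      have h14 : u₁ ∈ V' ⊓ U₁ := ⟨huv ▸ hv, hu₁⟩
      rw [hV'U, Submodule.mem_bot] at h14
      exact hu₁0 h14
    have h11 := Submodule.finrank_mono (sup_le le_sup_left h10 : V' ⊔ U ≤ V' ⊔ U₁)
    omega
  -- functionals
  have hlam : ∀ U ∈ T.filter (fun U => ¬ U ≤ V'), ∃ lam : Module.Dual (ZMod 2) U₁,
      ∀ (u₁ : U₁) (u : P → ZMod 2), u ∈ U → (u₁ : P → ZMod 2) - u ∈ V' → lam u₁ = u p₀ := by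
    intro U hU
    obtain ⟨h4, h5, -⟩ := hrem U hU
    have hex : ∀ u₁ : U₁, ∃ u ∈ U, (u₁ : P → ZMod 2) - u ∈ V' := by
      intro u₁
      obtain ⟨v, hv, u, hu, huv⟩ := Submodule.mem_sup.1 (h5 u₁.2)
      refine ⟨u, hu, ?_⟩
      rw [← huv, add_sub_cancel_right]
      exact hv
    have huniq : ∀ (w u u' : P → ZMod 2), u ∈ U → u' ∈ U → w - u ∈ V' → w - u' ∈ V' → u = u' := by
      intro w u u' hu hu' h h'
      have h6 : u - u' ∈ U ⊓ V' := by
        refine ⟨sub_mem hu hu', ?_⟩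
        have : u - u' = (w - u') - (w - u) := by abel
        rw [this]
        exact sub_mem h' h
      rw [h4, Submodule.mem_bot, sub_eq_zero] at h6
      exact h6
    choose e he he' using hex
    refine ⟨{ toFun := fun u₁ => e u₁ p₀, map_add' := ?_, map_smul' := ?_ }, ?_⟩
    · intro a b
      have : e (a + b) = e a + e b := by
        refine huniq (a + b : U₁) _ _ (he _) (add_mem (he _) (he _)) (he' _) ?_
        have : ((a + b : U₁) : P → ZMod 2) - (e a + e b)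
            = ((a : P → ZMod 2) - e a) + ((b : P → ZMod 2) - e b) := by
          rw [Submodule.coe_add]; abel
        rw [this]
        exact add_mem (he' _) (he' _)
      rw [this]; rfl
    · intro r a
      have : e (r • a) = r • e a := by
        refine huniq (r • a : U₁) _ _ (he _) (Submodule.smul_mem _ _ (he _)) (he' _) ?_
        have : ((r • a : U₁) : P → ZMod 2) - r • e a = r • ((a : P → ZMod 2) - e a) := by
          rw [Submodule.coe_smul, smul_sub]
        rw [this]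
        exact Submodule.smul_mem _ _ (he' _)
      rw [this]; rfl
    · intro u₁ u hu h
      show e u₁ p₀ = u p₀
      rw [huniq u₁ _ _ (he u₁) hu (he' u₁) h]
  choose! lam hlam using hlam
  have hcard : (T.filter (fun U => ¬ U ≤ V')).card ≤ 2 ^ d₁ := by
    have hD : Nat.card (Module.Dual (ZMod 2) U₁) = 2 ^ d₁ := by
      rw [Module.natCard_eq_pow_finrank (K := ZMod 2), Subspace.dual_finrank_eq, Nat.card_zmod]
    have : Finite (Module.Dual (ZMod 2) U₁) := Module.finite_of_finite (ZMod 2)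
    have : Fintype (Module.Dual (ZMod 2) U₁) := Fintype.ofFinite _
    rw [← hD, Nat.card_eq_fintype_card, ← Finset.card_univ]
    refine Finset.card_le_card_of_injOn lam (fun _ _ => mem_coe.2 (mem_univ _)) ?_
    intro U hU U' hU' hUU'
    have hU1 := hrem U hU
    have hU1' := hrem U' hU'
    have hmU := (hT U (mem_filter.1 hU).1).1
    have hmU' := (hT U' (mem_filter.1 hU').1).1
    obtain ⟨u₁, hu₁, hu₁0⟩ := Submodule.exists_mem_ne_zero_of_ne_bot hmin₁.2.1
    obtain ⟨v, hv, u, hu, huv⟩ := Submodule.mem_sup.1 (hU1.2.1 hu₁)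
    obtain ⟨v', hv', u', hu', huv'⟩ := Submodule.mem_sup.1 (hU1'.2.1 hu₁)
    have h2 : u = u' := by
      rw [← sub_eq_zero]
      refine hinj _ (sub_mem ((hT U (mem_filter.1 hU).1).2.1 hu)
        ((hT U' (mem_filter.1 hU').1).2.1 hu')) fun h => ?_
      rw [Pi.sub_apply, sub_eq_zero]
      have h3 := hlam U hU ⟨_, hmin₁.1 h _ hu₁⟩ _ (hmU.1 h _ hu) (by
        have : (fun x => u₁ (h • x)) - (fun x => u (h • x)) = fun x => v (h • x) := by
          funext x
          rw [Pi.sub_apply, ← huv, Pi.add_apply, add_sub_cancel_right]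
        show (fun x => u₁ (h • x)) - (fun x => u (h • x)) ∈ V'
        rw [this]
        exact hV'inv h _ hv)
      have h4 := hlam U' hU' ⟨_, hmin₁.1 h _ hu₁⟩ _ (hmU'.1 h _ hu') (by
        have : (fun x => u₁ (h • x)) - (fun x => u' (h • x)) = fun x => v' (h • x) := by
          funext x
          rw [Pi.sub_apply, ← huv', Pi.add_apply, add_sub_cancel_right]
        show (fun x => u₁ (h • x)) - (fun x => u' (h • x)) ∈ V'
        rw [this]
        exact hV'inv h _ hv')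
      rw [← h3, ← h4, hUU']
    refine hmU.eq_of_inf_ne hmU' ?_
    intro h3
    have h4 : u ∈ U ⊓ U' := ⟨hu, h2 ▸ hu'⟩
    rw [h3, Submodule.mem_bot] at h4
    rw [h4, add_zero] at huv
    have h5 : u₁ ∈ V' ⊓ U₁ := ⟨huv ▸ hv, hu₁⟩
    rw [hV'U, Submodule.mem_bot] at h5
    exact hu₁0 h5
  have h2 : ∑ U ∈ T.filter (fun U => ¬ U ≤ V'), ((1 : ℚ) / 2) ^ ((c' + 1) * finrank (ZMod 2) U)
      ≤ (d₁ : ℚ) / 2 * (1 / 4) ^ c' := by
    have h3 : ∑ U ∈ T.filter (fun U => ¬ U ≤ V'), ((1 : ℚ) / 2) ^ ((c' + 1) * finrank (ZMod 2) U)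
        = (T.filter (fun U => ¬ U ≤ V')).card * ((1 : ℚ) / 2) ^ ((c' + 1) * d₁) := by
      rw [Finset.sum_congr rfl (g := fun _ => ((1 : ℚ) / 2) ^ ((c' + 1) * d₁))]
      · rw [sum_const, nsmul_eq_mul]
      · intro U hU
        rw [(hrem U hU).2.2]
    rw [h3]
    have h4 : ((T.filter (fun U => ¬ U ≤ V')).card : ℚ) ≤ 2 ^ d₁ := by exact_mod_cast hcard
    have h5 : (2 : ℚ) ^ d₁ * (1 / 2) ^ ((c' + 1) * d₁) = (1 / 2) ^ (c' * d₁) := by
      rw [add_mul, one_mul, pow_add, mul_comm ((1 / 2 : ℚ) ^ (c' * d₁)), ← mul_assoc, ← mul_pow]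
      norm_num
    calc ((T.filter (fun U => ¬ U ≤ V')).card : ℚ) * (1 / 2) ^ ((c' + 1) * d₁)
        ≤ 2 ^ d₁ * (1 / 2) ^ ((c' + 1) * d₁) := by gcongr
      _ = (1 / 2) ^ (c' * d₁) := h5
      _ ≤ (1 / 2) ^ (c' * 2) := by
          apply pow_le_pow_of_le_one (by norm_num) (by norm_num)
          exact Nat.mul_le_mul_left _ hd₁
      _ = 1 * (1 / 4) ^ c' := by
          rw [mul_comm c', pow_mul]; norm_num
      _ ≤ (d₁ : ℚ) / 2 * (1 / 4) ^ c' := by
          gcongr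
          have : (2 : ℚ) ≤ d₁ := by exact_mod_cast hd₁
          linarith
  rw [hsplit]
  have h3 : ((n - d₁ : ℕ) : ℚ) = (n : ℚ) - d₁ := by
    rw [Nat.cast_sub (by omega)]
  rw [h3] at h1
  calc _ ≤ ((n : ℚ) - d₁) / 2 * (1 / 4) ^ c' + (d₁ : ℚ) / 2 * (1 / 4) ^ c' := add_le_add h1 h2
    _ = _ := by ring

end MinSub

end Pool.MP43e44c
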