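import Pool.Agent.H.MP_43e44c_ag.PP

/-!
CM fields of degree `2 ℓ ^ k`, `ℓ` an odd prime: the criterion for CM types and the count.
-/

set_option autoImplicit false

open NumberField Finset

namespace Pool.MP43e44c

variable {K : Type*} [Field K] [NumberField K]

theorem conj_ne [IsCMField K] (φ : K →+* ℂ) : ComplexEmbedding.conjugate φ ≠ φ := by
  intro h
  have h1 : ComplexEmbedding.IsReal φ := h
  exact IsTotallyComplex.complexEmbedding_not_isReal φ h1

/-- Embeddings agreeing on a subfield stay so after applying the Galois group. -/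
theorem smul_agree {F : IntermediateField ℚ K} {φ ψ : K →+* ℂ} (h : ∀ x ∈ F, φ x = ψ x)
    (g : GG K) : ∀ x ∈ F, (g • φ) x = (g • ψ) x := by
  intro x hx
  rw [smul_apply, smul_apply]
  congr 2
  exact Subtype.ext (h x hx)

theorem agree_of_three {F : IntermediateField ℚ K} (hF : Module.finrank ℚ F = 2)
    (φ₁ φ₂ φ₃ : K →+* ℂ) : (∀ x ∈ F, φ₁ x = φ₂ x) ∨ (∀ x ∈ F, φ₂ x = φ₃ x) ∨
      (∀ x ∈ F, φ₁ x = φ₃ x) := by
  classical
  by_contra hcon
  push Not at hcon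
  obtain ⟨⟨x, hx, h1⟩, ⟨y, hy, h2⟩, ⟨z, hz, h3⟩⟩ := hcon
  let r : (K →+* ℂ) → (F →+* ℂ) := fun φ => φ.comp (algebraMap F K)
  have e1 : r φ₁ ≠ r φ₂ := fun h => h1 (RingHom.congr_fun h ⟨x, hx⟩)
  have e2 : r φ₂ ≠ r φ₃ := fun h => h2 (RingHom.congr_fun h ⟨y, hy⟩)
  have e3 : r φ₁ ≠ r φ₃ := fun h => h3 (RingHom.congr_fun h ⟨z, hz⟩)
  have hcard : Fintype.card (F →+* ℂ) = 2 := by
    rw [NumberField.Embeddings.card F ℂ, hF]
  have h4 : ({r φ₁, r φ₂, r φ₃} : Finset (F →+* ℂ)).card ≤ 2 := by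
    rw [← hcard]; exact card_le_univ _
  rw [card_insert_of_notMem, card_insert_of_notMem, card_singleton] at h4
  · omega
  · simpa using e2
  · simp only [mem_insert, mem_singleton, not_or]
    exact ⟨e1, e3⟩

/-- Elements of odd order of the Galois group act trivially on the embeddings of a quadratic
subfield. -/
theorem odd_agree {F : IntermediateField ℚ K} (hF : Module.finrank ℚ F = 2) {σ : GG K}
    (hσ : Odd (orderOf σ)) (φ : K →+* ℂ) : ∀ x ∈ F, (σ • φ) x = φ x := by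
  have hsq : ∀ φ : K →+* ℂ, ∀ x ∈ F, ((σ ^ 2) • φ) x = φ x := by
    intro φ
    rcases agree_of_three hF φ (σ • φ) ((σ ^ 2) • φ) with h | h | h
    · intro x hx
      have h2 := smul_agree h σ x hx
      rw [← mul_smul, ← pow_two] at h2
      rw [← h2, ← h x hx]
    · intro x hx
      have h1 := smul_agree h σ⁻¹
      have h2 := h1 x hx
      rw [inv_smul_smul, pow_two, mul_smul, inv_smul_smul] at h2
      rw [← h x hx, ← h2]
    · intro x hx
      exact (h x hx).symm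
  have hpow : ∀ (j : ℕ) (φ : K →+* ℂ), ∀ x ∈ F, (((σ ^ 2) ^ j) • φ) x = φ x := by
    intro j
    induction j with
    | zero => intro φ x _; rw [pow_zero, one_smul]
    | succ j ih =>
      intro φ x hx
      rw [pow_succ, mul_smul, ih _ x hx, hsq _ x hx]
  obtain ⟨j, hj⟩ := hσ
  have h3 : (σ ^ 2) ^ (j + 1) = σ := by
    rw [← pow_mul]
    have : 2 * (j + 1) = orderOf σ + 1 := by omega
    rw [this, pow_succ, pow_orderOf_eq_one, one_mul]
  have h4 := hpow (j + 1) φ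
  rwa [h3] at h4

/-- The number of subsets whose cardinality is divisible by `ℓ`. -/
theorem card_powerset_dvd {α : Type*} (s : Finset α) (ℓ : ℕ) :
    (s.powerset.filter fun t => ℓ ∣ t.card).card
      = ∑ a ∈ (range (s.card + 1)).filter (fun a => ℓ ∣ a), s.card.choose a := by
  classical
  rw [card_eq_sum_card_fiberwise (f := fun t : Finset α => t.card)
    (t := (range (s.card + 1)).filter (fun a => ℓ ∣ a))]
  · refine sum_congr rfl fun a ha => ?_
    rw [← card_powersetCard]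
    congr 1
    ext t
    simp only [mem_filter, mem_powerset, mem_powersetCard]
    constructor
    · rintro ⟨⟨h1, -⟩, h2⟩
      exact ⟨h1, h2⟩
    · rintro ⟨h1, h2⟩
      refine ⟨⟨h1, ?_⟩, h2⟩
      rw [h2]
      exact (mem_filter.1 ha).2
  · intro t ht
    obtain ⟨h1, h2⟩ := mem_filter.1 (mem_coe.1 ht)
    rw [mem_coe, mem_filter, mem_range]
    exact ⟨Nat.lt_succ_of_le (card_le_card (mem_powerset.1 h1)), h2⟩

/-- The main theorem on CM fields of degree `2 ℓ ^ k`. -/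
theorem primePower [IsCMField K] {ℓ k : ℕ} (hℓ : ℓ.Prime) (hodd : ℓ ≠ 2) (hk : k ≠ 0)
    (hK : Module.finrank ℚ K = 2 * ℓ ^ k) :
    ∃ Ψ : Finset (K →+* ℂ), IsCMType Ψ ∧
      (∀ F : IntermediateField ℚ K, Module.finrank ℚ F = 2 →
        (∃ x ∈ F, ∃ φ : K →+* ℂ, (φ x).im ≠ 0) →
        ∀ φ ∈ Ψ, ∀ ψ : K →+* ℂ, ψ ∈ Ψ ↔ ∀ x ∈ F, ψ x = φ x) ∧
      (∀ Φ : Finset (K →+* ℂ), IsCMType Φ →
        ¬ ℓ ∣ ((Φ : Set (K →+* ℂ)) ∩ Ψ).ncard → HodgeRingGeneratedByDivisors Φ) ∧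
      {Φ : Finset (K →+* ℂ) | IsCMType Φ ∧ ¬ HodgeRingGeneratedByDivisors Φ}.ncard
        ≤ ∑ a ∈ (range (ℓ ^ k + 1)).filter (fun a => ℓ ∣ a), (ℓ ^ k).choose a := by
  classical
  have : Fact ℓ.Prime := ⟨hℓ⟩
  obtain ⟨c, hc⟩ := exists_cm_conj K
  let cc : (K →+* ℂ) → (K →+* ℂ) := ComplexEmbedding.conjugate
  have hcc : ∀ x, cc (cc x) = x := conj_conj
  have hcg : ∀ (g : GG K) x, g • cc x = cc (g • x) := smul_conj hc
  have hne : ∀ x, cc x ≠ x := conj_ne
  have hX : Nat.card (K →+* ℂ) = 2 * ℓ ^ k := by rw [card_embeddings, hK]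
  let P : Sylow ℓ (GG K) := default
  obtain ⟨x₀⟩ : Nonempty (K →+* ℂ) := inferInstance
  let Ψ : Finset (K →+* ℂ) := univ.filter fun x => x ∈ MulAction.orbit P x₀
  have hΨ : ∀ x, x ∈ Ψ ↔ x ∈ MulAction.orbit P x₀ := fun x => by simp [Ψ]
  have hΨ' : IsCMType Ψ := by
    intro x
    rw [hΨ, hΨ]
    exact orbit_half hodd hX hcc hcg hne P x₀ x
  have hcrit : ∀ Φ : Finset (K →+* ℂ), IsCMType Φ →
      ¬ ℓ ∣ ((Φ : Set (K →+* ℂ)) ∩ Ψ).ncard → HodgeRingGeneratedByDivisors Φ := by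
    intro Φ hΦ hdvd
    intro k' p
    by_contra hcon
    apply hdvd
    obtain ⟨t, hbal, hasym⟩ := exists_tuple hc hΦ hcon
    obtain ⟨f, hf, hf0, -⟩ := lat_ne (G := GG K) hcc hcg hΦ t hbal hasym
    have h1 := dvd_card_inter hodd hk hX hcc hcg hne P hΨ hΦ ⟨f, hf, hf0⟩
    rwa [← coe_inter, Set.ncard_coe_finset]
  refine ⟨Ψ, hΨ', ?_, hcrit, ?_⟩
  · intro F hF hF' φ hφ ψ
    -- elements of the orbit agree on F
    have hag : ∀ φ ∈ Ψ, ∀ x ∈ F, φ x = x₀ x := by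
      intro φ hφ
      obtain ⟨σ, rfl⟩ := (hΨ φ).1 hφ
      refine odd_agree hF ?_ x₀
      obtain ⟨j, hj⟩ := P.isPGroup'.exists_orderOf_eq_pow σ
      have h1 : orderOf (σ : GG K) = ℓ ^ j := by
        rw [← hj]; exact Subgroup.orderOf_coe σ
      rw [h1]
      exact (hℓ.odd_of_ne_two hodd).pow
    constructor
    · intro hψ x hx
      rw [hag ψ hψ x hx, hag φ hφ x hx]
    · intro h
      by_contra hψ
      have h1 : cc ψ ∈ Ψ := by
        by_contra h2; exact hψ ((hΨ' ψ).2 h2)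
      -- then `ψ` is real on `F`
      have h2 : ∀ x ∈ F, (cc ψ) x = ψ x := by
        intro x hx
        rw [hag _ h1 x hx, h x hx, hag φ hφ x hx]
      obtain ⟨x, hx, χ, hχ⟩ := hF'
      obtain ⟨g, rfl⟩ := exists_smul_eq ψ χ
      have h3 := smul_agree h2 g x hx
      rw [hcg] at h3
      apply hχ
      have h4 : (starRingEnd ℂ) ((g • ψ) x) = (g • ψ) x := h3
      exact Complex.conj_eq_iff_im.1 h4
  · have hcardΨ : Ψ.card = ℓ ^ k := by
      have h10 := sum_half hcc hΨ' (fun _ => 1) (fun _ => rfl)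
      simp only [sum_const, card_univ, nsmul_eq_mul, mul_one] at h10
      rw [Nat.card_eq_fintype_card] at hX
      rw [hX] at h10
      push_cast at h10
      have h11 : ((ℓ ^ k : ℕ) : ℤ) = Ψ.card := by push_cast; linarith
      exact_mod_cast h11.symm
    have h1 := card_powerset_dvd Ψ ℓ
    rw [hcardΨ] at h1
    rw [← h1, ← Set.ncard_coe_finset]
    refine Set.ncard_le_ncard_of_injOn (fun Φ : Finset (K →+* ℂ) => Φ ∩ Ψ) ?_ ?_ (Set.toFinite _)
    · rintro Φ ⟨hΦ, hΦ'⟩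
      rw [mem_coe, mem_filter, mem_powerset]
      refine ⟨inter_subset_right, ?_⟩
      by_contra h2
      apply hΦ'
      refine hcrit Φ hΦ ?_
      rwa [← coe_inter, Set.ncard_coe_finset]
    · rintro Φ ⟨hΦ, -⟩ Φ' ⟨hΦ', -⟩ h2
      have h2' : Φ ∩ Ψ = Φ' ∩ Ψ := h2
      ext x
      by_cases hx : x ∈ Ψ
      · have h3 : x ∈ Φ ∩ Ψ ↔ x ∈ Φ' ∩ Ψ := by rw [h2']
        simp only [mem_inter, hx, and_true] at h3
        exact h3
      · have hx' : cc x ∈ Ψ := by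
          by_contra h4; exact hx ((hΨ' x).2 h4)
        have h3 : cc x ∈ Φ ∩ Ψ ↔ cc x ∈ Φ' ∩ Ψ := by rw [h2']
        simp only [mem_inter, hx', and_true] at h3
        rw [hΦ x, hΦ' x]
        exact not_congr h3

end Pool.MP43e44c
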