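import Pool.Agent.H.MP_43e44c_ag.Forms

/-!
Hodge classes whose coefficients are supported on pairable tuples are generated by divisor classes.
-/

set_option autoImplicit false

open NumberField Finset

namespace Pool.MP43e44c

variable {K : Type*} [Field K] [NumberField K] {Φ : Finset (K →+* ℂ)} {k p : ℕ}

/-- Antisymmetrised monomial. -/
noncomputable def altMono (Φ : Finset (K →+* ℂ)) (f : Fin p × Fin 2 → Fin k)
    (h : Fin p × Fin 2 → K →+* ℂ) (v : Fin p × Fin 2 → Fin k → Φ → ℂ) : ℂ :=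
  ∑ σ : Equiv.Perm (Fin p × Fin 2),
    ((Equiv.Perm.sign σ : ℤ) : ℂ) * ∏ l, coord Φ (h l) (v (σ l) (f l))

theorem altMono_perm (f : Fin p × Fin 2 → Fin k) (h : Fin p × Fin 2 → K →+* ℂ)
    (π : Equiv.Perm (Fin p × Fin 2)) (v : Fin p × Fin 2 → Fin k → Φ → ℂ) :
    altMono Φ f h v = ((Equiv.Perm.sign π : ℤ) : ℂ) *
      altMono Φ (fun l => f (π l)) (fun l => h (π l)) v := by
  unfold altMono
  rw [Finset.mul_sum]
  refine Fintype.sum_equiv (Equiv.mulRight π) _ _ fun σ => ?_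
  simp only [Equiv.coe_mulRight, Equiv.Perm.sign_mul]
  have h1 : ∏ l, coord Φ (h l) (v (σ l) (f l))
      = ∏ l, coord Φ (h (π l)) (v ((σ * π) l) (f (π l))) := by
    rw [← Equiv.prod_comp π]
    rfl
  rw [h1]
  have h2 : ((Equiv.Perm.sign π : ℤ) : ℂ) * ((Equiv.Perm.sign π : ℤ) : ℂ) = 1 := by
    rcases Int.units_eq_one_or (Equiv.Perm.sign π) with h | h <;> simp [h]
  rw [Units.val_mul, Int.cast_mul]
  calc ((Equiv.Perm.sign σ : ℤ) : ℂ) * ∏ l, coord Φ (h (π l)) (v ((σ * π) l) (f (π l)))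
      = (((Equiv.Perm.sign π : ℤ) : ℂ) * ((Equiv.Perm.sign π : ℤ) : ℂ)) *
        (((Equiv.Perm.sign σ : ℤ) : ℂ) * ∏ l, coord Φ (h (π l)) (v ((σ * π) l) (f (π l)))) := by
        rw [h2, one_mul]
    _ = _ := by ring

theorem altMono_paired (f : Fin p × Fin 2 → Fin k) (h : Fin p × Fin 2 → K →+* ℂ)
    (hh : ∀ i, h (i, 1) = ComplexEmbedding.conjugate (h (i, 0)))
    (v : Fin p × Fin 2 → Fin k → Φ → ℂ) :
    altMono Φ f h v = altSum (fun i => pairC Φ (f (i, 0)) (f (i, 1)) (h (i, 0))) v := by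
  unfold altMono altSum
  refine Finset.sum_congr rfl fun σ _ => ?_
  congr 1
  rw [Fintype.prod_prod_type]
  refine Finset.prod_congr rfl fun i _ => ?_
  rw [Fin.prod_univ_two, hh]
  rfl

/-- The target of the descent over `ℂ`. -/
def cupsC (Φ : Finset (K →+* ℂ)) (k p : ℕ) : Set ((Fin p × Fin 2 → Fin k → Φ → ℂ) → ℂ) :=
  {F | ∃ θ : Fin p → (Fin k → Φ → ℂ) [⋀^Fin 2]→ₗ[ℝ] ℝ,
        (∀ i, IsHodgeClass (cmLattice Φ k) (θ i)) ∧ F = fun v => (cup θ v : ℂ)}

theorem mem_span_complex (hΦ : IsCMType Φ) {c : K →+* K}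
    (hc : ∀ ψ : K →+* ℂ, ComplexEmbedding.conjugate ψ = ψ.comp c)
    [DecidableEq (K →+* ℂ)] {n : ℕ} {b : Fin n → 𝓞 K} {d : Fin n → K}
    (h2 : ∀ φ ψ : K →+* ℂ, ∑ j, φ (d j) * ψ (b j) = if φ = ψ then 1 else 0)
    (ω : (Fin k → Φ → ℂ) [⋀^Fin p × Fin 2]→ₗ[ℝ] ℝ)
    (hmatch : ∀ f h, coef Φ b d ω.toMultilinearMap f h ≠ 0 →
      ∃ π : Equiv.Perm (Fin p × Fin 2), ∀ i, h (π (i, 1)) = ComplexEmbedding.conjugate (h (π (i, 0)))) :
    (fun v => (ω v : ℂ)) ∈ Submodule.span ℂ (cupsC Φ k p) := by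
  classical
  -- antisymmetrise
  have hcard : (Fintype.card (Equiv.Perm (Fin p × Fin 2)) : ℂ) ≠ 0 := by
    exact_mod_cast Fintype.card_ne_zero
  have h3 : ∀ v, (Fintype.card (Equiv.Perm (Fin p × Fin 2)) : ℂ) * (ω v : ℂ)
      = ∑ f, ∑ h, coef Φ b d ω.toMultilinearMap f h * altMono Φ f h v := by
    intro v
    have h4 : ∀ σ : Equiv.Perm (Fin p × Fin 2), (ω v : ℂ)
        = ((Equiv.Perm.sign σ : ℤ) : ℂ) * ∑ f, ∑ h, coef Φ b d ω.toMultilinearMap f h *
          ∏ l, coord Φ (h l) (v (σ l) (f l)) := by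
      intro σ
      have h5 := expand_coeff hΦ h2 ω.toMultilinearMap (fun l => v (σ l))
      rw [← h5]
      have h6 : ω.toMultilinearMap (fun l => v (σ l)) = Equiv.Perm.sign σ • ω v :=
        ω.map_perm v σ
      rw [h6]
      rcases Int.units_eq_one_or (Equiv.Perm.sign σ) with h | h <;> simp [h]
    have h7 : (Fintype.card (Equiv.Perm (Fin p × Fin 2)) : ℂ) * (ω v : ℂ)
        = ∑ σ : Equiv.Perm (Fin p × Fin 2), (ω v : ℂ) := by
      rw [Finset.sum_const, Finset.card_univ, nsmul_eq_mul]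
    rw [h7, Finset.sum_congr rfl fun σ _ => h4 σ]
    simp only [Finset.mul_sum, altMono]
    rw [Finset.sum_comm]
    refine Finset.sum_congr rfl fun f _ => ?_
    rw [Finset.sum_comm]
    refine Finset.sum_congr rfl fun h _ => ?_
    refine Finset.sum_congr rfl fun σ _ => ?_
    ring
  have h8 : (fun v => (ω v : ℂ)) = (Fintype.card (Equiv.Perm (Fin p × Fin 2)) : ℂ)⁻¹ •
      ∑ f : Fin p × Fin 2 → Fin k, ∑ h : Fin p × Fin 2 → (K →+* ℂ),
        coef Φ b d ω.toMultilinearMap f h • (fun v => altMono Φ f h v) := by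
    funext v
    rw [Pi.smul_apply, Finset.sum_apply, smul_eq_mul]
    simp only [Finset.sum_apply, Pi.smul_apply, smul_eq_mul]
    rw [← h3 v, inv_mul_cancel_left₀ hcard]
  rw [h8]
  refine Submodule.smul_mem _ _ (Submodule.sum_mem _ fun f _ => Submodule.sum_mem _ fun h _ => ?_)
  by_cases hco : coef Φ b d ω.toMultilinearMap f h = 0
  · rw [hco, zero_smul]; exact Submodule.zero_mem _
  · obtain ⟨π, hπ⟩ := hmatch f h hco
    refine Submodule.smul_mem _ _ ?_
    have h9 : (fun v => altMono Φ f h v) = ((Equiv.Perm.sign π : ℤ) : ℂ) •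
        (fun v => altSum (fun i => pairC Φ (f (π (i, 0))) (f (π (i, 1))) (h (π (i, 0)))) v) := by
      funext v
      rw [altMono_perm f h π v, altMono_paired _ _ hπ]
      rfl
    rw [h9]
    exact Submodule.smul_mem _ _ (altSum_pairC_mem hΦ hc _ _ _)

theorem cup_rational (θ : Fin p → (Fin k → Φ → ℂ) [⋀^Fin 2]→ₗ[ℝ] ℝ)
    (hθ : ∀ i, IsHodgeClass (cmLattice Φ k) (θ i)) (v : Fin p × Fin 2 → Fin k → Φ → ℂ)
    (hv : ∀ l, v l ∈ cmLattice Φ k) : ∃ q : ℚ, cup θ v = q := by
  have h1 : ∀ (σ : Equiv.Perm (Fin p × Fin 2)) (i : Fin p),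
      ∃ q : ℚ, θ i ![v (σ (i, 0)), v (σ (i, 1))] = q := by
    intro σ i
    apply (hθ i).rational
    intro l
    fin_cases l
    · exact hv _
    · exact hv _
  choose q hq using h1
  refine ⟨∑ σ : Equiv.Perm (Fin p × Fin 2), ((Equiv.Perm.sign σ : ℤ) : ℚ) * ∏ i, q σ i, ?_⟩
  unfold cup
  push_cast
  refine Finset.sum_congr rfl fun σ _ => ?_
  congr 1
  exact Finset.prod_congr rfl fun i _ => hq σ i

/-- Descent of a complex combination to a rational one. -/
theorem mem_span_rational (hΦ : IsCMType Φ)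
    (ω : (Fin k → Φ → ℂ) [⋀^Fin p × Fin 2]→ₗ[ℝ] ℝ) (hω : IsHodgeClass (cmLattice Φ k) ω)
    (h : (fun v => (ω v : ℂ)) ∈ Submodule.span ℂ (cupsC Φ k p)) :
    (⇑ω : (Fin p × Fin 2 → (Fin k → Φ → ℂ)) → ℝ) ∈ Submodule.span ℚ
      {f | ∃ θ : Fin p → (Fin k → Φ → ℂ) [⋀^Fin 2]→ₗ[ℝ] ℝ,
        (∀ i, IsHodgeClass (cmLattice Φ k) (θ i)) ∧ f = cup θ} := by
  classical
  rw [Submodule.mem_span_set'] at h
  obtain ⟨N, γ, g, hg⟩ := h
  have h1 : ∀ j, ∃ θ : Fin p → (Fin k → Φ → ℂ) [⋀^Fin 2]→ₗ[ℝ] ℝ,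
      (∀ i, IsHodgeClass (cmLattice Φ k) (θ i)) ∧ (g j : _ → ℂ) = fun v => (cup θ v : ℂ) :=
    fun j => (g j).2
  choose θ hθ hgθ using h1
  obtain ⟨π, hπ⟩ := LinearMap.exists_leftInverse_of_injective
    (Algebra.linearMap ℚ ℂ) (LinearMap.ker_eq_bot.2 (algebraMap ℚ ℂ).injective)
  have hπq : ∀ q : ℚ, π (q : ℂ) = q := by
    intro q
    have := LinearMap.congr_fun hπ q
    simpa using this
  have hexp : ∀ v, (ω v : ℂ) = ∑ j, γ j * (cup (θ j) v : ℂ) := by
    intro v
    have := congrFun hg v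
    rw [Finset.sum_apply] at this
    rw [← this]
    refine Finset.sum_congr rfl fun j _ => ?_
    rw [Pi.smul_apply, hgθ, smul_eq_mul]
  -- the rational combination
  let m' : MultilinearMap ℝ (fun _ : Fin p × Fin 2 => (Fin k → Φ → ℂ)) ℝ :=
    ∑ j, ((π (γ j) : ℚ) : ℝ) • cupM (θ j)
  have hm' : ∀ v, m' v = ∑ j, ((π (γ j) : ℚ) : ℝ) * cup (θ j) v := by
    intro v
    simp only [m']
    rw [_root_.sum_apply]
    refine Finset.sum_congr rfl fun j _ => ?_
    rw [_root_.smul_apply, cupM_apply, smul_eq_mul]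
  have heq : ∀ v, ω.toMultilinearMap v = m' v := by
    refine eq_of_eq_on_lattice hΦ _ _ fun v hv => ?_
    obtain ⟨q, hq⟩ := hω.rational v hv
    have h3 : ∀ j, ∃ r : ℚ, cup (θ j) v = r := fun j => cup_rational (θ j) (hθ j) v hv
    choose r hr using h3
    have h4 := hexp v
    rw [hq] at h4
    simp only [hr] at h4
    have h5 : q = ∑ j, π (γ j) * r j := by
      have h6 := congrArg π h4
      rw [map_sum] at h6
      have h7 : π (((q : ℝ)) : ℂ) = q := by
        have : (((q : ℝ)) : ℂ) = (q : ℂ) := by norm_cast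
        rw [this, hπq]
      rw [h7] at h6
      rw [h6]
      refine Finset.sum_congr rfl fun j _ => ?_
      have h8 : γ j * (((r j : ℝ)) : ℂ) = (r j) • γ j := by
        rw [Rat.smul_def, mul_comm]; norm_cast
      rw [h8, map_smul, smul_eq_mul, mul_comm]
    rw [hm']
    show ω v = _
    rw [hq, h5]
    push_cast
    exact Finset.sum_congr rfl fun j _ => by rw [hr]
  have hfin : (⇑ω : (Fin p × Fin 2 → (Fin k → Φ → ℂ)) → ℝ)
      = ∑ j, (π (γ j)) • cup (θ j) := by
    funext v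
    have h9 := heq v
    rw [hm'] at h9
    rw [Finset.sum_apply]
    refine Eq.trans h9 ?_
    refine Finset.sum_congr rfl fun j _ => ?_
    rw [Pi.smul_apply, Rat.smul_def]
  rw [hfin]
  exact Submodule.sum_mem _ fun j _ => Submodule.smul_mem _ _
    (Submodule.subset_span ⟨θ j, hθ j, rfl⟩)

/-- Pairing of a tuple of embeddings with symmetric multiplicities. -/
theorem exists_pairing (hΦ : IsCMType Φ) [DecidableEq (K →+* ℂ)] (h : Fin p × Fin 2 → K →+* ℂ)
    (hsym : ∀ φ : K →+* ℂ, (univ.filter fun l => h l = φ).card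
      = (univ.filter fun l => h l = ComplexEmbedding.conjugate φ).card) :
    ∃ π : Equiv.Perm (Fin p × Fin 2), ∀ i,
      h (π (i, 1)) = ComplexEmbedding.conjugate (h (π (i, 0))) := by
  classical
  let S := {l : Fin p × Fin 2 // h l ∈ Φ}
  let T := {l : Fin p × Fin 2 // ¬ h l ∈ Φ}
  -- the matching
  have hfib : ∀ φ : K →+* ℂ, Nonempty ({s : S // h s.1 = φ} ≃
      {t : T // ComplexEmbedding.conjugate (h t.1) = φ}) := by
    intro φ
    by_cases hφ : φ ∈ Φ
    · have e1 : {s : S // h s.1 = φ} ≃ {l : Fin p × Fin 2 // h l = φ} :=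
        { toFun := fun s => ⟨s.1.1, s.2⟩
          invFun := fun l => ⟨⟨l.1, by rw [l.2]; exact hφ⟩, l.2⟩
          left_inv := fun s => rfl
          right_inv := fun l => rfl }
      have e2 : {t : T // ComplexEmbedding.conjugate (h t.1) = φ} ≃
          {l : Fin p × Fin 2 // h l = ComplexEmbedding.conjugate φ} :=
        { toFun := fun t => ⟨t.1.1, by
            have h5 := congrArg ComplexEmbedding.conjugate t.2
            rwa [conj_conj] at h5⟩
          invFun := fun l => ⟨⟨l.1, by rw [l.2]; exact (hΦ φ).1 hφ⟩, by rw [l.2, conj_conj]⟩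
          left_inv := fun s => rfl
          right_inv := fun l => rfl }
      have e3 : Fintype.card {l : Fin p × Fin 2 // h l = φ}
          = Fintype.card {l : Fin p × Fin 2 // h l = ComplexEmbedding.conjugate φ} := by
        rw [Fintype.card_subtype, Fintype.card_subtype]
        exact hsym φ
      exact ⟨e1.trans ((Fintype.equivOfCardEq e3).trans e2.symm)⟩
    · have h1 : IsEmpty {s : S // h s.1 = φ} := ⟨fun s => hφ (by rw [← s.2]; exact s.1.2)⟩
      have h2 : IsEmpty {t : T // ComplexEmbedding.conjugate (h t.1) = φ} := by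
        refine ⟨fun t => ?_⟩
        have h3 : ComplexEmbedding.conjugate φ ∈ Φ := by
          by_contra h4; exact hφ ((hΦ φ).2 h4)
        apply t.1.2
        have h5 := congrArg ComplexEmbedding.conjugate t.2
        rw [conj_conj] at h5
        rw [h5]; exact h3
      exact ⟨Equiv.equivOfIsEmpty _ _⟩
  let e : S ≃ T := Equiv.ofFiberEquiv (f := fun s : S => h s.1)
    (g := fun t : T => ComplexEmbedding.conjugate (h t.1)) fun φ => (hfib φ).some
  have he : ∀ s : S, ComplexEmbedding.conjugate (h (e s).1) = h s.1 := fun s =>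
    Equiv.ofFiberEquiv_map (f := fun s : S => h s.1)
      (g := fun t : T => ComplexEmbedding.conjugate (h t.1)) (fun φ => (hfib φ).some) s
  -- cardinalities
  have hST : Fintype.card S = Fintype.card T := Fintype.card_congr e
  have hsum : Fintype.card S + Fintype.card T = Fintype.card (Fin p × Fin 2) := by
    rw [← Fintype.card_sum]
    exact Fintype.card_congr (Equiv.sumCompl fun l : Fin p × Fin 2 => h l ∈ Φ)
  have hS : Fintype.card S = p := by
    rw [← hST, Fintype.card_prod, Fintype.card_fin, Fintype.card_fin] at hsum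
    omega
  let e₀ : Fin p ≃ S := (Fintype.equivFinOfCardEq hS).symm
  let F : Fin p × Fin 2 → Fin p × Fin 2 := fun x =>
    if x.2 = 0 then (e₀ x.1).1 else (e (e₀ x.1)).1
  have hF : Function.Injective F := by
    rintro ⟨i, t⟩ ⟨i', t'⟩ hxy
    simp only [F] at hxy
    split_ifs at hxy with h1 h2 h2
    · have := e₀.injective (Subtype.ext hxy)
      rw [this, h1, h2]
    · exfalso
      have h3 := (e₀ i).2
      rw [hxy] at h3
      exact (e (e₀ i')).2 h3
    · exfalso
      have h3 := (e₀ i').2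
      rw [← hxy] at h3
      exact (e (e₀ i)).2 h3
    · have := e₀.injective (e.injective (Subtype.ext hxy))
      have ht : t = t' := by omega
      rw [this, ht]
  refine ⟨Equiv.ofBijective F (Finite.injective_iff_bijective.1 hF), fun i => ?_⟩
  show h (F (i, 1)) = ComplexEmbedding.conjugate (h (F (i, 0)))
  simp only [F, if_true]
  rw [if_neg (by simp)]
  have h5 := congrArg ComplexEmbedding.conjugate (he (e₀ i))
  rwa [conj_conj] at h5

end Pool.MP43e44c
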