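import Pool.Agent.H.MP_43e44c_ag.Gal

/-!
The exceptional subfields and the union bound.
-/

set_option autoImplicit false

open NumberField Finset Module

open scoped IsMulCommutative

namespace Pool.MP43e44c

/-- The cyclic imaginary subfields `F` of the number field `K`, except those of degree a power of
two for which `[K : F]` is odd. -/
def exceptionalSubfields (K : Type*) [Field K] [NumberField K] : Set (IntermediateField ℚ K) :=
  {F | IsCyclic (F ≃ₐ[ℚ] F) ∧ (∃ x ∈ F, ∃ φ : K →+* ℂ, (φ x).im ≠ 0) ∧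
    ¬ (Odd (finrank F K) ∧ ∃ a : ℕ, finrank ℚ F = 2 ^ a)}

variable {K : Type*} [Field K] [NumberField K] [IsAbelianGalois ℚ K]

theorem finite_intermediateField : Finite (IntermediateField ℚ K) :=
  Finite.of_equiv _ (IsGalois.intermediateFieldEquivSubgroup (F := ℚ) (E := K)).toEquiv.symm

theorem index_eq (F : IntermediateField ℚ K) : F.fixingSubgroup.index = finrank ℚ F := by
  have h1 := Subgroup.card_mul_index F.fixingSubgroup
  rw [IsGalois.card_fixingSubgroup_eq_finrank, IsGalois.card_aut_eq_finrank,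
    ← Module.finrank_mul_finrank ℚ F K, mul_comm (finrank ℚ F)] at h1
  exact Nat.eq_of_mul_eq_mul_left finrank_pos h1

open Classical in
/-- The union bound over the exceptional subfields. -/
theorem card_exceptional_le {c : K ≃ₐ[ℚ] K} (hc2 : c * c = 1) {φ : K →+* ℂ}
    (hc : ∀ g, ComplexEmbedding.conjugate (tw φ g) = tw φ (g * c))
    (hc' : ∀ ψ : K →+* ℂ, ComplexEmbedding.conjugate ψ = ψ.comp (c : K →+* K))
    (S : Finset (IntermediateField ℚ K)) (hS : ∀ F, F ∈ exceptionalSubfields K → F ∈ S)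
    (hS' : ∀ F ∈ S, F ∈ exceptionalSubfields K) :
    ((univ.filter fun A : Finset (K ≃ₐ[ℚ] K) => IsHalf c A ∧
        ∃ χ : (K ≃ₐ[ℚ] K) →* ℂˣ, χ c = -1 ∧ ∑ g, (sgn A g : ℂ) * (χ g : ℂ) = 0).card : ℝ)
      ≤ (∑ F ∈ S, maxProb (finrank F K) ^ Nat.totient (finrank ℚ F)) *
        ((univ.filter fun A : Finset (K ≃ₐ[ℚ] K) => IsHalf c A).card : ℝ) := by
  have hsub : (univ.filter fun A : Finset (K ≃ₐ[ℚ] K) => IsHalf c A ∧
        ∃ χ : (K ≃ₐ[ℚ] K) →* ℂˣ, χ c = -1 ∧ ∑ g, (sgn A g : ℂ) * (χ g : ℂ) = 0) ⊆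
      S.biUnion fun F => univ.filter fun A : Finset (K ≃ₐ[ℚ] K) => IsHalf c A ∧
        ∃ χ : (K ≃ₐ[ℚ] K) →* ℂˣ, χ.ker = F.fixingSubgroup ∧
          ∑ g, (sgn A g : ℂ) * (χ g : ℂ) = 0 := by
    intro A hA
    obtain ⟨hA1, χ, hχc, hχ0⟩ := (mem_filter.1 hA).2
    rw [mem_biUnion]
    have hcN : c ∉ χ.ker := by
      intro h1
      have h2 : χ c = 1 := h1
      rw [h2] at hχc
      have h3 := congrArg Units.val hχc
      norm_num at h3
    have hcyc : IsCyclic ((K ≃ₐ[ℚ] K) ⧸ χ.ker) := by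
      refine isCyclic_of_injective_ringHom
        (f := (Units.coeHom ℂ).comp (QuotientGroup.kerLift χ)) ?_
      exact Units.val_injective.comp (QuotientGroup.kerLift_injective χ)
    refine ⟨IntermediateField.fixedField χ.ker, hS _ ⟨?_, ?_, ?_⟩, ?_⟩
    · exact isCyclic_of_surjective (IsGalois.normalAutEquivQuotient χ.ker)
        (IsGalois.normalAutEquivQuotient χ.ker).surjective
    · by_contra hcon
      push Not at hcon
      apply hcN
      rw [← IntermediateField.fixingSubgroup_fixedField χ.ker]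
      rw [IntermediateField.mem_fixingSubgroup_iff]
      intro x hx
      apply φ.injective
      have h1 := hcon x hx φ
      have h2 : φ (c x) = (ComplexEmbedding.conjugate φ) x := by rw [hc' φ]; rfl
      rw [h2]
      exact Complex.conj_eq_iff_im.2 h1
    · rintro ⟨hodd, a, ha⟩
      refine not_bad (N := χ.ker) hc2 hcN (a := a) ?_ ?_ hA1 rfl hχ0
      · rwa [IntermediateField.finrank_fixedField_eq_card] at hodd
      · rw [← ha, ← index_eq, IntermediateField.fixingSubgroup_fixedField]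
    · rw [mem_filter]
      refine ⟨mem_univ _, hA1, χ, ?_, hχ0⟩
      rw [IntermediateField.fixingSubgroup_fixedField]
  have h1 : ((univ.filter fun A : Finset (K ≃ₐ[ℚ] K) => IsHalf c A ∧
        ∃ χ : (K ≃ₐ[ℚ] K) →* ℂˣ, χ c = -1 ∧ ∑ g, (sgn A g : ℂ) * (χ g : ℂ) = 0).card : ℝ)
      ≤ ∑ F ∈ S, ((univ.filter fun A : Finset (K ≃ₐ[ℚ] K) => IsHalf c A ∧
        ∃ χ : (K ≃ₐ[ℚ] K) →* ℂˣ, χ.ker = F.fixingSubgroup ∧
          ∑ g, (sgn A g : ℂ) * (χ g : ℂ) = 0).card : ℝ) := by
    exact_mod_cast (card_le_card hsub).trans card_biUnion_le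
  refine h1.trans ?_
  rw [sum_mul]
  refine sum_le_sum fun F hF => ?_
  obtain ⟨N, rfl⟩ : ∃ N : Subgroup (K ≃ₐ[ℚ] K), IntermediateField.fixedField N = F :=
    ⟨F.fixingSubgroup, IsGalois.fixedField_fixingSubgroup F⟩
  obtain ⟨hF1, ⟨x, hx, ψ, hψ⟩, -⟩ := hS' _ hF
  have hcyc : IsCyclic ((K ≃ₐ[ℚ] K) ⧸ N) :=
    (MulEquiv.isCyclic (IsGalois.normalAutEquivQuotient N)).2 hF1
  have hcN : c ∉ N := by
    intro h2
    rw [← IntermediateField.fixingSubgroup_fixedField N,
      IntermediateField.mem_fixingSubgroup_iff] at h2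
    apply hψ
    rw [← Complex.conj_eq_iff_im]
    have h3 : ψ (c x) = (ComplexEmbedding.conjugate ψ) x := by rw [hc' ψ]; rfl
    have h4 : c x = x := h2 x hx
    rw [h4] at h3
    exact h3.symm
  have h5 := card_bad_le hc2 N hcN
  rw [← index_eq, IntermediateField.fixingSubgroup_fixedField,
    IntermediateField.finrank_fixedField_eq_card]
  exact h5

/-- The main bound: the number of CM types whose Hodge rings are not generated by divisors. -/
theorem main_bound (K : Type*) [Field K] [NumberField K] [IsAbelianGalois ℚ K] :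
    ({Φ : Finset (K →+* ℂ) | IsCMType Φ ∧ ¬ HodgeRingGeneratedByDivisors Φ}.ncard : ℝ)
      ≤ (∑ᶠ F ∈ exceptionalSubfields K, maxProb (finrank F K) ^ Nat.totient (finrank ℚ F)) *
        ({Φ : Finset (K →+* ℂ) | IsCMType Φ}.ncard : ℝ) := by
  classical
  obtain ⟨φ⟩ : Nonempty (K →+* ℂ) := inferInstance
  obtain ⟨c, hc2, hc, hc'⟩ := exists_c φ
  have := finite_intermediateField (K := K)
  have hfin : (exceptionalSubfields K).Finite := Set.toFinite _
  rw [finsum_mem_eq_finite_toFinset_sum _ hfin]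
  have hinj : Function.Injective (halfOf φ) := by
    intro Φ Ψ h
    ext ψ
    obtain ⟨g, rfl⟩ := (tw_bijective φ).2 ψ
    rw [← mem_halfOf, ← mem_halfOf, h]
  have hmain := card_exceptional_le hc2 hc hc' hfin.toFinset (fun F hF => by simpa using hF)
    (fun F hF => by simpa using hF)
  have h1 : {Φ : Finset (K →+* ℂ) | IsCMType Φ ∧ ¬ HodgeRingGeneratedByDivisors Φ}.ncard
      ≤ (univ.filter fun A : Finset (K ≃ₐ[ℚ] K) => IsHalf c A ∧
        ∃ χ : (K ≃ₐ[ℚ] K) →* ℂˣ, χ c = -1 ∧ ∑ g, (sgn A g : ℂ) * (χ g : ℂ) = 0).card := by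
    rw [← Set.ncard_coe_finset]
    refine Set.ncard_le_ncard_of_injOn (halfOf φ) ?_ hinj.injOn (Set.toFinite _)
    rintro Φ ⟨hΦ, hΦ'⟩
    rw [mem_coe, mem_filter]
    refine ⟨mem_univ _, (isHalf_iff hc Φ).2 hΦ, ?_⟩
    obtain ⟨M, hM, g₀, hg₀⟩ := degenerate_of_not_generated hc hc' hΦ hΦ'
    exact exists_char hc2 ((isHalf_iff hc Φ).2 hΦ) M hM hg₀
  have h2 : (univ.filter fun A : Finset (K ≃ₐ[ℚ] K) => IsHalf c A).card
      ≤ {Φ : Finset (K →+* ℂ) | IsCMType Φ}.ncard := by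
    rw [← Set.ncard_coe_finset]
    refine Set.ncard_le_ncard_of_injOn (fun A => univ.filter fun ψ => ∃ g ∈ A, tw φ g = ψ)
      ?_ ?_ (Set.toFinite _)
    · intro A hA
      have hA' := (mem_filter.1 (mem_coe.1 hA)).2
      show IsCMType _
      rw [← isHalf_iff hc]
      have : halfOf φ (univ.filter fun ψ => ∃ g ∈ A, tw φ g = ψ) = A := by
        ext g
        rw [mem_halfOf, mem_filter]
        constructor
        · rintro ⟨-, g', hg', h⟩
          rwa [← (tw_bijective φ).1 h]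
        · intro h
          exact ⟨mem_univ _, g, h, rfl⟩
      rwa [this]
    · intro A _ B _ h
      simp only at h
      ext g
      have h3 : (tw φ g ∈ univ.filter fun ψ => ∃ g ∈ A, tw φ g = ψ) ↔
          (tw φ g ∈ univ.filter fun ψ => ∃ g ∈ B, tw φ g = ψ) := by rw [h]
      simp only [mem_filter, mem_univ, true_and] at h3
      constructor
      · intro hg
        obtain ⟨g', hg', h4⟩ := h3.1 ⟨g, hg, rfl⟩
        rwa [← (tw_bijective φ).1 h4]
      · intro hg
        obtain ⟨g', hg', h4⟩ := h3.2 ⟨g, hg, rfl⟩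
        rwa [← (tw_bijective φ).1 h4]
  have h3 : (0 : ℝ) ≤ ∑ F ∈ hfin.toFinset, maxProb (finrank F K) ^ Nat.totient (finrank ℚ F) :=
    sum_nonneg fun F _ => pow_nonneg (by unfold maxProb; positivity) _
  calc (({Φ : Finset (K →+* ℂ) | IsCMType Φ ∧ ¬ HodgeRingGeneratedByDivisors Φ}.ncard : ℝ))
      ≤ _ := by exact_mod_cast h1
    _ ≤ _ := hmain
    _ ≤ _ := mul_le_mul_of_nonneg_left (by exact_mod_cast h2) h3

end Pool.MP43e44c
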