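import Pool.Agent.H.MP_43e44c_ag.MinSub

/-!
Counting the functions satisfying the translation relations attached to an invariant space of
functions supported on a block.
-/

set_option autoImplicit false

open Finset Module

namespace Pool.MP43e44c

section WCount

variable {G P Q : Type*} [Group G] [MulAction G P] [MulAction G Q] [Fintype P] [Fintype Q]

/-- The relations. -/
def relSub (G : Type*) {P : Type*} [Group G] [MulAction G P] [Fintype P]
    (U : Submodule (ZMod 2) (P → ZMod 2)) : Submodule (ZMod 2) (P → ZMod 2) where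
  carrier := {w | ∀ m ∈ U, ∀ g : G, ∑ p, m p * (w p + w (g • p)) = 0}
  zero_mem' := fun m _ g => by simp
  add_mem' := by
    intro w w' h h' m hm g
    have h1 := h m hm g
    have h2 := h' m hm g
    have h3 : ∀ p, m p * ((w + w') p + (w + w') (g • p))
        = m p * (w p + w (g • p)) + m p * (w' p + w' (g • p)) := fun p => by
      rw [Pi.add_apply, Pi.add_apply]; ring
    rw [sum_congr rfl fun p _ => h3 p, sum_add_distrib, h1, h2, add_zero]
  smul_mem' := by
    intro r w h m hm g
    have h1 := h m hm g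
    have h3 : ∀ p, m p * ((r • w) p + (r • w) (g • p)) = r * (m p * (w p + w (g • p))) :=
      fun p => by
        rw [Pi.smul_apply, Pi.smul_apply, smul_eq_mul, smul_eq_mul]; ring
    rw [sum_congr rfl fun p _ => h3 p, ← mul_sum, h1, mul_zero]

/-- Pairing with the translates. -/
noncomputable def tmap (U : Submodule (ZMod 2) (P → ZMod 2)) (γ : Q → G) :
    (P → ZMod 2) →ₗ[ZMod 2] (Q → Module.Dual (ZMod 2) U) where
  toFun w q :=
    { toFun := fun m => ∑ p, (m : P → ZMod 2) p * w (γ q • p)
      map_add' := fun m m' => by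
        rw [← sum_add_distrib]
        exact sum_congr rfl fun p _ => by rw [Submodule.coe_add, Pi.add_apply]; ring
      map_smul' := fun r m => by
        rw [RingHom.id_apply, smul_eq_mul, mul_sum]
        exact sum_congr rfl fun p _ => by
          rw [Submodule.coe_smul, Pi.smul_apply, smul_eq_mul]; ring }
  map_add' w w' := by
    funext q
    ext m
    show ∑ p, (m : P → ZMod 2) p * (w + w') (γ q • p)
      = (∑ p, (m : P → ZMod 2) p * w (γ q • p)) + ∑ p, (m : P → ZMod 2) p * w' (γ q • p)
    rw [← sum_add_distrib]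
    exact sum_congr rfl fun p _ => by rw [Pi.add_apply]; ring
  map_smul' r w := by
    funext q
    ext m
    show ∑ p, (m : P → ZMod 2) p * (r • w) (γ q • p)
      = r * ∑ p, (m : P → ZMod 2) p * w (γ q • p)
    rw [mul_sum]
    exact sum_congr rfl fun p _ => by rw [Pi.smul_apply, smul_eq_mul]; ring

theorem tmap_apply (U : Submodule (ZMod 2) (P → ZMod 2)) (γ : Q → G) (w : P → ZMod 2) (q : Q)
    (m : U) : tmap U γ w q m = ∑ p, (m : P → ZMod 2) p * w (γ q • p) := rfl

/-- The pairing map is onto. -/
theorem tmap_surjective {κ : P → Q} (hκ : ∀ (g : G) p, κ (g • p) = g • κ p) {q₀ : Q}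
    {γ : Q → G} (hγ : ∀ q, γ q • q₀ = q) {U : Submodule (ZMod 2) (P → ZMod 2)}
    (hsupp : ∀ m ∈ U, ∀ p, κ p ≠ q₀ → m p = 0) : Function.Surjective (tmap U γ) := by
  classical
  intro lam
  have h1 : ∀ q, ∃ y : P → ZMod 2, ∀ m : U, lam q m = ∑ p, (m : P → ZMod 2) p * y p := by
    intro q
    obtain ⟨φ, hφ⟩ := LinearMap.exists_extend (lam q)
    refine ⟨fun p => φ (Pi.single p 1), fun m => ?_⟩
    have h2 : lam q m = φ (m : P → ZMod 2) := by
      rw [← hφ]; rfl
    rw [h2]
    have h3 : (m : P → ZMod 2) = ∑ p, (m : P → ZMod 2) p • (Pi.single p (1 : ZMod 2) : P → ZMod 2) := by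
      funext x
      rw [Finset.sum_apply]
      simp [Pi.single_apply]
    conv_lhs => rw [h3]
    rw [map_sum]
    exact sum_congr rfl fun p _ => by rw [map_smul, smul_eq_mul]
  choose y hy using h1
  refine ⟨fun x => y (κ x) ((γ (κ x))⁻¹ • x), ?_⟩
  funext q
  ext m
  rw [tmap_apply, hy]
  refine sum_congr rfl fun p _ => ?_
  by_cases h : κ p = q₀
  · have h2 : κ (γ q • p) = q := by rw [hκ, h, hγ]
    simp only [h2, inv_smul_smul]
  · rw [hsupp m m.2 p h, zero_mul, zero_mul]

theorem finrank_ker_tmap {κ : P → Q} (hκ : ∀ (g : G) p, κ (g • p) = g • κ p) {q₀ : Q}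
    {γ : Q → G} (hγ : ∀ q, γ q • q₀ = q) {U : Submodule (ZMod 2) (P → ZMod 2)}
    (hsupp : ∀ m ∈ U, ∀ p, κ p ≠ q₀ → m p = 0) :
    finrank (ZMod 2) (LinearMap.ker (tmap U γ)) + Fintype.card Q * finrank (ZMod 2) U
      = Fintype.card P := by
  have h1 := LinearMap.finrank_range_add_finrank_ker (tmap U γ)
  rw [LinearMap.range_eq_top.2 (tmap_surjective hκ hγ hsupp), finrank_top,
    Module.finrank_pi_fintype, sum_const, card_univ, Subspace.dual_finrank_eq,
    Module.finrank_pi, smul_eq_mul] at h1
  omega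

theorem relSub_tmap {γ : Q → G} {U : Submodule (ZMod 2) (P → ZMod 2)} {w : P → ZMod 2} (hw : w ∈ relSub G U)
    (q : Q) (m : U) : tmap U γ w q m = ∑ p, (m : P → ZMod 2) p * w p := by
  have h1 := hw m m.2 (γ q)
  simp only [mul_add, sum_add_distrib] at h1
  rw [tmap_apply]
  have h2 : ∀ a b : ZMod 2, a + b = 0 → b = a := by decide
  exact h2 _ _ h1

/-- General bound for the relations. -/
theorem finrank_relSub_le {κ : P → Q} (hκ : ∀ (g : G) p, κ (g • p) = g • κ p) {q₀ : Q}
    {γ : Q → G} (hγ : ∀ q, γ q • q₀ = q) {U : Submodule (ZMod 2) (P → ZMod 2)}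
    (hsupp : ∀ m ∈ U, ∀ p, κ p ≠ q₀ → m p = 0) :
    finrank (ZMod 2) (relSub G U) + Fintype.card Q * finrank (ZMod 2) U
      ≤ Fintype.card P + finrank (ZMod 2) U := by
  classical
  let R : relSub G U →ₗ[ZMod 2] Module.Dual (ZMod 2) U :=
    (LinearMap.proj q₀).comp ((tmap U γ).comp (relSub G U).subtype)
  have h1 := LinearMap.finrank_range_add_finrank_ker R
  have h2 : finrank (ZMod 2) (LinearMap.range R) ≤ finrank (ZMod 2) U := by
    rw [← Subspace.dual_finrank_eq (K := ZMod 2) (V := U)]
    exact Submodule.finrank_le _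
  have h3 : finrank (ZMod 2) (LinearMap.ker R) ≤ finrank (ZMod 2) (LinearMap.ker (tmap U γ)) := by
    have h4 : (LinearMap.ker R).map (relSub G U).subtype ≤ LinearMap.ker (tmap U γ) := by
      rintro _ ⟨w, hw, rfl⟩
      rw [LinearMap.mem_ker]
      funext q
      ext m
      have h5 : tmap U γ w q₀ = 0 := LinearMap.mem_ker.1 hw
      have h6 := LinearMap.congr_fun h5 m
      rw [relSub_tmap w.2] at h6
      show tmap U γ w q m = 0
      rw [relSub_tmap w.2, h6]
      rfl
    have h5 := Submodule.finrank_mono h4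
    rwa [LinearEquiv.finrank_eq (Submodule.equivMapOfInjective _
      (Submodule.subtype_injective _) (LinearMap.ker R)).symm] at h5
  have h4 := finrank_ker_tmap hκ hγ hsupp
  omega

/-- The bound for the relations of a minimal space of dimension at least two. -/
theorem finrank_relSub_le' {κ : P → Q} (hκ : ∀ (g : G) p, κ (g • p) = g • κ p) {q₀ : Q}
    {γ : Q → G} (hγ : ∀ q, γ q • q₀ = q) {U : Submodule (ZMod 2) (P → ZMod 2)}
    (hsupp : ∀ m ∈ U, ∀ p, κ p ≠ q₀ → m p = 0)
    (hmin : IsMinSub (MulAction.stabilizer G q₀) U) (hd : 2 ≤ finrank (ZMod 2) U) :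
    finrank (ZMod 2) (relSub G U) + Fintype.card Q * finrank (ZMod 2) U
      ≤ Fintype.card P := by
  classical
  have h0 : relSub G U ≤ LinearMap.ker (tmap U γ) := by
    intro w hw
    rw [LinearMap.mem_ker]
    -- the functional
    let L : U →ₗ[ZMod 2] ZMod 2 := tmap U (fun _ : Unit => (1 : G)) w ()
    have hL : ∀ m : U, L m = ∑ p, (m : P → ZMod 2) p * w p := by
      intro m
      show ∑ p, (m : P → ZMod 2) p * w ((1 : G) • p) = _
      simp only [one_smul]
    let Z : Submodule (ZMod 2) (P → ZMod 2) := (LinearMap.ker L).map U.subtype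
    have hZ : InvSub (MulAction.stabilizer G q₀) Z := by
      rintro h _ ⟨m, hm, rfl⟩
      refine ⟨⟨_, hmin.1 h m m.2⟩, ?_, rfl⟩
      have hm' := LinearMap.mem_ker.1 hm
      show L _ = 0
      rw [hL] at hm' ⊢
      have h1 := hw m m.2 ((h⁻¹ : MulAction.stabilizer G q₀) : G)
      simp only [mul_add, sum_add_distrib] at h1
      rw [hm', zero_add] at h1
      rw [← h1]
      refine Fintype.sum_equiv (MulAction.toPerm (h : G)) _ _ fun p => ?_
      rw [MulAction.toPerm_apply]
      show (m : P → ZMod 2) ((h : G) • p) * w p = (m : P → ZMod 2) ((h : G) • p) *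
        w (((h⁻¹ : MulAction.stabilizer G q₀) : G) • (h : G) • p)
      rw [Subgroup.coe_inv, inv_smul_smul]
    have hZU : Z ≤ U := by
      rintro _ ⟨m, -, rfl⟩
      exact m.2
    have hker : LinearMap.ker L = ⊤ := by
      rcases hmin.2.2 Z hZ hZU with h1 | h1
      · exfalso
        have h2 : LinearMap.ker L = ⊥ := by
          rw [Submodule.eq_bot_iff]
          intro m hm
          have h3 : (m : P → ZMod 2) ∈ Z := ⟨m, hm, rfl⟩
          rw [h1, Submodule.mem_bot] at h3
          exact Subtype.ext h3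
        have h3 := LinearMap.finrank_range_add_finrank_ker L
        rw [h2, finrank_bot, add_zero] at h3
        have h4 := Submodule.finrank_le (LinearMap.range L)
        rw [Module.finrank_self] at h4
        omega
      · rw [Submodule.eq_top_iff']
        intro m
        have h2 : (m : P → ZMod 2) ∈ Z := by rw [h1]; exact m.2
        obtain ⟨m', hm', hmm⟩ := h2
        have h3 : m' = m := Subtype.ext hmm
        rw [← h3]
        exact hm'
    funext q
    ext m
    rw [relSub_tmap hw, ← hL m]
    have h1 : m ∈ LinearMap.ker L := by rw [hker]; exact Submodule.mem_top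
    exact LinearMap.mem_ker.1 h1
  have h1 := Submodule.finrank_mono h0
  have h2 := finrank_ker_tmap hκ hγ hsupp
  omega

end WCount

end Pool.MP43e44c
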